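import Pool.Agent.SYH.Defs

/-!
# Circuits with arbitrary multiset gates, and their symmetries
-/

set_option autoImplicit false

namespace Pool.Agent.SYH

/-- A circuit with the input atoms `ι`, the gates `G`, the ports `P` and the values `T`. -/
structure Circuit (ι G P T : Type) where
  /-- the input atom read by a gate, if any -/
  atom : G → Option ι
  /-- the wires `(p, h)` entering a gate: from the gate `h`, at the port `p` -/
  wires : G → Finset (P × G)
  /-- the value of a gate: an arbitrary function of the truth of the atom and of the multiset of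
  the pairs of a port and a value that arrives there -/
  fn : G → Prop → Multiset (P × T) → T
  /-- the level of a gate -/
  level : G → ℕ
  level_lt : ∀ g p h, (p, h) ∈ wires g → level h < level g
  /-- the output gate -/
  out : G

namespace Circuit

variable {ι G P T : Type}

/-- `v` is the vector of the values of the gates if `x` is the set of the true atoms. -/
def IsRun (C : Circuit ι G P T) (x : ι → Prop) (v : G → T) : Prop :=
  ∀ g, v g = C.fn g (∃ a ∈ C.atom g, x a) ((C.wires g).val.map fun w => (w.1, v w.2))

/-- The permutation `e` of the atoms and the permutation `τ` of the gates form an automorphism. -/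
def IsAut (C : Circuit ι G P T) (e : Equiv.Perm ι) (τ : Equiv.Perm G) : Prop :=
  τ C.out = C.out ∧ (∀ g, C.atom (τ g) = (C.atom g).map e) ∧ (∀ g, C.fn (τ g) = C.fn g) ∧
    ∀ g p h, (p, τ h) ∈ C.wires (τ g) ↔ (p, h) ∈ C.wires g

end Circuit

/-- The atoms of structures on `V`. -/
abbrev Atom {σ : Type} (ar : σ → ℕ) (V : Type) : Type := (R : σ) × (Fin (ar R) → V)

/-- The action of a permutation of the elements on the atoms. -/
def atomPerm {σ : Type} (ar : σ → ℕ) {V : Type} (ρ : Equiv.Perm V) : Equiv.Perm (Atom ar V) where
  toFun a := ⟨a.1, ρ ∘ a.2⟩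
  invFun a := ⟨a.1, ρ.symm ∘ a.2⟩
  left_inv a := by
    rcases a with ⟨R, u⟩
    simp [← Function.comp_assoc]
  right_inv a := by
    rcases a with ⟨R, u⟩
    simp [← Function.comp_assoc]

/-- The set of the atoms that hold in the structure `I`. -/
def holds {σ : Type} {ar : σ → ℕ} {V : Type} (I : Str ar V) (a : Atom ar V) : Prop := I a.1 a.2

section
variable {σ : Type} {ar : σ → ℕ} {V D G P T : Type}

/-- The permutation `ρ` of the elements is a symmetry of the circuit. -/
def IsSymm (C : Circuit (Atom ar V) G P T) (ρ : Equiv.Perm V) : Prop :=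
  ∃ τ, C.IsAut (atomPerm ar ρ) τ

/-- The output of the circuit determines the number of homomorphisms from the input to `Γ`. -/
def Computes (C : Circuit (Atom ar V) G P T) (Γ : Str ar D) : Prop :=
  ∃ dec : T → ℕ, ∀ I : Str ar V, ∃ v, C.IsRun (holds I) v ∧ dec (v C.out) = homs Γ I

end

end Pool.Agent.SYH
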