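import Pool.Agent.SYH.StB
import Pool.Agent.SYH.Circ

/-!
# Statements: balanced templates with and without a majority operation
-/

set_option autoImplicit false

namespace Pool.Agent.SYH

open Finset

/-- The matrix `N` consists of disjoint blocks of rank one. -/
def Blk {α β K : Type} [Mul K] [Zero K] (N : α → β → K) : Prop :=
  ∀ s s' w w', N s w ≠ 0 → N s' w ≠ 0 → N s w' ≠ 0 → N s w * N s' w' = N s w' * N s' w

/-! ## Balanced templates without a majority operation -/

/-- [Fail] a counting function that shows that there is no majority operation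

Proof. Let `Γ3` be the structure on `D × D × D` with `Γ3 R v` iff `Γ R` holds for the three
coordinates of `v`; its homomorphisms `s` to `Γ` are the polymorphisms. Let `tri` be the set of the
triples with two equal entries, and `maj u` the repeated entry of `u ∈ tri`. A set `U ⊆ tri` is
extendable if some homomorphism `s : Γ3 → Γ` is equal to `maj` on `U`. If `tri` is extendable, then
`m x y z = s (x, y, z)` is a majority operation. So there is a minimal `U ⊆ tri` that is not
extendable (`Finset.exists_minimal...` on `tri.powerset.filter`). A set with at most two elements is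
extendable, by one of the three projections; so `U` has three elements and there is a surjective
`c : U → Fin 3`. Put `T = U` and `F ψ = #{s // IsHom Γ Γ3 s ∧ ∀ u : U, s u = ψ (c u) u}`. It is a
counting function: take `exts` of `Γ3` transported to `U ⊕ {u // u ∉ U}`, and rename the labels by
`u ↦ (c u, u)` (St_RzCl, third part). Put `a j u = maj u`; then `F a = 0`. For `j : Fin 3` the set
`{u ∈ U | c u ≠ j}` is a proper subset, so it is extended by some `s`; let `b u = s u`. -/
def St_Fail : Prop :=
  ∀ (σ D : Type) (ar : σ → ℕ) [Fintype D] (Γ : Str ar D), ¬ HasMajority Γ →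
    ∃ (T : Type) (_ : Fintype T) (_ : DecidableEq T) (F : (Fin 3 → T → D) → ℕ)
      (a : Fin 3 → T → D),
      (Rz Γ fun ψ : Fin 3 × T → D => F fun j t => ψ (j, t)) ∧ F a = 0 ∧
      ∀ j, ∃ b, F (Function.update a j b) ≠ 0

/-- A function of three variables with the properties of the counting functions of a balanced
template, the support of which is not a box. -/
structure Trio {X : Type} [Fintype X] (N : X → X → X → ℕ) : Prop where
  b0 : Blk fun (x : X) (p : X × X) => N x p.1 p.2
  b1 : Blk fun (y : X) (p : X × X) => N p.1 y p.2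
  b2 : Blk fun (z : X) (p : X × X) => N p.1 p.2 z
  quad : Blk fun p q : X × X => ∑ z, N p.1 q.2 z * N q.1 p.2 z
  f01 : ∀ x y x₁ y₁ z₁ z₂, N x y₁ z₁ ≠ 0 → N x₁ y z₂ ≠ 0 → ∃ z, N x y z ≠ 0
  f02 : ∀ x z x₁ y₁ z₁ y₂, N x y₁ z₁ ≠ 0 → N x₁ y₂ z ≠ 0 → ∃ y, N x y z ≠ 0
  f12 : ∀ y z x₁ y₁ z₁ x₂, N x₁ y z₁ ≠ 0 → N x₂ y₁ z ≠ 0 → ∃ x, N x y z ≠ 0
  hole : ∃ x y z x' y' z', N x y z = 0 ∧ N x y z' ≠ 0 ∧ N x y' z ≠ 0 ∧ N x' y z ≠ 0

/-- [Restr] from `St_Fail`, `St_RzCl`, `St_RzBal`

Proof. Take `F`, `a` from `St_Fail`. For `j ≠ k` and `x : T → D` let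
`K j k x = ∑ c : T → D, F (the family which is x at j, a k at k, and c at the third index)`: the
number of ways to complete `x` and `a k`. Put
`E φ y = F y * ∏ (j, k with j ≠ k), K j k (y j)`, where the `a k` in the `K` are obtained from the
constants: `a k t` is replaced by `φ (a k t)`. So `E` is a counting function with the labels
`D ⊕ Fin 3 × T` (St_RzCl: products, renaming of the labels, sums), and for `φ = id` it is the
function above. Let `N x y z = E id ![x, y, z]`. For each way to split the variables in two parts the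
matrix of `N` is block-rank-one by `St_RzBal` (put the constants `D` with the first part and take the
submatrix with `φ = id` for both rows); this gives b0, b1, b2. Similarly `quad`: the labels are
`(D ⊕ T × 2) ⊕ T × 2` and the third variable, common to the two factors, is summed over.
f01: let `N x y₁ z₁ ≠ 0` and `N x₁ y z₂ ≠ 0`. Write `[x y]` for: `∃ z, F ![x, y, z] ≠ 0`, and so on
for the other pairs. The binary relations `[x y]`, `[x z]`, `[y z]` are the supports of
block-rank-one matrices, hence rectangular. We know `[x a1]`, `[x a2]`, `[a0 y]`, `[y a2]`, and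
`[a0 a1]`, `[a0 a2]`, `[a1 a2]` (from St_Fail). From `[x a1]`, `[a0 a1]`, `[a0 y]` we get `[x y]`, so
`F ![x, y, z] ≠ 0` for some `z`. From `[x z]`, `[x a2]`, `[a0 a2]` we get `[a0 z]`, and from
`[y z]`, `[y a2]`, `[a1 a2]` we get `[a1 z]`. So `N x y z ≠ 0`. The same for f02, f12.
hole: `N a0 a1 a2 = 0` as `F a = 0`; if `F ![a0, a1, b] ≠ 0` (St_Fail for `j = 2`) then all the
factors `K` of `N a0 a1 b` are nonzero too; the same for `j = 0, 1`. -/
def St_Restr : Prop :=
  ∀ (σ D : Type) (ar : σ → ℕ) [Fintype D] (Γ : Str ar D), Balanced Γ → ¬ HasMajority Γ →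
    ∃ (T : Type) (_ : Fintype T) (_ : DecidableEq T) (E : (D → D) → (Fin 3 → T → D) → ℕ),
      (Rz Γ fun ψ : D ⊕ Fin 3 × T → D =>
        E (fun x => ψ (Sum.inl x)) fun j t => ψ (Sum.inr (j, t))) ∧
      Trio fun x y z => E id ![x, y, z]

/-- [Latin] the support of `N` is, up to blowing up, a Latin square

Proof. `R x y z` means `N x y z ≠ 0`; `P 0 x` means `∃ y z, R x y z`, and so on. By b0 the sets
`{(y, z) | R x y z}` are pairwise equal or disjoint (rectangularity: `R x y z`, `R x' y z`,
`R x y' z'` imply `R x' y' z'`), and so on for b1, b2. `A` is the set of the classes of the `x` with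
`P 0 x` with the same set of `(y, z)` (for the maps `a : X → A` on `x` without `P 0 x` take any
value; there are elements by `hole`); `B`, `S` similarly. If `R x y z` and `R x y z'` then `z`, `z'`
have a common pair `(x, y)`, so they are in one class; and for `x`, `y` there is `z` by f01. So `m`
is well defined, `R x y z ↔ P 0 x ∧ P 1 y ∧ P 2 z ∧ m (a x) (b y) = s z`. `m i` is injective by the
same argument (b1), and surjective by f02. `S` has two elements by `hole`: `z` and `z'`. The last
property is the rectangularity of `quad`: `∑ z, N x y z * N x' y' z ≠ 0` iff `m x y = m x' y'`. -/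
def St_Latin : Prop :=
  ∀ (X : Type) [Fintype X] (N : X → X → X → ℕ), Trio N →
    ∃ (A B S : Type) (_ : Finite S) (_ : Nontrivial S) (P : Fin 3 → X → Prop) (a : X → A)
      (b : X → B) (s : X → S) (m : A → B → S),
      (∀ i, ∃ x, P 0 x ∧ a x = i) ∧ (∀ i, ∃ y, P 1 y ∧ b y = i) ∧ (∀ i, ∃ z, P 2 z ∧ s z = i) ∧
      (∀ i, Function.Bijective (m i)) ∧ (∀ j, Function.Bijective fun i => m i j) ∧
      (∀ x x' y y' u u' v v', m x y = m x' y' → m u y = m x' v' → m x v = m u' y' →
        m u v = m u' v') ∧
      ∀ x y z, N x y z ≠ 0 ↔ (P 0 x ∧ P 1 y ∧ P 2 z) ∧ m (a x) (b y) = s z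

/-- [Group] a Latin square with the closure condition is the table of an abelian group

Proof. Choose `x₀`, `y₀` (`A`, `B` are nonempty: `S` is nontrivial... if `A` or `B` is empty the
first or the second bijectivity fails or take them from the hypotheses `Nonempty`). Let
`f x = m x y₀`, `g y = m x₀ y` (bijective), `a + b = m (f⁻¹ a) (g⁻¹ b)` on `S`, `0 = m x₀ y₀`; so
`a + 0 = 0 + a = a`, and `a + b = c` has a unique solution `a` for given `b`, `c`, and `b` for
given `a`, `c`. The closure condition says, for all elements of `S`: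
(Q) `x + y = x' + y'`, `u + y = x' + v'`, `x + v = u' + y'` imply `u + v = u' + v'`.
With `x' = 0`, `x = 0` (so `y' = y`, `v' = u + y`, `v = u' + y`): `u + (u' + y) = u' + (u + y)`.
With `y = 0` this is `u + u' = u' + u`. So
`u + (y + u') = u + (u' + y) = u' + (u + y) = (u + y) + u'`, which is associativity. -/
def St_Group : Prop :=
  ∀ (A B S : Type) [Nonempty A] [Nonempty B] (m : A → B → S),
    (∀ i, Function.Bijective (m i)) → (∀ j, Function.Bijective fun i => m i j) →
    (∀ x x' y y' u u' v v', m x y = m x' y' → m u y = m x' v' → m x v = m u' y' →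
        m u v = m u' v') →
    ∃ (_ : AddCommGroup S) (f : A → S) (g : B → S), Function.Bijective f ∧ Function.Bijective g ∧
      ∀ x y, m x y = f x + g y

/-- The support of `F` is the set of the zeros of the sum of `g 0`, `g 1`, `g 2`, on a box, and on
the support `F` is a product. -/
structure Abel {X G : Type} [AddCommGroup G] (F : (Fin 3 → X) → ℕ) (P : Fin 3 → X → Prop)
    (g : Fin 3 → X → G) (u : Fin 3 → X → ℚ) (K : G → G → ℚ) : Prop where
  surj : ∀ j a, ∃ x, P j x ∧ g j x = a
  supp : ∀ x, F x ≠ 0 ↔ (∀ j, P j (x j)) ∧ ∑ j, g j (x j) = 0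
  prod : ∀ x, F x ≠ 0 → (F x : ℚ) = (∏ j, u j (x j)) * K (g 0 (x 0)) (g 1 (x 1))

/-- [Abel] from `St_Latin`, `St_Group`

Proof. `G = S`, `g 0 x = f (a x)`, `g 1 y = g (b y)`, `g 2 z = - s z`. For the product: choose for
each class `γ : G` representatives `r j γ` with `P j (r j γ)`, `g j (r j γ) = γ`. Let `N x y z ≠ 0`.
By b0 the quotient `N x y z / N (r 0 (g 0 x)) y z` does not depend on `y`, `z` (for the `y`, `z`
where it makes sense); this is `u 0 x`. So `N x y z = u 0 x * N (r 0 _) y z`, then the same for `y`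
with b1, and for `z` with b2, where `K γ γ' = N (r 0 γ) (r 1 γ') (r 2 (-γ-γ'))`. Explicitly
`u 0 x = N x y z / N (r 0 (g 0 x)) y z` for `y = r 1 0`, `z = r 2 (- g 0 x)`, and so on. -/
def St_Abel : Prop :=
  ∀ (X : Type) [Fintype X] (F : (Fin 3 → X) → ℕ), Trio (fun x y z => F ![x, y, z]) →
    ∃ (G : Type) (_ : AddCommGroup G) (_ : Finite G) (_ : Nontrivial G) (P : Fin 3 → X → Prop)
      (g : Fin 3 → X → G) (u : Fin 3 → X → ℚ) (K : G → G → ℚ), Abel F P g u K

/-- [Chi] the classes along the edges are arithmetic progressions with the same difference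

Proof. Let `b j α = v (edgeAt π C j) (α + h C j)` at a vertex `C`; so `∑ j, b j (S j) = 0` for all
`S` with sum `0`. Compare `S` with `S + e_i - e_j`, `i ≠ j` (the third entry is free, so
`α = S i`, `β = S j` are arbitrary): `b i (α + 1) - b i α = b j β - b j (β - 1)`. So all these
differences for the three edges at `C` are the same element `δ` (use three different indices to
compare an edge with itself). Adjacent vertices have a common edge, so `δ` is the same for all
vertices (`Conn π`, induction on `Relation.ReflTransGen`); if `n = 0` take `χ = 0`. So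
`v e (α + 1) = v e α + δ`, `p • δ = 0` (go around `ZMod p`), `χ = ZMod.lift p` of the multiples of
`δ`. The sum at `C` for `S = 0` gives `∑ j, v (edgeAt π C j) 0 + χ (∑ j, h C j) = 0`. Take the sum
over the vertices `(false, i)` minus the sum over the vertices `(true, i)`: every edge `(i, j)` is
`edgeAt π (false, i) j` and `edgeAt π (true, π j i) j`, so the first terms cancel
(`Equiv.sum_comp (π j)`). -/
def St_Chi : Prop :=
  ∀ (n p : ℕ) [Fact p.Prime] (π : Fin 3 → Equiv.Perm (Fin n)) (G : Type) [AddCommGroup G]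
    (v : Fin n × Fin 3 → ZMod p → G) (h : Chg n 3 p), Conn π →
    (∀ (C : Vx n) (S : Slot 3 p), ∑ j, v (edgeAt π C j) (S.1 j + h C j) = 0) →
    ∃ χ : ZMod p →+ G, (∀ e α, v e α = v e 0 + χ α) ∧ χ (total h) = 0

/-- [Flat] the terms of the flat assignments do not depend on the charge

Proof. Fix a vertex `C` and `x j α = s (edgeAt π C j) α`, where `g j (x j α)` does not depend on
`α`, `= γ j`. For every `j` and `β` there is a slot `S` with `S j + h j = β`. So all the factors
`F fun j => x j (S j + h j)` are nonzero iff `P j (x j β)` for all `j`, `β`, and `∑ γ j = 0`, which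
does not depend on `h`. If one factor vanishes, both products over the slots vanish. Otherwise use
`prod`: the product over the slots is `∏ j, ∏ S, u j (x j (S j + h j))` times a power of
`K (γ 0) (γ 1)`; and for each `j` the shift `S ↦ S + h j • (e_j - e_j')`, `j' ≠ j`, is a
permutation of the slots, so `∏ S, u j (x j (S j + h j)) = ∏ S, u j (x j (S j))`. -/
def St_Flat : Prop :=
  ∀ (n p : ℕ) [Fact p.Prime] (π : Fin 3 → Equiv.Perm (Fin n)) (X G : Type) [AddCommGroup G]
    (F : (Fin 3 → X) → ℕ) (P : Fin 3 → X → Prop) (g : Fin 3 → X → G) (u : Fin 3 → X → ℚ)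
    (K : G → G → ℚ) (s : Fin n × Fin 3 → ZMod p → X) (h : Chg n 3 p), Abel F P g u K →
    (∀ e α, g e.2 (s e α) = g e.2 (s e 0)) →
    ∏ C : Vx n, ∏ S : Slot 3 p, F (fun j => s (edgeAt π C j) (S.1 j + h C j)) =
      ∏ C : Vx n, ∏ S : Slot 3 p, F (fun j => s (edgeAt π C j) (S.1 j))

/-- [Cnt] from `St_Abel`, `St_Chi`, `St_Flat`

Proof. `p` is a prime divisor of the order of `G`, and `δ ≠ 0` an element with `p • δ = 0`
(Cauchy). Let `total h ≠ 0` (so `n ≠ 0`). If all factors of the term of `s` at `h` are nonzero, then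
by `St_Chi` for `v e α = g e.2 (s e α)` and since `χ (total h) = 0` implies `χ = 0` (`ZMod p` is a
field), `s` is flat, and by `St_Flat` its term at `h` is its term at `0`. So
`ZZ h ≤ ZZ 0` term by term, and the inequality is strict for the term of an `s` with
`P e.2 (s e α)`, `g e.2 (s e α) = χ α`, where `χ : ZMod p →+ G`, `χ 1 = δ`: at `0` its factors are
nonzero since `∑ j, χ (S j) = χ 0 = 0`, and it is not flat, so its term at `h` is zero. -/
def St_Cnt : Prop :=
  ∀ (X : Type) [Fintype X] (F : (Fin 3 → X) → ℕ), Trio (fun x y z => F ![x, y, z]) →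
    ∃ (p : ℕ) (_ : Fact p.Prime), ∀ (n : ℕ) (π : Fin 3 → Equiv.Perm (Fin n)), Conn π →
      ∀ h : Chg n 3 p, total h ≠ 0 →
        ZZ π (fun _ => F) h < ZZ π (fun _ => F) (0 : Chg n 3 p)

/-- [FeelsM] from `St_Restr`, `St_Cnt`: balanced templates without majority feel the charge -/
def St_FeelsM : Prop :=
  ∀ (σ D : Type) (ar : σ → ℕ) [Fintype D] (Γ : Str ar D), Balanced Γ → ¬ HasMajority Γ →
    Feels Γ 3

/-! ## Balanced templates with a majority operation -/

section easy
variable {n : ℕ} {D : Type}

/-- the pairs of the values at `i` and `j` -/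
def pr (Om : Finset (Fin n → D)) (i j : Fin n) : Set (D × D) :=
  {p | ∃ ω ∈ Om, ω i = p.1 ∧ ω j = p.2}

open Classical in
/-- the number of the elements of `Om` that agree with `u` on `S` and have the value `d` at `j` -/
noncomputable def cnt (Om : Finset (Fin n → D)) (S : Finset (Fin n)) (j : Fin n) (u : Fin n → D)
    (d : D) : ℕ :=
  (Om.filter fun ω => (∀ i ∈ S, ω i = u i) ∧ ω j = d).card

/-- The properties of the set of the solutions of an instance of a balanced template with a
majority operation. -/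
structure Nice (Om : Finset (Fin n → D)) : Prop where
  bal : ∀ S j, Blk (cnt Om S j)
  dec : ∀ (S : Finset (Fin n)) (u : Fin n → D), (∀ i ∈ S, ∀ j ∈ S, (u i, u j) ∈ pr Om i j) →
    ∃ ω ∈ Om, ∀ i ∈ S, ω i = u i

end easy

/-- [Nice]

Proof. `bal`: if `j ∈ S` then `cnt u d ≠ 0` only for `d = u j`, and the claim is trivial. Otherwise
use `Balanced` with `A = {i // i ∈ S}`, `B = Unit`, `Y = {i // i ∉ S ∧ i ≠ j}`, and the structure `I`
transported along the bijection `(A ⊕ B) ⊕ Y ≃ Fin n`.
`dec` (Baker, Pixley): by induction on the number of elements of `S`. `S = ∅`: some solution exists.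
If `S` has one or two elements `i`, `j`, take `ω` from `(u i, u j) ∈ pr Om i j`. If it has three
elements `a`, `b`, `c`, there are solutions `ω₁`, `ω₂`, `ω₃` that agree with `u` on
`S.erase a`, `S.erase b`, `S.erase c`, and `i ↦ m (ω₁ i) (ω₂ i) (ω₃ i)` is a solution which agrees
with `u` on `S`, since at each element of `S` two of the three agree with `u`. -/
def St_Nice : Prop :=
  ∀ (σ D : Type) (ar : σ → ℕ) (Γ : Str ar D), Balanced Γ → HasMajority Γ →
    ∀ (n : ℕ) (I : Str ar (Fin n)) (Om : Finset (Fin n → D)), (∀ ω, ω ∈ Om ↔ IsHom Γ I ω) →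
      Om.Nonempty → Nice Om

/-! ### Entropies -/

section
variable {D : Type} [Fintype D]

open Classical in
/-- the elements that the relations in `Q` cannot distinguish from `d` -/
noncomputable def blk (Q : Set (Set (D × D))) (d : D) : Finset D :=
  univ.filter fun e => ∀ ρ ∈ Q, ∀ c, (d, c) ∈ ρ ↔ (e, c) ∈ ρ

/-- the conditional entropy of the weights `q`, given the block -/
noncomputable def ent (q : D → ℝ) (Q : Set (Set (D × D))) : ℝ :=
  - ∑ d, q d * Real.log (q d / ∑ e ∈ blk Q d, q e)

end

/-- [Gibbs]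

Proof. For fixed `Q` let `A d = ∑ e ∈ blk Q d, q e`, `B d = ∑ e ∈ blk Q d, p e`. For `q d ≠ 0` we
have `p d > 0`, `A d > 0`, `B d > 0` and
`q d * (log (p d / B d) - log (q d / A d)) = q d * log (p d * A d / (B d * q d)) ≤
p d * A d / B d - q d` by `log x ≤ x - 1`; for `q d = 0` the left side is `0 ≤ p d * A d / B d`. The
sum of `p d * A d / B d` over `d` is `∑ d, ∑ e ∈ blk Q d, p d * q e / B d`, and as `e ∈ blk Q d` iff
`d ∈ blk Q e` and then `B d = B e`, it is `∑ e, q e * (B e / B e) = ∑ e, q e` (for `q e ≠ 0`,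
`B e > 0`). -/
def St_Gibbs : Prop :=
  ∀ (D : Type) [Fintype D] (q p : D → ℝ) (Q : Set (Set (D × D))), (∀ d, 0 ≤ q d) →
    (∀ d, 0 ≤ p d) → (∀ d, q d ≠ 0 → p d ≠ 0) →
    ent q Q ≤ - ∑ d, q d * Real.log (p d / ∑ e ∈ blk Q d, p e)

/-- [Conc]

Proof. Superadditivity: by induction it is enough to treat two vectors `q`, `q'`, and there it
follows from `St_Gibbs` applied to `q` and `p = q + q'`, and to `q'` and `p = q + q'`:
`ent q + ent q' ≤ - ∑ (q d + q' d) * log ((q + q') d / ∑ (q + q')) = ent (q + q')`. (Or directly for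
`J`: `ent (q j) ≤ - ∑ d, q j d * log (p d / _)` with `p = ∑ j, q j`.) Homogeneity: for `c ≠ 0` the
quotients do not change. -/
def St_Conc : Prop :=
  ∀ (D : Type) [Fintype D] (Q : Set (Set (D × D))),
    (∀ (J : Type) [Fintype J] (q : J → D → ℝ), (∀ j d, 0 ≤ q j d) →
      ∑ j, ent (q j) Q ≤ ent (fun d => ∑ j, q j d) Q) ∧
    ∀ (q : D → ℝ) (c : ℝ), 0 ≤ c → ent (fun d => c * q d) Q = c * ent q Q

/-- the marginals of the uniform probability on `Om` -/
noncomputable def mg {n : ℕ} {D : Type} (Om : Finset (Fin n → D)) (j : Fin n) (d : D) : ℝ :=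
  cnt Om ∅ j (fun _ => d) d / Om.card

/-- consistent families of probabilities -/
structure Cst {n : ℕ} {D : Type} [Fintype D] (Om : Finset (Fin n → D)) (q : Fin n → D → ℝ) :
    Prop where
  nonneg : ∀ j d, 0 ≤ q j d
  sum : ∀ j, ∑ d, q j d = 1
  supp : ∀ j d, q j d ≠ 0 → ∃ ω ∈ Om, ω j = d
  cst : ∀ i j, i ≠ j → ∀ ω ∈ Om,
    ∑ d ∈ blk {pr Om i j} (ω i), q i d = ∑ d ∈ blk {pr Om j i} (ω j), q j d

/-- [Cond] the conditional probabilities

Proof. Both sides are natural numbers. Let `R = pr Om j i` for `i ∈ S`, and let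
`b = {e | ∃ ω' ∈ Om, ω' j = e, and (e, ω i) ∈ pr Om j i for all i ∈ S}`.
(1) For `e` in `D_j = {ω' j}`: `e ∈ blk _ (ω j)` iff `e ∈ b`: by `bal` for `S = {i}` the relation
`pr Om j i` is rectangular, and `(ω j, ω i) ∈ pr Om j i`.
(2) `cnt Om S j ω e ≠ 0` iff `e ∈ b`: by `dec` for `insert j S` and `u = update ω j e` (the pairs of
elements of `S` are in `pr` because of `ω`).
(3) For `u` with `cnt Om S j u (ω j) ≠ 0`: the rows `u` and `ω` of the matrix `cnt Om S j` have a
common nonzero entry at `ω j`, so `cnt u (ω j) * cnt ω e = cnt u e * cnt ω (ω j)` for all `e`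
(`bal`, and rectangularity when the entry is zero). Sum over `e` in the block and over the
restrictions `u` to `S` of the elements of `Om` with `cnt u (ω j) ≠ 0`: the left side becomes
`#{ω' | ω' j = ω j} * #{ω' | ω' = ω on S}` and the right side
`#{ω' | ω' j in the block} * cnt ω (ω j)`, because an element `ω'` with `ω' j` in the block `b` has
a restriction `u` with `cnt u (ω j) ≠ 0` (rectangularity). -/
def St_Cond : Prop :=
  ∀ (n : ℕ) (D : Type) [Fintype D] [DecidableEq D] (Om : Finset (Fin n → D)), Nice Om →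
    ∀ (S : Finset (Fin n)) (j : Fin n), j ∉ S → ∀ ω ∈ Om,
      cnt Om S j ω (ω j) *
          (Om.filter fun ω' => ω' j ∈ blk (pr Om j '' {i | i ∈ S}) (ω j)).card =
        (Om.filter fun ω' => ∀ i ∈ S, ω' i = ω i).card * (Om.filter fun ω' => ω' j = ω j).card

/-- [Chain] from `St_Cond`

Proof. Let `c S = #{ω' ∈ Om | ω' = ω on S}`, so `c ∅ = #Om` and `c univ = 1`. For
`S = {i | π i < π j}`: `cnt Om S j ω (ω j) = c (insert j S)`, and by `St_Cond`
`c (insert j S) / c S = mg j (ω j) / ∑ e ∈ blk, mg j e`. Now take logarithms and telescope over the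
order: with `S t = {i | π i < t}` the sum over `j` of `log (c (insert j S)) - log (c S)` is
`∑ t, log (c (S (t + 1))) - log (c (S t)) = log 1 - log #Om` (reindex by `j = π⁻¹ t`). -/
def St_Chain : Prop :=
  ∀ (n : ℕ) (D : Type) [Fintype D] (Om : Finset (Fin n → D)), Nice Om →
    ∀ (π : Equiv.Perm (Fin n)), ∀ ω ∈ Om,
      Real.log Om.card = - ∑ j, Real.log (mg Om j (ω j) /
        ∑ e ∈ blk (pr Om j '' {i | π i < π j}) (ω j), mg Om j e)

/-- [Lin] a linear relation between the coordinates passes to consistent families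

Proof. By induction on `n`. `n = 0`: `c = 0`. Step from `n` to `n + 1`, with the last index `l`. Let
`M i j d e` be the pair weights and `m j d` the weights of one value; both are nonnegative, and
`m j d ≠ 0` iff `d` is a value at `j` of an element of `Om`. For `j ≠ l` and `d` with `m l d ≠ 0` let
`φ j d = (∑ e, M l j d e * f j e) / m l d`, the conditional expectation. Taking in
`∑ j, f j (ω j) = c` the weighted sum over the `ω` with `ω l = d` gives
(1) `f l d + ∑ (j ≠ l), φ j d = c` when `m l d ≠ 0`.
By `Blk` the row `M l j d` of `d` is proportional to the rows of the other elements of the block of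
`d`, and `∑ e, M l j d e = m l d`; so `φ j` is constant on `blk {pr Om l j} d`; hence it defines a
function `ψ j` on the values at `j` (constant on the blocks of `pr Om j l`), with
`ψ j (ω j) = φ j (ω l)` for `ω ∈ Om`. From (1): `∑ (j ≠ l), (f j (ω j) - ψ j (ω j)) = 0` for
`ω ∈ Om`. The image of `μ` in `Fin n → D` (the weights summed over the last value) has the same pair
weights, so by induction `∑ (j ≠ l), ∑ d, q j d * (f j d - ψ j d) = 0`. By consistency
`∑ d, q j d * ψ j d = ∑ d, q l d * φ j d` (group the terms by blocks), so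
`∑ (j ≠ l), ∑ d, q j d * f j d = ∑ d, q l d * ∑ (j ≠ l), φ j d = ∑ d, q l d * (c - f l d)`. -/
def St_Lin : Prop :=
  ∀ (n : ℕ) (D : Type) [Fintype D] [DecidableEq D] (Om : Finset (Fin n → D))
    (μ : (Fin n → D) → ℝ) (q f : Fin n → D → ℝ) (c : ℝ), Om.Nonempty → (∀ ω, 0 ≤ μ ω) →
    (∀ ω, μ ω ≠ 0 ↔ ω ∈ Om) →
    (∀ i j, i ≠ j → Blk fun d e => ∑ ω ∈ univ.filter (fun ω : Fin n → D => ω i = d ∧ ω j = e),
      μ ω) →
    Cst Om q → (∀ ω ∈ Om, ∑ j, f j (ω j) = c) → ∑ j, ∑ d, q j d * f j d = c

/-- [Max] from `St_Chain`, `St_Lin`, `St_Gibbs`: the logarithm of the number of elements is the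
maximum of the entropies of the consistent families

Proof. `Cst Om (mg Om)`: the two sides of `cst` are `#{ω' | ω' i ∈ blk}` and `#{ω' | ω' j ∈ blk}`
over `#Om`, and these sets are equal by the rectangularity of `pr Om i j`. For consistent `q` take
`f j d = - log (mg Om j d / ∑ e ∈ blk _ d, mg Om j e)` and `c = log #Om` in `St_Lin` with `μ` the
indicator of `Om` (`Blk` from `Nice.bal` with `S = {i}`); the hypothesis is `St_Chain`. So
`log #Om = ∑ j, - ∑ d, q j d * log (...)`, which is `≥ ∑ j, ent (q j) _` by `St_Gibbs`, with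
equality for `q = mg Om`. -/
def St_Max : Prop :=
  ∀ (n : ℕ) (D : Type) [Fintype D] (Om : Finset (Fin n → D)), Nice Om → Om.Nonempty →
    Cst Om (mg Om) ∧ ∀ π : Equiv.Perm (Fin n),
      ∑ j, ent (mg Om j) (pr Om j '' {i | π i < π j}) = Real.log Om.card ∧
      ∀ q, Cst Om q → ∑ j, ent (q j) (pr Om j '' {i | π i < π j}) ≤ Real.log Om.card

/-- The colourings `κ`, `κ'` of the indices explain the families `R`, `R'` of relations in the same
way. -/
def Match {n : ℕ} {D : Type} (R R' : Fin n → Fin n → Set (D × D)) (κ κ' : Fin n → ℕ) : Prop :=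
  (∃ β : Equiv.Perm (Fin n), ∀ k, κ' (β k) = κ k) ∧
    ∀ i i', κ i = κ' i' → ∃ β : Equiv.Perm (Fin n), β i = i' ∧
      ∀ k, κ' (β k) = κ k ∧ R' i' (β k) = R i k

/-- [Mean] the average over the colour classes is consistent

Proof. Let `V c = {i | κ i = c}`, `V' c = {i | κ' i = c}`, of the same size; for `c = κ' j` it is
nonempty. nonneg, sum: clear. supp: if `q j d ≠ 0` then `mg Om i d ≠ 0` for some `i` with
`κ i = κ' j`; let `β` be as in `Match` for `i`, `j`; `pr Om i i = pr Om' j j` as `β i = j`, and so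
`d` is a value at `j`. cst: let `i' ≠ j'`, `ρ = pr Om' i' j'`, `ρ' = pr Om' j' i'` (the transpose),
`c = κ' i'`, `c' = κ' j'`. The number `N` of `j ∈ V c'` with `j ≠ i`, `pr Om i j = ρ` is the same for
all `i ∈ V c` (apply `Match` to `i`, `i'`: it is the number for `i'` in `Om'`), and it is positive.
Similarly the number `N'` of `i ∈ V c` with `pr Om i j = ρ`, `i ≠ j`, for `j ∈ V c'`. For `i`, `j`
with `pr Om i j = ρ` and the given `ω' ∈ Om'` choose `ω ∈ Om` with `ω i = ω' i'`, `ω j = ω' j'`:
`Cst Om (mg Om)` says `∑ d ∈ blk {ρ} (ω' i'), mg Om i d = ∑ d ∈ blk {ρ'} (ω' j'), mg Om j d`. Sum over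
the `#V c * N = #V c' * N'` pairs. -/
def St_Mean : Prop :=
  ∀ (n : ℕ) (D : Type) [Fintype D] (Om Om' : Finset (Fin n → D)) (κ κ' : Fin n → ℕ),
    Om.Nonempty → Cst Om (mg Om) → Match (pr Om) (pr Om') κ κ' →
    Cst Om' fun j d => (∑ i ∈ univ.filter (fun i => κ i = κ' j), mg Om i d) /
      (univ.filter (fun i => κ i = κ' j)).card

/-- [Col] from `St_Max`, `St_Mean`, `St_Conc`

Proof. Let `q j` be the average of `St_Mean`, `H j q π = ent q (pr Om j '' {i | π i < π j})`, and
`H'` the same for `Om'`. By `St_Max`, `n! * log #Om' ≥ ∑ π, ∑ j, H' j (q j) π`. By `St_Conc`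
`H' j (q j) π ≥ (∑ (i with κ i = κ' j), H' j (mg Om i) π) / #{i | κ i = κ' j}`. If `κ i = κ' j` then
`∑ π, H' j (mg Om i) π = ∑ π, H i (mg Om i) π` (`Match`, substitute `π` by `π * β⁻¹`:
`pr Om' j '' {k' | π (β⁻¹ k') < π (β⁻¹ j)} = pr Om i '' {k | π k < π i}`). So the sum is at least
`∑ j, (∑ (i with κ i = κ' j), ∑ π, H i (mg Om i) π) / #{..} = ∑ i, ∑ π, H i (mg Om i) π =
n! * log #Om`, as `#{j | κ' j = κ i} = #{i' | κ i' = κ i}`. -/
def St_Col : Prop :=
  ∀ (n : ℕ) (D : Type) [Fintype D] (Om Om' : Finset (Fin n → D)) (κ κ' : Fin n → ℕ),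
    Nice Om → Nice Om' → Om.Nonempty → Om'.Nonempty → Match (pr Om) (pr Om') κ κ' →
    Om.card ≤ Om'.card

/-! ### Consistency -/

section
variable {σ : Type} {ar : σ → ℕ} {n : ℕ} {D : Type}

/-- The relations between two elements computed in `r` rounds. -/
def Wn (Γ : Str ar D) (I : Str ar (Fin n)) : ℕ → Fin n → Fin n → Set (D × D)
  | 0 => fun i j => {p | (i = j → p.1 = p.2) ∧ ∀ R u, I R u → (∃ v, Γ R v) ∧
      ∀ a b, u a = i → u b = j → ∃ v, Γ R v ∧ v a = p.1 ∧ v b = p.2}
  | r + 1 => fun i j => {p | p ∈ Wn Γ I r i j ∧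
      ∀ k, ∃ c, (p.1, c) ∈ Wn Γ I r i k ∧ (c, p.2) ∈ Wn Γ I r k j}

end

/-- [Cons]

Proof. The second part: by induction on `N`. The first part: all `Wn r i j` are preserved by the
majority operation `m`, `Wn r j i` is the transpose of `Wn r i j`, and the `Wn r` decrease; the sum
of the numbers of elements of the `Wn r i j` is at most `n ^ 2 * #D ^ 2` and decreases strictly
until `Wn (r + 1) = Wn r`, so `Wn (N + 1) = Wn N =: W`. So for all `i`, `j`, `k`:
`(d, e) ∈ W i j` implies `(d, c) ∈ W i k`, `(c, e) ∈ W k j` for some `c`, and `W i i` is contained in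
the diagonal. Hence `D_k = {c | (c, c) ∈ W k k}` is the set of the second entries of `W i k` for
all `i`. Claim: if `u : Fin n → D`, `S : Finset (Fin n)` with `(u i, u j) ∈ W i j` for `i`, `j ∈ S`,
and `k` is an index, there is `c` with `(c, c) ∈ W k k` and `(u i, c) ∈ W i k` for all `i ∈ S`: by
induction on the size of `S`. Size 0: `W k k` is not empty. Size 1, 2: above. If
`i₁, i₂, i₃ ∈ S` are different, let `c₁`, `c₂`, `c₃` be the elements for `S` without `i₁`, `i₂`,
`i₃`, and `c = m c₁ c₂ c₃`. For `i` different from these, `(u i, c) = m` of three elements of `W i k`.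
For `i₁` choose `x` with `(x, c₁) ∈ W i₁ k`; then `(u i₁, c) = m ((x, c₁), (u i₁, c₂), (u i₁, c₃))`.
So we can extend `u` element by element, starting with `S = {i, j}`, to `ω` with
`(ω i, ω j) ∈ W i j` for all `i`, `j`. This is a solution: if `I R u`, then for all `a`, `b` there is
`v` with `Γ R v`, `v a = ω (u a)`, `v b = ω (u b)`, and `Γ R` is preserved by `m`; as in `St_Nice`
(induction on sets of positions) `Γ R (ω ∘ u)` (for arity 0 use `∃ v, Γ R v`). -/
def St_Cons : Prop :=
  ∀ (σ D : Type) (ar : σ → ℕ) [Fintype D] (Γ : Str ar D), HasMajority Γ →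
    ∀ (n : ℕ) (I : Str ar (Fin n)) (N : ℕ), n ^ 2 * Fintype.card D ^ 2 ≤ N →
      ((∀ i j, (Wn Γ I N i j).Nonempty) → ∀ i j, ∀ p ∈ Wn Γ I N i j,
        ∃ ω, IsHom Γ I ω ∧ ω i = p.1 ∧ ω j = p.2) ∧
      ∀ ω, IsHom Γ I ω → ∀ i j, (ω i, ω j) ∈ Wn Γ I N i j

/-! ### Colours -/

/-- The values of the gates: a relation and a number. -/
abbrev Val (D : Type) : Type := Set (D × D) × ℕ

/-- The ports. -/
abbrev Port {σ : Type} (ar : σ → ℕ) : Type := Fin 3 ⊕ (R : σ) × Option (Fin (ar R) × Fin (ar R))

section
variable {σ : Type} {ar : σ → ℕ} {n : ℕ} {D : Type}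

/-- The colours in `s` rounds. -/
def kap (enc : Multiset (Port ar × Val D) → ℕ) (R : Fin n → Fin n → Set (D × D)) :
    ℕ → Fin n → ℕ
  | 0 => fun _ => 0
  | s + 1 => fun i => enc ((Sum.inl 0, (∅, kap enc R s i)) ::ₘ
      (univ : Finset (Fin n)).val.map fun j =>
        ((Sum.inl (if i = j then 2 else 1), (R i j, kap enc R s j)) : Port ar × Val D))

end

/-- [Kap]

Proof. Let `κ s = kap enc R s`, `κ' s = kap enc R' s`. (1) If `κ (s + 1) i = κ' (s + 1) i'` then
(`enc` is injective; separate the ports) `κ s i = κ' s i'` and the multisets over `j` of the triples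
`(if i = j then 2 else 1, R i j, κ s j)` and `(if i' = j then 2 else 1, R' i' j, κ' s j)` are equal, so
there is a permutation `β` that matches them (`Multiset.map_univ_eq_iff` or similar): `β i = i'`,
`κ' s (β k) = κ s k`, `R' i' (β k) = R i k`. The same for two indices of the same side. (2) On
`Fin n ⊕ Fin n` the equivalence relations `Sum.elim (κ s) (κ' s) x = Sum.elim (κ s) (κ' s) y` get
finer with `s` (by (1)); they have between 1 and `2 * n` classes, so for some `s < M` (if `n ≠ 0`; if
`n = 0` everything is trivial) the relations of `s` and `s + 1` are equal. Take `κ s`, `κ' s`: the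
second part of `Match` is (1), the first part follows from the multisets at `M` since
`κ M i = κ' M i'` implies `κ s i = κ' s i'`. -/
def St_Kap : Prop :=
  ∀ (σ : Type) (ar : σ → ℕ) (D : Type) (enc : Multiset (Port ar × Val D) → ℕ),
    Function.Injective enc → ∀ (n M : ℕ) (R R' : Fin n → Fin n → Set (D × D)), 2 * n ≤ M →
    (univ : Finset (Fin n)).val.map (kap enc R M) = univ.val.map (kap enc R' M) →
    ∃ κ κ' : Fin n → ℕ, Match R R' κ κ'

/-- [Det] from `St_Nice`, `St_Cons`, `St_Kap`, `St_Col`: the colours determine the number of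
homomorphisms

Proof. `n = 0` is excluded. `W = Wn Γ I N`, `W' = Wn Γ I' N`; by `St_Kap` there is `Match W W' κ κ'`.
If `W i j` is empty for some `i`, `j`, then `I` has no solution (`St_Cons`), and `W' i' j'` is empty
for some `i'`, `j'` by `Match` (`n ≠ 0`; `i' = β i`), so `I'` has none. By symmetry (`Match` is
symmetric) we may assume that all are nonempty; then by `St_Cons` both have solutions, `W = pr Om`,
`W' = pr Om'`, and `St_Col` in both directions gives the claim. -/
def St_Det : Prop :=
  ∀ (σ D : Type) (ar : σ → ℕ) [Fintype D] (Γ : Str ar D)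
    (enc : Multiset (Port ar × Val D) → ℕ), Function.Injective enc → Balanced Γ →
    HasMajority Γ → ∀ (n N M : ℕ) (I I' : Str ar (Fin n)), 1 ≤ n →
    n ^ 2 * Fintype.card D ^ 2 ≤ N → 2 * n ≤ M →
    (univ : Finset (Fin n)).val.map (kap enc (Wn Γ I N) M) =
      univ.val.map (kap enc (Wn Γ I' N) M) →
    homs Γ I = homs Γ I'

/-! ### The circuit -/

/-- The gates of the circuit: atoms, a constant, the relations `Wn`, the compositions, the pairs of
a relation and a colour, the colours, and the output. -/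
inductive Gt {σ : Type} (ar : σ → ℕ) (n N M : ℕ) : Type
  | atm (a : Atom ar (Fin n))
  | one
  | w (r : Fin (N + 1)) (i j : Fin n)
  | c (r : Fin N) (i k j : Fin n)
  | q (s : Fin M) (i j : Fin n)
  | k (s : Fin (M + 1)) (i : Fin n)
  | out

/-- [Ckt] there is a circuit with the gates `Gt` which computes the colours and is symmetric

Proof. Define (all gates not mentioned: no atom)
`atom (atm a) = some a`, `fn (atm a) x _ = ({p | x}, 0)`;
`wires one = ∅`, `fn one _ _ = (∅, 0)`;
`wires (w 0 i j)` = all `(inr ⟨R, some (a, b)⟩, atm ⟨R, u⟩)` with `u a = i`, `u b = j`, all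
`(inr ⟨R, none⟩, atm ⟨R, u⟩)`, and `(inl 0, one)` if `i = j`;
`fn (w 0 i j) _ m` = `({p | ((∃ t ∈ m, t.1 = inl 0) → p.1 = p.2) ∧ ∀ R,
((inr ⟨R, none⟩, ({p | True}, 0)) ∈ m → ∃ v, Γ R v) ∧ ∀ a b,
(inr ⟨R, some (a, b)⟩, ({p | True}, 0)) ∈ m → ∃ v, Γ R v ∧ v a = p.1 ∧ v b = p.2}, 0)`
(if `D` is empty, `{p | True} = ∅ = {p | False}`; so use `({p | x}, if x then 1 else 0)` for atoms);
`wires (w (r + 1) i j)` = `(inl 0, w r i j)` and all `(inl 1, c r i k j)`, and its `fn` is the
intersection of the relations of all values;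
`wires (c r i k j)` = `(inl 0, w r i k)`, `(inl 1, w r k j)`, `fn` = the composition;
`wires (k 0 i) = ∅`, `fn (k 0 i) = (∅, 0)`;
`wires (q s i j)` = `(inl 0, w N i j)`, `(inl 1, k s j)`, `fn` = (the relation of the value at the
port 0, the number at the port 1);
`wires (k (s + 1) i)` = `(inl 0, k s i)`, all `(inl (if i = j then 2 else 1), q s i j)`,
`fn (k (s + 1) i) _ m = (∅, enc m)`;
`wires out` = all `(inl 0, k M i)` and all `(inr ⟨R, none⟩, atm ⟨R, u⟩)`,
`fn out _ m = (∅, enc m)`.
The permutation `ρ` acts on the gates in the obvious way. (For `w 0` and `out` the wires are a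
`Finset` as `σ` and `Fin n` are finite; use classical decidability, and `Finset.map`/`image` with
injective maps so that the multisets of values are as expected; the multiset of `k (s + 1) i` must be
the one in `kap`.) -/
def St_Ckt : Prop :=
  ∀ (σ D : Type) (ar : σ → ℕ) [Finite σ] [Fintype D] (Γ : Str ar D)
    (enc : Multiset (Port ar × Val D) → ℕ), Function.Injective enc → ∀ (n N M : ℕ),
    ∃ C : Circuit (Atom ar (Fin n)) (Gt ar n N M) (Port ar) (Val D),
      (∀ ρ, IsSymm C ρ) ∧ ∀ I : Str ar (Fin n), ∃ v, C.IsRun (holds I) v ∧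
        ∀ I' : Str ar (Fin n), ∀ v', C.IsRun (holds I') v' → v C.out = v' C.out →
          (n = 0 → I = I') ∧
          (univ : Finset (Fin n)).val.map (kap enc (Wn Γ I N) M) =
            univ.val.map (kap enc (Wn Γ I' N) M)

/-- [Size] the number of gates

Proof. `Gt ar n N M` is equivalent to the sum type
`Atom ar (Fin n) ⊕ Unit ⊕ (Fin (N + 1) × Fin n × Fin n) ⊕ (Fin N × Fin n × Fin n × Fin n) ⊕
(Fin M × Fin n × Fin n) ⊕ (Fin (M + 1) × Fin n) ⊕ Unit`, with `∑ R, n ^ ar R + 1 + ...` elements. With
`N = n ^ 2 * k ^ 2`, `M = 2 * n` each summand is at most a constant times a power of `n + 2`, and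
`constant ≤ 2 ^ _ ≤ (n + 2) ^ _`. -/
def St_Size : Prop :=
  ∀ (σ : Type) (ar : σ → ℕ) [Finite σ] (k : ℕ), ∃ K : ℕ, ∀ n : ℕ,
    Finite (Gt ar n (n ^ 2 * k ^ 2) (2 * n)) ∧
      Nat.card (Gt ar n (n ^ 2 * k ^ 2) (2 * n)) ≤ (n + 2) ^ K

/-- Completely symmetric circuits with polynomially many gates count the homomorphisms to `Γ`. -/
def Easy {σ D : Type} {ar : σ → ℕ} (Γ : Str ar D) : Prop :=
  ∃ K : ℕ, ∀ n : ℕ, ∃ (G P T : Type) (_ : Fintype G) (C : Circuit (Atom ar (Fin n)) G P T),
    Computes C Γ ∧ (∀ ρ, IsSymm C ρ) ∧ Fintype.card G ≤ (n + 2) ^ K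

/-- [Easy] from `St_Det`, `St_Ckt`, `St_Size`

Proof. `Multiset (Port ar × Val D)` is countable (`σ`, `D` finite), so there is an injective `enc`.
The value of the output for `I` (the run is unique) determines `homs Γ I` by `St_Ckt` and `St_Det`,
so a function `dec` exists. -/
def St_Easy : Prop :=
  ∀ (σ D : Type) (ar : σ → ℕ) [Finite σ] [Finite D] (Γ : Str ar D), Balanced Γ →
    HasMajority Γ → Easy Γ

/-! ## Boolean templates and graphs -/

/-- the relation is empty or a conjunction of conditions `u i = c`, `u i = u j`, `u i ≠ u j` -/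
def IsConj {k : ℕ} (Q : (Fin k → Bool) → Prop) : Prop :=
  (∀ u, ¬ Q u) ∨ ∃ (A : Set (Fin k × Bool)) (B : Set (Fin k × Fin k × Bool)), ∀ u, Q u ↔
    (∀ p ∈ A, u p.1 = p.2) ∧ ∀ t ∈ B, xor (u t.1) (u t.2.1) = t.2.2

/-- [Bool]

Proof. From right to left: the Boolean majority operation preserves the conditions. `Balanced`: the
conditions are preserved by `x + y + z` (`xor`); so is the set of the homomorphisms `X → Γ`. If
`(s, w)`, `(s', w)`, `(s, w')` have extensions `y₀`, `y₁`, `y₂`, then
`y ↦ y + y₁ + y₂` maps the extensions of `(s, w)` injectively to extensions of `(s', w')`, and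
similarly for each two of the four pairs, so the four numbers are equal.
From left to right: `Γ R` is preserved by a majority operation, so `Γ R u` holds iff for all `a`, `b`
there is `v` with `Γ R v`, `v a = u a`, `v b = u b` (if `Γ R` is not empty; as in `St_Nice`). By
`Balanced` (the structure with one tuple; `A = {a}`, `B = {b}`) the binary projection to `a ≠ b` is
a rectangular relation on `Bool`: it is `∅`, a box, `=` or `≠`, hence a conjunction; let `A`, `B` be
the sets of all the conditions of the two forms that are implied by `Γ R`. -/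
def St_Bool : Prop :=
  ∀ (σ : Type) (ar : σ → ℕ) (Γ : Str ar Bool),
    (Balanced Γ ∧ HasMajority Γ) ↔ ∀ R, IsConj (Γ R)

/-- the template of a graph -/
def grTpl {D : Type} (H : D → D → Prop) : Str (fun _ : Unit => 2) D := fun _ u => H (u 0) (u 1)

/-- [Graph]

Proof. Let `nb x = {y | H x y}`. From left to right: `Balanced` for the structure with one edge, with
the rows `c`, `a` and the columns `b`, `d`. From right to left: (1) if `nb x`, `nb y` meet they are
equal. So if `H x x'`, `H y y'` and `nb x = nb y` then `nb x' = nb y'`, and `H x y'`.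
Majority: `m x y z` = if `nb x = nb y = nb z` then (if `y = z` then `y` else `x`), else if
`nb y = nb z` then `y` else `x`. (Check: `m x x z = x`, `m x y x = x`, `m y x x = x`.) It preserves
`H` by (1), as the pattern of the equalities of `nb` is the same for `x, y, z` and `x', y', z'`.
Balanced: let `X` be a structure on `(A ⊕ B) ⊕ Y`, and let `(s, w)`, `(s', w)`, `(s, w')` have
extensions. Call a vertex `t` of `X` of type A if it is connected (in the symmetric closure of `X`)
to a vertex in `A`. For homomorphisms `h₁`, `h₂` of `X` let `k₁`, `k₂` be obtained by exchanging the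
values of `h₁` and `h₂` at the vertices in `B` and at the vertices not of type A. If `h₁` extends
`(s, w)` and `h₂` extends `(s', w')` then `k₁` extends `(s, w')` and `k₂` extends `(s', w)`, and
conversely; the map is an involution. They are homomorphisms: for an edge `t t'` of a component
without vertices in `A` all values are exchanged; in a component that meets `A` but not `B` nothing is
exchanged; if it meets `A` and `B`, then `nb (h₁ t) = nb (h₂ t)` for all `t` in the component: by (1)
this propagates along edges, `h₁` and the extension `f` of `(s', w)` agree at a vertex of `B`, and `f`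
and `h₂` agree at a vertex of `A`. So all four values of an edge are compatible. For
`h₁` over `(s, w')` and `h₂` over `(s', w)` use the extension of `(s, w)` instead. -/
def St_Graph : Prop :=
  ∀ (D : Type) [Finite D] (H : D → D → Prop), (∀ x y, H x y → H y x) →
    ((Balanced (grTpl H) ∧ HasMajority (grTpl H)) ↔
      ∀ a b c d, H a b → H b c → H c d → H a d)

end Pool.Agent.SYH
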