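import Mathlib
import Pool.Agent.SYH.StC

/-!
# SYH, module Chain: the chain rule
-/

set_option autoImplicit false

namespace Pool.Agent.SYH

open Finset

variable {n : ℕ} {D : Type}

open Classical in
/-- the elements which agree with `ω` on `S` -/
private noncomputable def Chain_A (Om : Finset (Fin n → D)) (ω : Fin n → D) (S : Finset (Fin n)) :
    Finset (Fin n → D) := Om.filter fun ω' => ∀ i ∈ S, ω' i = ω i

open Classical in
private theorem Chain_mem {Om : Finset (Fin n → D)} {ω ω' : Fin n → D} {S : Finset (Fin n)} :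
    ω' ∈ Chain_A Om ω S ↔ ω' ∈ Om ∧ ∀ i ∈ S, ω' i = ω i := by
  unfold Chain_A
  rw [Finset.mem_filter]

open Classical in
private theorem Chain_cnt {Om : Finset (Fin n → D)} {S : Finset (Fin n)} {j : Fin n}
    {u : Fin n → D} {d : D} (A : Finset (Fin n → D))
    (hA : ∀ ω, ω ∈ A ↔ ω ∈ Om ∧ (∀ i ∈ S, ω i = u i) ∧ ω j = d) : cnt Om S j u d = A.card := by
  unfold cnt
  refine congrArg Finset.card (Finset.ext fun ω => ?_)
  rw [Finset.mem_filter, hA]

/-- **Module Chain** -/
theorem thm_Chain (h : St_Cond) : St_Chain := by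
  classical
  intro n D _ Om hN π ω hω
  -- the sets of the earlier indices
  let St : ℕ → Finset (Fin n) := fun t => Finset.univ.filter fun i => (π i : ℕ) < t
  have hSt : ∀ t i, i ∈ St t ↔ (π i : ℕ) < t := by
    intro t i
    show i ∈ Finset.univ.filter _ ↔ _
    rw [Finset.mem_filter]
    exact ⟨fun h => h.2, fun h => ⟨Finset.mem_univ _, h⟩⟩
  let c : ℕ → ℕ := fun t => (Chain_A Om ω (St t)).card
  have hcpos : ∀ t, (0 : ℝ) < (c t : ℝ) := by
    intro t
    have : 0 < (Chain_A Om ω (St t)).card :=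
      Finset.card_pos.2 ⟨ω, Chain_mem.2 ⟨hω, fun _ _ => rfl⟩⟩
    exact_mod_cast this
  have hOpos : (0 : ℝ) < (Om.card : ℝ) := by
    have : 0 < Om.card := Finset.card_pos.2 ⟨ω, hω⟩
    exact_mod_cast this
  have hc0 : c 0 = Om.card := by
    show (Chain_A Om ω (St 0)).card = _
    refine congrArg Finset.card (Finset.ext fun ω' => ?_)
    rw [Chain_mem]
    exact ⟨fun h => h.1, fun h => ⟨h, fun i hi => absurd ((hSt 0 i).1 hi) (Nat.not_lt_zero _)⟩⟩
  have hcn : c n = 1 := by
    show (Chain_A Om ω (St n)).card = 1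
    rw [Finset.card_eq_one]
    refine ⟨ω, Finset.ext fun ω' => ?_⟩
    rw [Chain_mem, Finset.mem_singleton]
    constructor
    · rintro ⟨-, h2⟩
      exact funext fun i => h2 i ((hSt n i).2 (π i).2)
    · rintro rfl
      exact ⟨hω, fun _ _ => rfl⟩
  -- one factor
  have hfac : ∀ j : Fin n, Real.log (mg Om j (ω j) /
      ∑ e ∈ blk (pr Om j '' {i | π i < π j}) (ω j), mg Om j e) =
      Real.log (c ((π j : ℕ) + 1)) - Real.log (c (π j : ℕ)) := by
    intro j
    have hj : j ∉ St (π j) := fun hj => lt_irrefl _ ((hSt _ j).1 hj)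
    have hQ : (pr Om j '' {i | i ∈ St (π j)}) = pr Om j '' {i | π i < π j} := by
      congr 1
      ext i
      exact hSt _ i
    have key := h n D Om hN (St (π j)) j hj ω hω
    rw [hQ] at key
    -- the four numbers
    have k1 : cnt Om (St (π j)) j ω (ω j) = c ((π j : ℕ) + 1) := by
      refine Chain_cnt _ fun ω' => ?_
      rw [Chain_mem]
      constructor
      · rintro ⟨h1, h2⟩
        refine ⟨h1, fun i hi => h2 i ((hSt _ i).2 ?_), h2 j ((hSt _ j).2 (Nat.lt_succ_self _))⟩
        exact Nat.lt_succ_of_lt ((hSt _ i).1 hi)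
      · rintro ⟨h1, h2, h3⟩
        refine ⟨h1, fun i hi => ?_⟩
        have h4 := (hSt _ i).1 hi
        rcases Nat.lt_succ_iff_lt_or_eq.1 h4 with h5 | h5
        · exact h2 i ((hSt _ i).2 h5)
        · have h6 : i = j := π.injective (Fin.ext h5)
          rw [h6]
          exact h3
    have k2 : (Om.filter fun ω' => ∀ i ∈ St (π j), ω' i = ω i).card = c (π j : ℕ) := by
      refine congrArg Finset.card (Finset.ext fun ω' => ?_)
      rw [Chain_mem, Finset.mem_filter]
    have k3 : mg Om j (ω j) = ((Om.filter fun ω' => ω' j = ω j).card : ℝ) / Om.card := by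
      unfold mg
      rw [Chain_cnt (Om.filter fun ω' => ω' j = ω j) fun ω' => by
        rw [Finset.mem_filter]
        exact ⟨fun h => ⟨h.1, fun i hi => absurd hi (Finset.notMem_empty i), h.2⟩,
          fun h => ⟨h.1, h.2.2⟩⟩]
    have k4 : ∑ e ∈ blk (pr Om j '' {i | π i < π j}) (ω j), mg Om j e =
        ((Om.filter fun ω' => ω' j ∈ blk (pr Om j '' {i | π i < π j}) (ω j)).card : ℝ) / Om.card := by
      unfold mg
      rw [← Finset.sum_div]
      congr 1
      rw [Finset.card_eq_sum_card_fiberwise (f := fun ω' : Fin n → D => ω' j)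
        (t := blk (pr Om j '' {i | π i < π j}) (ω j)) (by
        intro ω' h
        rw [Finset.mem_coe, Finset.mem_filter] at h
        exact h.2)]
      push_cast
      refine Finset.sum_congr rfl fun e he => ?_
      congr 1
      refine Chain_cnt _ fun ω' => ?_
      rw [Finset.mem_filter, Finset.mem_filter]
      constructor
      · rintro ⟨⟨h1, _⟩, h3⟩
        exact ⟨h1, fun i hi => absurd hi (Finset.notMem_empty i), h3⟩
      · rintro ⟨h1, _, h3⟩
        refine ⟨⟨h1, ?_⟩, h3⟩
        rw [h3]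
        exact he
    rw [k1, k2] at key
    set x := (Om.filter fun ω' => ω' j = ω j).card with hx
    set y := (Om.filter fun ω' => ω' j ∈ blk (pr Om j '' {i | π i < π j}) (ω j)).card with hy
    have hypos : (0 : ℝ) < (y : ℝ) := by
      have h1 : 0 < c (π j : ℕ) * x := by
        refine Nat.mul_pos ?_ (Finset.card_pos.2 ⟨ω, Finset.mem_filter.2 ⟨hω, rfl⟩⟩)
        exact_mod_cast hcpos (π j : ℕ)
      rw [← key] at h1
      have h2 : 0 < y := Nat.pos_of_mul_pos_left h1
      exact_mod_cast h2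
    have hratio : mg Om j (ω j) / ∑ e ∈ blk (pr Om j '' {i | π i < π j}) (ω j), mg Om j e =
        (c ((π j : ℕ) + 1) : ℝ) / (c (π j : ℕ) : ℝ) := by
      rw [k3, k4, div_div_div_cancel_right₀ hOpos.ne', div_eq_div_iff hypos.ne' (hcpos _).ne']
      have : (c ((π j : ℕ) + 1) : ℝ) * (y : ℝ) = (c (π j : ℕ) : ℝ) * (x : ℝ) := by exact_mod_cast key
      linarith
    rw [hratio, Real.log_div (hcpos _).ne' (hcpos _).ne']
  rw [Finset.sum_congr rfl fun j _ => hfac j]
  have h1 : ∑ j, (Real.log (c ((π j : ℕ) + 1)) - Real.log (c (π j : ℕ))) =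
      ∑ t : Fin n, (Real.log (c ((t : ℕ) + 1)) - Real.log (c (t : ℕ))) :=
    Equiv.sum_comp π fun t : Fin n => (Real.log (c ((t : ℕ) + 1)) - Real.log (c (t : ℕ)))
  rw [h1, Fin.sum_univ_eq_sum_range (fun t => Real.log (c (t + 1)) - Real.log (c t)) n,
    Finset.sum_range_sub (fun t => Real.log (c t)), hc0, hcn]
  simp

end Pool.Agent.SYH
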