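import Pool.Agent.SYH.StA

/-!
# Every circuit has exactly one run on every input
-/

set_option autoImplicit false

namespace Pool.Agent.SYH

theorem thm_Run : St_Run := by
  intro ι G P T C x
  let F : (g : G) → ((h : G) → C.level h < C.level g → T) → T := fun g ih =>
    C.fn g (∃ a ∈ C.atom g, x a) ((C.wires g).attach.val.map fun w =>
      (w.1.1, ih w.1.2 (C.level_lt g w.1.1 w.1.2 w.2)))
  have wf : WellFounded fun g h : G => C.level g < C.level h := (measure C.level).wf
  let v : G → T := wf.fix F
  have hv : ∀ g, v g = F g fun h _ => v h := fun g => wf.fix_eq F g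
  have hrun : C.IsRun x v := by
    intro g
    rw [hv g]
    change C.fn g (∃ a ∈ C.atom g, x a) ((C.wires g).val.attach.map fun w =>
      (w.1.1, v w.1.2)) = _
    rw [Multiset.attach_map_val' (C.wires g).val (fun w : P × G => (w.1, v w.2))]
  refine ⟨v, hrun, fun v' hv' => ?_⟩
  have key : ∀ n g, C.level g < n → v' g = v g := by
    intro n
    induction n with
    | zero =>
      intro g hg
      exact absurd hg (Nat.not_lt_zero _)
    | succ n ih =>
      intro g hg
      rw [hv' g, hrun g]
      have h : ((C.wires g).val.map fun w => (w.1, v' w.2)) =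
          (C.wires g).val.map fun w => (w.1, v w.2) := by
        refine Multiset.map_congr rfl fun w hw => ?_
        have h1 : C.level w.2 < C.level g := C.level_lt g w.1 w.2 hw
        rw [ih w.2 (by omega)]
      rw [h]
  exact funext fun g => key _ g (Nat.lt_succ_self _)

end Pool.Agent.SYH
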