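import Pool.Agent.SYH.CktD
import Pool.Agent.SYH.Run

/-!
# The circuit of the easy side: the values of the gates
-/

set_option autoImplicit false

namespace Pool.Agent.SYH

open Finset

variable {σ : Type} {ar : σ → ℕ} {D : Type} {n N M : ℕ}

section
variable [Finite σ] {Γ : Str ar D} {enc : Multiset (Port ar × Val D) → ℕ} {I : Str ar (Fin n)}
  {v : Gt ar n N M → Val D}

private theorem Ckt_mem (g : Gt ar n N M) (t : Port ar × Val D) :
    t ∈ ((ckt Γ enc n N M).wires g).val.map (fun w => (w.1, v w.2)) ↔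
      ∃ p h, Wr g p h ∧ (p, v h) = t := by
  rw [Multiset.mem_map]
  constructor
  · rintro ⟨w, hw, h⟩
    exact ⟨w.1, w.2, (mem_ckt Γ enc g w).1 hw, h⟩
  · rintro ⟨p, h, hw, ht⟩
    exact ⟨(p, h), (mem_ckt Γ enc g (p, h)).2 hw, ht⟩

private theorem Ckt_run (hv : (ckt Γ enc n N M).IsRun (holds I) v) (g : Gt ar n N M) :
    v g = gFn Γ enc g (∃ a ∈ gAtom g, holds I a)
      (((ckt Γ enc n N M).wires g).val.map fun w => (w.1, v w.2)) := hv g

open Classical in
private theorem Ckt_atm (hv : (ckt Γ enc n N M).IsRun (holds I) v) (a : Atom ar (Fin n)) :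
    v (.atm a) = (∅, if holds I a then 1 else 0) := by
  rw [Ckt_run hv]
  simp only [gFn, gAtom, Option.mem_def, Option.some.injEq, exists_eq_left']

private theorem Ckt_one (hv : (ckt Γ enc n N M).IsRun (holds I) v) :
    v .one = (∅, 0) := by
  rw [hv]
  rfl

private theorem Ckt_w0 (hv : (ckt Γ enc n N M).IsRun (holds I) v) (i j : Fin n) :
    v (.w 0 i j) = (Wn Γ I 0 i j, 0) := by
  rw [Ckt_run hv]
  simp only [gFn, Fin.val_zero, if_true]
  refine Prod.ext ?_ rfl
  ext p
  simp only [Wn, Set.mem_ofPred_eq]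
  have h1 : (∃ t ∈ ((ckt Γ enc n N M).wires (.w 0 i j)).val.map (fun w => (w.1, v w.2)),
      t.1 = Sum.inl 0) ↔ i = j := by
    constructor
    · rintro ⟨t, ht, h0⟩
      obtain ⟨q, h, hw, rfl⟩ := (Ckt_mem _ _).1 ht
      rcases h with a' | _ | ⟨r', i', j'⟩ | ⟨r', i', k', j'⟩ | ⟨s', i', j'⟩ | ⟨s', i'⟩ | _ <;>
        simp only [Wr] at hw
      · change q = _ at h0
        subst h0
        rcases hw.2 with h | ⟨x, y, h, -⟩ <;> cases h
      · exact hw.2.1
      · have := hw.1
        simp at this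
      · have := hw.1
        simp at this
    · intro h
      exact ⟨_, (Ckt_mem _ _).2 ⟨Sum.inl 0, .one, ⟨rfl, h, rfl⟩, rfl⟩, rfl⟩
  have h2 : ∀ R, (Sum.inr ⟨R, none⟩, (∅, 1)) ∈
      ((ckt Γ enc n N M).wires (.w 0 i j)).val.map (fun w => (w.1, v w.2)) ↔
        ∃ u, I R u := by
    intro R
    constructor
    · intro ht
      obtain ⟨q, h, hw, he⟩ := (Ckt_mem _ _).1 ht
      rcases h with a' | _ | ⟨r', i', j'⟩ | ⟨r', i', k', j'⟩ | ⟨s', i', j'⟩ | ⟨s', i'⟩ | _ <;>
        simp only [Wr] at hw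
      · rw [Ckt_atm hv] at he
        have h3 := congrArg (fun t : Port ar × Val D => t.2.2) he
        have h4 : holds I a' := by
          by_contra h4
          simp [h4] at h3
        have h5 := congrArg (fun t : Port ar × Val D => t.1) he
        change q = _ at h5
        subst h5
        rcases hw.2 with h | ⟨x, y, h, -⟩
        · have h6 : R = a'.1 := by
            have := Sum.inr.inj h
            exact congrArg Sigma.fst this
          subst h6
          exact ⟨a'.2, h4⟩
        · exfalso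
          have h6 := Sum.inr.inj h
          rw [Sigma.mk.injEq] at h6
          obtain ⟨h7, h8⟩ := h6
          subst h7
          cases eq_of_heq h8
      · obtain ⟨-, -, rfl⟩ := hw
        have h5 := congrArg (fun t : Port ar × Val D => t.1) he
        cases h5
      · have := hw.1
        simp at this
      · have := hw.1
        simp at this
    · rintro ⟨u, hu⟩
      refine (Ckt_mem _ _).2 ⟨_, .atm ⟨R, u⟩, ⟨rfl, Or.inl rfl⟩, ?_⟩
      rw [Ckt_atm hv]
      have : holds I ⟨R, u⟩ := hu
      simp [this]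
  have h3 : ∀ R a b, (Sum.inr ⟨R, some (a, b)⟩, (∅, 1)) ∈
      ((ckt Γ enc n N M).wires (.w 0 i j)).val.map (fun w => (w.1, v w.2)) ↔
        ∃ u, I R u ∧ u a = i ∧ u b = j := by
    intro R a b
    constructor
    · intro ht
      obtain ⟨q, h, hw, he⟩ := (Ckt_mem _ _).1 ht
      rcases h with a' | _ | ⟨r', i', j'⟩ | ⟨r', i', k', j'⟩ | ⟨s', i', j'⟩ | ⟨s', i'⟩ | _ <;>
        simp only [Wr] at hw
      · rw [Ckt_atm hv] at he
        have h3 := congrArg (fun t : Port ar × Val D => t.2.2) he
        have h4 : holds I a' := by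
          by_contra h4
          simp [h4] at h3
        have h5 := congrArg (fun t : Port ar × Val D => t.1) he
        change q = _ at h5
        subst h5
        rcases hw.2 with h | ⟨x, y, h, hx, hy⟩
        · exfalso
          have h6 := Sum.inr.inj h
          rw [Sigma.mk.injEq] at h6
          obtain ⟨h7, h8⟩ := h6
          subst h7
          cases eq_of_heq h8
        · have h6 := Sum.inr.inj h
          rw [Sigma.mk.injEq] at h6
          obtain ⟨h7, h8⟩ := h6
          subst h7
          have h9 := Option.some.inj (eq_of_heq h8)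
          have ha : a = x := congrArg Prod.fst h9
          have hb : b = y := congrArg Prod.snd h9
          subst ha hb
          exact ⟨a'.2, h4, hx, hy⟩
      · obtain ⟨-, -, rfl⟩ := hw
        have h5 := congrArg (fun t : Port ar × Val D => t.1) he
        cases h5
      · have := hw.1
        simp at this
      · have := hw.1
        simp at this
    · rintro ⟨u, hu, ha, hb⟩
      refine (Ckt_mem _ _).2 ⟨_, .atm ⟨R, u⟩, ⟨rfl, Or.inr ⟨a, b, rfl, ha, hb⟩⟩, ?_⟩
      rw [Ckt_atm hv]
      have : holds I ⟨R, u⟩ := hu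
      simp [this]
  rw [h1]
  simp only [h2, h3]
  constructor
  · rintro ⟨h4, h5⟩
    exact ⟨h4, fun R u hu => ⟨(h5 R).1 ⟨u, hu⟩, fun a b ha hb => (h5 R).2 a b ⟨u, hu, ha, hb⟩⟩⟩
  · rintro ⟨h4, h5⟩
    refine ⟨h4, fun R => ⟨?_, ?_⟩⟩
    · rintro ⟨u, hu⟩
      exact (h5 R u hu).1
    · rintro a b ⟨u, hu, ha, hb⟩
      exact (h5 R u hu).2 a b ha hb

private theorem Ckt_c (hv : (ckt Γ enc n N M).IsRun (holds I) v) (r : Fin N) (i k j : Fin n)
    (hw0 : ∀ i j, v (.w r.castSucc i j) = (Wn Γ I r.1 i j, 0)) :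
    v (.c r i k j) =
      ({p | ∃ c, (p.1, c) ∈ Wn Γ I r.1 i k ∧ (c, p.2) ∈ Wn Γ I r.1 k j}, 0) := by
  rw [Ckt_run hv]
  simp only [gFn]
  refine Prod.ext ?_ rfl
  ext p
  simp only [Set.mem_ofPred_eq]
  apply exists_congr
  intro c
  refine and_congr ?_ ?_
  · constructor
    · rintro ⟨t, ht, h0, h1⟩
      obtain ⟨q, h, hw, rfl⟩ := (Ckt_mem _ _).1 ht
      change q = _ at h0
      subst h0
      rcases h with a' | _ | ⟨r', i', j'⟩ | ⟨r', i', k', j'⟩ | ⟨s', i', j'⟩ | ⟨s', i'⟩ | _ <;>
        simp only [Wr] at hw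
      rcases hw.2 with ⟨-, rfl, rfl⟩ | ⟨h, -⟩
      · have h2 : r' = r.castSucc := Fin.ext hw.1
        rw [h2, hw0] at h1
        exact h1
      · have := Sum.inl.inj h
        simp at this
    · intro h
      refine ⟨_, (Ckt_mem _ _).2 ⟨Sum.inl 0, .w r.castSucc i k, ⟨rfl, Or.inl ⟨rfl, rfl, rfl⟩⟩,
        rfl⟩, rfl, ?_⟩
      rw [hw0]
      exact h
  · constructor
    · rintro ⟨t, ht, h0, h1⟩
      obtain ⟨q, h, hw, rfl⟩ := (Ckt_mem _ _).1 ht
      change q = _ at h0
      subst h0
      rcases h with a' | _ | ⟨r', i', j'⟩ | ⟨r', i', k', j'⟩ | ⟨s', i', j'⟩ | ⟨s', i'⟩ | _ <;>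
        simp only [Wr] at hw
      rcases hw.2 with ⟨h, -⟩ | ⟨-, rfl, rfl⟩
      · have := Sum.inl.inj h
        simp at this
      · have h2 : r' = r.castSucc := Fin.ext hw.1
        rw [h2, hw0] at h1
        exact h1
    · intro h
      refine ⟨_, (Ckt_mem _ _).2 ⟨Sum.inl 1, .w r.castSucc k j, ⟨rfl, Or.inr ⟨rfl, rfl, rfl⟩⟩,
        rfl⟩, rfl, ?_⟩
      rw [hw0]
      exact h

private theorem Ckt_w (hv : (ckt Γ enc n N M).IsRun (holds I) v) :
    ∀ (r : ℕ) (hr : r < N + 1) (i j : Fin n), v (.w ⟨r, hr⟩ i j) = (Wn Γ I r i j, 0) := by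
  intro r
  induction r with
  | zero =>
    intro hr i j
    exact Ckt_w0 hv i j
  | succ r ih =>
    intro hr i j
    have hr' : r < N := by omega
    have ih' : ∀ i j, v (.w (⟨r, hr'⟩ : Fin N).castSucc i j) = (Wn Γ I r i j, 0) := fun i j =>
      ih (by omega) i j
    rw [Ckt_run hv]
    simp only [gFn]
    rw [if_neg (by omega)]
    refine Prod.ext ?_ rfl
    ext p
    simp only [Set.mem_ofPred_eq, Wn]
    constructor
    · intro h
      constructor
      · have h1 := h _ ((Ckt_mem _ _).2 ⟨Sum.inl 0, .w (⟨r, hr'⟩ : Fin N).castSucc i j,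
          ⟨rfl, rfl, rfl, rfl⟩, rfl⟩)
        rw [ih'] at h1
        exact h1
      · intro k
        have h1 := h _ ((Ckt_mem _ _).2 ⟨Sum.inl 1, .c (⟨r, hr'⟩ : Fin N) i k j,
          ⟨rfl, rfl, rfl, rfl⟩, rfl⟩)
        rw [Ckt_c hv _ i k j ih'] at h1
        exact h1
    · rintro ⟨h1, h2⟩ t ht
      obtain ⟨q, h, hw, rfl⟩ := (Ckt_mem _ _).1 ht
      rcases h with a' | _ | ⟨r', i', j'⟩ | ⟨r', i', k', j'⟩ | ⟨s', i', j'⟩ | ⟨s', i'⟩ | _ <;>
        simp only [Wr] at hw
      · have := hw.1
        omega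
      · have := hw.1
        omega
      · obtain ⟨hr0, rfl, rfl, -⟩ := hw
        have h3 : r' = (⟨r, hr'⟩ : Fin N).castSucc := Fin.ext (by simp; omega)
        rw [h3, ih']
        exact h1
      · obtain ⟨hr0, rfl, rfl, -⟩ := hw
        have h3 : r' = (⟨r, hr'⟩ : Fin N) := Fin.ext (by simp; omega)
        rw [h3, Ckt_c hv _ _ k' _ ih']
        exact h2 k'

private theorem Ckt_q (hv : (ckt Γ enc n N M).IsRun (holds I) v) (s : Fin M) (i j : Fin n)
    (hk : ∀ i, v (.k s.castSucc i) = (∅, kap enc (Wn Γ I N) s.1 i)) :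
    v (.q s i j) = (Wn Γ I N i j, kap enc (Wn Γ I N) s.1 j) := by
  rw [Ckt_run hv]
  simp only [gFn]
  have hN : v (.w (Fin.last N) i j) = (Wn Γ I N i j, 0) := Ckt_w hv N (by omega) i j
  refine Prod.ext ?_ ?_
  · ext p
    simp only [Set.mem_ofPred_eq]
    constructor
    · rintro ⟨t, ht, h0, h1⟩
      obtain ⟨q, h, hw, rfl⟩ := (Ckt_mem _ _).1 ht
      change q = _ at h0
      subst h0
      rcases h with a' | _ | ⟨r', i', j'⟩ | ⟨r', i', k', j'⟩ | ⟨s', i', j'⟩ | ⟨s', i'⟩ | _ <;>
        simp only [Wr] at hw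
      · obtain ⟨hr0, rfl, rfl, -⟩ := hw
        have h3 : r' = Fin.last N := Fin.ext hr0
        rw [h3, hN] at h1
        exact h1
      · have := Sum.inl.inj hw.2.2
        simp at this
    · intro h
      refine ⟨_, (Ckt_mem _ _).2 ⟨Sum.inl 0, .w (Fin.last N) i j, ⟨rfl, rfl, rfl, rfl⟩, rfl⟩,
        rfl, ?_⟩
      rw [hN]
      exact h
  · change sInf _ = _
    have h : {x | ∃ t ∈ ((ckt Γ enc n N M).wires (.q s i j)).val.map (fun w => (w.1, v w.2)),
        t.1 = Sum.inl 1 ∧ t.2.2 = x} = {kap enc (Wn Γ I N) s.1 j} := by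
      ext x
      simp only [Set.mem_ofPred_eq, Set.mem_singleton_iff]
      constructor
      · rintro ⟨t, ht, h0, h1⟩
        obtain ⟨q, h, hw, rfl⟩ := (Ckt_mem _ _).1 ht
        change q = _ at h0
        subst h0
        rcases h with a' | _ | ⟨r', i', j'⟩ | ⟨r', i', k', j'⟩ | ⟨s', i', j'⟩ | ⟨s', i'⟩ | _ <;>
          simp only [Wr] at hw
        · have := Sum.inl.inj hw.2.2.2
          simp at this
        · obtain ⟨hr0, rfl, -⟩ := hw
          have h3 : s' = s.castSucc := Fin.ext hr0
          rw [h3, hk] at h1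
          exact h1.symm
      · rintro rfl
        refine ⟨_, (Ckt_mem _ _).2 ⟨Sum.inl 1, .k s.castSucc j, ⟨rfl, rfl, rfl⟩, rfl⟩, rfl, ?_⟩
        rw [hk]
    rw [h]
    exact csInf_singleton _

open Classical in
private theorem Ckt_kwires (s : Fin M) (i : Fin n) :
    (ckt Γ enc n N M).wires (.k s.succ i) = insert (Sum.inl 0, .k s.castSucc i)
      ((univ : Finset (Fin n)).image fun j => (Sum.inl (if i = j then 2 else 1), .q s i j)) := by
  ext w
  rw [mem_ckt, mem_insert, mem_image]
  obtain ⟨p, h⟩ := w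
  rcases h with a' | _ | ⟨r', i', j'⟩ | ⟨r', i', k', j'⟩ | ⟨s', i', j'⟩ | ⟨s', i'⟩ | _
  · simp [Wr]
  · simp [Wr]
  · simp [Wr]
  · simp [Wr]
  · simp only [Wr, Fin.val_succ, add_left_inj, Prod.mk.injEq, reduceCtorEq, and_false, mem_univ,
      Gt.q.injEq, true_and, false_or]
    constructor
    · rintro ⟨h1, rfl, rfl⟩
      exact ⟨j', rfl, Fin.ext h1, rfl, rfl⟩
    · rintro ⟨j, rfl, rfl, rfl, rfl⟩
      exact ⟨rfl, rfl, rfl⟩
  · simp only [Wr, Fin.val_succ, add_left_inj, Prod.mk.injEq, reduceCtorEq, and_false, mem_univ,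
      Gt.k.injEq, true_and, exists_false, or_false]
    constructor
    · rintro ⟨h1, rfl, rfl⟩
      exact ⟨rfl, Fin.ext h1.symm, rfl⟩
    · rintro ⟨rfl, rfl, rfl⟩
      exact ⟨rfl, rfl, rfl⟩
  · simp [Wr]

private theorem Ckt_k (hv : (ckt Γ enc n N M).IsRun (holds I) v) :
    ∀ (s : ℕ) (hs : s < M + 1) (i : Fin n),
      v (.k ⟨s, hs⟩ i) = (∅, kap enc (Wn Γ I N) s i) := by
  classical
  intro s
  induction s with
  | zero =>
    intro hs i
    rw [Ckt_run hv]
    simp only [gFn, if_true, kap]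
  | succ s ih =>
    intro hs i
    have hs' : s < M := by omega
    have ih' : ∀ i, v (.k (⟨s, hs'⟩ : Fin M).castSucc i) = (∅, kap enc (Wn Γ I N) s i) :=
      fun i => ih (by omega) i
    rw [Ckt_run hv]
    simp only [gFn]
    rw [if_neg (by omega)]
    refine Prod.ext rfl ?_
    change enc _ = kap enc (Wn Γ I N) (s + 1) i
    simp only [kap]
    congr 1
    have h1 := Ckt_kwires (Γ := Γ) (enc := enc) (N := N) (⟨s, hs'⟩ : Fin M) i
    change (ckt Γ enc n N M).wires (.k ⟨s + 1, hs⟩ i) = _ at h1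
    rw [h1, insert_val_of_notMem, Multiset.map_cons]
    · congr 1
      · rw [ih']
      · rw [image_val_of_injOn, Multiset.map_map]
        · apply Multiset.map_congr rfl
          intro j _
          change (_, v (.q ⟨s, hs'⟩ i j)) = _
          rw [Ckt_q hv _ i j ih']
        · intro j _ j' _ h
          have := congrArg Prod.snd h
          simp only [Gt.q.injEq] at this
          exact this.2.2
    · rw [mem_image]
      rintro ⟨j, -, h⟩
      have := congrArg Prod.snd h
      cases this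

end

theorem thm_Ckt : St_Ckt := by
  classical
  intro σ D ar _ _ Γ enc henc n N M
  refine ⟨ckt Γ enc n N M, ckt_symm Γ enc n N M, fun I => ?_⟩
  obtain ⟨v, hv, -⟩ := thm_Run _ _ _ _ (ckt Γ enc n N M) (holds I)
  refine ⟨v, hv, fun I' v' hv' hout => ?_⟩
  have hout' : v .out = v' .out := hout
  rw [hv, hv'] at hout'
  have h1 : enc (((ckt Γ enc n N M).wires .out).val.map fun w => (w.1, v w.2)) =
      enc (((ckt Γ enc n N M).wires .out).val.map fun w => (w.1, v' w.2)) :=
    congrArg Prod.snd hout'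
  have h2 := henc h1
  constructor
  · rintro rfl
    funext R u
    have hmem : ∀ (I I' : Str ar (Fin 0)) (v v' : Gt ar 0 N M → Val D),
        (ckt Γ enc 0 N M).IsRun (holds I) v → (ckt Γ enc 0 N M).IsRun (holds I') v' →
        (((ckt Γ enc 0 N M).wires .out).val.map fun w => (w.1, v w.2)) =
          (((ckt Γ enc 0 N M).wires .out).val.map fun w => (w.1, v' w.2)) →
        I R u → I' R u := by
      intro I I' v v' hv hv' h2 hI
      have h3 : (Sum.inr ⟨R, none⟩, (∅, 1)) ∈
          ((ckt Γ enc 0 N M).wires .out).val.map (fun w => (w.1, v w.2)) := by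
        refine (Ckt_mem _ _).2 ⟨_, .atm ⟨R, u⟩, rfl, ?_⟩
        rw [Ckt_atm hv]
        have : holds I ⟨R, u⟩ := hI
        simp [this]
      rw [h2] at h3
      obtain ⟨q, h, hw, he⟩ := (Ckt_mem _ _).1 h3
      rcases h with a' | _ | ⟨r', i', j'⟩ | ⟨r', i', k', j'⟩ | ⟨s', i', j'⟩ | ⟨s', i'⟩ | _ <;>
        simp only [Wr] at hw
      · rw [Ckt_atm hv'] at he
        have h3 := congrArg (fun t : Port ar × Val D => t.2.2) he
        have h4 : holds I' a' := by
          by_contra h4
          simp [h4] at h3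
        have h5 := congrArg (fun t : Port ar × Val D => t.1) he
        change q = _ at h5
        subst h5
        obtain ⟨R', u'⟩ := a'
        have h6 : R = R' := congrArg Sigma.fst (Sum.inr.inj hw)
        subst h6
        have h7 : u = u' := by
          funext x
          exact (u x).elim0
        subst h7
        exact h4
      · exact i'.elim0
    apply propext
    exact ⟨hmem I I' v v' hv hv' h2, hmem I' I v' v hv' hv h2.symm⟩
  · -- the colours
    have key : ∀ (I : Str ar (Fin n)) (v : Gt ar n N M → Val D),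
        (ckt Γ enc n N M).IsRun (holds I) v →
        ((((ckt Γ enc n N M).wires .out).val.map fun w => (w.1, v w.2)).filter
          fun t => t.1 = Sum.inl 0).map (fun t => t.2.2) =
          (univ : Finset (Fin n)).val.map (kap enc (Wn Γ I N) M) := by
      intro I v hv
      rw [Multiset.filter_map, Multiset.map_map]
      have h3 : ((ckt Γ enc n N M).wires .out).val.filter
          ((fun t : Port ar × Val D => t.1 = Sum.inl 0) ∘ fun w => (w.1, v w.2)) =
          ((univ : Finset (Fin n)).image fun i =>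
            ((Sum.inl 0, .k (Fin.last M) i) : Port ar × Gt ar n N M)).val := by
        have h4 : ((ckt Γ enc n N M).wires .out).filter (fun w => w.1 = Sum.inl 0) =
            (univ : Finset (Fin n)).image fun i =>
              ((Sum.inl 0, .k (Fin.last M) i) : Port ar × Gt ar n N M) := by
          ext w
          rw [mem_filter, mem_ckt, mem_image]
          obtain ⟨p, h⟩ := w
          rcases h with a' | _ | ⟨r', i', j'⟩ | ⟨r', i', k', j'⟩ | ⟨s', i', j'⟩ | ⟨s', i'⟩ | _
          · simp only [Wr, Prod.mk.injEq, reduceCtorEq, and_false, exists_false, iff_false,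
              not_and]
            rintro rfl h
            cases h
          · simp [Wr]
          · simp [Wr]
          · simp [Wr]
          · simp [Wr]
          · simp only [Wr, mem_univ, true_and, Prod.mk.injEq, Gt.k.injEq]
            constructor
            · rintro ⟨⟨h1, rfl⟩, -⟩
              exact ⟨i', rfl, Fin.ext h1.symm, rfl⟩
            · rintro ⟨i, rfl, rfl, rfl⟩
              exact ⟨⟨rfl, rfl⟩, rfl⟩
          · simp [Wr]
        rw [← h4]
        rfl
      rw [h3, image_val_of_injOn, Multiset.map_map]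
      · apply Multiset.map_congr rfl
        intro i _
        change (v (.k (Fin.last M) i)).2 = _
        have h5 : v (.k (Fin.last M) i) = (∅, kap enc (Wn Γ I N) M i) :=
          Ckt_k hv M (by omega) i
        rw [h5]
      · intro i _ i' _ h
        have := congrArg Prod.snd h
        simp only [Gt.k.injEq, true_and] at this
        exact this
    rw [← key I v hv, ← key I' v' hv', h2]

end Pool.Agent.SYH
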