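import Pool.Agent.SYH.StC

/-!
# SYH [Col]: the colours determine the number of solutions (helper72)
-/

set_option autoImplicit false

namespace Pool.Agent.SYH

open Finset

/-- substitution in the sum over the orders -/
private theorem Col_perm {n : ℕ} {D : Type} [Fintype D] (Om Om' : Finset (Fin n → D))
    (i j : Fin n) (β : Equiv.Perm (Fin n)) (hij : β i = j)
    (hR : ∀ k, pr Om' j (β k) = pr Om i k) (q : D → ℝ) :
    ∑ π : Equiv.Perm (Fin n), ent q (pr Om' j '' {k | π k < π j}) =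
      ∑ π : Equiv.Perm (Fin n), ent q (pr Om i '' {k | π k < π i}) := by
  classical
  rw [← Equiv.sum_comp (Equiv.mulRight β)
    (fun π : Equiv.Perm (Fin n) => ent q (pr Om i '' {k | π k < π i}))]
  refine Finset.sum_congr rfl fun π _ => ?_
  refine congrArg (ent q) ?_
  ext ρ
  constructor
  · rintro ⟨k, hk, rfl⟩
    refine ⟨β.symm k, ?_, ?_⟩
    · change π (β (β.symm k)) < π (β i)
      rw [β.apply_symm_apply, hij]
      exact hk
    · rw [← hR, β.apply_symm_apply]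
  · rintro ⟨k, hk, rfl⟩
    refine ⟨β k, ?_, hR k⟩
    change π (β k) < π j
    rw [← hij]
    exact hk

/-- the entropy of the average -/
private theorem Col_ent (h3 : St_Conc) {n : ℕ} {D : Type} [Fintype D] (m : Fin n → D → ℝ)
    (hm : ∀ i d, 0 ≤ m i d) (V : Finset (Fin n)) (Q : Set (Set (D × D))) :
    (∑ i ∈ V, ent (m i) Q) / V.card ≤ ent (fun d => (∑ i ∈ V, m i d) / V.card) Q := by
  classical
  obtain ⟨hs, hh⟩ := h3 D Q
  have e1 := hs {i // i ∈ V} (fun i => m i.1) (fun i d => hm i.1 d)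
  have e2 : ∑ i ∈ V, ent (m i) Q = ∑ i : {i // i ∈ V}, ent (m i.1) Q :=
    (Finset.sum_coe_sort V fun i => ent (m i) Q).symm
  have e3 : ∀ d, ∑ i ∈ V, m i d = ∑ i : {i // i ∈ V}, m i.1 d := fun d =>
    (Finset.sum_coe_sort V fun i => m i d).symm
  have e4 : (fun d => (∑ i ∈ V, m i d) / (V.card : ℝ)) =
      fun d => (1 / (V.card : ℝ)) * ∑ i : {i // i ∈ V}, m i.1 d := by
    funext d
    rw [e3, div_eq_mul_inv, one_div, mul_comm]
  have hc : (0 : ℝ) ≤ 1 / (V.card : ℝ) := by positivity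
  rw [e4, hh _ _ hc, e2, div_eq_mul_inv, one_div, mul_comm]
  rw [one_div] at hc
  exact mul_le_mul_of_nonneg_left e1 hc

/-- averages over the colour classes, summed over all indices -/
private theorem Col_avg {n : ℕ} (κ κ' : Fin n → ℕ) (β : Equiv.Perm (Fin n))
    (hβ : ∀ k, κ' (β k) = κ k) (g : Fin n → ℝ) :
    ∑ j, (∑ i ∈ univ.filter (fun i => κ i = κ' j), g i) /
      ((univ.filter (fun i => κ i = κ' j)).card : ℝ) = ∑ i, g i := by
  classical
  rw [← Equiv.sum_comp β]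
  have h1 : ∀ k, (∑ i ∈ univ.filter (fun i => κ i = κ' (β k)), g i) /
      ((univ.filter (fun i => κ i = κ' (β k))).card : ℝ) =
      ∑ i, if κ i = κ k then g i / ((univ.filter (fun i' => κ i' = κ i)).card : ℝ) else 0 := by
    intro k
    rw [hβ, Finset.sum_div, ← Finset.sum_filter]
    refine Finset.sum_congr rfl fun i hi => ?_
    rw [(Finset.mem_filter.1 hi).2]
  rw [Finset.sum_congr rfl fun k _ => h1 k, Finset.sum_comm]
  refine Finset.sum_congr rfl fun i _ => ?_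
  rw [← Finset.sum_filter, Finset.sum_const, nsmul_eq_mul]
  have h2 : (univ.filter fun k => κ i = κ k) = univ.filter (fun i' => κ i' = κ i) := by
    ext k
    rw [Finset.mem_filter, Finset.mem_filter]
    exact ⟨fun h => ⟨h.1, h.2.symm⟩, fun h => ⟨h.1, h.2.symm⟩⟩
  rw [h2]
  have h3 : ((univ.filter (fun i' => κ i' = κ i)).card : ℝ) ≠ 0 := by
    rw [Nat.cast_ne_zero]
    exact Finset.card_ne_zero.2 ⟨i, Finset.mem_filter.2 ⟨Finset.mem_univ _, rfl⟩⟩
  field_simp

/-- the double sum -/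
private theorem Col_dbl {n : ℕ} {W : Type} [Fintype W] (κ κ' : Fin n → ℕ)
    (β : Equiv.Perm (Fin n)) (hβ : ∀ k, κ' (β k) = κ k) (F : W → Fin n → Fin n → ℝ)
    (G : W → Fin n → ℝ) (h : ∀ i j, κ i = κ' j → ∑ π, F π i j = ∑ π, G π i) :
    ∑ π, ∑ j, (∑ i ∈ univ.filter (fun i => κ i = κ' j), F π i j) /
      ((univ.filter (fun i => κ i = κ' j)).card : ℝ) = ∑ π, ∑ i, G π i := by
  rw [Finset.sum_comm]
  have e1 : ∀ j, ∑ π, (∑ i ∈ univ.filter (fun i => κ i = κ' j), F π i j) /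
      ((univ.filter (fun i => κ i = κ' j)).card : ℝ) =
      (∑ i ∈ univ.filter (fun i => κ i = κ' j), ∑ π, G π i) /
      ((univ.filter (fun i => κ i = κ' j)).card : ℝ) := by
    intro j
    rw [← Finset.sum_div, Finset.sum_comm]
    refine congrArg (fun x : ℝ => x / ((univ.filter (fun i => κ i = κ' j)).card : ℝ)) ?_
    exact Finset.sum_congr rfl fun i hi => h i j (Finset.mem_filter.1 hi).2
  rw [Finset.sum_congr rfl fun j _ => e1 j, Col_avg κ κ' β hβ fun i => ∑ π, G π i,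
    Finset.sum_comm]

/-- the inequality -/
private theorem Col_le {n : ℕ} {W : Type} [Fintype W] [Nonempty W] (κ κ' : Fin n → ℕ)
    (β : Equiv.Perm (Fin n)) (hβ : ∀ k, κ' (β k) = κ k) (F : W → Fin n → Fin n → ℝ)
    (G : W → Fin n → ℝ) (h : ∀ i j, κ i = κ' j → ∑ π, F π i j = ∑ π, G π i) (a b : ℝ)
    (hG : ∀ π, ∑ i, G π i = a)
    (hF : ∀ π, ∑ j, (∑ i ∈ univ.filter (fun i => κ i = κ' j), F π i j) /
      ((univ.filter (fun i => κ i = κ' j)).card : ℝ) ≤ b) : a ≤ b := by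
  have h1 := Finset.sum_le_sum fun (π : W) (_ : π ∈ (univ : Finset W)) => hF π
  rw [Col_dbl κ κ' β hβ F G h, Finset.sum_congr rfl fun π _ => hG π, Finset.sum_const,
    Finset.sum_const, nsmul_eq_mul, nsmul_eq_mul] at h1
  have hpos : (0 : ℝ) < ((univ : Finset W).card : ℝ) := by
    rw [Nat.cast_pos]
    exact Finset.card_pos.2 Finset.univ_nonempty
  exact le_of_mul_le_mul_left h1 hpos

/-- [Col] -/
theorem thm_Col (h1 : St_Max) (h2 : St_Mean) (h3 : St_Conc) : St_Col := by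
  intro n D _ Om Om' κ κ' hN hN' hO hO' hM
  obtain ⟨hc, hmax⟩ := h1 n D Om hN hO
  obtain ⟨-, hmax'⟩ := h1 n D Om' hN' hO'
  have hq := h2 n D Om Om' κ κ' hO hc hM
  obtain ⟨⟨β, hβ⟩, hm⟩ := hM
  have hlog : Real.log Om.card ≤ Real.log Om'.card := by
    refine Col_le (W := Equiv.Perm (Fin n)) κ κ' β hβ
      (fun π i j => ent (mg Om i) (pr Om' j '' {k | π k < π j}))
      (fun π i => ent (mg Om i) (pr Om i '' {k | π k < π i})) ?_ _ _ ?_ ?_
    · intro i j hij
      obtain ⟨γ, hγ, hγ'⟩ := hm i j hij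
      exact Col_perm Om Om' i j γ hγ (fun k => (hγ' k).2) _
    · exact fun π => (hmax π).1
    · intro π
      refine le_trans ?_ ((hmax' π).2 _ hq)
      refine Finset.sum_le_sum fun j _ => ?_
      exact Col_ent h3 (mg Om) hc.nonneg (univ.filter (fun i => κ i = κ' j)) _
  have p1 : (0 : ℝ) < (Om.card : ℝ) := Nat.cast_pos.2 (Finset.card_pos.2 hO)
  have p2 : (0 : ℝ) < (Om'.card : ℝ) := Nat.cast_pos.2 (Finset.card_pos.2 hO')
  exact_mod_cast (Real.log_le_log_iff p1 p2).1 hlog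

end Pool.Agent.SYH
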