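import Pool.Agent.SYH.StC

/-!
# Superadditivity and homogeneity of the entropies
-/

set_option autoImplicit false

namespace Pool.Agent.SYH

open Finset

theorem thm_Conc (h : St_Gibbs) : St_Conc := by
  intro D _ Q
  refine ⟨fun J _ q hq => ?_, fun q c hc => ?_⟩
  · have h0 : ∀ d, 0 ≤ ∑ j, q j d := fun d => sum_nonneg fun j _ => hq j d
    have h1 : ∀ j, ent (q j) Q ≤
        - ∑ d, q j d * Real.log ((∑ i, q i d) / ∑ e ∈ blk Q d, ∑ i, q i e) := fun j =>
      h D (q j) (fun d => ∑ i, q i d) Q (hq j) h0 (fun d hd => by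
        have h2 : 0 < q j d := lt_of_le_of_ne (hq j d) (Ne.symm hd)
        have h3 : q j d ≤ ∑ i, q i d :=
          single_le_sum (f := fun i => q i d) (fun i _ => hq i d) (mem_univ j)
        exact (lt_of_lt_of_le h2 h3).ne')
    refine (sum_le_sum fun j _ => h1 j).trans (le_of_eq ?_)
    rw [sum_neg_distrib, sum_comm]
    unfold ent
    congr 1
    refine sum_congr rfl fun d _ => ?_
    rw [sum_mul]
  · rcases eq_or_ne c 0 with rfl | hc0
    · simp [ent]
    · unfold ent
      rw [mul_neg, mul_sum]
      congr 1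
      refine sum_congr rfl fun d _ => ?_
      rw [← mul_sum, mul_div_mul_left _ _ hc0]
      ring

end Pool.Agent.SYH
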