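import Mathlib
import Pool.Agent.SYH.StC

/-!
# SYH, module Cond: the conditional probabilities
-/

set_option autoImplicit false

namespace Pool.Agent.SYH

open Finset

variable {n : ℕ} {D : Type}

open Classical in
/-- the set which `cnt` counts -/
private noncomputable def Cond_F (Om : Finset (Fin n → D)) (S : Finset (Fin n)) (j : Fin n)
    (u : Fin n → D) (d : D) : Finset (Fin n → D) :=
  Om.filter fun ω => (∀ i ∈ S, ω i = u i) ∧ ω j = d

private theorem Cond_card {Om : Finset (Fin n → D)} {S : Finset (Fin n)} {j : Fin n}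
    {u : Fin n → D} {d : D} : cnt Om S j u d = (Cond_F Om S j u d).card := rfl

open Classical in
private theorem Cond_mem {Om : Finset (Fin n → D)} {S : Finset (Fin n)} {j : Fin n}
    {u : Fin n → D} {d : D} {ω : Fin n → D} :
    ω ∈ Cond_F Om S j u d ↔ ω ∈ Om ∧ (∀ i ∈ S, ω i = u i) ∧ ω j = d := by
  unfold Cond_F
  rw [Finset.mem_filter]

open Classical in
private theorem Cond_blk [Fintype D] (Q : Set (Set (D × D))) (d e : D) :
    e ∈ blk Q d ↔ ∀ ρ ∈ Q, ∀ c, (d, c) ∈ ρ ↔ (e, c) ∈ ρ := by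
  unfold blk
  rw [Finset.mem_filter]
  exact ⟨fun h => h.2, fun h => ⟨Finset.mem_univ _, h⟩⟩

private theorem Cond_ne {Om : Finset (Fin n → D)} {S : Finset (Fin n)} {j : Fin n} {u : Fin n → D}
    {d : D} : cnt Om S j u d ≠ 0 ↔ ∃ ω ∈ Om, (∀ i ∈ S, ω i = u i) ∧ ω j = d := by
  rw [Cond_card, Finset.card_ne_zero]
  constructor
  · rintro ⟨ω, h⟩
    rw [Cond_mem] at h
    exact ⟨ω, h.1, h.2⟩
  · rintro ⟨ω, h1, h2⟩
    exact ⟨ω, Cond_mem.2 ⟨h1, h2⟩⟩

private theorem Cond_pr {Om : Finset (Fin n → D)} {i j : Fin n} {c d : D} {u : Fin n → D}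
    (hu : u i = c) : (d, c) ∈ pr Om j i ↔ cnt Om {i} j u d ≠ 0 := by
  rw [Cond_ne]
  constructor
  · rintro ⟨ω, h1, h2, h3⟩
    refine ⟨ω, h1, ?_, h2⟩
    intro k hk
    rw [Finset.mem_singleton] at hk
    rw [hk, hu]
    exact h3
  · rintro ⟨ω, h1, h2, h3⟩
    refine ⟨ω, h1, h3, ?_⟩
    rw [h2 i (Finset.mem_singleton_self i), hu]

/-- **Module Cond** -/
theorem thm_Cond : St_Cond := by
  intro n D _ _ Om hN S j hj ω hω
  set Q : Set (Set (D × D)) := pr Om j '' {i | i ∈ S} with hQ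
  have hω0 : cnt Om S j ω (ω j) ≠ 0 := Cond_ne.2 ⟨ω, hω, fun _ _ => rfl, rfl⟩
  have hmemb : ∀ e, e ∈ blk Q (ω j) ↔ ∀ i ∈ S, ∀ c, (ω j, c) ∈ pr Om j i ↔ (e, c) ∈ pr Om j i := by
    intro e
    rw [Cond_blk]
    constructor
    · intro h i hi c
      exact h _ ⟨i, hi, rfl⟩ c
    · rintro h ρ ⟨i, hi, rfl⟩ c
      exact h i hi c
  -- (A), backward
  have hA1 : ∀ e, cnt Om S j ω e ≠ 0 → e ∈ blk Q (ω j) := by
    intro e he
    rw [hmemb]
    obtain ⟨ω1, h1, h2, h3⟩ := Cond_ne.1 he
    intro i hi c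
    have e1 : cnt Om {i} j ω (ω j) ≠ 0 := (Cond_pr rfl).1 ⟨ω, hω, rfl, rfl⟩
    have e2 : cnt Om {i} j ω e ≠ 0 := (Cond_pr rfl).1 ⟨ω1, h1, h3, h2 i hi⟩
    have hu : Function.update ω i c i = c := Function.update_self i c ω
    rw [Cond_pr hu, Cond_pr hu]
    constructor
    · intro h
      have := hN.bal {i} j ω (Function.update ω i c) (ω j) e e1 h e2
      intro h0
      rw [h0, mul_zero] at this
      exact mul_ne_zero e2 h this.symm
    · intro h
      have := hN.bal {i} j ω (Function.update ω i c) e (ω j) e2 h e1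
      intro h0
      rw [h0, mul_zero] at this
      exact mul_ne_zero e1 h this.symm
  -- (A), forward
  have hA2 : ∀ e, e ∈ blk Q (ω j) → (∃ ω' ∈ Om, ω' j = e) → cnt Om S j ω e ≠ 0 := by
    rintro e he ⟨ω', hω', rfl⟩
    rw [hmemb] at he
    have hpair : ∀ i ∈ S, (ω' j, ω i) ∈ pr Om j i := fun i hi =>
      (he i hi (ω i)).1 ⟨ω, hω, rfl, rfl⟩
    obtain ⟨ω1, h1, h2⟩ := hN.dec (insert j S) (Function.update ω j (ω' j)) (by
      intro a ha b hb
      by_cases haj : a = j
      · by_cases hbj : b = j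
        · rw [haj, hbj, Function.update_self]
          exact ⟨ω', hω', rfl, rfl⟩
        · rw [haj, Function.update_self, Function.update_of_ne hbj]
          exact hpair b (Finset.mem_of_mem_insert_of_ne hb hbj)
      · by_cases hbj : b = j
        · rw [hbj, Function.update_self, Function.update_of_ne haj]
          obtain ⟨ω2, g1, g2, g3⟩ := hpair a (Finset.mem_of_mem_insert_of_ne ha haj)
          exact ⟨ω2, g1, g3, g2⟩
        · rw [Function.update_of_ne haj, Function.update_of_ne hbj]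
          exact ⟨ω, hω, rfl, rfl⟩)
    rw [Cond_ne]
    refine ⟨ω1, h1, ?_, ?_⟩
    · intro i hi
      have hij : i ≠ j := fun h => hj (h ▸ hi)
      rw [h2 i (Finset.mem_insert_of_mem hi), Function.update_of_ne hij]
    · rw [h2 j (Finset.mem_insert_self _ _), Function.update_self]
  -- rows
  have hB : ∀ (u : Fin n → D) (e : D), cnt Om S j ω e ≠ 0 →
      cnt Om S j ω (ω j) * cnt Om S j u e = cnt Om S j ω e * cnt Om S j u (ω j) := by
    intro u e he
    by_cases h1 : cnt Om S j u (ω j) = 0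
    · by_cases h2 : cnt Om S j u e = 0
      · rw [h1, h2, mul_zero, mul_zero]
      · have := hN.bal S j ω u e (ω j) he h2 hω0
        rw [h1, mul_zero] at this
        exact absurd this.symm (mul_ne_zero hω0 h2)
    · exact hN.bal S j ω u (ω j) e hω0 h1 he
  -- the number of the elements with a given value
  have hM : ∀ e, cnt Om ∅ j ω e =
      ∑ v ∈ Finset.univ.filter (fun v : Fin n → D => ∀ i, i ∉ S → v i = ω i), cnt Om S j v e := by
    intro e
    have h1 : cnt Om ∅ j ω e = (Om.filter fun ω' => ω' j = e).card := by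
      rw [Cond_card]
      refine congrArg Finset.card (Finset.ext fun ω' => ?_)
      rw [Cond_mem, Finset.mem_filter]
      exact ⟨fun h => ⟨h.1, h.2.2⟩, fun h => ⟨h.1, fun i hi => absurd hi (Finset.notMem_empty i), h.2⟩⟩
    rw [h1, Finset.card_eq_sum_card_fiberwise (f := fun ω' : Fin n → D => fun i =>
      if i ∈ S then ω' i else ω i)
      (t := Finset.univ.filter (fun v : Fin n → D => ∀ i, i ∉ S → v i = ω i)) (by
        intro ω' _
        rw [Finset.mem_coe, Finset.mem_filter]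
        refine ⟨Finset.mem_univ _, fun i hi => ?_⟩
        show (if i ∈ S then ω' i else ω i) = ω i
        rw [if_neg hi])]
    refine Finset.sum_congr rfl fun v hv => ?_
    rw [Finset.mem_filter] at hv
    rw [Cond_card]
    refine congrArg Finset.card (Finset.ext fun ω' => ?_)
    rw [Cond_mem, Finset.mem_filter, Finset.mem_filter]
    constructor
    · rintro ⟨⟨h1, h2⟩, h3⟩
      refine ⟨h1, fun i hi => ?_, h2⟩
      have h4 : (if i ∈ S then ω' i else ω i) = v i := congrFun h3 i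
      rw [if_pos hi] at h4
      exact h4
    · rintro ⟨h1, h2, h3⟩
      refine ⟨⟨h1, h3⟩, funext fun i => ?_⟩
      show (if i ∈ S then ω' i else ω i) = v i
      by_cases hi : i ∈ S
      · rw [if_pos hi]
        exact h2 i hi
      · rw [if_neg hi]
        exact (hv.2 i hi).symm
  have hstar : ∀ e, cnt Om S j ω e ≠ 0 →
      cnt Om S j ω (ω j) * cnt Om ∅ j ω e = cnt Om S j ω e * cnt Om ∅ j ω (ω j) := by
    intro e he
    rw [hM e, hM (ω j), Finset.mul_sum, Finset.mul_sum]
    exact Finset.sum_congr rfl fun v _ => hB v e he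
  -- the three numbers
  have n1 : (Om.filter fun ω' => ω' j ∈ blk Q (ω j)).card = ∑ e ∈ blk Q (ω j), cnt Om ∅ j ω e := by
    rw [Finset.card_eq_sum_card_fiberwise (f := fun ω' : Fin n → D => ω' j) (t := blk Q (ω j)) (by
      intro ω' h
      rw [Finset.mem_coe, Finset.mem_filter] at h
      exact h.2)]
    refine Finset.sum_congr rfl fun e he => ?_
    rw [Cond_card]
    refine congrArg Finset.card (Finset.ext fun ω' => ?_)
    rw [Cond_mem, Finset.mem_filter, Finset.mem_filter]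
    constructor
    · rintro ⟨⟨h1, _⟩, h3⟩
      exact ⟨h1, fun i hi => absurd hi (Finset.notMem_empty i), h3⟩
    · rintro ⟨h1, _, h3⟩
      refine ⟨⟨h1, ?_⟩, h3⟩
      have h3' : ω' j = e := h3
      rw [h3']
      exact he
  have n2 : (Om.filter fun ω' => ∀ i ∈ S, ω' i = ω i).card = ∑ e ∈ blk Q (ω j), cnt Om S j ω e := by
    rw [Finset.card_eq_sum_card_fiberwise (f := fun ω' : Fin n → D => ω' j) (t := blk Q (ω j)) (by
      intro ω' h
      rw [Finset.mem_coe, Finset.mem_filter] at h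
      exact hA1 _ (Cond_ne.2 ⟨ω', h.1, h.2, rfl⟩))]
    refine Finset.sum_congr rfl fun e _ => ?_
    rw [Cond_card]
    refine congrArg Finset.card (Finset.ext fun ω' => ?_)
    rw [Cond_mem, Finset.mem_filter, Finset.mem_filter]
    exact ⟨fun h => ⟨h.1.1, h.1.2, h.2⟩, fun h => ⟨⟨h.1, h.2.1⟩, h.2.2⟩⟩
  have n3 : (Om.filter fun ω' => ω' j = ω j).card = cnt Om ∅ j ω (ω j) := by
    rw [Cond_card]
    refine congrArg Finset.card (Finset.ext fun ω' => ?_)
    rw [Cond_mem, Finset.mem_filter]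
    exact ⟨fun h => ⟨h.1, fun i hi => absurd hi (Finset.notMem_empty i), h.2⟩, fun h => ⟨h.1, h.2.2⟩⟩
  rw [n1, n2, n3, Finset.mul_sum, Finset.sum_mul]
  refine Finset.sum_congr rfl fun e he => ?_
  by_cases h0 : cnt Om ∅ j ω e = 0
  · have h1 : cnt Om S j ω e = 0 := by
      by_contra h
      obtain ⟨ω', g1, _, g3⟩ := Cond_ne.1 h
      exact Cond_ne.2 ⟨ω', g1, fun i hi => absurd hi (Finset.notMem_empty i), g3⟩ h0
    rw [h0, h1, mul_zero, zero_mul]
  · obtain ⟨ω', g1, _, g3⟩ := Cond_ne.1 h0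
    exact hstar e (hA2 e he ⟨ω', g1, g3⟩)

end Pool.Agent.SYH
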