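import Pool.Agent.SYH.StC

/-!
# Path consistency with a majority operation
-/

set_option autoImplicit false

namespace Pool.Agent.SYH

open Finset

/-- Baker and Pixley: with a majority operation it is enough to satisfy the conditions in pairs. -/
theorem Cons_bp {ι X : Type} [DecidableEq ι] (good : X → ι → Prop) (mm : X → X → X → X)
    (S : Finset ι) (h0 : Nonempty X) (h2 : ∀ i ∈ S, ∀ j ∈ S, ∃ x, good x i ∧ good x j)
    (hm : ∀ x y z, ∀ i ∈ S, (good x i ∧ good y i) ∨ (good x i ∧ good z i) ∨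
      (good y i ∧ good z i) → good (mm x y z) i) : ∃ x, ∀ i ∈ S, good x i := by
  have key : ∀ (N : ℕ) (T : Finset ι), T.card ≤ N → T ⊆ S → ∃ x, ∀ i ∈ T, good x i := by
    intro N
    induction N with
    | zero =>
      intro T hT _
      obtain ⟨x⟩ := h0
      refine ⟨x, fun i hi => ?_⟩
      rw [Finset.card_eq_zero.1 (Nat.le_zero.1 hT)] at hi
      exact absurd hi (Finset.notMem_empty i)
    | succ N ih =>
      intro T hT hTS
      by_cases h : 2 < T.card
      · obtain ⟨a, ha, b, hb, c, hc, hab, hac, hbc⟩ := Finset.two_lt_card.1 h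
        have hcard : ∀ t ∈ T, (T.erase t).card ≤ N := fun t ht => by
          rw [Finset.card_erase_of_mem ht]
          omega
        obtain ⟨x, hx⟩ := ih (T.erase a) (hcard a ha) ((Finset.erase_subset _ _).trans hTS)
        obtain ⟨y, hy⟩ := ih (T.erase b) (hcard b hb) ((Finset.erase_subset _ _).trans hTS)
        obtain ⟨z, hz⟩ := ih (T.erase c) (hcard c hc) ((Finset.erase_subset _ _).trans hTS)
        refine ⟨mm x y z, fun i hi => hm x y z i (hTS hi) ?_⟩
        by_cases hia : i = a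
        · subst hia
          exact Or.inr (Or.inr ⟨hy i (Finset.mem_erase.2 ⟨hab, hi⟩),
            hz i (Finset.mem_erase.2 ⟨hac, hi⟩)⟩)
        · by_cases hib : i = b
          · subst hib
            exact Or.inr (Or.inl ⟨hx i (Finset.mem_erase.2 ⟨hia, hi⟩),
              hz i (Finset.mem_erase.2 ⟨hbc, hi⟩)⟩)
          · exact Or.inl ⟨hx i (Finset.mem_erase.2 ⟨hia, hi⟩),
              hy i (Finset.mem_erase.2 ⟨hib, hi⟩)⟩
      · rcases T.eq_empty_or_nonempty with rfl | ⟨a, ha⟩
        · obtain ⟨x⟩ := h0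
          exact ⟨x, fun i hi => absurd hi (Finset.notMem_empty i)⟩
        · by_cases h1 : ∃ b ∈ T, b ≠ a
          · obtain ⟨b, hb, hba⟩ := h1
            obtain ⟨x, hx1, hx2⟩ := h2 a (hTS ha) b (hTS hb)
            refine ⟨x, fun i hi => ?_⟩
            by_cases hia : i = a
            · rw [hia]
              exact hx1
            · by_cases hib : i = b
              · rw [hib]
                exact hx2
              · exact absurd (Finset.two_lt_card.2 ⟨a, ha, b, hb, i, hi, hba.symm,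
                  Ne.symm hia, Ne.symm hib⟩) h
          · obtain ⟨x, hx1, _⟩ := h2 a (hTS ha) a (hTS ha)
            refine ⟨x, fun i hi => ?_⟩
            have hia : i = a := by
              by_contra hia
              exact h1 ⟨i, hi, hia⟩
            rw [hia]
            exact hx1
  exact key _ S le_rfl (Finset.Subset.refl S)

section
variable {σ D : Type} {ar : σ → ℕ}

theorem Cons_sub (Γ : Str ar D) {n : ℕ} (I : Str ar (Fin n)) (r : ℕ) (i j : Fin n) :
    Wn Γ I (r + 1) i j ⊆ Wn Γ I r i j := fun _ h => h.1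

theorem Cons_sub0 (Γ : Str ar D) {n : ℕ} (I : Str ar (Fin n)) (r : ℕ) (i j : Fin n) :
    Wn Γ I r i j ⊆ Wn Γ I 0 i j := by
  induction r with
  | zero => exact fun _ h => h
  | succ r ih => exact fun _ h => ih h.1

theorem Cons_symm (Γ : Str ar D) {n : ℕ} (I : Str ar (Fin n)) (r : ℕ) :
    ∀ (i j : Fin n) (d e : D), (d, e) ∈ Wn Γ I r i j → (e, d) ∈ Wn Γ I r j i := by
  induction r with
  | zero =>
    rintro i j d e ⟨h1, h2⟩
    refine ⟨fun h => (h1 h.symm).symm, fun R u hu => ⟨(h2 R u hu).1, fun a b ha hb => ?_⟩⟩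
    obtain ⟨v, hv, hva, hvb⟩ := (h2 R u hu).2 b a hb ha
    exact ⟨v, hv, hvb, hva⟩
  | succ r ih =>
    rintro i j d e ⟨h1, h2⟩
    refine ⟨ih _ _ _ _ h1, fun k => ?_⟩
    obtain ⟨c, hc1, hc2⟩ := h2 k
    exact ⟨c, ih _ _ _ _ hc2, ih _ _ _ _ hc1⟩

theorem Cons_pol (Γ : Str ar D) {n : ℕ} (I : Str ar (Fin n)) (m : D → D → D → D)
    (hm : ∀ R u v w, Γ R u → Γ R v → Γ R w → Γ R fun i => m (u i) (v i) (w i)) (r : ℕ) :
    ∀ (i j : Fin n) (d e d' e' d'' e'' : D), (d, e) ∈ Wn Γ I r i j → (d', e') ∈ Wn Γ I r i j →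
      (d'', e'') ∈ Wn Γ I r i j → (m d d' d'', m e e' e'') ∈ Wn Γ I r i j := by
  induction r with
  | zero =>
    rintro i j d e d' e' d'' e'' ⟨h1, h2⟩ ⟨h1', h2'⟩ ⟨h1'', h2''⟩
    refine ⟨fun h => ?_, fun R u hu => ⟨(h2 R u hu).1, fun a b ha hb => ?_⟩⟩
    · have g1 : d = e := h1 h
      have g2 : d' = e' := h1' h
      have g3 : d'' = e'' := h1'' h
      change m d d' d'' = m e e' e''
      rw [g1, g2, g3]
    · obtain ⟨v, hv, hva, hvb⟩ := (h2 R u hu).2 a b ha hb
      obtain ⟨v', hv', hva', hvb'⟩ := (h2' R u hu).2 a b ha hb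
      obtain ⟨v'', hv'', hva'', hvb''⟩ := (h2'' R u hu).2 a b ha hb
      refine ⟨_, hm R v v' v'' hv hv' hv'', ?_, ?_⟩
      · change m (v a) (v' a) (v'' a) = m d d' d''
        rw [hva, hva', hva'']
      · change m (v b) (v' b) (v'' b) = m e e' e''
        rw [hvb, hvb', hvb'']
  | succ r ih =>
    rintro i j d e d' e' d'' e'' ⟨h1, h2⟩ ⟨h1', h2'⟩ ⟨h1'', h2''⟩
    refine ⟨ih _ _ _ _ _ _ _ _ h1 h1' h1'', fun k => ?_⟩
    obtain ⟨c, hc1, hc2⟩ := h2 k
    obtain ⟨c', hc1', hc2'⟩ := h2' k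
    obtain ⟨c'', hc1'', hc2''⟩ := h2'' k
    exact ⟨m c c' c'', ih _ _ _ _ _ _ _ _ hc1 hc1' hc1'', ih _ _ _ _ _ _ _ _ hc2 hc2' hc2''⟩

theorem Cons_hom (Γ : Str ar D) {n : ℕ} (I : Str ar (Fin n)) (ω : Fin n → D)
    (hω : IsHom Γ I ω) (r : ℕ) : ∀ i j, (ω i, ω j) ∈ Wn Γ I r i j := by
  induction r with
  | zero =>
    intro i j
    refine ⟨fun h => by rw [h], fun R u hu => ⟨⟨_, hω R u hu⟩, fun a b ha hb => ?_⟩⟩
    refine ⟨_, hω R u hu, ?_, ?_⟩
    · change ω (u a) = ω i
      rw [ha]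
    · change ω (u b) = ω j
      rw [hb]
  | succ r ih =>
    intro i j
    exact ⟨ih i j, fun k => ⟨ω k, ih i k, ih k j⟩⟩

theorem Cons_stab [Fintype D] (Γ : Str ar D) {n : ℕ} (I : Str ar (Fin n)) (N : ℕ)
    (hN : n ^ 2 * Fintype.card D ^ 2 ≤ N) : Wn Γ I (N + 1) = Wn Γ I N := by
  classical
  have step : ∀ r s, Wn Γ I r = Wn Γ I s → Wn Γ I (r + 1) = Wn Γ I (s + 1) := by
    intro r s h
    funext i j
    simp only [Wn, h]
  by_contra hne
  have hne' : ∀ r ≤ N, Wn Γ I (r + 1) ≠ Wn Γ I r := by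
    intro r hr h
    apply hne
    have h1 : ∀ d, Wn Γ I (r + d + 1) = Wn Γ I (r + d) := by
      intro d
      induction d with
      | zero => exact h
      | succ d ih => exact step _ _ ih
    have h2 := h1 (N - r)
    rwa [Nat.add_sub_cancel' hr] at h2
  let A : ℕ → Finset ((Fin n × Fin n) × (D × D)) := fun r =>
    univ.filter fun t => t.2 ∈ Wn Γ I r t.1.1 t.1.2
  have hA : ∀ r ≤ N, (A (r + 1)).card < (A r).card := by
    intro r hr
    refine Finset.card_lt_card (Finset.ssubset_iff_subset_ne.2 ⟨fun t ht => ?_, fun h => ?_⟩)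
    · rw [Finset.mem_filter] at ht ⊢
      exact ⟨ht.1, ht.2.1⟩
    · apply hne' r hr
      funext i j
      ext p
      have h1 : ((i, j), p) ∈ A (r + 1) ↔ ((i, j), p) ∈ A r := by rw [h]
      rw [Finset.mem_filter, Finset.mem_filter] at h1
      exact ⟨fun h2 => (h1.1 ⟨mem_univ _, h2⟩).2, fun h2 => (h1.2 ⟨mem_univ _, h2⟩).2⟩
  have hb : ∀ r ≤ N + 1, (A r).card + r ≤ (A 0).card := by
    intro r
    induction r with
    | zero => intro _; omega
    | succ r ih =>
      intro hr
      have h1 := ih (by omega)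
      have h2 := hA r (by omega)
      omega
  have h0 : (A 0).card ≤ n ^ 2 * Fintype.card D ^ 2 := by
    refine (Finset.card_le_univ _).trans ?_
    rw [Fintype.card_prod, Fintype.card_prod, Fintype.card_prod, Fintype.card_fin, pow_two,
      pow_two]
  have h1 := hb (N + 1) le_rfl
  omega

end

theorem thm_Cons : St_Cons := by
  classical
  intro σ D ar _ Γ hmaj n I N hN
  refine ⟨fun hne i₀ j₀ p hp => ?_, fun ω hω => Cons_hom Γ I ω hω N⟩
  obtain ⟨m, hm, hpol⟩ := hmaj
  have hstab := Cons_stab Γ I N hN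
  have sym := Cons_symm Γ I N
  have pol := Cons_pol Γ I m hpol N
  have ext : ∀ (i j k : Fin n) (d e : D), (d, e) ∈ Wn Γ I N i j →
      ∃ c, (d, c) ∈ Wn Γ I N i k ∧ (c, e) ∈ Wn Γ I N k j := by
    intro i j k d e h
    rw [← hstab] at h
    exact h.2 k
  have diag : ∀ (i : Fin n) (d e : D), (d, e) ∈ Wn Γ I N i i → d = e :=
    fun i d e h => (Cons_sub0 Γ I N i i h).1 rfl
  have dd : ∀ (i k : Fin n) (d c : D), (d, c) ∈ Wn Γ I N i k → (c, c) ∈ Wn Γ I N k k := by
    intro i k d c h
    obtain ⟨c', h1, _⟩ := ext k i k c d (sym _ _ _ _ h)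
    have h2 := diag _ _ _ h1
    rwa [← h2] at h1
  -- one more element
  have claim : ∀ (S : Finset (Fin n)) (u : Fin n → D) (k : Fin n),
      (∀ i ∈ S, ∀ j ∈ S, (u i, u j) ∈ Wn Γ I N i j) →
      ∃ c, (c, c) ∈ Wn Γ I N k k ∧ ∀ i ∈ S, (u i, c) ∈ Wn Γ I N i k := by
    intro S u k hu
    suffices hs : ∃ c : {c : D // (c, c) ∈ Wn Γ I N k k}, ∀ i ∈ S, (u i, c.1) ∈ Wn Γ I N i k by
      obtain ⟨x, hx⟩ := hs
      exact ⟨x.1, x.2, hx⟩
    refine Cons_bp
      (fun (c : {c : D // (c, c) ∈ Wn Γ I N k k}) i => (u i, c.1) ∈ Wn Γ I N i k)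
      (fun x y z => ⟨m x.1 y.1 z.1, pol k k _ _ _ _ _ _ x.2 y.2 z.2⟩) S ?_ ?_ ?_
    · obtain ⟨⟨c, d⟩, hc⟩ := hne k k
      have h := diag _ _ _ hc
      subst h
      exact ⟨⟨c, hc⟩⟩
    · intro i hi j hj
      obtain ⟨c, h1, h2⟩ := ext i j k _ _ (hu i hi j hj)
      exact ⟨⟨c, dd i k _ _ h1⟩, h1, sym _ _ _ _ h2⟩
    · intro x y z i hi h
      rcases h with ⟨h1, h2⟩ | ⟨h1, h2⟩ | ⟨h1, h2⟩
      · obtain ⟨t, ht, _⟩ := ext k k i _ _ z.2
        have h3 := pol i k _ _ _ _ _ _ h1 h2 (sym _ _ _ _ ht)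
        rw [(hm (u i) t).1] at h3
        exact h3
      · obtain ⟨t, ht, _⟩ := ext k k i _ _ y.2
        have h3 := pol i k _ _ _ _ _ _ h1 (sym _ _ _ _ ht) h2
        rw [(hm (u i) t).2.1] at h3
        exact h3
      · obtain ⟨t, ht, _⟩ := ext k k i _ _ x.2
        have h3 := pol i k _ _ _ _ _ _ (sym _ _ _ _ ht) h1 h2
        rw [(hm (u i) t).2.2] at h3
        exact h3
  -- extension to all indices
  have full : ∀ T : Finset (Fin n), ∃ u : Fin n → D, u i₀ = p.1 ∧ u j₀ = p.2 ∧
      ∀ a ∈ insert i₀ (insert j₀ T), ∀ b ∈ insert i₀ (insert j₀ T),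
        (u a, u b) ∈ Wn Γ I N a b := by
    intro T
    induction T using Finset.induction_on with
    | empty =>
      have hp' : (p.1, p.2) ∈ Wn Γ I N i₀ j₀ := hp
      have h11 := dd j₀ i₀ _ _ (sym _ _ _ _ hp')
      have h22 := dd i₀ j₀ _ _ hp'
      by_cases hij : j₀ = i₀
      · subst hij
        have h12 := diag _ _ _ hp'
        refine ⟨fun _ => p.1, rfl, h12, fun a ha b hb => ?_⟩
        have ha' : a = j₀ := by simpa using ha
        have hb' : b = j₀ := by simpa using hb
        subst ha'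
        rw [hb']
        exact h11
      · refine ⟨fun k => if k = i₀ then p.1 else p.2, if_pos rfl, if_neg hij,
          fun a ha b hb => ?_⟩
        have ha' : a = i₀ ∨ a = j₀ := by simpa using ha
        have hb' : b = i₀ ∨ b = j₀ := by simpa using hb
        rcases ha' with rfl | rfl <;> rcases hb' with rfl | rfl
        · simpa using h11
        · simpa [hij] using hp'
        · simpa [hij] using sym _ _ _ _ hp'
        · simpa [hij] using h22
    | insert k T hk ih =>
      obtain ⟨u, hu1, hu2, hu⟩ := ih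
      by_cases hkS : k ∈ insert i₀ (insert j₀ T)
      · have h1 : insert i₀ (insert j₀ (insert k T)) = insert i₀ (insert j₀ T) := by
          ext x
          simp only [Finset.mem_insert] at hkS ⊢
          constructor
          · rintro (h | h | h | h)
            · exact Or.inl h
            · exact Or.inr (Or.inl h)
            · rw [h]
              exact hkS
            · exact Or.inr (Or.inr h)
          · rintro (h | h | h)
            · exact Or.inl h
            · exact Or.inr (Or.inl h)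
            · exact Or.inr (Or.inr (Or.inr h))
        rw [h1]
        exact ⟨u, hu1, hu2, hu⟩
      · obtain ⟨c, hc, hc'⟩ := claim _ u k hu
        have hki : i₀ ≠ k := fun h => hkS (by simp [h])
        have hkj : j₀ ≠ k := fun h => hkS (by simp [h])
        have hmem : ∀ a ∈ insert i₀ (insert j₀ (insert k T)), a ≠ k →
            a ∈ insert i₀ (insert j₀ T) := by
          intro a ha hak
          simp only [Finset.mem_insert] at ha ⊢
          rcases ha with h | h | h | h
          · exact Or.inl h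
          · exact Or.inr (Or.inl h)
          · exact absurd h hak
          · exact Or.inr (Or.inr h)
        refine ⟨Function.update u k c, ?_, ?_, fun a ha b hb => ?_⟩
        · rw [Function.update_of_ne hki, hu1]
        · rw [Function.update_of_ne hkj, hu2]
        · by_cases hak : a = k
          · by_cases hbk : b = k
            · rw [hak, hbk, Function.update_self]
              exact hc
            · rw [hak, Function.update_self, Function.update_of_ne hbk]
              exact sym _ _ _ _ (hc' b (hmem b hb hbk))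
          · by_cases hbk : b = k
            · rw [hbk, Function.update_self, Function.update_of_ne hak]
              exact hc' a (hmem a ha hak)
            · rw [Function.update_of_ne hak, Function.update_of_ne hbk]
              exact hu a (hmem a ha hak) b (hmem b hb hbk)
  obtain ⟨ω, h1, h2, hω⟩ := full univ
  refine ⟨ω, ?_, h1, h2⟩
  intro R u hu
  suffices hs : ∃ v : {v : Fin (ar R) → D // Γ R v}, ∀ a ∈ (univ : Finset (Fin (ar R))),
      v.1 a = ω (u a) by
    obtain ⟨v, hv⟩ := hs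
    have h3 : ω ∘ u = v.1 := funext fun a => (hv a (mem_univ a)).symm
    rw [h3]
    exact v.2
  refine Cons_bp (fun (v : {v : Fin (ar R) → D // Γ R v}) a => v.1 a = ω (u a))
    (fun x y z => ⟨fun i => m (x.1 i) (y.1 i) (z.1 i), hpol R _ _ _ x.2 y.2 z.2⟩) univ ?_ ?_ ?_
  · obtain ⟨v, hv⟩ := ((Cons_sub0 Γ I N i₀ j₀ hp).2 R u hu).1
    exact ⟨⟨v, hv⟩⟩
  · intro a _ b _
    have h3 := Cons_sub0 Γ I N _ _ (hω (u a) (by simp) (u b) (by simp))
    obtain ⟨v, hv, hva, hvb⟩ := (h3.2 R u hu).2 a b rfl rfl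
    exact ⟨⟨v, hv⟩, hva, hvb⟩
  · intro x y z a _ h
    change m (x.1 a) (y.1 a) (z.1 a) = ω (u a)
    rcases h with ⟨g1, g2⟩ | ⟨g1, g2⟩ | ⟨g1, g2⟩
    · rw [show x.1 a = ω (u a) from g1, show y.1 a = ω (u a) from g2]
      exact (hm _ _).1
    · rw [show x.1 a = ω (u a) from g1, show z.1 a = ω (u a) from g2]
      exact (hm _ _).2.1
    · rw [show y.1 a = ω (u a) from g1, show z.1 a = ω (u a) from g2]
      exact (hm _ _).2.2

end Pool.Agent.SYH
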