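import Pool.Agent.SYH.StC

/-!
# The colours determine the number of homomorphisms
-/

set_option autoImplicit false

namespace Pool.Agent.SYH

open Finset

private theorem Det_symm {n : ℕ} {D : Type} {R R' : Fin n → Fin n → Set (D × D)}
    {κ κ' : Fin n → ℕ} (h : Match R R' κ κ') : Match R' R κ' κ := by
  obtain ⟨⟨β, hβ⟩, h2⟩ := h
  refine ⟨⟨β.symm, fun k => ?_⟩, fun i' i hi => ?_⟩
  · rw [← hβ, Equiv.apply_symm_apply]
  · obtain ⟨γ, hγ, h3⟩ := h2 i i' hi.symm
    refine ⟨γ.symm, by rw [← hγ, Equiv.symm_apply_apply], fun k => ?_⟩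
    have h4 := h3 (γ.symm k)
    rw [Equiv.apply_symm_apply] at h4
    exact ⟨h4.1.symm, h4.2.symm⟩

private theorem Det_one (h1 : St_Nice) (h2 : St_Cons) (h4 : St_Col) {σ D : Type} {ar : σ → ℕ}
    [Fintype D] (Γ : Str ar D) (hB : Balanced Γ) (hM : HasMajority Γ) (n N : ℕ)
    (I I' : Str ar (Fin n)) (hn : 1 ≤ n) (hN : n ^ 2 * Fintype.card D ^ 2 ≤ N)
    (κ κ' : Fin n → ℕ) (hm : Match (Wn Γ I N) (Wn Γ I' N) κ κ') : homs Γ I ≤ homs Γ I' := by
  classical
  have hcard : ∀ J : Str ar (Fin n), homs Γ J = (univ.filter fun ω => IsHom Γ J ω).card := by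
    intro J
    unfold homs
    rw [Nat.card_eq_fintype_card, Fintype.card_subtype]
  by_cases hne : ∀ i j, (Wn Γ I N i j).Nonempty
  · have hne' : ∀ i j, (Wn Γ I' N i j).Nonempty := by
      intro i' j'
      obtain ⟨⟨β, hβ⟩, h3⟩ := hm
      have h5 : κ (β.symm i') = κ' i' := by rw [← hβ, Equiv.apply_symm_apply]
      obtain ⟨γ, hγ, h6⟩ := h3 _ _ h5
      have h7 := (h6 (γ.symm j')).2
      rw [Equiv.apply_symm_apply] at h7
      rw [h7]
      exact hne _ _
    have key : ∀ J : Str ar (Fin n), (∀ i j, (Wn Γ J N i j).Nonempty) →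
        (univ.filter fun ω => IsHom Γ J ω).Nonempty ∧
          pr (univ.filter fun ω => IsHom Γ J ω) = Wn Γ J N := by
      intro J hJ
      obtain ⟨c1, c2⟩ := h2 σ D ar Γ hM n J N hN
      constructor
      · obtain ⟨p, hp⟩ := hJ ⟨0, hn⟩ ⟨0, hn⟩
        obtain ⟨ω, hω, -⟩ := c1 hJ _ _ p hp
        exact ⟨ω, by simpa using hω⟩
      · funext i j
        ext p
        constructor
        · rintro ⟨ω, hω, h5, h6⟩
          have h7 := c2 ω (by simpa using hω) i j
          rw [h5, h6] at h7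
          exact h7
        · intro hp
          obtain ⟨ω, hω, h5, h6⟩ := c1 hJ i j p hp
          exact ⟨ω, by simpa using hω, h5, h6⟩
    obtain ⟨k1, k2⟩ := key I hne
    obtain ⟨k3, k4⟩ := key I' hne'
    rw [hcard I, hcard I']
    refine h4 n D _ _ κ κ' (h1 σ D ar Γ hB hM n I _ (fun ω => by simp) k1)
      (h1 σ D ar Γ hB hM n I' _ (fun ω => by simp) k3) k1 k3 ?_
    rw [k2, k4]
    exact hm
  · have h0 : homs Γ I = 0 := by
      rw [hcard, Finset.card_eq_zero, Finset.filter_eq_empty_iff]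
      intro ω _ hω
      apply hne
      intro i j
      exact ⟨_, (h2 σ D ar Γ hM n I N hN).2 ω hω i j⟩
    rw [h0]
    exact Nat.zero_le _

theorem thm_Det (h1 : St_Nice) (h2 : St_Cons) (h3 : St_Kap) (h4 : St_Col) : St_Det := by
  intro σ D ar _ Γ enc henc hB hM n N M I I' hn hN hMn hk
  obtain ⟨κ, κ', hm⟩ := h3 σ ar D enc henc n M (Wn Γ I N) (Wn Γ I' N) hMn hk
  exact le_antisymm (Det_one h1 h2 h4 Γ hB hM n N I I' hn hN κ κ' hm)
    (Det_one h1 h2 h4 Γ hB hM n N I' I hn hN κ' κ (Det_symm hm))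

end Pool.Agent.SYH
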