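import Pool.Agent.SYH.StC

/-!
# The inequality of Gibbs for the conditional entropies
-/

set_option autoImplicit false

namespace Pool.Agent.SYH

open Finset

private theorem Gibbs_mem {D : Type} [Fintype D] {Q : Set (Set (D × D))} {d e : D} :
    e ∈ blk Q d ↔ ∀ ρ ∈ Q, ∀ c, (d, c) ∈ ρ ↔ (e, c) ∈ ρ := by
  simp [blk]

private theorem Gibbs_symm {D : Type} [Fintype D] {Q : Set (Set (D × D))} {d e : D} :
    e ∈ blk Q d ↔ d ∈ blk Q e := by
  rw [Gibbs_mem, Gibbs_mem]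
  exact ⟨fun h ρ hρ c => (h ρ hρ c).symm, fun h ρ hρ c => (h ρ hρ c).symm⟩

private theorem Gibbs_eq {D : Type} [Fintype D] {Q : Set (Set (D × D))} {d e : D}
    (h : e ∈ blk Q d) : blk Q d = blk Q e := by
  rw [Gibbs_mem] at h
  ext x
  rw [Gibbs_mem, Gibbs_mem]
  exact ⟨fun h' ρ hρ c => (h ρ hρ c).symm.trans (h' ρ hρ c),
    fun h' ρ hρ c => (h ρ hρ c).trans (h' ρ hρ c)⟩

private theorem Gibbs_self {D : Type} [Fintype D] {Q : Set (Set (D × D))} (d : D) :
    d ∈ blk Q d := Gibbs_mem.2 fun _ _ _ => Iff.rfl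

theorem thm_Gibbs : St_Gibbs := by
  intro D _ q p Q hq hp hqp
  classical
  unfold ent
  rw [neg_le_neg_iff, ← sub_nonpos, ← sum_sub_distrib]
  have hA : ∀ d, 0 ≤ ∑ e ∈ blk Q d, q e := fun d => sum_nonneg fun e _ => hq e
  have hB : ∀ d, 0 ≤ ∑ e ∈ blk Q d, p e := fun d => sum_nonneg fun e _ => hp e
  have h1 : ∀ d, q d * Real.log (p d / ∑ e ∈ blk Q d, p e) -
      q d * Real.log (q d / ∑ e ∈ blk Q d, q e) ≤
      p d * (∑ e ∈ blk Q d, q e) / (∑ e ∈ blk Q d, p e) - q d := by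
    intro d
    rcases eq_or_ne (q d) 0 with h0 | h0
    · rw [h0, zero_mul, zero_mul, sub_zero, sub_zero]
      exact div_nonneg (mul_nonneg (hp d) (hA d)) (hB d)
    · have hq0 : 0 < q d := lt_of_le_of_ne (hq d) (Ne.symm h0)
      have hp0 : 0 < p d := lt_of_le_of_ne (hp d) (Ne.symm (hqp d h0))
      have hA0 : 0 < ∑ e ∈ blk Q d, q e :=
        lt_of_lt_of_le hq0 (single_le_sum (f := q) (fun i _ => hq i) (Gibbs_self d))
      have hB0 : 0 < ∑ e ∈ blk Q d, p e :=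
        lt_of_lt_of_le hp0 (single_le_sum (f := p) (fun i _ => hp i) (Gibbs_self d))
      generalize (∑ e ∈ blk Q d, q e) = A at hA0 ⊢
      generalize (∑ e ∈ blk Q d, p e) = B at hB0 ⊢
      have h2 : 0 < (p d / B) / (q d / A) := div_pos (div_pos hp0 hB0) (div_pos hq0 hA0)
      have h3 := Real.log_le_sub_one_of_pos h2
      rw [Real.log_div (div_pos hp0 hB0).ne' (div_pos hq0 hA0).ne'] at h3
      rw [← mul_sub]
      refine (mul_le_mul_of_nonneg_left h3 hq0.le).trans (le_of_eq ?_)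
      field_simp
  refine (sum_le_sum fun d _ => h1 d).trans ?_
  rw [sum_sub_distrib, sub_nonpos]
  have h2 : ∑ d, p d * (∑ e ∈ blk Q d, q e) / (∑ e ∈ blk Q d, p e) =
      ∑ e, q e * ((∑ d ∈ blk Q e, p d) / (∑ d ∈ blk Q e, p d)) := by
    have h3 : ∀ d, p d * (∑ e ∈ blk Q d, q e) / (∑ e ∈ blk Q d, p e) =
        ∑ e, if e ∈ blk Q d then p d * q e / (∑ x ∈ blk Q e, p x) else 0 := by
      intro d
      rw [← sum_filter, mul_sum, sum_div]
      refine sum_congr (by ext; simp) fun e he => ?_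
      rw [mem_filter] at he
      rw [Gibbs_eq he.2]
    rw [sum_congr rfl fun d _ => h3 d, sum_comm]
    refine sum_congr rfl fun e _ => ?_
    rw [← sum_filter, sum_div, mul_sum]
    refine sum_congr ?_ fun d _ => ?_
    · ext d
      rw [mem_filter]
      exact ⟨fun h => Gibbs_symm.1 h.2, fun h => ⟨mem_univ _, Gibbs_symm.1 h⟩⟩
    · ring
  rw [h2]
  refine sum_le_sum fun e _ => ?_
  refine (mul_le_mul_of_nonneg_left (div_self_le_one _) (hq e)).trans (le_of_eq ?_)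
  rw [mul_one]

end Pool.Agent.SYH
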