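import Pool.Agent.SYH.StC

/-!
# Stable colours give a match

Two families of relations with the same multisets of colours after `2 * n` rounds of refinement
have stable colourings which explain them in the same way.
-/

set_option autoImplicit false

namespace Pool.Agent.SYH

open Finset

/-- two functions with the same multiset of values differ by a permutation -/
theorem Kap_perm {n : ℕ} {α : Type} {f g : Fin n → α}
    (h : (univ : Finset (Fin n)).val.map f = (univ : Finset (Fin n)).val.map g) :
    ∃ β : Equiv.Perm (Fin n), ∀ k, g (β k) = f k := by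
  classical
  have key : ∀ c : α, Nonempty ({a : Fin n // f a = c} ≃ {b : Fin n // g b = c}) := by
    intro c
    have h1 := congrArg (Multiset.count c) h
    rw [Multiset.count_map, Multiset.count_map] at h1
    have h2 : ∀ q : Fin n → α, (Multiset.filter (fun a => c = q a)
        (univ : Finset (Fin n)).val).card = Fintype.card {a : Fin n // q a = c} := by
      intro q
      rw [Fintype.card_subtype]
      have : (univ : Finset (Fin n)).filter (fun a => q a = c) =
          (univ : Finset (Fin n)).filter (fun a => c = q a) := by
        ext a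
        simp [eq_comm]
      rw [this]
      rfl
    rw [h2, h2] at h1
    exact ⟨Fintype.equivOfCardEq h1⟩
  exact ⟨Equiv.ofFiberEquiv fun c => (key c).some,
    fun k => Equiv.ofFiberEquiv_map (fun c => (key c).some) k⟩

/-- one round of the colour refinement can be undone -/
theorem Kap_step {σ : Type} {ar : σ → ℕ} {D : Type} {enc : Multiset (Port ar × Val D) → ℕ}
    (henc : Function.Injective enc) {n : ℕ} {R R' : Fin n → Fin n → Set (D × D)} {s : ℕ}
    {i i' : Fin n} (h : kap enc R (s + 1) i = kap enc R' (s + 1) i') :
    kap enc R s i = kap enc R' s i' ∧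
      ∃ β : Equiv.Perm (Fin n), β i = i' ∧
        ∀ k, kap enc R' s (β k) = kap enc R s k ∧ R' i' (β k) = R i k := by
  classical
  have hm := henc h
  -- the multiset of the first port
  have hfil : ∀ (Q : Fin n → Fin n → Set (D × D)) (j : Fin n),
      (Multiset.filter (fun t : Port ar × Val D => t.1 = Sum.inl 0)
        ((Sum.inl 0, (∅, kap enc Q s j)) ::ₘ
          (univ : Finset (Fin n)).val.map fun k =>
            ((Sum.inl (if j = k then 2 else 1), (Q j k, kap enc Q s k)) : Port ar × Val D))) =
        {((Sum.inl 0, (∅, kap enc Q s j)) : Port ar × Val D)} := by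
    intro Q j
    rw [Multiset.filter_cons_of_pos _ (by rfl)]
    have : Multiset.filter (fun t : Port ar × Val D => t.1 = Sum.inl 0)
        ((univ : Finset (Fin n)).val.map fun k =>
            ((Sum.inl (if j = k then 2 else 1), (Q j k, kap enc Q s k)) : Port ar × Val D)) =
        0 := by
      rw [Multiset.filter_eq_nil]
      intro t ht
      rw [Multiset.mem_map] at ht
      obtain ⟨k, -, rfl⟩ := ht
      by_cases hjk : j = k <;> simp [hjk]
    rw [this]
    rfl
  have h1 := congrArg (Multiset.filter (fun t : Port ar × Val D => t.1 = Sum.inl 0)) hm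
  rw [hfil, hfil, Multiset.singleton_inj] at h1
  have h2 : kap enc R s i = kap enc R' s i' := by
    have := congrArg (fun t : Port ar × Val D => t.2.2) h1
    exact this
  refine ⟨h2, ?_⟩
  rw [h2, Multiset.cons_inj_right] at hm
  obtain ⟨β, hβ⟩ := Kap_perm hm
  have hβ' : ∀ k, ((Sum.inl (if i = k then 2 else 1), (R i k, kap enc R s k)) : Port ar × Val D) =
      (Sum.inl (if i' = β k then 2 else 1), (R' i' (β k), kap enc R' s (β k))) := fun k =>
    (hβ k).symm
  refine ⟨β, ?_, fun k => ?_⟩
  · have h3 := congrArg Prod.fst (hβ' i)
    by_contra hne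
    have hne' : ¬ i' = β i := fun h => hne h.symm
    simp [hne'] at h3
  · have h3 := congrArg (fun t : Port ar × Val D => t.2) (hβ' k)
    simp only [Prod.mk.injEq] at h3
    exact ⟨h3.2.symm, h3.1.symm⟩

/-- the colours of the round `M` determine those of the earlier rounds -/
theorem Kap_down {σ : Type} {ar : σ → ℕ} {D : Type} {enc : Multiset (Port ar × Val D) → ℕ}
    (henc : Function.Injective enc) {n : ℕ} {R R' : Fin n → Fin n → Set (D × D)} {s : ℕ}
    (t : ℕ) {i i' : Fin n} (h : kap enc R (s + t) i = kap enc R' (s + t) i') :
    kap enc R s i = kap enc R' s i' := by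
  induction t with
  | zero => exact h
  | succ t ih => exact ih (Kap_step henc h).1

/-- a sequence of refinements of a finite set becomes stable -/
theorem Kap_stab {X : Type} [Fintype X] [Nonempty X] (f : ℕ → X → ℕ)
    (hf : ∀ s x y, f (s + 1) x = f (s + 1) y → f s x = f s y) (M : ℕ)
    (hM : Fintype.card X ≤ M) :
    ∃ s, s < M ∧ ∀ x y, f s x = f s y → f (s + 1) x = f (s + 1) y := by
  classical
  by_contra hcon
  push Not at hcon
  have key : ∀ s, s ≤ M → s + 1 ≤ ((univ : Finset X).image (f s)).card := by
    intro s
    induction s with
    | zero =>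
      intro _
      have : ((univ : Finset X).image (f 0)).Nonempty := univ_nonempty.image _
      have := this.card_pos
      omega
    | succ s ih =>
      intro hs
      have h1 := ih (by omega)
      obtain ⟨x, y, hxy, hne⟩ := hcon s (by omega)
      -- the map from the finer to the coarser colours
      have hfac : (f s).FactorsThrough (f (s + 1)) := fun x y h => hf s x y h
      obtain ⟨g, hg⟩ : ∃ g : ℕ → ℕ, ∀ x, f s x = g (f (s + 1) x) :=
        ⟨Function.extend (f (s + 1)) (f s) (fun _ => 0), fun x => (hfac.extend_apply _ x).symm⟩
      have himg : (univ : Finset X).image (f s) =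
          ((univ : Finset X).image (f (s + 1))).image g := by
        rw [image_image]
        exact image_congr fun x _ => hg x
      have hlt : (((univ : Finset X).image (f (s + 1))).image g).card <
          ((univ : Finset X).image (f (s + 1))).card := by
        refine lt_of_le_of_ne card_image_le fun h => hne ?_
        have hinj := card_image_iff.1 h
        exact hinj (by simp) (by simp) (by rw [← hg, ← hg, hxy])
      rw [← himg] at hlt
      omega
  have h1 := key M le_rfl
  have h2 : ((univ : Finset X).image (f M)).card ≤ Fintype.card X := card_image_le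
  omega

/-- stable colours give a match -/
theorem thm_Kap : St_Kap := by
  intro σ ar D enc henc n M R R' hM hmul
  rcases Nat.eq_zero_or_pos n with rfl | hn
  · exact ⟨fun _ => 0, fun _ => 0, ⟨⟨1, fun k => k.elim0⟩, fun i => i.elim0⟩⟩
  · have : Nonempty (Fin n ⊕ Fin n) := ⟨Sum.inl ⟨0, hn⟩⟩
    obtain ⟨s, hs, hst⟩ := Kap_stab
      (fun s => Sum.elim (kap enc R s) (kap enc R' s)) (by
        intro s x y h
        rcases x with x | x <;> rcases y with y | y
        · exact (Kap_step henc h).1
        · exact (Kap_step henc h).1
        · exact (Kap_step henc h).1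
        · exact (Kap_step henc h).1) M (by simp; omega)
    refine ⟨kap enc R s, kap enc R' s, ?_, ?_⟩
    · obtain ⟨β, hβ⟩ := Kap_perm hmul
      obtain ⟨t, rfl⟩ := Nat.exists_eq_add_of_lt hs
      exact ⟨β, fun k => (Kap_down henc (t + 1) (hβ k).symm).symm⟩
    · intro i i' h
      exact (Kap_step henc (hst (Sum.inl i) (Sum.inr i') h)).2

end Pool.Agent.SYH
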