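import Pool.Agent.SYH.StC

/-!
# Linear relations pass to consistent families
-/

set_option autoImplicit false

namespace Pool.Agent.SYH

open Finset

section couple
variable {D : Type} [Fintype D]

open Classical in
/-- two families of weights with the same sums on the blocks of a rectangular relation -/
theorem Lin_couple (R : D → D → Prop) (a b φ ψ : D → ℝ) (ha : ∀ d, 0 ≤ a d) (hb : ∀ e, 0 ≤ b e)
    (hsa : ∀ d, a d ≠ 0 → ∃ e, R d e) (hsb : ∀ e, b e ≠ 0 → ∃ d, R d e)
    (hc : ∀ d e, R d e → ∑ d' ∈ univ.filter (fun d' => R d' e), a d' =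
      ∑ e' ∈ univ.filter (fun e' => R d e'), b e') (hφ : ∀ d e, R d e → φ d = ψ e) :
    ∑ d, a d * φ d = ∑ e, b e * ψ e := by
  let W : D → ℝ := fun d => ∑ e' ∈ univ.filter (fun e' => R d e'), b e'
  have h1 : ∀ d, a d * φ d = ∑ e ∈ univ.filter (fun e => R d e), a d * b e / W d * φ d := by
    intro d
    rw [← Finset.sum_mul, ← Finset.sum_div, ← Finset.mul_sum]
    change a d * φ d = a d * W d / W d * φ d
    by_cases hd : a d = 0
    · rw [hd]
      simp
    · obtain ⟨e, he⟩ := hsa d hd
      have hW : W d ≠ 0 := by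
        have h2 : a d ≤ W d := by
          change a d ≤ ∑ e' ∈ univ.filter (fun e' => R d e'), b e'
          rw [← hc d e he]
          exact Finset.single_le_sum (f := a) (fun i _ => ha i)
            (Finset.mem_filter.2 ⟨Finset.mem_univ d, he⟩)
        have h3 : 0 < a d := lt_of_le_of_ne (ha d) (Ne.symm hd)
        exact (lt_of_lt_of_le h3 h2).ne'
      rw [mul_div_assoc, div_self hW, mul_one]
  have h2 : ∀ e, b e * ψ e = ∑ d ∈ univ.filter (fun d => R d e), a d * b e / W d * φ d := by
    intro e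
    have h3 : ∀ d ∈ univ.filter (fun d => R d e), a d * b e / W d * φ d =
        a d * (b e / (∑ d' ∈ univ.filter (fun d' => R d' e), a d') * ψ e) := by
      intro d hd
      have hR : R d e := (Finset.mem_filter.1 hd).2
      rw [hc d e hR, hφ d e hR]
      change a d * b e / W d * ψ e = a d * (b e / W d * ψ e)
      ring
    rw [Finset.sum_congr rfl h3, ← Finset.sum_mul]
    by_cases he : b e = 0
    · rw [he]
      simp
    · obtain ⟨d, hd⟩ := hsb e he
      have hV : (∑ d' ∈ univ.filter (fun d' => R d' e), a d') ≠ 0 := by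
        rw [hc d e hd]
        have h4 : b e ≤ ∑ e' ∈ univ.filter (fun e' => R d e'), b e' :=
          Finset.single_le_sum (f := b) (fun i _ => hb i)
            (Finset.mem_filter.2 ⟨Finset.mem_univ e, hd⟩)
        have h5 : 0 < b e := lt_of_le_of_ne (hb e) (Ne.symm he)
        exact (lt_of_lt_of_le h5 h4).ne'
      field_simp
  rw [Finset.sum_congr rfl fun d _ => h1 d, Finset.sum_congr rfl fun e _ => h2 e]
  simp only [Finset.sum_filter]
  exact Finset.sum_comm

end couple

theorem Lin_row {D : Type} (N : D → D → ℝ) (hN : Blk N) {s s' w : D} (h1 : N s w ≠ 0)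
    (h2 : N s' w ≠ 0) (w' : D) : N s w * N s' w' = N s w' * N s' w := by
  by_cases h : N s w' = 0
  · by_cases h' : N s' w' = 0
    · rw [h, h', mul_zero, zero_mul]
    · have := hN s' s w w' h2 h1 h'
      rw [h, mul_zero] at this
      rcases mul_eq_zero.1 this.symm with h3 | h3
      · exact absurd h3 h'
      · exact absurd h3 h1
  · exact hN s s' w w' h1 h2 h

section
variable {n : ℕ} {D : Type} [Fintype D] [DecidableEq D] {Om : Finset (Fin n → D)}
  {μ : (Fin n → D) → ℝ}

theorem Lin_ne (h0 : ∀ ω, 0 ≤ μ ω) (hs : ∀ ω, μ ω ≠ 0 ↔ ω ∈ Om) (i j : Fin n) (d e : D) :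
    (∑ ω ∈ univ.filter (fun ω : Fin n → D => ω i = d ∧ ω j = e), μ ω) ≠ 0 ↔
      (d, e) ∈ pr Om i j := by
  constructor
  · intro h
    obtain ⟨ω, hω, h1⟩ := Finset.exists_ne_zero_of_sum_ne_zero h
    exact ⟨ω, (hs ω).1 h1, (Finset.mem_filter.1 hω).2⟩
  · rintro ⟨ω, hω, h1⟩
    have h2 : 0 < μ ω := lt_of_le_of_ne (h0 ω) (Ne.symm ((hs ω).2 hω))
    have h3 : μ ω ≤ ∑ ω ∈ univ.filter (fun ω : Fin n → D => ω i = d ∧ ω j = e), μ ω :=
      Finset.single_le_sum (f := μ) (fun i _ => h0 i) (Finset.mem_filter.2 ⟨Finset.mem_univ ω, h1⟩)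
    exact (lt_of_lt_of_le h2 h3).ne'

theorem Lin_fib (i j : Fin n) (d : D) (g : D → ℝ) :
    ∑ ω ∈ univ.filter (fun ω : Fin n → D => ω i = d), μ ω * g (ω j) =
      ∑ e, (∑ ω ∈ univ.filter (fun ω : Fin n → D => ω i = d ∧ ω j = e), μ ω) * g e := by
  rw [← Finset.sum_fiberwise (univ.filter (fun ω : Fin n → D => ω i = d)) (fun ω => ω j)]
  refine Finset.sum_congr rfl fun e _ => ?_
  rw [Finset.filter_filter, Finset.sum_mul]
  refine Finset.sum_congr rfl fun ω hω => ?_
  rw [(Finset.mem_filter.1 hω).2.2]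

/-- the conditional expectation -/
noncomputable def Lin_phi (μ : (Fin n → D) → ℝ) (i j : Fin n) (g : D → ℝ) (d : D) : ℝ :=
  (∑ ω ∈ univ.filter (fun ω : Fin n → D => ω i = d), μ ω * g (ω j)) /
    ∑ ω ∈ univ.filter (fun ω : Fin n → D => ω i = d), μ ω

theorem Lin_phi_eq (i j : Fin n) (g : D → ℝ)
    (hB : Blk fun d e => ∑ ω ∈ univ.filter (fun ω : Fin n → D => ω i = d ∧ ω j = e), μ ω)
    {d d' e : D} (h1 : (∑ ω ∈ univ.filter (fun ω : Fin n → D => ω i = d ∧ ω j = e), μ ω) ≠ 0)
    (h2 : (∑ ω ∈ univ.filter (fun ω : Fin n → D => ω i = d' ∧ ω j = e), μ ω) ≠ 0) :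
    Lin_phi μ i j g d = Lin_phi μ i j g d' := by
  have hm : ∀ d, ∑ ω ∈ univ.filter (fun ω : Fin n → D => ω i = d), μ ω =
      ∑ e, (∑ ω ∈ univ.filter (fun ω : Fin n → D => ω i = d ∧ ω j = e), μ ω) := by
    intro d
    have := Lin_fib (μ := μ) i j d fun _ => 1
    simpa using this
  unfold Lin_phi
  rw [Lin_fib, Lin_fib, hm, hm]
  obtain ⟨N, hN⟩ : ∃ N : D → D → ℝ, ∀ d e,
      (∑ ω ∈ univ.filter (fun ω : Fin n → D => ω i = d ∧ ω j = e), μ ω) = N d e :=
    ⟨_, fun _ _ => rfl⟩
  simp only [hN] at hB h1 h2 ⊢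
  have h3 : ∀ w, N d e * N d' w = N d w * N d' e := Lin_row N hB h1 h2
  have h4 : ∀ w, N d' w = N d' e / N d e * N d w := by
    intro w
    have h5 := h3 w
    field_simp
    linarith
  have h6 : ∑ w, N d' w * g w = N d' e / N d e * ∑ w, N d w * g w := by
    rw [Finset.mul_sum]
    refine Finset.sum_congr rfl fun w _ => ?_
    rw [h4 w, mul_assoc]
  have h7 : ∑ w, N d' w = N d' e / N d e * ∑ w, N d w := by
    rw [Finset.mul_sum]
    exact Finset.sum_congr rfl fun w _ => h4 w
  rw [h6, h7, mul_div_mul_left _ _ (div_ne_zero h2 h1)]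

end

theorem thm_Lin : St_Lin := by
  intro n D _ _ Om μ q f c hne h0 hs hB hq hf
  have key : ∀ (J : Finset (Fin n)) (f : Fin n → D → ℝ) (c : ℝ),
      (∀ ω ∈ Om, ∑ j ∈ J, f j (ω j) = c) → ∑ j ∈ J, ∑ d, q j d * f j d = c := by
    intro J
    induction J using Finset.induction_on with
    | empty =>
      intro f c h
      obtain ⟨ω, hω⟩ := hne
      have := h ω hω
      simpa using this
    | insert l J hl ih =>
      intro f c h
      classical
      let φ : Fin n → D → ℝ := fun j => Lin_phi μ l j (f j)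
      let ψ : Fin n → D → ℝ := fun j e => if h : ∃ d, (d, e) ∈ pr Om l j then φ j h.choose else 0
      have hφψ : ∀ j, j ≠ l → ∀ d e, (d, e) ∈ pr Om l j → φ j d = ψ j e := by
        intro j hj d e hde
        have h1 : ∃ d, (d, e) ∈ pr Om l j := ⟨d, hde⟩
        have h2 : ψ j e = φ j h1.choose := dif_pos h1
        rw [h2]
        exact Lin_phi_eq l j (f j) (hB l j hj.symm) ((Lin_ne h0 hs l j d e).2 hde)
          ((Lin_ne h0 hs l j _ e).2 h1.choose_spec)
      -- the sum of the conditional expectations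
      have h1 : ∀ ω ∈ Om, f l (ω l) + ∑ j ∈ J, φ j (ω l) = c := by
        intro ω hω
        have hm : (∑ ω' ∈ univ.filter (fun ω' : Fin n → D => ω' l = ω l), μ ω') ≠ 0 := by
          have h2 : 0 < μ ω := lt_of_le_of_ne (h0 ω) (Ne.symm ((hs ω).2 hω))
          have h3 : μ ω ≤ ∑ ω' ∈ univ.filter (fun ω' : Fin n → D => ω' l = ω l), μ ω' :=
            Finset.single_le_sum (f := μ) (fun i _ => h0 i)
              (Finset.mem_filter.2 ⟨Finset.mem_univ ω, rfl⟩)
          exact (lt_of_lt_of_le h2 h3).ne'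
        have h2 : ∑ j ∈ J, φ j (ω l) = c - f l (ω l) := by
          change ∑ j ∈ J, (∑ ω' ∈ univ.filter (fun ω' : Fin n → D => ω' l = ω l),
            μ ω' * f j (ω' j)) / _ = _
          rw [← Finset.sum_div, Finset.sum_comm, div_eq_iff hm, Finset.mul_sum]
          refine Finset.sum_congr rfl fun ω' hω' => ?_
          rw [← Finset.mul_sum]
          by_cases h3 : μ ω' = 0
          · rw [h3]
            ring
          · have h4 := h ω' ((hs ω').1 h3)
            rw [Finset.sum_insert hl, (Finset.mem_filter.1 hω').2] at h4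
            have h5 : ∑ j ∈ J, f j (ω' j) = c - f l (ω l) := by linarith
            rw [h5]
            ring
        rw [h2]
        ring
      -- induction
      have h2 := ih (fun j d => f j d - ψ j d) 0 (by
        intro ω hω
        rw [Finset.sum_sub_distrib]
        have h3 : ∑ j ∈ J, ψ j (ω j) = ∑ j ∈ J, φ j (ω l) := by
          refine Finset.sum_congr rfl fun j hj => ?_
          have hjl : j ≠ l := fun e => hl (e ▸ hj)
          exact (hφψ j hjl (ω l) (ω j) ⟨ω, hω, rfl, rfl⟩).symm
        have h4 := h ω hω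
        rw [Finset.sum_insert hl] at h4
        have h5 := h1 ω hω
        rw [h3]
        linarith)
      -- consistency
      have h3 : ∀ j ∈ J, ∑ d, q l d * φ j d = ∑ e, q j e * ψ j e := by
        intro j hj
        have hjl : j ≠ l := fun e => hl (e ▸ hj)
        have hrect : ∀ d e d' e', (d, e) ∈ pr Om l j → (d', e) ∈ pr Om l j →
            (d, e') ∈ pr Om l j → (d', e') ∈ pr Om l j := by
          intro d e d' e' a1 a2 a3
          have b1 := (Lin_ne h0 hs l j d e).2 a1
          have b2 := (Lin_ne h0 hs l j d' e).2 a2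
          have b3 := (Lin_ne h0 hs l j d e').2 a3
          rw [← Lin_ne h0 hs l j d' e']
          intro b4
          have h6 := hB l j hjl.symm d d' e e' b1 b2 b3
          simp only at h6
          rw [b4, mul_zero] at h6
          rcases mul_eq_zero.1 h6.symm with h7 | h7
          · exact b3 h7
          · exact b2 h7
        refine Lin_couple (fun d e => (d, e) ∈ pr Om l j) (q l) (q j) (φ j) (ψ j) (hq.nonneg l)
          (hq.nonneg j) (fun d hd => ?_) (fun e he => ?_) (fun d e hde => ?_) (hφψ j hjl)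
        · obtain ⟨ω, hω, h4⟩ := hq.supp l d hd
          exact ⟨ω j, ω, hω, h4, rfl⟩
        · obtain ⟨ω, hω, h4⟩ := hq.supp j e he
          exact ⟨ω l, ω, hω, rfl, h4⟩
        · have hde' := hde
          obtain ⟨ω, hω, h4, h5⟩ := hde'
          simp only at h4 h5
          have h6 := hq.cst l j hjl.symm ω hω
          rw [h4, h5] at h6
          have h7 : blk {pr Om l j} d = univ.filter (fun d' => (d', e) ∈ pr Om l j) := by
            ext d'
            simp only [blk, Finset.mem_filter, Finset.mem_univ, true_and, Set.mem_singleton_iff,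
              forall_eq]
            refine ⟨fun h8 => (h8 e).1 hde, fun h8 c => ⟨fun h9 => hrect d e d' c hde h8 h9,
              fun h9 => hrect d' e d c h8 hde h9⟩⟩
          have h8 : blk {pr Om j l} e = univ.filter (fun e' => (d, e') ∈ pr Om l j) := by
            have tr : ∀ x y, (x, y) ∈ pr Om j l ↔ (y, x) ∈ pr Om l j := by
              intro x y
              constructor
              · rintro ⟨ω, hω, k1, k2⟩
                exact ⟨ω, hω, k2, k1⟩
              · rintro ⟨ω, hω, k1, k2⟩
                exact ⟨ω, hω, k2, k1⟩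
            ext e'
            simp only [blk, Finset.mem_filter, Finset.mem_univ, true_and, Set.mem_singleton_iff,
              forall_eq, tr]
            refine ⟨fun h9 => (h9 d).1 hde, fun h9 c => ⟨fun h10 => hrect d e c e' hde h10 h9,
              fun h10 => hrect d e' c e h9 h10 hde⟩⟩
          rw [h7, h8] at h6
          exact h6
      rw [Finset.sum_insert hl]
      have h4 : ∑ j ∈ J, ∑ d, q j d * f j d = ∑ j ∈ J, ∑ d, q l d * φ j d := by
        rw [Finset.sum_congr rfl h3, ← sub_eq_zero, ← Finset.sum_sub_distrib, ← h2]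
        refine Finset.sum_congr rfl fun j _ => ?_
        rw [← Finset.sum_sub_distrib]
        refine Finset.sum_congr rfl fun d _ => ?_
        ring
      rw [h4, Finset.sum_comm, ← Finset.sum_add_distrib]
      have h5 : ∀ d, q l d * f l d + ∑ j ∈ J, q l d * φ j d = q l d * c := by
        intro d
        by_cases hd : q l d = 0
        · rw [hd]
          simp
        · obtain ⟨ω, hω, h6⟩ := hq.supp l d hd
          have h7 := h1 ω hω
          rw [h6] at h7
          rw [← Finset.mul_sum, ← mul_add, h7]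
      rw [Finset.sum_congr rfl fun d _ => h5 d, ← Finset.sum_mul, hq.sum l, one_mul]
  exact key univ f c hf

end Pool.Agent.SYH
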