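import Pool.Agent.SYH.StC

/-!
# The logarithm of the number of elements is the maximum of the entropies of the consistent
families (helper13)
-/

set_option autoImplicit false

namespace Pool.Agent.SYH

open Finset

section
variable {n : ℕ} {D : Type}

open Classical in
private theorem Max_mg (Om : Finset (Fin n → D)) (j : Fin n) (d : D) :
    mg Om j d = ((Om.filter fun ω => ω j = d).card : ℝ) / Om.card := by
  rw [mg, cnt]
  congr 2
  refine congrArg Finset.card (Finset.filter_congr fun ω _ => ?_)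
  simp

open Classical in
private theorem Max_sum (Om : Finset (Fin n → D)) (j : Fin n) (s : Finset D) :
    ∑ d ∈ s, mg Om j d = ((Om.filter fun ω => ω j ∈ s).card : ℝ) / Om.card := by
  simp_rw [Max_mg]
  rw [← Finset.sum_div, ← Nat.cast_sum]
  congr 2
  rw [Finset.card_eq_sum_card_fiberwise (f := fun ω : Fin n → D => ω j) (t := s)
    (s := Om.filter fun ω => ω j ∈ s)
    (fun ω hω => (Finset.mem_filter.1 hω).2)]
  refine Finset.sum_congr rfl fun d hd => congrArg Finset.card ?_
  ext ω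
  simp only [Finset.mem_filter]
  constructor
  · rintro ⟨h1, rfl⟩
    exact ⟨⟨h1, hd⟩, rfl⟩
  · rintro ⟨⟨h1, h2⟩, h3⟩
    exact ⟨h1, h3⟩

private theorem Max_pos (Om : Finset (Fin n → D)) {ω : Fin n → D} (hω : ω ∈ Om) (j : Fin n) :
    mg Om j (ω j) ≠ 0 := by
  classical
  rw [Max_mg]
  have h1 : 0 < Om.card := Finset.card_pos.2 ⟨ω, hω⟩
  have h2 : 0 < (Om.filter fun ω' => ω' j = ω j).card :=
    Finset.card_pos.2 ⟨ω, Finset.mem_filter.2 ⟨hω, rfl⟩⟩
  have h1' : (0 : ℝ) < Om.card := by exact_mod_cast h1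
  have h2' : (0 : ℝ) < (Om.filter fun ω' => ω' j = ω j).card := by exact_mod_cast h2
  positivity

private theorem Max_nonneg (Om : Finset (Fin n → D)) (j : Fin n) (d : D) : 0 ≤ mg Om j d := by
  rw [mg]
  positivity

private theorem Max_supp (Om : Finset (Fin n → D)) (j : Fin n) (d : D) (h : mg Om j d ≠ 0) :
    ∃ ω ∈ Om, ω j = d := by
  classical
  rw [Max_mg] at h
  by_contra h1
  apply h
  rw [Finset.filter_false_of_mem, Finset.card_empty, Nat.cast_zero, zero_div]
  intro ω hω h2
  exact h1 ⟨ω, hω, h2⟩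

private theorem Max_cnt (Om : Finset (Fin n → D)) (i j : Fin n) (u : Fin n → D) (d : D) :
    cnt Om {i} j u d ≠ 0 ↔ (u i, d) ∈ pr Om i j := by
  classical
  rw [cnt, Finset.card_ne_zero]
  constructor
  · rintro ⟨ω, hω⟩
    rw [Finset.mem_filter] at hω
    exact ⟨ω, hω.1, hω.2.1 i (Finset.mem_singleton_self i), hω.2.2⟩
  · rintro ⟨ω, hω, h1, h2⟩
    refine ⟨ω, Finset.mem_filter.2 ⟨hω, fun k hk => ?_, h2⟩⟩
    rw [Finset.mem_singleton] at hk
    subst hk
    exact h1

private theorem Max_rect {Om : Finset (Fin n → D)} (hN : Nice Om) (i j : Fin n) {a a' b b' : D}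
    (h1 : (a, b) ∈ pr Om i j) (h2 : (a', b) ∈ pr Om i j) (h3 : (a, b') ∈ pr Om i j) :
    (a', b') ∈ pr Om i j := by
  have h1' := (Max_cnt Om i j (fun _ => a) b).2 h1
  have h2' := (Max_cnt Om i j (fun _ => a') b).2 h2
  have h3' := (Max_cnt Om i j (fun _ => a) b').2 h3
  have h4 := hN.bal {i} j (fun _ => a) (fun _ => a') b b' h1' h2' h3'
  apply (Max_cnt Om i j (fun _ => a') b').1
  intro h5
  rw [h5, mul_zero] at h4
  exact mul_ne_zero h3' h2' h4.symm

private theorem Max_swap (Om : Finset (Fin n → D)) (i j : Fin n) (a b : D) :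
    (a, b) ∈ pr Om i j ↔ (b, a) ∈ pr Om j i :=
  ⟨fun ⟨ω, h, h1, h2⟩ => ⟨ω, h, h2, h1⟩, fun ⟨ω, h, h1, h2⟩ => ⟨ω, h, h2, h1⟩⟩

variable [Fintype D]

private theorem Max_blk (ρ : Set (D × D)) (d e : D) :
    e ∈ blk {ρ} d ↔ ∀ c, (d, c) ∈ ρ ↔ (e, c) ∈ ρ := by
  classical
  rw [blk, Finset.mem_filter]
  simp

private theorem Max_half {Om : Finset (Fin n → D)} (hN : Nice Om) (i j : Fin n)
    {ω ω' : Fin n → D} (hω : ω ∈ Om) (hω' : ω' ∈ Om)
    (h : ω' i ∈ blk {pr Om i j} (ω i)) : ω' j ∈ blk {pr Om j i} (ω j) := by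
  rw [Max_blk] at h ⊢
  have h1 : (ω i, ω j) ∈ pr Om i j := ⟨ω, hω, rfl, rfl⟩
  have h2 : (ω' i, ω' j) ∈ pr Om i j := ⟨ω', hω', rfl, rfl⟩
  have h3 : (ω i, ω' j) ∈ pr Om i j := (h _).2 h2
  have h1' := (Max_swap Om i j _ _).1 h1
  have h3' := (Max_swap Om i j _ _).1 h3
  intro c
  exact ⟨fun h4 => Max_rect hN j i h1' h3' h4, fun h4 => Max_rect hN j i h3' h1' h4⟩

private theorem Max_cst {Om : Finset (Fin n → D)} (hN : Nice Om) (hne : Om.Nonempty) :
    Cst Om (mg Om) where
  nonneg := Max_nonneg Om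
  sum j := by
    classical
    rw [Max_sum, Finset.filter_true_of_mem fun ω _ => Finset.mem_univ _]
    have h1 : (0 : ℝ) < Om.card := by exact_mod_cast Finset.card_pos.2 hne
    exact div_self h1.ne'
  supp := Max_supp Om
  cst i j hij ω hω := by
    classical
    rw [Max_sum, Max_sum]
    congr 2
    refine congrArg Finset.card (Finset.filter_congr fun ω' hω' => ?_)
    exact ⟨Max_half hN i j hω hω', Max_half hN j i hω hω'⟩

end

/-- [Max] -/
theorem thm_Max (h1 : St_Chain) (h2 : St_Lin) (h3 : St_Gibbs) : St_Max := by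
  classical
  intro n D _ Om hN hne
  have hc := Max_cst hN hne
  refine ⟨hc, fun π => ?_⟩
  -- the linear identity
  have key : ∀ q, Cst Om q → ∑ j, - ∑ d, q j d * Real.log (mg Om j d /
      ∑ e ∈ blk (pr Om j '' {i | π i < π j}) d, mg Om j e) = Real.log Om.card := by
    intro q hq
    have h4 := h2 n D Om (fun ω => if ω ∈ Om then 1 else 0) q
      (fun j d => - Real.log (mg Om j d /
        ∑ e ∈ blk (pr Om j '' {i | π i < π j}) d, mg Om j e)) (Real.log Om.card) hne
      (fun ω => by split_ifs <;> norm_num)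
      (fun ω => by split_ifs with h <;> simp [h])
      (fun i j hij => by
        have h5 : ∀ d e, (∑ ω ∈ univ.filter (fun ω : Fin n → D => ω i = d ∧ ω j = e),
            (if ω ∈ Om then (1 : ℝ) else 0)) = (cnt Om {i} j (fun _ => d) e : ℝ) := by
          intro d e
          rw [Finset.sum_boole, cnt]
          congr 1
          refine congrArg Finset.card ?_
          ext ω
          simp only [Finset.mem_filter, Finset.mem_univ, true_and, Finset.mem_singleton,
            forall_eq]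
          tauto
        intro s s' w w' hs hs' hw
        simp only [h5] at hs hs' hw ⊢
        have h6 := hN.bal {i} j (fun _ => s) (fun _ => s') w w' (by exact_mod_cast hs)
          (by exact_mod_cast hs') (by exact_mod_cast hw)
        exact_mod_cast h6)
      hq (fun ω hω => by
        rw [h1 n D Om hN π ω hω, Finset.sum_neg_distrib])
    rw [← h4]
    refine Finset.sum_congr rfl fun j _ => ?_
    rw [← Finset.sum_neg_distrib]
    refine Finset.sum_congr rfl fun d _ => ?_
    ring
  refine ⟨key _ hc, fun q hq => ?_⟩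
  rw [← key q hq]
  refine Finset.sum_le_sum fun j _ => h3 D (q j) (mg Om j) _ (hq.nonneg j) (hc.nonneg j) ?_
  intro d hd
  obtain ⟨ω, hω, rfl⟩ := hq.supp j d hd
  exact Max_pos Om hω j

end Pool.Agent.SYH
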