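import Mathlib
import Pool.Agent.SYH.StC

/-!
# The average over the colour classes is consistent

`thm_Mean : St_Mean`.
-/

set_option autoImplicit false

namespace Pool.Agent.SYH

open Finset

/-- double counting in a bipartite graph that is regular on both sides -/
private lemma Mean_dc {ι : Type} (A B : Finset ι) (P : ι → ι → Prop)
    [∀ i j, Decidable (P i j)] (a b : ι → ℝ) (N N' : ℕ) (hN : N ≠ 0) (hN' : N' ≠ 0)
    (h1 : ∀ i ∈ A, (B.filter fun j => P i j).card = N)
    (h2 : ∀ j ∈ B, (A.filter fun i => P i j).card = N')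
    (h : ∀ i ∈ A, ∀ j ∈ B, P i j → a i = b j) :
    (∑ i ∈ A, a i) / A.card = (∑ j ∈ B, b j) / B.card := by
  have key : ∀ x y : ι → ℝ, (∀ i ∈ A, ∀ j ∈ B, P i j → x i = y j) →
      (N : ℝ) * ∑ i ∈ A, x i = N' * ∑ j ∈ B, y j := by
    intro x y hxy
    have e1 : (N : ℝ) * ∑ i ∈ A, x i = ∑ i ∈ A, ∑ j ∈ B, if P i j then x i else 0 := by
      rw [mul_sum]
      refine sum_congr rfl fun i hi => ?_
      rw [← sum_filter, sum_const, h1 i hi, nsmul_eq_mul]
    have e2 : (N' : ℝ) * ∑ j ∈ B, y j = ∑ j ∈ B, ∑ i ∈ A, if P i j then y j else 0 := by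
      rw [mul_sum]
      refine sum_congr rfl fun j hj => ?_
      rw [← sum_filter, sum_const, h2 j hj, nsmul_eq_mul]
    rw [e1, e2, sum_comm]
    refine sum_congr rfl fun j hj => sum_congr rfl fun i hi => ?_
    by_cases hp : P i j
    · rw [if_pos hp, if_pos hp, hxy i hi j hj hp]
    · rw [if_neg hp, if_neg hp]
  have k1 := key a b h
  have k2 := key (fun _ => 1) (fun _ => 1) fun _ _ _ _ _ => rfl
  rw [sum_const, sum_const, nsmul_eq_mul, nsmul_eq_mul, mul_one, mul_one] at k2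
  have n1 : (N : ℝ) ≠ 0 := Nat.cast_ne_zero.2 hN
  have n2 : (N' : ℝ) ≠ 0 := Nat.cast_ne_zero.2 hN'
  rw [← mul_div_mul_left _ (A.card : ℝ) n1, ← mul_div_mul_left _ (B.card : ℝ) n2, k1, k2]

private lemma Mean_mg_nonneg {n : ℕ} {D : Type} (Om : Finset (Fin n → D)) (j : Fin n) (d : D) :
    0 ≤ mg Om j d := by
  unfold mg
  positivity

private lemma Mean_swap {n : ℕ} {D : Type} {Om Om' : Finset (Fin n → D)} {i j i' j' : Fin n} :
    pr Om i j = pr Om' i' j' ↔ pr Om j i = pr Om' j' i' := by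
  have hs : ∀ (O : Finset (Fin n → D)) (k l : Fin n) (x y : D),
      (x, y) ∈ pr O k l ↔ (y, x) ∈ pr O l k := fun O k l x y =>
    ⟨fun ⟨ω, h, h1, h2⟩ => ⟨ω, h, h2, h1⟩, fun ⟨ω, h, h1, h2⟩ => ⟨ω, h, h2, h1⟩⟩
  constructor
  · intro h
    ext ⟨x, y⟩
    rw [hs, hs Om', h]
  · intro h
    ext ⟨x, y⟩
    rw [hs, hs Om', h]

/-- the number of partners is the same on both sides -/
private lemma Mean_num {n : ℕ} {D : Type} {Om Om' : Finset (Fin n → D)} {κ κ' : Fin n → ℕ}
    (hM : Match (pr Om) (pr Om') κ κ') (i i' : Fin n) (hi : κ i = κ' i') (c : ℕ)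
    (ρ : Set (D × D)) [DecidableEq (Set (D × D))] :
    ((univ.filter fun k => κ k = c).filter fun k => k ≠ i ∧ pr Om i k = ρ).card =
      ((univ.filter fun k => κ' k = c).filter fun k => k ≠ i' ∧ pr Om' i' k = ρ).card := by
  obtain ⟨β, hβ, hk⟩ := hM.2 i i' hi
  refine card_bij (fun k _ => β k) ?_ (fun k _ l _ h => β.injective h) ?_
  · intro k h
    simp only [mem_filter, mem_univ, true_and] at h ⊢
    refine ⟨(hk k).1.trans h.1, fun h' => h.2.1 (β.injective (h'.trans hβ.symm)), ?_⟩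
    rw [(hk k).2]
    exact h.2.2
  · intro k' h
    obtain ⟨k, rfl⟩ := β.surjective k'
    simp only [mem_filter, mem_univ, true_and] at h
    refine ⟨k, ?_, rfl⟩
    simp only [mem_filter, mem_univ, true_and]
    refine ⟨(hk k).1.symm.trans h.1, fun h' => h.2.1 (by rw [h', hβ]), ?_⟩
    rw [← (hk k).2]
    exact h.2.2

theorem thm_Mean : St_Mean := by
  classical
  intro n D _ Om Om' κ κ' hne hC hM
  have hcard : ∀ j, ((univ.filter fun i => κ i = κ' j).card : ℝ) ≠ 0 := by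
    intro j
    obtain ⟨β, hβ⟩ := hM.1
    have h1 : (univ.filter fun i => κ i = κ' j).Nonempty :=
      ⟨β.symm j, mem_filter.2 ⟨mem_univ _, by rw [← hβ, β.apply_symm_apply]⟩⟩
    exact Nat.cast_ne_zero.2 (card_pos.2 h1).ne'
  constructor
  · intro j d
    exact div_nonneg (sum_nonneg fun i _ => Mean_mg_nonneg Om i d) (Nat.cast_nonneg _)
  · intro j
    rw [← sum_div, sum_comm]
    simp only [hC.sum]
    rw [sum_const, nsmul_eq_mul, mul_one, div_self (hcard j)]
  · intro j d hd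
    have h1 : ∑ i ∈ univ.filter (fun i => κ i = κ' j), mg Om i d ≠ 0 := by
      intro h
      rw [h, zero_div] at hd
      exact hd rfl
    obtain ⟨i, hi, hi0⟩ := exists_ne_zero_of_sum_ne_zero h1
    obtain ⟨ω, hω, hωd⟩ := hC.supp i d hi0
    obtain ⟨β, hβ, hk⟩ := hM.2 i j (mem_filter.1 hi).2
    have h2 := (hk i).2
    rw [hβ] at h2
    have h3 : (d, d) ∈ pr Om' j j := by
      rw [h2]
      exact ⟨ω, hω, hωd, hωd⟩
    obtain ⟨ω', hω', h4, -⟩ := h3
    exact ⟨ω', hω', h4⟩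
  · intro i' j' hij ω' hω'
    have hl : ∀ (S : Finset D) (l : Fin n),
        ∑ d ∈ S, (∑ i ∈ univ.filter (fun i => κ i = κ' l), mg Om i d) /
          ((univ.filter (fun i => κ i = κ' l)).card : ℝ) =
        (∑ i ∈ univ.filter (fun i => κ i = κ' l), ∑ d ∈ S, mg Om i d) /
          ((univ.filter (fun i => κ i = κ' l)).card : ℝ) := by
      intro S l
      rw [← sum_div, sum_comm]
    rw [hl, hl]
    refine Mean_dc _ _ (fun i j => j ≠ i ∧ pr Om i j = pr Om' i' j') _ _
      (((univ.filter fun k => κ' k = κ' j').filter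
        fun k => k ≠ i' ∧ pr Om' i' k = pr Om' i' j').card)
      (((univ.filter fun k => κ' k = κ' i').filter
        fun k => k ≠ j' ∧ pr Om' j' k = pr Om' j' i').card) ?_ ?_ ?_ ?_ ?_
    · exact card_ne_zero.2 ⟨j', mem_filter.2 ⟨mem_filter.2 ⟨mem_univ _, rfl⟩, hij.symm, rfl⟩⟩
    · exact card_ne_zero.2 ⟨i', mem_filter.2 ⟨mem_filter.2 ⟨mem_univ _, rfl⟩, hij, rfl⟩⟩
    · intro i hi
      exact Mean_num hM i i' (mem_filter.1 hi).2 _ _
    · intro j hj
      rw [← Mean_num hM j j' (mem_filter.1 hj).2]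
      congr 1
      ext i
      simp only [mem_filter, mem_univ, true_and]
      rw [Mean_swap (i := i) (j := j)]
      exact and_congr_right fun _ => and_congr_left fun _ => ⟨Ne.symm, Ne.symm⟩
    · intro i hi j hj hP
      have h1 : (ω' i', ω' j') ∈ pr Om i j := by
        rw [hP.2]
        exact ⟨ω', hω', rfl, rfl⟩
      obtain ⟨ω, hω, h2, h3⟩ := h1
      have h4 := hC.cst i j hP.1.symm ω hω
      rw [hP.2, Mean_swap.1 hP.2] at h4
      simp only at h2 h3
      rw [h2, h3] at h4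
      exact h4

end Pool.Agent.SYH
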