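import Pool.Agent.SYH.StC

/-!
# The solution sets of balanced templates with a majority operation
-/

set_option autoImplicit false

namespace Pool.Agent.SYH

open Finset

private theorem nice_exts {σ D : Type} {ar : σ → ℕ} (Γ : Str ar D) {n : ℕ} (I : Str ar (Fin n))
    (Om : Finset (Fin n → D)) (hOm : ∀ ω, ω ∈ Om ↔ IsHom Γ I ω) (S : Finset (Fin n)) (j : Fin n)
    (hj : j ∉ S) : ∃ X : Str ar (({i // i ∈ S} ⊕ Unit) ⊕ {i // i ∉ S ∧ i ≠ j}),
      ∀ u d, cnt Om S j u d =
        exts Γ X (Sum.elim (fun i : {i // i ∈ S} => u i.1) (fun _ : Unit => d)) := by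
  classical
  let e0 : ({i // i ∈ S} ⊕ Unit) ⊕ {i // i ∉ S ∧ i ≠ j} → Fin n :=
    Sum.elim (Sum.elim (fun i => i.1) (fun _ => j)) (fun i => i.1)
  have hbij : Function.Bijective e0 := by
    constructor
    · rintro ((x | x) | x) ((y | y) | y) h
      · have h' : x.1 = y.1 := h
        rw [Subtype.ext h']
      · have h' : x.1 = j := h
        exact absurd (h' ▸ x.2) hj
      · have h' : x.1 = y.1 := h
        exact absurd (h' ▸ x.2) y.2.1
      · have h' : j = y.1 := h
        exact absurd (h' ▸ y.2) hj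
      · rfl
      · have h' : j = y.1 := h
        exact absurd h'.symm y.2.2
      · have h' : x.1 = y.1 := h
        exact absurd (h' ▸ y.2) x.2.1
      · have h' : x.1 = j := h
        exact absurd h' x.2.2
      · have h' : x.1 = y.1 := h
        rw [Subtype.ext h']
    · intro k
      by_cases h1 : k ∈ S
      · exact ⟨Sum.inl (Sum.inl ⟨k, h1⟩), rfl⟩
      · by_cases h2 : k = j
        · exact ⟨Sum.inl (Sum.inr ()), h2.symm⟩
        · exact ⟨Sum.inr ⟨k, h1, h2⟩, rfl⟩
  let e := Equiv.ofBijective e0 hbij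
  have hee : ∀ x, e x = e0 x := fun x => rfl
  refine ⟨fun R v => I R (fun i => e (v i)), fun u d => ?_⟩
  set φ := Sum.elim (fun i : {i // i ∈ S} => u i.1) (fun _ : Unit => d) with hφ
  have hX : ∀ g : ({i // i ∈ S} ⊕ Unit) ⊕ {i // i ∉ S ∧ i ≠ j} → D,
      IsHom Γ (fun R v => I R (fun i => e (v i))) g ↔ IsHom Γ I (g ∘ e.symm) := by
    intro g
    constructor
    · intro h R v hv
      have := h R (fun i => e.symm (v i)) (by
        change I R (fun i => e (e.symm (v i)))
        have e1 : (fun i => e (e.symm (v i))) = v := funext fun i => e.apply_symm_apply _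
        rw [e1]
        exact hv)
      exact this
    · intro h R v hv
      have := h R (fun i => e (v i)) hv
      have e1 : (g ∘ e.symm) ∘ (fun i => e (v i)) = g ∘ v := by
        funext i
        simp
      rw [e1] at this
      exact this
  have hgl : ∀ ω : Fin n → D, (∀ i ∈ S, ω i = u i) → ω j = d →
      Sum.elim φ (fun y : {i // i ∉ S ∧ i ≠ j} => ω y.1) = ω ∘ e := by
    intro ω h1 h2
    funext x
    rcases x with (x | x) | x
    · exact (h1 x.1 x.2).symm
    · exact h2.symm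
    · rfl
  unfold cnt exts
  rw [← Nat.card_eq_finsetCard]
  refine Nat.card_congr
    { toFun := fun ω => ⟨fun y => ω.1 y.1, ?_⟩
      invFun := fun b => ⟨Sum.elim φ b.1 ∘ e.symm, ?_⟩
      left_inv := ?_
      right_inv := ?_ }
  · have h := (Finset.mem_filter.1 ω.2)
    rw [hX, hgl ω.1 h.2.1 h.2.2]
    have e1 : (ω.1 ∘ e) ∘ e.symm = ω.1 := by
      funext i
      simp
    rw [e1]
    exact (hOm _).1 h.1
  · rw [Finset.mem_filter]
    refine ⟨(hOm _).2 ((hX _).1 b.2), ?_, ?_⟩
    · intro i hi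
      have : e.symm i = Sum.inl (Sum.inl ⟨i, hi⟩) := by
        rw [Equiv.symm_apply_eq]
        rfl
      change Sum.elim φ b.1 (e.symm i) = u i
      rw [this]
      rfl
    · have : e.symm j = Sum.inl (Sum.inr ()) := by
        rw [Equiv.symm_apply_eq]
        rfl
      change Sum.elim φ b.1 (e.symm j) = d
      rw [this]
      rfl
  · intro ω
    have h := (Finset.mem_filter.1 ω.2)
    apply Subtype.ext
    change Sum.elim φ (fun y : {i // i ∉ S ∧ i ≠ j} => ω.1 y.1) ∘ e.symm = ω.1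
    rw [hgl ω.1 h.2.1 h.2.2]
    funext i
    simp
  · intro b
    apply Subtype.ext
    funext y
    have : e.symm y.1 = Sum.inr y := by
      rw [Equiv.symm_apply_eq]
      rfl
    change Sum.elim φ b.1 (e.symm y.1) = b.1 y
    rw [this]
    rfl

private theorem nice_bal {σ D : Type} {ar : σ → ℕ} (Γ : Str ar D) (hB : Balanced Γ) {n : ℕ}
    (I : Str ar (Fin n)) (Om : Finset (Fin n → D)) (hOm : ∀ ω, ω ∈ Om ↔ IsHom Γ I ω)
    (S : Finset (Fin n)) (j : Fin n) : Blk (cnt Om S j) := by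
  classical
  intro u u' d d' h1 h2 h3
  by_cases hj : j ∈ S
  · have key : ∀ v c, cnt Om S j v c ≠ 0 → c = v j := by
      intro v c h
      have h' := Finset.card_pos.1 (Nat.pos_of_ne_zero h)
      obtain ⟨ω, hω⟩ := h'
      have hω' := Finset.mem_filter.1 hω
      rw [← hω'.2.2]
      exact hω'.2.1 j hj
    have e1 : d = d' := (key _ _ h1).trans (key _ _ h3).symm
    rw [e1]
  · obtain ⟨X, hX⟩ := nice_exts Γ I Om hOm S j hj
    rw [hX] at h1 h2 h3
    rw [hX, hX, hX, hX]
    exact hB {i // i ∈ S} Unit {i // i ∉ S ∧ i ≠ j} X (fun i => u i.1) (fun i => u' i.1)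
      (fun _ => d) (fun _ => d') h1 h2 h3

theorem thm_Nice : St_Nice := by
  classical
  intro σ D ar Γ hB hM n I Om hOm hne
  obtain ⟨m, hm, hp⟩ := hM
  refine ⟨nice_bal Γ hB I Om hOm, ?_⟩
  have hcl : ∀ ω₁ ∈ Om, ∀ ω₂ ∈ Om, ∀ ω₃ ∈ Om, (fun i => m (ω₁ i) (ω₂ i) (ω₃ i)) ∈ Om := by
    intro ω₁ h1 ω₂ h2 ω₃ h3
    rw [hOm] at h1 h2 h3 ⊢
    intro R u hu
    exact hp R (ω₁ ∘ u) (ω₂ ∘ u) (ω₃ ∘ u) (h1 R u hu) (h2 R u hu) (h3 R u hu)
  intro S
  induction S using Finset.strongInduction with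
  | H S ih =>
    intro u hu
    by_cases hc : 2 < S.card
    · obtain ⟨a, ha, b, hb, c, hcS, hab, hac, hbc⟩ := Finset.two_lt_card.1 hc
      have hx : ∀ x ∈ S, ∃ ω ∈ Om, ∀ i ∈ S, i ≠ x → ω i = u i := by
        intro x hx
        obtain ⟨ω, hω, hω2⟩ := ih (S.erase x) (Finset.erase_ssubset hx) u
          (fun i hi j hj => hu i (Finset.mem_of_mem_erase hi) j (Finset.mem_of_mem_erase hj))
        exact ⟨ω, hω, fun i hi hne => hω2 i (Finset.mem_erase.2 ⟨hne, hi⟩)⟩
      obtain ⟨ω₁, h1, g1⟩ := hx a ha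
      obtain ⟨ω₂, h2, g2⟩ := hx b hb
      obtain ⟨ω₃, h3, g3⟩ := hx c hcS
      refine ⟨_, hcl ω₁ h1 ω₂ h2 ω₃ h3, fun i hi => ?_⟩
      by_cases ia : i = a
      · have e2 := g2 i hi (by rw [ia]; exact hab)
        have e3 := g3 i hi (by rw [ia]; exact hac)
        change m (ω₁ i) (ω₂ i) (ω₃ i) = u i
        rw [e2, e3]
        exact (hm (u i) (ω₁ i)).2.2
      · have e1 := g1 i hi ia
        by_cases ib : i = b
        · have e3 := g3 i hi (by rw [ib]; exact hbc)
          change m (ω₁ i) (ω₂ i) (ω₃ i) = u i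
          rw [e1, e3]
          exact (hm (u i) (ω₂ i)).2.1
        · have e2 := g2 i hi ib
          change m (ω₁ i) (ω₂ i) (ω₃ i) = u i
          rw [e1, e2]
          exact (hm (u i) (ω₃ i)).1
    · have hc2 : S.card = 0 ∨ S.card = 1 ∨ S.card = 2 := by omega
      rcases hc2 with h | h | h
      · obtain ⟨ω, hω⟩ := hne
        rw [Finset.card_eq_zero] at h
        refine ⟨ω, hω, fun i hi => ?_⟩
        rw [h] at hi
        exact absurd hi (Finset.notMem_empty i)
      · obtain ⟨a, rfl⟩ := Finset.card_eq_one.1 h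
        obtain ⟨ω, hω, h1, _⟩ := hu a (Finset.mem_singleton_self a) a (Finset.mem_singleton_self a)
        refine ⟨ω, hω, fun i hi => ?_⟩
        rw [Finset.mem_singleton.1 hi]
        exact h1
      · obtain ⟨a, b, hab, rfl⟩ := Finset.card_eq_two.1 h
        obtain ⟨ω, hω, h1, h2⟩ := hu a (by simp) b (by simp)
        refine ⟨ω, hω, fun i hi => ?_⟩
        rcases Finset.mem_insert.1 hi with h' | h'
        · rw [h']; exact h1
        · rw [Finset.mem_singleton.1 h']; exact h2

end Pool.Agent.SYH
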