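import Pool.Agent.SYH.CktD

/-!
# The number of gates
-/

set_option autoImplicit false

namespace Pool.Agent.SYH

open Finset

theorem thm_Size : St_Size := by
  classical
  intro σ ar _ k
  have := Fintype.ofFinite σ
  set s : ℕ := Fintype.card σ with hs
  set A : ℕ := ∑ R, ar R with hA
  refine ⟨s + A + 2 * k + 8, fun n => ⟨inferInstance, ?_⟩⟩
  set m : ℕ := n + 2 with hm
  have hm2 : 2 ≤ m := by omega
  have hm1 : 1 ≤ m := by omega
  have pw : ∀ a b : ℕ, a ≤ b → m ^ a ≤ m ^ b := fun a b h => Nat.pow_le_pow_right hm1 h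
  have two : ∀ a : ℕ, a ≤ m ^ a := fun a =>
    (Nat.lt_two_pow_self (n := a)).le.trans (Nat.pow_le_pow_left hm2 a)
  set B : ℕ := s + A + 2 * k + 5 with hB
  have h0 : Nat.card (Gt ar n (n ^ 2 * k ^ 2) (2 * n)) ≤
      Nat.card (Atom ar (Fin n) ⊕ (Fin 2 ⊕ ((Fin (n ^ 2 * k ^ 2 + 1) × Fin n × Fin n) ⊕
        ((Fin (n ^ 2 * k ^ 2) × Fin n × Fin n × Fin n) ⊕
          ((Fin (2 * n) × Fin n × Fin n) ⊕ (Fin (2 * n + 1) × Fin n)))))) :=
    Nat.card_le_card_of_injective _ gCode_inj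
  refine h0.trans ?_
  rw [Nat.card_eq_fintype_card]
  simp only [Fintype.card_sum, Fintype.card_prod, Fintype.card_fin, Fintype.card_sigma,
    Fintype.card_fun]
  have e1 : ∑ R : σ, n ^ ar R ≤ m ^ B := by
    calc ∑ R : σ, n ^ ar R ≤ ∑ _R : σ, m ^ A := by
          apply Finset.sum_le_sum
          intro R _
          refine (Nat.pow_le_pow_left (by omega) _).trans (pw _ _ ?_)
          exact Finset.single_le_sum (f := ar) (fun _ _ => Nat.zero_le _) (mem_univ R)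
      _ = s * m ^ A := by rw [sum_const, card_univ, smul_eq_mul]
      _ ≤ m ^ s * m ^ A := Nat.mul_le_mul_right _ (two s)
      _ = m ^ (s + A) := (pow_add _ _ _).symm
      _ ≤ m ^ B := pw _ _ (by omega)
  have hn : n ≤ m := by omega
  have e2 : 2 ≤ m ^ B := by
    calc 2 ≤ m ^ 1 := by rw [pow_one]; exact hm2
      _ ≤ m ^ B := pw _ _ (by omega)
  have hN : n ^ 2 * k ^ 2 ≤ m ^ (2 * k + 2) := by
    calc n ^ 2 * k ^ 2 ≤ m ^ 2 * (m ^ k) ^ 2 :=
          Nat.mul_le_mul (Nat.pow_le_pow_left hn 2) (Nat.pow_le_pow_left (two k) 2)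
      _ = m ^ (2 * k + 2) := by ring
  have hN1 : n ^ 2 * k ^ 2 + 1 ≤ m ^ (2 * k + 3) := by
    have h1 : 1 ≤ m ^ (2 * k + 2) := Nat.one_le_pow _ _ hm1
    calc n ^ 2 * k ^ 2 + 1 ≤ 2 * m ^ (2 * k + 2) := by omega
      _ ≤ m * m ^ (2 * k + 2) := Nat.mul_le_mul_right _ hm2
      _ = m ^ (2 * k + 3) := by ring
  have e3 : (n ^ 2 * k ^ 2 + 1) * (n * n) ≤ m ^ B := by
    calc (n ^ 2 * k ^ 2 + 1) * (n * n) ≤ m ^ (2 * k + 3) * (m * m) :=
          Nat.mul_le_mul hN1 (Nat.mul_le_mul hn hn)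
      _ = m ^ (2 * k + 5) := by ring
      _ ≤ m ^ B := pw _ _ (by omega)
  have e4 : n ^ 2 * k ^ 2 * (n * (n * n)) ≤ m ^ B := by
    calc n ^ 2 * k ^ 2 * (n * (n * n)) ≤ m ^ (2 * k + 2) * (m * (m * m)) :=
          Nat.mul_le_mul hN (Nat.mul_le_mul hn (Nat.mul_le_mul hn hn))
      _ = m ^ (2 * k + 5) := by ring
      _ ≤ m ^ B := pw _ _ (by omega)
  have e5 : 2 * n * (n * n) ≤ m ^ B := by
    calc 2 * n * (n * n) ≤ m * m * (m * m) :=
          Nat.mul_le_mul (Nat.mul_le_mul hm2 hn) (Nat.mul_le_mul hn hn)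
      _ = m ^ 4 := by ring
      _ ≤ m ^ B := pw _ _ (by omega)
  have e6 : (2 * n + 1) * n ≤ m ^ B := by
    calc (2 * n + 1) * n ≤ m * m * m := by
          refine Nat.mul_le_mul ?_ hn
          calc 2 * n + 1 ≤ 2 * m := by omega
            _ ≤ m * m := Nat.mul_le_mul_right _ hm2
      _ = m ^ 3 := by ring
      _ ≤ m ^ B := pw _ _ (by omega)
  calc _ ≤ 8 * m ^ B := by omega
    _ ≤ m ^ 3 * m ^ B := by
        refine Nat.mul_le_mul_right _ ?_
        calc 8 = 2 ^ 3 := by norm_num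
          _ ≤ m ^ 3 := Nat.pow_le_pow_left hm2 3
    _ = m ^ (s + A + 2 * k + 8) := by
        rw [← pow_add]
        congr 1
        omega

end Pool.Agent.SYH
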