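import Pool.Agent.SYH.EasyF
import Pool.Agent.SYH.Det
import Pool.Agent.SYH.Nice
import Pool.Agent.SYH.Cons
import Pool.Agent.SYH.Kap
import Pool.Agent.SYH.Col
import Pool.Agent.SYH.Max
import Pool.Agent.SYH.Chain
import Pool.Agent.SYH.Cond
import Pool.Agent.SYH.Lin
import Pool.Agent.SYH.Gibbs
import Pool.Agent.SYH.Mean
import Pool.Agent.SYH.Conc
import Pool.Agent.SYH.Ckt
import Pool.Agent.SYH.Size

/-!
# The easy side, without hypotheses
-/

set_option autoImplicit false

namespace Pool.Agent.SYH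

theorem all_Easy : St_Easy :=
  thm_EasyF (thm_Det thm_Nice thm_Cons thm_Kap
    (thm_Col (thm_Max (thm_Chain thm_Cond) thm_Lin thm_Gibbs) thm_Mean (thm_Conc thm_Gibbs)))
    thm_Ckt thm_Size

end Pool.Agent.SYH
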