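import Pool.Agent.SYH.StC

/-!
# Boolean templates
-/

set_option autoImplicit false

namespace Pool.Agent.SYH

open Finset

private theorem Bool_dec {k : ℕ} {D : Type} (Q : (Fin k → D) → Prop) (m : D → D → D → D)
    (hm : ∀ x y, m x x y = x ∧ m x y x = x ∧ m y x x = x)
    (hQ : ∀ u v w, Q u → Q v → Q w → Q fun i => m (u i) (v i) (w i)) (u : Fin k → D)
    (h0 : ∃ v, Q v) (h2 : ∀ a b, ∃ v, Q v ∧ v a = u a ∧ v b = u b) : Q u := by
  classical
  have key : ∀ (c : ℕ) (S : Finset (Fin k)), S.card = c → ∃ v, Q v ∧ ∀ i ∈ S, v i = u i := by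
    intro c
    induction c using Nat.strong_induction_on with
    | _ c ih =>
      intro S hS
      by_cases h3 : 2 < S.card
      · obtain ⟨a, b, d, ha, hb, hd, hab, had, hbd⟩ := Finset.two_lt_card_iff.1 h3
        have lt : ∀ x ∈ S, (S.erase x).card < c := fun x hx => by
          rw [Finset.card_erase_of_mem hx]
          omega
        obtain ⟨v1, q1, e1⟩ := ih _ (lt a ha) (S.erase a) rfl
        obtain ⟨v2, q2, e2⟩ := ih _ (lt b hb) (S.erase b) rfl
        obtain ⟨v3, q3, e3⟩ := ih _ (lt d hd) (S.erase d) rfl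
        refine ⟨_, hQ v1 v2 v3 q1 q2 q3, fun i hi => ?_⟩
        by_cases h1 : i = a
        · subst h1
          rw [e2 i (mem_erase.2 ⟨hab, hi⟩), e3 i (mem_erase.2 ⟨had, hi⟩)]
          exact (hm _ _).2.2
        · rw [e1 i (mem_erase.2 ⟨h1, hi⟩)]
          by_cases h4 : i = b
          · subst h4
            rw [e3 i (mem_erase.2 ⟨hbd, hi⟩)]
            exact (hm _ _).2.1
          · rw [e2 i (mem_erase.2 ⟨h4, hi⟩)]
            exact (hm _ _).1
      · have h4 : S.card = 0 ∨ S.card = 1 ∨ S.card = 2 := by omega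
        rcases h4 with h4 | h4 | h4
        · obtain ⟨v, hv⟩ := h0
          rw [Finset.card_eq_zero] at h4
          subst h4
          exact ⟨v, hv, by simp⟩
        · obtain ⟨a, rfl⟩ := Finset.card_eq_one.1 h4
          obtain ⟨v, hv, h5, -⟩ := h2 a a
          refine ⟨v, hv, fun i hi => ?_⟩
          rw [Finset.mem_singleton] at hi
          rw [hi, h5]
        · obtain ⟨a, b, -, rfl⟩ := Finset.card_eq_two.1 h4
          obtain ⟨v, hv, h5, h6⟩ := h2 a b
          refine ⟨v, hv, fun i hi => ?_⟩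
          rw [Finset.mem_insert, Finset.mem_singleton] at hi
          rcases hi with rfl | rfl
          · exact h5
          · exact h6
  obtain ⟨v, hv, h⟩ := key _ univ rfl
  have : v = u := funext fun i => h i (mem_univ i)
  rw [← this]
  exact hv

private theorem Bool_maj {σ : Type} {ar : σ → ℕ} (Γ : Str ar Bool) (h : ∀ R, IsConj (Γ R)) :
    HasMajority Γ := by
  refine ⟨fun x y z => (x && y) || (x && z) || (y && z), by decide, ?_⟩
  intro R u v w hu hv hw
  rcases h R with h1 | ⟨A, B, h1⟩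
  · exact absurd hu (h1 u)
  · rw [h1] at hu hv hw ⊢
    refine ⟨fun p hp => ?_, fun t ht => ?_⟩
    · change ((u p.1 && v p.1) || (u p.1 && w p.1) || (v p.1 && w p.1)) = p.2
      rw [hu.1 p hp, hv.1 p hp, hw.1 p hp]
      simp
    · have e1 := hu.2 t ht
      have e2 := hv.2 t ht
      have e3 := hw.2 t ht
      change xor ((u t.1 && v t.1) || (u t.1 && w t.1) || (v t.1 && w t.1))
        ((u t.2.1 && v t.2.1) || (u t.2.1 && w t.2.1) || (v t.2.1 && w t.2.1)) = t.2.2
      rw [← e1] at e2 e3 ⊢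
      revert e2 e3
      generalize u t.1 = a
      generalize u t.2.1 = b
      generalize v t.1 = c
      generalize v t.2.1 = d
      generalize w t.1 = e
      generalize w t.2.1 = f
      revert a b c d e f
      decide

private theorem Bool_xor {σ : Type} {ar : σ → ℕ} (Γ : Str ar Bool) (h : ∀ R, IsConj (Γ R))
    (R : σ) (u v w : Fin (ar R) → Bool) (hu : Γ R u) (hv : Γ R v) (hw : Γ R w) :
    Γ R fun i => xor (u i) (xor (v i) (w i)) := by
  rcases h R with h1 | ⟨A, B, h1⟩
  · exact absurd hu (h1 u)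
  · rw [h1] at hu hv hw ⊢
    refine ⟨fun p hp => ?_, fun t ht => ?_⟩
    · have := hp
      rw [hu.1 p hp, hv.1 p hp, hw.1 p hp]
      simp
    · have e1 := hu.2 t ht
      have e2 := hv.2 t ht
      have e3 := hw.2 t ht
      change xor (xor (u t.1) (xor (v t.1) (w t.1)))
        (xor (u t.2.1) (xor (v t.2.1) (w t.2.1))) = t.2.2
      rw [← e1] at e2 e3 ⊢
      revert e2 e3
      generalize u t.1 = a
      generalize u t.2.1 = b
      generalize v t.1 = c
      generalize v t.2.1 = d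
      generalize w t.1 = e
      generalize w t.2.1 = f
      revert a b c d e f
      decide

private theorem Bool_le {σ : Type} {ar : σ → ℕ} (Γ : Str ar Bool) (h : ∀ R, IsConj (Γ R))
    {A Y : Type} [Finite Y] (X : Str ar (A ⊕ Y)) (φ₁ φ₂ φ₃ φ₄ : A → Bool)
    (he : ∀ x, φ₄ x = xor (φ₁ x) (xor (φ₂ x) (φ₃ x))) (h2 : exts Γ X φ₂ ≠ 0)
    (h3 : exts Γ X φ₃ ≠ 0) : exts Γ X φ₁ ≤ exts Γ X φ₄ := by
  unfold exts at h2 h3 ⊢
  obtain ⟨⟨y2, q2⟩⟩ : Nonempty {b : Y → Bool // IsHom Γ X (Sum.elim φ₂ b)} :=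
    (Nat.card_ne_zero.1 h2).1
  obtain ⟨⟨y3, q3⟩⟩ : Nonempty {b : Y → Bool // IsHom Γ X (Sum.elim φ₃ b)} :=
    (Nat.card_ne_zero.1 h3).1
  refine Nat.card_le_card_of_injective
    (fun b => ⟨fun y => xor (b.1 y) (xor (y2 y) (y3 y)), ?_⟩) ?_
  · intro R u hu
    have h4 := Bool_xor Γ h R _ _ _ (b.2 R u hu) (q2 R u hu) (q3 R u hu)
    have h5 : (Sum.elim φ₄ fun y => xor (b.1 y) (xor (y2 y) (y3 y))) ∘ u = fun i =>
        xor ((Sum.elim φ₁ b.1 ∘ u) i) (xor ((Sum.elim φ₂ y2 ∘ u) i) ((Sum.elim φ₃ y3 ∘ u) i)) := by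
      funext i
      simp only [Function.comp_apply]
      rcases u i with x | y
      · exact he x
      · rfl
    rw [h5]
    exact h4
  · intro b b' hb
    apply Subtype.ext
    funext y
    have h6 := congrFun (congrArg Subtype.val hb) y
    simp only at h6
    revert h6
    generalize b.1 y = p
    generalize b'.1 y = q
    generalize y2 y = r
    generalize y3 y = t
    revert p q r t
    decide

private theorem Bool_bal {σ : Type} {ar : σ → ℕ} (Γ : Str ar Bool) (h : ∀ R, IsConj (Γ R)) :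
    Balanced Γ := by
  intro A B Y _ _ _ X s s' w w' h1 h2 h3
  have L := fun φ₁ φ₂ φ₃ φ₄ he h2 h3 => Bool_le Γ h X φ₁ φ₂ φ₃ φ₄ he h2 h3
  have sw : ∀ a b : Bool, a = xor b (xor a b) := by decide
  have sw2 : ∀ a b : Bool, a = xor b (xor b a) := by decide
  have sw3 : ∀ a b : Bool, a = xor a (xor b b) := by decide
  have a1 : exts Γ X (Sum.elim s w) ≤ exts Γ X (Sum.elim s' w') := by
    refine L _ _ _ _ ?_ h2 h3
    rintro (x | x)
    · exact sw _ _
    · exact sw2 _ _
  have h4 : exts Γ X (Sum.elim s' w') ≠ 0 := by omega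
  have a2 : exts Γ X (Sum.elim s' w') ≤ exts Γ X (Sum.elim s w) := by
    refine L _ _ _ _ ?_ h2 h3
    rintro (x | x)
    · exact sw2 _ _
    · exact sw _ _
  have a3 : exts Γ X (Sum.elim s w) ≤ exts Γ X (Sum.elim s w') := by
    refine L _ _ _ _ ?_ h2 h4
    rintro (x | x)
    · exact sw3 _ _
    · exact sw2 _ _
  have a4 : exts Γ X (Sum.elim s w') ≤ exts Γ X (Sum.elim s w) := by
    refine L _ _ _ _ ?_ h2 h4
    rintro (x | x)
    · exact sw3 _ _
    · exact sw _ _
  have a5 : exts Γ X (Sum.elim s w) ≤ exts Γ X (Sum.elim s' w) := by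
    refine L _ _ _ _ ?_ h3 h4
    rintro (x | x)
    · exact sw2 _ _
    · exact sw3 _ _
  have a6 : exts Γ X (Sum.elim s' w) ≤ exts Γ X (Sum.elim s w) := by
    refine L _ _ _ _ ?_ h3 h4
    rintro (x | x)
    · exact sw _ _
    · exact sw3 _ _
  rw [le_antisymm a2 a1, le_antisymm a4 a3, le_antisymm a6 a5]

private theorem Bool_rect {σ : Type} {ar : σ → ℕ} (Γ : Str ar Bool) (hB : Balanced Γ) (R : σ)
    (a b : Fin (ar R)) (hab : a ≠ b) (s s' w w' : Bool)
    (h1 : ∃ v, Γ R v ∧ v a = s ∧ v b = w) (h2 : ∃ v, Γ R v ∧ v a = s' ∧ v b = w)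
    (h3 : ∃ v, Γ R v ∧ v a = s ∧ v b = w') : ∃ v, Γ R v ∧ v a = s' ∧ v b = w' := by
  classical
  let Y : Type := {c : Fin (ar R) // c ≠ a ∧ c ≠ b}
  let e : Fin (ar R) → (Unit ⊕ Unit) ⊕ Y := fun c =>
    if ha : c = a then Sum.inl (Sum.inl ()) else if hb : c = b then Sum.inl (Sum.inr ())
      else Sum.inr ⟨c, ha, hb⟩
  have ea : e a = Sum.inl (Sum.inl ()) := by simp [e]
  have eb : e b = Sum.inl (Sum.inr ()) := by simp [e, hab.symm]
  let X : Str ar ((Unit ⊕ Unit) ⊕ Y) := fun R' u' =>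
    (⟨R', u'⟩ : (R : σ) × (Fin (ar R) → (Unit ⊕ Unit) ⊕ Y)) = ⟨R, e⟩
  have hX : ∀ f : (Unit ⊕ Unit) ⊕ Y → Bool, IsHom Γ X f ↔ Γ R (f ∘ e) := by
    intro f
    constructor
    · intro hf
      exact hf R e rfl
    · intro hf R' u' hu
      have h4 : (⟨R', u'⟩ : (R : σ) × (Fin (ar R) → (Unit ⊕ Unit) ⊕ Y)) = ⟨R, e⟩ := hu
      have : R' = R := congrArg Sigma.fst h4
      subst this
      have : u' = e := eq_of_heq (Sigma.mk.inj h4).2
      subst this
      exact hf
  have hE : ∀ (x y : Unit → Bool), exts Γ X (Sum.elim x y) ≠ 0 ↔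
      ∃ v, Γ R v ∧ v a = x () ∧ v b = y () := by
    intro x y
    unfold exts
    constructor
    · intro h
      obtain ⟨⟨z, hz⟩⟩ := (Nat.card_ne_zero.1 h).1
      rw [hX] at hz
      refine ⟨_, hz, ?_, ?_⟩
      · rw [Function.comp_apply, ea]
        rfl
      · rw [Function.comp_apply, eb]
        rfl
    · rintro ⟨v, hv, h1, h2⟩
      have : Nonempty {z : Y → Bool // IsHom Γ X (Sum.elim (Sum.elim x y) z)} := by
        refine ⟨⟨fun c => v c.1, ?_⟩⟩
        rw [hX]
        have h5 : (Sum.elim (Sum.elim x y) fun c : Y => v c.1) ∘ e = v := by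
          funext c
          rw [Function.comp_apply]
          by_cases ha : c = a
          · subst ha
            rw [ea]
            exact h1.symm
          · by_cases hb : c = b
            · subst hb
              rw [eb]
              exact h2.symm
            · have : e c = Sum.inr ⟨c, ha, hb⟩ := by simp [e, ha, hb]
              rw [this]
              rfl
        rw [h5]
        exact hv
      exact Nat.card_ne_zero.2 ⟨this, inferInstance⟩
  have h4 := hB Unit Unit Y X (fun _ => s) (fun _ => s') (fun _ => w) (fun _ => w')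
    ((hE _ _).2 h1) ((hE _ _).2 h2) ((hE _ _).2 h3)
  apply (hE (fun _ => s') fun _ => w').1
  intro h5
  rw [h5, mul_zero] at h4
  exact (mul_ne_zero ((hE _ _).2 h3) ((hE _ _).2 h2)) h4.symm

theorem thm_Bool : St_Bool := by
  intro σ ar Γ
  constructor
  · rintro ⟨hB, m, hm, hQ⟩ R
    by_cases h0 : ∀ u, ¬ Γ R u
    · exact Or.inl h0
    right
    push Not at h0
    refine ⟨{p | ∀ u, Γ R u → u p.1 = p.2}, {t | ∀ u, Γ R u → xor (u t.1) (u t.2.1) = t.2.2},
      fun u => ⟨fun hu => ⟨fun p hp => hp u hu, fun t ht => ht u hu⟩, ?_⟩⟩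
    rintro ⟨hA, hC⟩
    have un : ∀ a, ∃ v, Γ R v ∧ v a = u a := by
      intro a
      by_contra hc
      push Not at hc
      have h1 : ((a, !u a) : Fin (ar R) × Bool) ∈ {p : Fin (ar R) × Bool |
          ∀ u, Γ R u → u p.1 = p.2} := by
        intro v hv
        have := hc v hv
        revert this
        change v a ≠ u a → v a = !u a
        cases v a <;> cases u a <;> simp
      have h2 := hA _ h1
      revert h2
      change u a = !u a → False
      cases u a <;> simp
    apply Bool_dec (Γ R) m hm (hQ R) u h0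
    intro a b
    by_cases hab : a = b
    · subst hab
      obtain ⟨v, hv, h1⟩ := un a
      exact ⟨v, hv, h1, h1⟩
    by_contra hc
    push Not at hc
    obtain ⟨v1, q1, e1⟩ := un a
    obtain ⟨v2, q2, e2⟩ := un b
    have f1 : v1 b = !u b := by
      have := hc v1 q1 e1
      revert this
      cases v1 b <;> cases u b <;> simp
    have f2 : v2 a = !u a := by
      have h5 : v2 a ≠ u a := fun h5 => hc v2 q2 h5 e2
      revert h5
      cases v2 a <;> cases u a <;> simp
    by_cases h3 : ∃ v, Γ R v ∧ v a = (!u a) ∧ v b = !u b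
    · obtain ⟨v, hv, g1, g2⟩ := Bool_rect Γ hB R a b hab (!u a) (u a) (!u b) (u b) h3
        ⟨v1, q1, e1, f1⟩ ⟨v2, q2, f2, e2⟩
      exact hc v hv g1 g2
    · have h4 : ((a, b, xor (u a) (!u b)) : Fin (ar R) × Fin (ar R) × Bool) ∈
          {t : Fin (ar R) × Fin (ar R) × Bool |
            ∀ u, Γ R u → xor (u t.1) (u t.2.1) = t.2.2} := by
        intro v hv
        change xor (v a) (v b) = xor (u a) (!u b)
        have g1 : ¬ (v a = u a ∧ v b = u b) := fun h => hc v hv h.1 h.2
        have g2 : ¬ (v a = (!u a) ∧ v b = !u b) := fun h => h3 ⟨v, hv, h.1, h.2⟩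
        revert g1 g2
        generalize v a = p
        generalize v b = q
        generalize u a = r
        generalize u b = t
        revert p q r t
        decide
      have h5 := hC _ h4
      revert h5
      change xor (u a) (u b) = xor (u a) (!u b) → False
      cases u a <;> cases u b <;> simp
  · intro h
    exact ⟨Bool_bal Γ h, Bool_maj Γ h⟩

end Pool.Agent.SYH
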