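import Pool.Agent.SYH.StC

/-!
# Graphs: balanced with a majority operation iff rectangular
-/

set_option autoImplicit false

namespace Pool.Agent.SYH

section
variable {D : Type} (H : D → D → Prop)

/-- same neighbours -/
private def NB (x y : D) : Prop := ∀ z, H x z ↔ H y z

variable {H}

private theorem nb_of {hs : ∀ x y, H x y → H y x} {hr : ∀ a b c d, H a b → H b c → H c d → H a d}
    {x y z : D} (h1 : H x z) (h2 : H y z) : NB H x y := fun w =>
  ⟨fun h => hr y z x w h2 (hs _ _ h1) h, fun h => hr x z y w h1 (hs _ _ h2) h⟩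

private theorem nb_step {hs : ∀ x y, H x y → H y x}
    {hr : ∀ a b c d, H a b → H b c → H c d → H a d}
    {x y x' y' : D} (h : NB H x y) (h1 : H x x') (h2 : H y y') : NB H x' y' :=
  nb_of (hs := hs) (hr := hr) (z := y) (hs _ _ ((h x').1 h1)) (hs _ _ h2)

private theorem graph_maj (hs : ∀ x y, H x y → H y x)
    (hr : ∀ a b c d, H a b → H b c → H c d → H a d) : HasMajority (grTpl H) := by
  classical
  refine ⟨fun x y z => if NB H y z then (if NB H x y then (if y = z then y else x) else y) else x,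
    ?_, ?_⟩
  · intro x y
    refine ⟨?_, ?_, ?_⟩
    · by_cases h : NB H x y
      · have h2 : NB H x x := fun z => Iff.rfl
        by_cases h3 : x = y <;> simp [h, h2, h3]
      · simp [h]
    · by_cases h : NB H y x
      · have h2 : NB H x y := fun z => (h z).symm
        by_cases h3 : y = x <;> simp [h, h2, h3]
      · simp [h]
    · have h2 : NB H x x := fun z => Iff.rfl
      by_cases h : NB H y x <;> simp [h, h2]
  · intro R u v w hu hv hw
    change H (u 0) (u 1) at hu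
    change H (v 0) (v 1) at hv
    change H (w 0) (w 1) at hw
    have e1 : NB H (v 0) (w 0) ↔ NB H (v 1) (w 1) :=
      ⟨fun h => nb_step (hs := hs) (hr := hr) h hv hw,
        fun h => nb_step (hs := hs) (hr := hr) h (hs _ _ hv) (hs _ _ hw)⟩
    have e2 : NB H (u 0) (v 0) ↔ NB H (u 1) (v 1) :=
      ⟨fun h => nb_step (hs := hs) (hr := hr) h hu hv,
        fun h => nb_step (hs := hs) (hr := hr) h (hs _ _ hu) (hs _ _ hv)⟩
    change H (if NB H (v 0) (w 0) then (if NB H (u 0) (v 0) then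
        (if v 0 = w 0 then v 0 else u 0) else v 0) else u 0)
      (if NB H (v 1) (w 1) then (if NB H (u 1) (v 1) then
        (if v 1 = w 1 then v 1 else u 1) else v 1) else u 1)
    by_cases a1 : NB H (v 0) (w 0)
    · rw [if_pos a1, if_pos (e1.1 a1)]
      by_cases a2 : NB H (u 0) (v 0)
      · rw [if_pos a2, if_pos (e2.1 a2)]
        have c1 : H (u 0) (v 1) := (a2 (v 1)).2 hv
        have c2 : H (v 0) (u 1) := (a2 (u 1)).1 hu
        split_ifs
        · exact hv
        · exact c2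
        · exact c1
        · exact hu
      · rw [if_neg a2, if_neg (fun h => a2 (e2.2 h))]
        exact hv
    · rw [if_neg a1, if_neg (fun h => a1 (e1.2 h))]
      exact hu

variable {A B Y : Type} (X : Str (fun _ : Unit => 2) ((A ⊕ B) ⊕ Y))

/-- adjacency in the structure -/
private def Nbr (t t' : (A ⊕ B) ⊕ Y) : Prop :=
  ∃ u, X () u ∧ ((u 0 = t ∧ u 1 = t') ∨ (u 0 = t' ∧ u 1 = t))

/-- connected with a vertex in `A` -/
private def TA (t : (A ⊕ B) ⊕ Y) : Prop :=
  ∃ a : A, Relation.ReflTransGen (Nbr X) (Sum.inl (Sum.inl a)) t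

/-- where the first homomorphism is kept -/
private def Sel : (A ⊕ B) ⊕ Y → Prop
  | Sum.inl (Sum.inl _) => True
  | Sum.inl (Sum.inr _) => False
  | Sum.inr y => TA X (Sum.inr y)

private theorem sel_edge (hs : ∀ x y, H x y → H y x)
    (hr : ∀ a b c d, H a b → H b c → H c d → H a d)
    (h₁ h₂ f : (A ⊕ B) ⊕ Y → D) (H1 : IsHom (grTpl H) X h₁) (H2 : IsHom (grTpl H) X h₂)
    (Hf : IsHom (grTpl H) X f) (fA : ∀ a : A, f (Sum.inl (Sum.inl a)) = h₁ (Sum.inl (Sum.inl a)))
    (fB : ∀ b : B, f (Sum.inl (Sum.inr b)) = h₂ (Sum.inl (Sum.inr b)))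
    (t t' : (A ⊕ B) ⊕ Y) (hn : Nbr X t t') (hne : ¬ (Sel X t ↔ Sel X t')) :
    NB H (h₁ t) (h₂ t) := by
  have hsym : ∀ x y, Nbr X x y → Nbr X y x := fun x y ⟨u, hu, h⟩ => ⟨u, hu, h.symm⟩
  have hedge : ∀ (g : (A ⊕ B) ⊕ Y → D), IsHom (grTpl H) X g → ∀ x y, Nbr X x y →
      H (g x) (g y) := by
    rintro g hg x y ⟨u, hu, h | h⟩
    · have := hg () u hu
      change H (g (u 0)) (g (u 1)) at this
      rw [h.1, h.2] at this
      exact this
    · have := hg () u hu
      change H (g (u 0)) (g (u 1)) at this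
      rw [h.1, h.2] at this
      exact hs _ _ this
  have hTA : ∀ x y, Nbr X x y → TA X x → TA X y := fun x y h ⟨a, ha⟩ => ⟨a, ha.tail h⟩
  have hAsel : ∀ x, ¬ TA X x → ¬ Sel X x := by
    rintro ((a | b) | y) h h2
    · exact h ⟨a, Relation.ReflTransGen.refl⟩
    · exact h2
    · exact h h2
  have hnb : ∀ x, TA X x → NB H (h₁ x) (f x) := by
    rintro x ⟨a, ha⟩
    induction ha with
    | refl => rw [fA a]; exact fun z => Iff.rfl
    | tail _ hyz ih =>
      exact nb_step (hs := hs) (hr := hr) ih (hedge h₁ H1 _ _ hyz) (hedge f Hf _ _ hyz)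
  have hkey : ∀ x, TA X x → ¬ Sel X x → NB H (h₁ x) (h₂ x) := by
    rintro ((a | b) | y) h h2
    · exact absurd trivial h2
    · have := hnb _ h
      rw [fB b] at this
      exact this
    · exact absurd h h2
  by_cases ht : TA X t
  · by_cases h1 : Sel X t
    · have h2 : ¬ Sel X t' := fun h => hne ⟨fun _ => h, fun _ => h1⟩
      exact nb_step (hs := hs) (hr := hr) (hkey t' (hTA _ _ hn ht) h2)
        (hedge h₁ H1 _ _ (hsym _ _ hn)) (hedge h₂ H2 _ _ (hsym _ _ hn))
    · exact hkey t ht h1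
  · have h1 := hAsel t ht
    have h2 := hAsel t' (fun h => ht (hTA _ _ (hsym _ _ hn) h))
    exact absurd ⟨fun h => absurd h h1, fun h => absurd h h2⟩ hne

open Classical in
/-- exchange of the values -/
private noncomputable def mix (b₁ b₂ : Y → D) : Y → D :=
  fun y => if TA X (Sum.inr y) then b₁ y else b₂ y

private theorem mix_hom (hs : ∀ x y, H x y → H y x)
    (hr : ∀ a b c d, H a b → H b c → H c d → H a d) (s₁ s₂ : A → D) (w₁ w₂ : B → D)
    (b₁ b₂ b₃ : Y → D) (H1 : IsHom (grTpl H) X (Sum.elim (Sum.elim s₁ w₁) b₁))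
    (H2 : IsHom (grTpl H) X (Sum.elim (Sum.elim s₂ w₂) b₂))
    (H3 : IsHom (grTpl H) X (Sum.elim (Sum.elim s₁ w₂) b₃)) :
    IsHom (grTpl H) X (Sum.elim (Sum.elim s₁ w₂) (mix X b₁ b₂)) ∧
      IsHom (grTpl H) X (Sum.elim (Sum.elim s₂ w₁) (mix X b₂ b₁)) := by
  classical
  set h₁ := Sum.elim (Sum.elim s₁ w₁) b₁ with e1
  set h₂ := Sum.elim (Sum.elim s₂ w₂) b₂ with e2
  have k1 : ∀ t, Sum.elim (Sum.elim s₁ w₂) (mix X b₁ b₂) t = if Sel X t then h₁ t else h₂ t := by
    rintro ((a | b) | y)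
    · simp [Sel, e1]
    · simp [Sel, e2]
    · simp [Sel, mix, e1, e2]
  have k2 : ∀ t, Sum.elim (Sum.elim s₂ w₁) (mix X b₂ b₁) t = if Sel X t then h₂ t else h₁ t := by
    rintro ((a | b) | y)
    · simp [Sel, e2]
    · simp [Sel, e1]
    · simp [Sel, mix, e1, e2]
  have hE : ∀ u, X () u → H (h₁ (u 0)) (h₁ (u 1)) ∧ H (h₂ (u 0)) (h₂ (u 1)) :=
    fun u hu => ⟨H1 () u hu, H2 () u hu⟩
  have hM : ∀ u, X () u → ¬ (Sel X (u 0) ↔ Sel X (u 1)) →
      H (h₁ (u 0)) (h₂ (u 1)) ∧ H (h₂ (u 0)) (h₁ (u 1)) := by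
    intro u hu hne
    have := sel_edge X hs hr h₁ h₂ _ H1 H2 H3 (fun a => rfl) (fun b => rfl) (u 0) (u 1)
      ⟨u, hu, Or.inl ⟨rfl, rfl⟩⟩ hne
    exact ⟨(this _).2 (hE u hu).2, (this _).1 (hE u hu).1⟩
  constructor
  · rintro ⟨⟩ u hu
    change H (Sum.elim (Sum.elim s₁ w₂) (mix X b₁ b₂) (u 0))
      (Sum.elim (Sum.elim s₁ w₂) (mix X b₁ b₂) (u 1))
    rw [k1, k1]
    by_cases a0 : Sel X (u 0) <;> by_cases a1 : Sel X (u 1)
    · rw [if_pos a0, if_pos a1]; exact (hE u hu).1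
    · rw [if_pos a0, if_neg a1]; exact (hM u hu (fun h => a1 (h.1 a0))).1
    · rw [if_neg a0, if_pos a1]; exact (hM u hu (fun h => a0 (h.2 a1))).2
    · rw [if_neg a0, if_neg a1]; exact (hE u hu).2
  · rintro ⟨⟩ u hu
    change H (Sum.elim (Sum.elim s₂ w₁) (mix X b₂ b₁) (u 0))
      (Sum.elim (Sum.elim s₂ w₁) (mix X b₂ b₁) (u 1))
    rw [k2, k2]
    by_cases a0 : Sel X (u 0) <;> by_cases a1 : Sel X (u 1)
    · rw [if_pos a0, if_pos a1]; exact (hE u hu).2
    · rw [if_pos a0, if_neg a1]; exact (hM u hu (fun h => a1 (h.1 a0))).2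
    · rw [if_neg a0, if_pos a1]; exact (hM u hu (fun h => a0 (h.2 a1))).1
    · rw [if_neg a0, if_neg a1]; exact (hE u hu).1

private theorem mix_mix (b₁ b₂ : Y → D) : mix X (mix X b₁ b₂) (mix X b₂ b₁) = b₁ := by
  classical
  funext y
  by_cases h : TA X (Sum.inr y) <;> simp [mix, h]

private theorem graph_bal (hs : ∀ x y, H x y → H y x)
    (hr : ∀ a b c d, H a b → H b c → H c d → H a d) : Balanced (grTpl H) := by
  intro A B Y _ _ _ X s s' w w' h1 h2 h3
  have ex : ∀ φ : A ⊕ B → D, exts (grTpl H) X φ ≠ 0 →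
      ∃ b : Y → D, IsHom (grTpl H) X (Sum.elim φ b) := by
    intro φ h
    by_contra hno
    apply h
    have : IsEmpty {b : Y → D // IsHom (grTpl H) X (Sum.elim φ b)} :=
      ⟨fun b => hno ⟨b.1, b.2⟩⟩
    exact Nat.card_of_isEmpty
  obtain ⟨f1, hf1⟩ := ex _ h1
  obtain ⟨f3, hf3⟩ := ex _ h3
  unfold exts
  rw [← Nat.card_prod, ← Nat.card_prod]
  refine Nat.card_congr
    { toFun := fun p => (⟨mix X p.1.1 p.2.1,
          (mix_hom X hs hr s s' w w' p.1.1 p.2.1 f3 p.1.2 p.2.2 hf3).1⟩,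
        ⟨mix X p.2.1 p.1.1, (mix_hom X hs hr s s' w w' p.1.1 p.2.1 f3 p.1.2 p.2.2 hf3).2⟩)
      invFun := fun p => (⟨mix X p.1.1 p.2.1,
          (mix_hom X hs hr s s' w' w p.1.1 p.2.1 f1 p.1.2 p.2.2 hf1).1⟩,
        ⟨mix X p.2.1 p.1.1, (mix_hom X hs hr s s' w' w p.1.1 p.2.1 f1 p.1.2 p.2.2 hf1).2⟩)
      left_inv := ?_
      right_inv := ?_ }
  · rintro ⟨⟨b, hb⟩, ⟨b', hb'⟩⟩
    refine Prod.ext (Subtype.ext ?_) (Subtype.ext ?_)
    · exact mix_mix X b b'
    · exact mix_mix X b' b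
  · rintro ⟨⟨b, hb⟩, ⟨b', hb'⟩⟩
    refine Prod.ext (Subtype.ext ?_) (Subtype.ext ?_)
    · exact mix_mix X b b'
    · exact mix_mix X b' b

private theorem graph_rect (hs : ∀ x y, H x y → H y x) (hB : Balanced (grTpl H)) :
    ∀ a b c d, H a b → H b c → H c d → H a d := by
  intro a b c d hab hbc hcd
  let X : Str (fun _ : Unit => 2) ((Unit ⊕ Unit) ⊕ Empty) :=
    fun _ u => u 0 = Sum.inl (Sum.inl ()) ∧ u 1 = Sum.inl (Sum.inr ())
  have key : ∀ x y : D, exts (grTpl H) X (Sum.elim (fun _ => x) (fun _ => y)) ≠ 0 ↔ H x y := by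
    intro x y
    constructor
    · intro h
      by_contra hno
      apply h
      have : IsEmpty {b : Empty → D // IsHom (grTpl H) X
          (Sum.elim (Sum.elim (fun _ : Unit => x) (fun _ : Unit => y)) b)} := by
        refine ⟨fun b => hno ?_⟩
        exact b.2 () ![Sum.inl (Sum.inl ()), Sum.inl (Sum.inr ())] ⟨rfl, rfl⟩
      exact Nat.card_of_isEmpty
    · intro h
      have hm : IsHom (grTpl H) X
          (Sum.elim (Sum.elim (fun _ : Unit => x) (fun _ : Unit => y)) (Empty.elim)) := by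
        rintro ⟨⟩ u ⟨h0, h1⟩
        change H (Sum.elim (Sum.elim (fun _ : Unit => x) (fun _ : Unit => y)) (Empty.elim) (u 0))
          (Sum.elim (Sum.elim (fun _ : Unit => x) (fun _ : Unit => y)) (Empty.elim) (u 1))
        rw [h0, h1]
        exact h
      have : Nonempty {b : Empty → D // IsHom (grTpl H) X
          (Sum.elim (Sum.elim (fun _ : Unit => x) (fun _ : Unit => y)) b)} := ⟨⟨_, hm⟩⟩
      have hfin : Finite {b : Empty → D // IsHom (grTpl H) X
          (Sum.elim (Sum.elim (fun _ : Unit => x) (fun _ : Unit => y)) b)} := inferInstance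
      exact Nat.card_pos.ne'
  have := hB Unit Unit Empty X (fun _ => c) (fun _ => a) (fun _ => b) (fun _ => d)
    ((key c b).2 (hs _ _ hbc)) ((key a b).2 hab) ((key c d).2 hcd)
  have h2 : exts (grTpl H) X (Sum.elim (fun _ => c) (fun _ => d)) *
      exts (grTpl H) X (Sum.elim (fun _ => a) (fun _ => b)) ≠ 0 :=
    mul_ne_zero ((key c d).2 hcd) ((key a b).2 hab)
  rw [← this] at h2
  exact (key a d).1 (right_ne_zero_of_mul h2)

end

theorem thm_Graph : St_Graph := by
  intro D _ H hs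
  constructor
  · rintro ⟨hB, _⟩
    exact graph_rect hs hB
  · intro hr
    exact ⟨graph_bal hs hr, graph_maj hs hr⟩

end Pool.Agent.SYH
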