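import Pool.Agent.SYH.StH

/-!
# Symmetric circuits of quasi-polynomial size do not approximate the values
-/

set_option autoImplicit false

namespace Pool.Agent.SYH

open Filter Asymptotics

theorem Quasi_choose {n k : ℕ} (hk : 1 ≤ k) (h : 4 * k ^ 2 ≤ n) :
    (n : ℝ) ^ ((k : ℝ) / 2) ≤ n.choose k := by
  have hk' : (0 : ℝ) < k := by exact_mod_cast hk
  have hn0 : 0 < n := by nlinarith
  have hn : (0 : ℝ) < n := by exact_mod_cast hn0
  have h1 : (((n + 1 - k : ℕ) : ℝ) ^ k / (k.factorial : ℝ)) ≤ n.choose k :=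
    Nat.pow_le_choose k n
  refine le_trans ?_ h1
  have h2 : (k.factorial : ℝ) ≤ (k : ℝ) ^ k := by exact_mod_cast Nat.factorial_le_pow k
  have h3 : (n : ℝ) / 2 ≤ ((n + 1 - k : ℕ) : ℝ) := by
    have h4 : n ≤ 2 * (n + 1 - k) := by
      have : 2 * k ≤ n := by nlinarith
      omega
    have h5 : (n : ℝ) ≤ 2 * ((n + 1 - k : ℕ) : ℝ) := by exact_mod_cast h4
    linarith
  have h4 : Real.sqrt n ≤ ((n + 1 - k : ℕ) : ℝ) / k := by
    rw [le_div_iff₀ hk']
    refine le_trans ?_ h3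
    have h5 : 2 * (k : ℝ) ≤ Real.sqrt n := by
      apply Real.le_sqrt_of_sq_le
      have : ((4 * k ^ 2 : ℕ) : ℝ) ≤ n := by exact_mod_cast h
      push_cast at this
      nlinarith
    have h6 : Real.sqrt n * Real.sqrt n = n := Real.mul_self_sqrt hn.le
    nlinarith [Real.sqrt_nonneg (n : ℝ)]
  have h5 : (n : ℝ) ^ ((k : ℝ) / 2) = Real.sqrt n ^ k := by
    rw [Real.sqrt_eq_rpow, ← Real.rpow_natCast, ← Real.rpow_mul hn.le]
    congr 1
    ring
  rw [h5]
  calc Real.sqrt n ^ k ≤ (((n + 1 - k : ℕ) : ℝ) / k) ^ k :=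
        pow_le_pow_left₀ (Real.sqrt_nonneg _) h4 k
    _ = ((n + 1 - k : ℕ) : ℝ) ^ k / (k : ℝ) ^ k := by rw [div_pow]
    _ ≤ ((n + 1 - k : ℕ) : ℝ) ^ k / (k.factorial : ℝ) :=
        div_le_div_of_nonneg_left (by positivity) (by positivity) h2

theorem Quasi_main {σ D : Type} {ar : σ → ℕ} (Γ : Str ar D) (K : ℕ) (hK : 1 ≤ K)
    (h : ∀ n k : ℕ, 1 ≤ k → K * k ≤ n → ∀ (G P T : Type) [Fintype G]
      (C : Circuit (Atom ar (Fin n)) G P T),
      Fintype.card G * n.factorial < n.choose k * Nat.card {ρ : Equiv.Perm (Fin n) // IsSymm C ρ} →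
      ∃ (I I' : Str ar (Fin n)) (v v' : G → T), C.IsRun (holds I) v ∧ C.IsRun (holds I') v' ∧
        v C.out = v' C.out ∧ tuples I ≤ K * n ∧ tuples I' ≤ K * n ∧ 0 < homs Γ I ∧
        Real.exp ((n : ℝ) / 2 ^ (K * k)) * (homs Γ I' : ℝ) ≤ (homs Γ I : ℝ)) (ε : ℝ) (hε : 0 < ε) :
    ∃ (c : ℝ) (n₀ : ℕ), 0 < c ∧ ∀ n ≥ n₀, ∀ (G P T : Type) [Fintype G]
      (C : Circuit (Atom ar (Fin n)) G P T), (∀ ρ, IsSymm C ρ) →
      (Fintype.card G : ℝ) ≤ (n : ℝ) ^ (c * Real.log n) →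
      ∃ (I I' : Str ar (Fin n)) (v v' : G → T), C.IsRun (holds I) v ∧ C.IsRun (holds I') v' ∧
        v C.out = v' C.out ∧ tuples I ≤ K * n ∧ tuples I' ≤ K * n ∧ 0 < homs Γ I ∧
        Real.exp ((n : ℝ) ^ (1 - ε)) * (homs Γ I' : ℝ) ≤ (homs Γ I : ℝ) := by
  have hK' : (0 : ℝ) < K := by exact_mod_cast hK
  set δ : ℝ := ε / K with hδ
  have hδpos : 0 < δ := by positivity
  -- the conditions on n
  have hlog2 : (0 : ℝ) < Real.log 2 := Real.log_pos (by norm_num)
  have hlog2' : Real.log 2 ≤ 1 := by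
    have := Real.log_two_lt_d9
    linarith
  have e1 : ∀ᶠ x : ℝ in atTop, 2 ≤ δ * (Real.log x / Real.log 2) := by
    have h1 : Tendsto (fun x : ℝ => δ * (Real.log x / Real.log 2)) atTop atTop :=
      (Real.tendsto_log_atTop.atTop_div_const hlog2).const_mul_atTop hδpos
    exact h1.eventually_ge_atTop 2
  have e2 : ∀ᶠ x : ℝ in atTop,
      ((K : ℝ) + 4) * (δ * (Real.log x / Real.log 2)) ^ 2 ≤ x := by
    have h1 : (fun x : ℝ => Real.log x ^ 2) =o[atTop] id := Real.isLittleO_pow_log_id_atTop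
    set A : ℝ := ((K : ℝ) + 4) * (δ / Real.log 2) ^ 2 with hA
    have hApos : 0 < A := by positivity
    have h2 := h1.def (inv_pos.2 hApos)
    filter_upwards [h2, eventually_ge_atTop (0 : ℝ)] with x hx hx0
    rw [Real.norm_of_nonneg (sq_nonneg _), id, Real.norm_of_nonneg hx0] at hx
    calc ((K : ℝ) + 4) * (δ * (Real.log x / Real.log 2)) ^ 2 = A * Real.log x ^ 2 := by
          rw [hA]; field_simp
      _ ≤ A * (A⁻¹ * x) := mul_le_mul_of_nonneg_left hx hApos.le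
      _ = x := by field_simp
  have e3 := (e1.and (e2.and (eventually_ge_atTop (2 : ℝ)))).natCast_atTop
  obtain ⟨n₀, hn₀⟩ := eventually_atTop.1 e3
  refine ⟨δ / 8, n₀, by positivity, ?_⟩
  intro n hn G P T _ C hC hG
  obtain ⟨h1, h2, h3⟩ := hn₀ n hn
  have hnpos : (0 : ℝ) < n := by linarith
  set L : ℝ := Real.log n / Real.log 2 with hL
  set k : ℕ := ⌊δ * L⌋₊ with hk
  have hLδ : 0 ≤ δ * L := by linarith
  have hk1 : (k : ℝ) ≤ δ * L := Nat.floor_le hLδ
  have hk2 : δ * L < k + 1 := Nat.lt_floor_add_one _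
  have hk3 : 1 ≤ k := by
    have : (0 : ℝ) < k := by linarith
    have h4 : 0 < k := by exact_mod_cast this
    exact h4
  have hk4 : (K + 4) * k ^ 2 ≤ n := by
    have h4 : (((K + 4) * k ^ 2 : ℕ) : ℝ) ≤ n := by
      push_cast
      refine le_trans ?_ h2
      exact mul_le_mul_of_nonneg_left (pow_le_pow_left₀ (Nat.cast_nonneg _) hk1 2) (by positivity)
    exact_mod_cast h4
  have hk5 : K * k ≤ n := by nlinarith
  have hk6 : 4 * k ^ 2 ≤ n := by nlinarith
  have hlogn : 0 < Real.log n := Real.log_pos (by linarith)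
  have hLn : Real.log n ≤ L := by
    rw [hL, le_div_iff₀ hlog2]
    nlinarith
  have hgates : Fintype.card G < n.choose k := by
    have h4 : (Fintype.card G : ℝ) < n.choose k := by
      refine lt_of_le_of_lt hG (lt_of_lt_of_le ?_ (Quasi_choose hk3 hk6))
      apply Real.rpow_lt_rpow_of_exponent_lt (by linarith)
      have h5 : δ * L / 2 ≤ k := by linarith
      have h6 : δ * Real.log n ≤ δ * L := mul_le_mul_of_nonneg_left hLn hδpos.le
      have h7 : 0 < δ * Real.log n := mul_pos hδpos hlogn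
      nlinarith
    exact_mod_cast h4
  have hall : Nat.card {ρ : Equiv.Perm (Fin n) // IsSymm C ρ} = n.factorial := by
    rw [Nat.card_congr (Equiv.subtypeUnivEquiv hC), Nat.card_eq_fintype_card, Fintype.card_perm,
      Fintype.card_fin]
  obtain ⟨I, I', v, v', g1, g2, g3, g4, g5, g6, g7⟩ := h n k hk3 hk5 G P T C (by
    rw [hall]
    exact Nat.mul_lt_mul_of_pos_right hgates (Nat.factorial_pos n))
  refine ⟨I, I', v, v', g1, g2, g3, g4, g5, g6, le_trans ?_ g7⟩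
  refine mul_le_mul_of_nonneg_right (Real.exp_le_exp.2 ?_) (Nat.cast_nonneg _)
  have h4 : (2 : ℝ) ^ (K * k) ≤ (n : ℝ) ^ ε := by
    have h5 : (2 : ℝ) ^ (K * k) = (2 : ℝ) ^ ((K : ℝ) * k) := by
      rw [← Real.rpow_natCast]
      push_cast
      rfl
    have h6 : (n : ℝ) ^ ε = (2 : ℝ) ^ (ε * L) := by
      have h7 : (2 : ℝ) ^ L = n := by
        rw [hL, Real.rpow_def_of_pos (by norm_num : (0 : ℝ) < 2)]
        rw [mul_div_cancel₀ _ hlog2.ne', Real.exp_log hnpos]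
      rw [mul_comm, Real.rpow_mul (by norm_num : (0 : ℝ) ≤ 2), h7]
    rw [h5, h6]
    refine Real.rpow_le_rpow_of_exponent_le (by norm_num) ?_
    calc (K : ℝ) * k ≤ K * (δ * L) := mul_le_mul_of_nonneg_left hk1 hK'.le
      _ = ε * L := by rw [hδ]; field_simp
  have h5 : (n : ℝ) ^ (1 - ε) = n / (n : ℝ) ^ ε := by
    rw [Real.rpow_sub hnpos, Real.rpow_one]
  rw [h5]
  exact div_le_div_of_nonneg_left hnpos.le (by positivity) h4

end Pool.Agent.SYH
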