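import Pool.Agent.SYH.StC

/-!
# The support of a counting function without a majority operation, and its product form
-/

set_option autoImplicit false

namespace Pool.Agent.SYH

open Finset

private theorem Abel_div {α β : Type} {M : α → β → ℕ} (h : Blk M) {s s' : α} {w w' : β}
    (h1 : M s w ≠ 0) (h2 : M s' w ≠ 0) (h3 : M s w' ≠ 0) :
    (M s w : ℚ) = (M s w' : ℚ) / (M s' w' : ℚ) * (M s' w : ℚ) := by
  have e := h s s' w w' h1 h2 h3
  have h4 : M s' w' ≠ 0 := by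
    intro h0
    rw [h0, mul_zero] at e
    exact mul_ne_zero h3 h2 e.symm
  have h5 : (M s' w' : ℚ) ≠ 0 := by exact_mod_cast h4
  rw [div_mul_eq_mul_div, eq_div_iff h5]
  exact_mod_cast e

theorem thm_Abel (h1 : St_Latin) (h2 : St_Group) : St_Abel := by
  intro X _ F hN
  obtain ⟨A, B, S, hS, hS', P, a, b, s, m, pA, pB, pS, b1, b2, cl, supp⟩ := h1 X _ hN
  obtain ⟨x₀, -⟩ := hN.hole
  have hA : Nonempty A := ⟨a x₀⟩
  have hB : Nonempty B := ⟨b x₀⟩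
  obtain ⟨iG, f, g', hf, hg', hm⟩ := h2 A B S m b1 b2 cl
  let g : Fin 3 → X → S := ![fun x => f (a x), fun y => g' (b y), fun z => - s z]
  have g0 : ∀ x, g 0 x = f (a x) := fun _ => rfl
  have g1 : ∀ x, g 1 x = g' (b x) := fun _ => rfl
  have g2 : ∀ x, g 2 x = - s x := fun _ => rfl
  have surj : ∀ j c, ∃ x, P j x ∧ g j x = c := by
    intro j c
    fin_cases j
    · obtain ⟨i, rfl⟩ := hf.2 c
      obtain ⟨x, hx, rfl⟩ := pA i
      exact ⟨x, hx, rfl⟩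
    · obtain ⟨i, rfl⟩ := hg'.2 c
      obtain ⟨x, hx, rfl⟩ := pB i
      exact ⟨x, hx, rfl⟩
    · obtain ⟨x, hx, hx'⟩ := pS (- c)
      refine ⟨x, hx, ?_⟩
      change - s x = c
      rw [hx', neg_neg]
  have nz : ∀ x y z, F ![x, y, z] ≠ 0 ↔ (P 0 x ∧ P 1 y ∧ P 2 z) ∧ g 0 x + g 1 y + g 2 z = 0 := by
    intro x y z
    rw [supp, hm, g0, g1, g2, add_neg_eq_zero]
  choose r hr hr' using surj
  let N : X → X → X → ℚ := fun x y z => (F ![x, y, z] : ℚ)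
  let u : Fin 3 → X → ℚ := ![
    fun x => N x (r 1 0) (r 2 (- g 0 x)) / N (r 0 (g 0 x)) (r 1 0) (r 2 (- g 0 x)),
    fun y => N (r 0 0) y (r 2 (- g 1 y)) / N (r 0 0) (r 1 (g 1 y)) (r 2 (- g 1 y)),
    fun z => N (r 0 0) (r 1 (- g 2 z)) z / N (r 0 0) (r 1 (- g 2 z)) (r 2 (g 2 z))]
  refine ⟨S, iG, hS, hS', P, g, u, fun c c' => N (r 0 c) (r 1 c') (r 2 (- c - c')),
    fun j c => ⟨r j c, hr j c, hr' j c⟩, ?_, ?_⟩
  · intro x
    have hx : x = ![x 0, x 1, x 2] := by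
      ext j
      fin_cases j <;> rfl
    rw [hx, nz, Fin.sum_univ_three, Fin.forall_fin_succ, Fin.forall_fin_two]
    rfl
  · intro x hFx
    have hx : x = ![x 0, x 1, x 2] := by
      ext j
      fin_cases j <;> rfl
    rw [hx, nz] at hFx
    obtain ⟨⟨q0, q1, q2⟩, hsum⟩ := hFx
    have e1 : N (x 0) (x 1) (x 2) = u 0 (x 0) * N (r 0 (g 0 (x 0))) (x 1) (x 2) := by
      refine Abel_div (M := fun (x : X) (p : X × X) => F ![x, p.1, p.2]) hN.b0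
        (s := x 0) (s' := r 0 (g 0 (x 0))) (w := (x 1, x 2))
        (w' := (r 1 0, r 2 (- g 0 (x 0)))) ?_ ?_ ?_
      · exact (nz _ _ _).2 ⟨⟨q0, q1, q2⟩, hsum⟩
      · refine (nz _ _ _).2 ⟨⟨hr _ _, q1, q2⟩, ?_⟩
        rw [hr']
        exact hsum
      · refine (nz _ _ _).2 ⟨⟨q0, hr _ _, hr _ _⟩, ?_⟩
        rw [hr', hr', add_zero, add_neg_cancel]
    have e2 : N (r 0 (g 0 (x 0))) (x 1) (x 2) =
        u 1 (x 1) * N (r 0 (g 0 (x 0))) (r 1 (g 1 (x 1))) (x 2) := by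
      refine Abel_div (M := fun (y : X) (p : X × X) => F ![p.1, y, p.2]) hN.b1
        (s := x 1) (s' := r 1 (g 1 (x 1))) (w := (r 0 (g 0 (x 0)), x 2))
        (w' := (r 0 0, r 2 (- g 1 (x 1)))) ?_ ?_ ?_
      · refine (nz _ _ _).2 ⟨⟨hr _ _, q1, q2⟩, ?_⟩
        rw [hr']
        exact hsum
      · refine (nz _ _ _).2 ⟨⟨hr _ _, hr _ _, q2⟩, ?_⟩
        rw [hr', hr']
        exact hsum
      · refine (nz _ _ _).2 ⟨⟨hr _ _, q1, hr _ _⟩, ?_⟩
        rw [hr', hr', zero_add, add_neg_cancel]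
    have e3 : N (r 0 (g 0 (x 0))) (r 1 (g 1 (x 1))) (x 2) =
        u 2 (x 2) * N (r 0 (g 0 (x 0))) (r 1 (g 1 (x 1))) (r 2 (g 2 (x 2))) := by
      refine Abel_div (M := fun (z : X) (p : X × X) => F ![p.1, p.2, z]) hN.b2
        (s := x 2) (s' := r 2 (g 2 (x 2))) (w := (r 0 (g 0 (x 0)), r 1 (g 1 (x 1))))
        (w' := (r 0 0, r 1 (- g 2 (x 2)))) ?_ ?_ ?_
      · refine (nz _ _ _).2 ⟨⟨hr _ _, hr _ _, q2⟩, ?_⟩
        rw [hr', hr']
        exact hsum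
      · refine (nz _ _ _).2 ⟨⟨hr _ _, hr _ _, hr _ _⟩, ?_⟩
        rw [hr', hr', hr']
        exact hsum
      · refine (nz _ _ _).2 ⟨⟨hr _ _, hr _ _, q2⟩, ?_⟩
        rw [hr', hr', zero_add, neg_add_cancel]
    have e4 : - g 0 (x 0) - g 1 (x 1) = g 2 (x 2) := by
      rw [← sub_eq_zero]
      rw [← neg_eq_zero]
      rw [← hsum]
      abel
    have e0 : (F x : ℚ) = N (x 0) (x 1) (x 2) := by
      conv_lhs => rw [hx]
    rw [e0, e1, e2, e3, Fin.prod_univ_three]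
    change _ = _ * N (r 0 (g 0 (x 0))) (r 1 (g 1 (x 1))) (r 2 (- g 0 (x 0) - g 1 (x 1)))
    rw [e4]
    ring

end Pool.Agent.SYH
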