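import Pool.Agent.SYH.StC

/-!
# The classes along the edges are arithmetic progressions with the same difference
-/

set_option autoImplicit false

namespace Pool.Agent.SYH

open Finset

/-- three functions with values in an abelian group, the sum of which vanishes on the slots -/
private theorem chi_step {p : ℕ} {G : Type} [AddCommGroup G] (b : Fin 3 → ZMod p → G)
    (hb : ∀ S : Slot 3 p, ∑ j, b j (S.1 j) = 0) (j : Fin 3) (α : ZMod p) :
    b j (α + 1) - b j α = b 0 1 - b 0 0 := by
  have h3 : ∀ x y : ZMod p, b 0 x + b 1 y + b 2 (-x - y) = 0 := by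
    intro x y
    have h := hb ⟨![x, y, -x - y], by simp [Fin.sum_univ_three]⟩
    simpa [Fin.sum_univ_three] using h
  have h01 : ∀ x y : ZMod p, b 0 (x + 1) - b 0 x = b 1 (y + 1) - b 1 y := by
    intro x y
    have e1 := h3 (x + 1) y
    have e2 := h3 x (y + 1)
    rw [show -(x + 1) - y = -x - (y + 1) by ring] at e1
    have e3 : b 0 (x + 1) + b 1 y = b 0 x + b 1 (y + 1) :=
      add_right_cancel (e1.trans e2.symm)
    rw [sub_eq_sub_iff_add_eq_add, e3, add_comm]
  have h02 : ∀ x y : ZMod p, b 0 (x + 1) - b 0 x = b 2 (y + 1) - b 2 y := by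
    intro x y
    have e1 := h3 (x + 1) (-x - y - 1)
    have e2 := h3 x (-x - y - 1)
    rw [show -(x + 1) - (-x - y - 1) = y by ring] at e1
    rw [show -x - (-x - y - 1) = y + 1 by ring] at e2
    have e4 : b 0 (x + 1) + b 2 y = b 0 x + b 2 (y + 1) := by
      have e5 : (b 0 (x + 1) + b 2 y) + b 1 (-x - y - 1) =
          (b 0 x + b 2 (y + 1)) + b 1 (-x - y - 1) := by
        rw [add_right_comm, e1, add_right_comm, e2]
      exact add_right_cancel e5
    rw [sub_eq_sub_iff_add_eq_add, e4, add_comm]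
  have h00 : b 0 (0 + 1) - b 0 0 = b 0 1 - b 0 0 := by rw [zero_add]
  rw [← h00]
  fin_cases j
  · exact (h01 α 0).trans (h01 0 0).symm
  · exact (h01 0 α).symm
  · exact (h02 0 α).symm

/-- [Chi] -/
theorem thm_Chi : St_Chi := by
  intro n p _ π G _ v h hc hv
  classical
  rcases Nat.eq_zero_or_pos n with rfl | hn
  · refine ⟨0, fun e _ => e.1.elim0, by simp⟩
  -- the difference at a vertex
  have hstep : ∀ (C : Vx n) (j : Fin 3) (α : ZMod p),
      v (edgeAt π C j) (α + 1) - v (edgeAt π C j) α =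
        v (edgeAt π C 0) (1 + h C 0) - v (edgeAt π C 0) (0 + h C 0) := by
    intro C j α
    have h1 := chi_step (fun j α => v (edgeAt π C j) (α + h C j)) (hv C) j (α - h C j)
    rw [show α - h C j + 1 + h C j = α + 1 by ring, show α - h C j + h C j = α by ring] at h1
    exact h1
  set δ : Vx n → G := fun C => v (edgeAt π C 0) (1 + h C 0) - v (edgeAt π C 0) (0 + h C 0)
    with hδ
  have hadj : ∀ C C' : Vx n, Adj π C C' → δ C = δ C' := by
    rintro C C' ⟨j, hj⟩
    have h1 := hstep C j 0
    have h2 := hstep C' j 0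
    rw [hj] at h1
    exact h1.symm.trans h2
  have hall : ∀ C C' : Vx n, δ C = δ C' := by
    intro C C'
    have h1 := hc C C'
    induction h1 with
    | refl => rfl
    | tail _ h2 ih => exact ih.trans (hadj _ _ h2)
  set C₀ : Vx n := (false, ⟨0, hn⟩) with hC₀
  have hedge : ∀ e : Fin n × Fin 3, ∀ α : ZMod p, v e (α + 1) = v e α + δ C₀ := by
    rintro ⟨i, j⟩ α
    have h1 := hstep (false, i) j α
    have h2 : edgeAt π (false, i) j = (i, j) := rfl
    rw [h2] at h1
    rw [hall C₀ (false, i)]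
    exact (sub_eq_iff_eq_add'.mp h1)
  have hnat : ∀ e : Fin n × Fin 3, ∀ k : ℕ, v e (k : ZMod p) = v e 0 + k • δ C₀ := by
    intro e k
    induction k with
    | zero => simp
    | succ k ih => rw [Nat.cast_succ, hedge, ih, succ_nsmul, add_assoc]
  have hp : p • δ C₀ = 0 := by
    have h1 := hnat ((⟨0, hn⟩ : Fin n), (0 : Fin 3)) p
    rw [ZMod.natCast_self] at h1
    exact left_eq_add.mp h1
  let χ : ZMod p →+ G := ZMod.lift p ⟨zmultiplesHom G (δ C₀), by
    rw [zmultiplesHom_apply, natCast_zsmul]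
    exact hp⟩
  have hχ : ∀ k : ℕ, χ (k : ZMod p) = k • δ C₀ := by
    intro k
    have h1 : χ ((k : ℤ) : ZMod p) = zmultiplesHom G (δ C₀) (k : ℤ) := ZMod.lift_coe _ _ _
    rw [Int.cast_natCast] at h1
    rw [h1, zmultiplesHom_apply, natCast_zsmul]
  have hprog : ∀ e α, v e α = v e 0 + χ α := by
    intro e α
    have h1 := hnat e α.val
    rw [← hχ, ZMod.natCast_zmod_val] at h1
    exact h1
  refine ⟨χ, hprog, ?_⟩
  -- the sum at a vertex
  have hsum : ∀ C : Vx n, χ (∑ j, h C j) = - ∑ j, v (edgeAt π C j) 0 := by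
    intro C
    have h1 := hv C ⟨fun _ => 0, by simp⟩
    simp only [zero_add] at h1
    have h2 : ∀ j, v (edgeAt π C j) (h C j) = v (edgeAt π C j) 0 + χ (h C j) := fun j =>
      hprog _ _
    rw [Finset.sum_congr rfl fun j _ => h2 j, Finset.sum_add_distrib, ← map_sum] at h1
    exact eq_neg_of_add_eq_zero_right h1
  have hsign : ∀ (b : Bool) (x : ZMod p), χ ((if b then -1 else 1) * x) =
      if b then - χ x else χ x := by
    intro b x
    cases b
    · simp
    · simp
  unfold total
  rw [map_sum]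
  have h3 : ∀ C : Vx n, χ ((if C.1 then -1 else 1) * ∑ j, h C j) =
      if C.1 then ∑ j, v (edgeAt π C j) 0 else - ∑ j, v (edgeAt π C j) 0 := by
    intro C
    rw [hsign, hsum, neg_neg]
  rw [Finset.sum_congr rfl fun C _ => h3 C, Fintype.sum_prod_type, Fintype.sum_bool]
  have h4 : ∀ i : Fin n, (if ((true, i) : Vx n).1 then ∑ j, v (edgeAt π (true, i) j) 0
      else - ∑ j, v (edgeAt π (true, i) j) 0) = ∑ j, v ((π j).symm i, j) 0 := by
    intro i
    rfl
  have h5 : ∀ i : Fin n, (if ((false, i) : Vx n).1 then ∑ j, v (edgeAt π (false, i) j) 0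
      else - ∑ j, v (edgeAt π (false, i) j) 0) = - ∑ j, v (i, j) 0 := by
    intro i
    rfl
  rw [Finset.sum_congr rfl fun i _ => h4 i, Finset.sum_congr rfl fun i _ => h5 i,
    Finset.sum_neg_distrib, Finset.sum_comm, Finset.sum_comm (f := fun i j => v (i, j) 0),
    add_neg_eq_zero]
  refine Finset.sum_congr rfl fun j _ => ?_
  exact Equiv.sum_comp (π j).symm fun i => v (i, j) 0

end Pool.Agent.SYH
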