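import Pool.Agent.SYH.StC

/-!
# Balanced templates without a majority operation: the partition function decreases
-/

set_option autoImplicit false

namespace Pool.Agent.SYH

open Finset

/-- the term of the assignment `s` -/
private def Cnt_term {n p : ℕ} [NeZero p] {X : Type} (π : Fin 3 → Equiv.Perm (Fin n))
    (F : (Fin 3 → X) → ℕ) (h : Chg n 3 p) (s : Fin n × Fin 3 → ZMod p → X) : ℕ :=
  ∏ C : Vx n, ∏ S : Slot 3 p, F fun j => s (edgeAt π C j) (S.1 j + h C j)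

private theorem Cnt_zero {n p : ℕ} [NeZero p] {X : Type} (π : Fin 3 → Equiv.Perm (Fin n))
    (F : (Fin 3 → X) → ℕ) (s : Fin n × Fin 3 → ZMod p → X) :
    Cnt_term π F (0 : Chg n 3 p) s =
      ∏ C : Vx n, ∏ S : Slot 3 p, F (fun j => s (edgeAt π C j) (S.1 j)) := by
  unfold Cnt_term
  refine Finset.prod_congr rfl fun C _ => Finset.prod_congr rfl fun S _ => ?_
  congr 1
  funext j
  change s (edgeAt π C j) (S.1 j + 0) = _
  rw [add_zero]

private theorem Cnt_flat (h2 : St_Chi) {n p : ℕ} [Fact p.Prime] {X G : Type} [AddCommGroup G]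
    (π : Fin 3 → Equiv.Perm (Fin n)) (hπ : Conn π) {F : (Fin 3 → X) → ℕ} {P : Fin 3 → X → Prop}
    {g : Fin 3 → X → G} {u : Fin 3 → X → ℚ} {K : G → G → ℚ} (hA : Abel F P g u K)
    (h : Chg n 3 p) (hh : total h ≠ 0) (s : Fin n × Fin 3 → ZMod p → X)
    (hs : Cnt_term π F h s ≠ 0) (e : Fin n × Fin 3) (α : ZMod p) :
    g e.2 (s e α) = g e.2 (s e 0) := by
  have hf : ∀ (C : Vx n) (S : Slot 3 p),
      F (fun j => s (edgeAt π C j) (S.1 j + h C j)) ≠ 0 := by
    intro C S h0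
    apply hs
    unfold Cnt_term
    exact Finset.prod_eq_zero (Finset.mem_univ C) (Finset.prod_eq_zero (Finset.mem_univ S) h0)
  obtain ⟨χ, hχ, hχ0⟩ := h2 n p π G (fun e α => g e.2 (s e α)) h hπ fun C S =>
    ((hA.supp _).1 (hf C S)).2
  have h3 : χ α = 0 := by
    have h4 : α = (α * (total h)⁻¹).val • total h := by
      rw [nsmul_eq_mul, ZMod.natCast_zmod_val, mul_assoc, inv_mul_cancel₀ hh, mul_one]
    rw [h4, map_nsmul, hχ0, nsmul_zero]
  rw [hχ e α, h3, add_zero]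

theorem thm_Cnt (h1 : St_Abel) (h2 : St_Chi) (h3 : St_Flat) : St_Cnt := by
  intro X _ F hT
  obtain ⟨G, _, _, _, P, g, u, K, hA⟩ := h1 X F hT
  have hc : Nat.card G ≠ 1 := by
    have := Finite.one_lt_card (α := G)
    omega
  obtain ⟨p, hp, hpd⟩ := Nat.exists_prime_and_dvd hc
  haveI hF : Fact p.Prime := ⟨hp⟩
  obtain ⟨δ, hδ⟩ := exists_prime_addOrderOf_dvd_card' (G := G) p hpd
  have hδ0 : δ ≠ 0 := by
    rintro rfl
    rw [addOrderOf_zero] at hδ
    exact hp.one_lt.ne hδ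
  have hpδ : (zmultiplesHom G δ) (p : ℤ) = 0 := by
    rw [zmultiplesHom_apply, natCast_zsmul, ← hδ, addOrderOf_nsmul_eq_zero]
  let χ : ZMod p →+ G := ZMod.lift p ⟨zmultiplesHom G δ, hpδ⟩
  have hχ1 : χ 1 = δ := by
    have h4 := ZMod.lift_coe p ⟨zmultiplesHom G δ, hpδ⟩ 1
    rw [Int.cast_one] at h4
    exact h4.trans (by simp)
  refine ⟨p, hF, fun n π hπ h hh => ?_⟩
  change ∑ s, Cnt_term π F h s < ∑ s, Cnt_term π F (0 : Chg n 3 p) s
  have hle : ∀ s, Cnt_term π F h s ≠ 0 →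
      Cnt_term π F h s = Cnt_term π F (0 : Chg n 3 p) s := by
    intro s hs
    rw [Cnt_zero]
    exact h3 n p π X G F P g u K s h hA fun e α => Cnt_flat h2 π hπ hA h hh s hs e α
  have hn : Nonempty (Fin n × Fin 3) := by
    rcases Nat.eq_zero_or_pos n with rfl | hn
    · exact absurd (by unfold total; simp) hh
    · exact ⟨(⟨0, hn⟩, 0)⟩
  obtain ⟨e⟩ := hn
  have hch : ∀ (e : Fin n × Fin 3) (α : ZMod p), ∃ x, P e.2 x ∧ g e.2 x = χ α := fun e α =>
    hA.surj e.2 (χ α)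
  choose s hsP hsg using hch
  refine Finset.sum_lt_sum (fun s _ => ?_) ⟨s, Finset.mem_univ s, ?_⟩
  · by_cases h0 : Cnt_term π F h s = 0
    · rw [h0]
      exact Nat.zero_le _
    · exact (hle s h0).le
  · have h5 : Cnt_term π F h s = 0 := by
      by_contra h0
      have h6 := Cnt_flat h2 π hπ hA h hh s h0 e 1
      rw [hsg, hsg, hχ1, map_zero] at h6
      exact hδ0 h6
    rw [h5, Nat.pos_iff_ne_zero, Cnt_zero, Finset.prod_ne_zero_iff]
    intro C _
    rw [Finset.prod_ne_zero_iff]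
    intro S _
    rw [hA.supp]
    refine ⟨fun j => hsP (edgeAt π C j) (S.1 j), ?_⟩
    have h7 : ∀ j, g j (s (edgeAt π C j) (S.1 j)) = χ (S.1 j) := fun j =>
      hsg (edgeAt π C j) (S.1 j)
    rw [Finset.sum_congr rfl fun j _ => h7 j, ← map_sum, S.2, map_zero]

end Pool.Agent.SYH
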