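import Pool.Agent.SYH.StB

/-!
# Closure properties of the counting functions
-/

set_option autoImplicit false

namespace Pool.Agent.SYH

/-- the image of a structure -/
def RzCl_im {σ : Type} {ar : σ → ℕ} {V W : Type} (e : V → W) (X : Str ar V) : Str ar W :=
  fun R u => ∃ v, X R v ∧ e ∘ v = u

/-- the union of two structures -/
def RzCl_un {σ : Type} {ar : σ → ℕ} {V : Type} (X X' : Str ar V) : Str ar V :=
  fun R u => X R u ∨ X' R u

theorem RzCl_hom_im {σ : Type} {ar : σ → ℕ} {D V W : Type} (Γ : Str ar D) (e : V → W)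
    (X : Str ar V) (a : W → D) : IsHom Γ (RzCl_im e X) a ↔ IsHom Γ X (a ∘ e) := by
  constructor
  · intro h R v hv
    exact h R (e ∘ v) ⟨v, hv, rfl⟩
  · rintro h R u ⟨v, hv, rfl⟩
    exact h R v hv

theorem RzCl_hom_un {σ : Type} {ar : σ → ℕ} {D V : Type} (Γ : Str ar D)
    (X X' : Str ar V) (a : V → D) : IsHom Γ (RzCl_un X X') a ↔ IsHom Γ X a ∧ IsHom Γ X' a := by
  constructor
  · intro h
    exact ⟨fun R v hv => h R v (Or.inl hv), fun R v hv => h R v (Or.inr hv)⟩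
  · rintro ⟨h1, h2⟩ R u (hu | hu)
    · exact h1 R u hu
    · exact h2 R u hu

theorem RzCl_one {σ D : Type} {ar : σ → ℕ} (Γ : Str ar D) (A : Type) :
    Rz Γ (fun _ : A → D => 1) := by
  refine ⟨Empty, inferInstance, fun _ _ => False, fun φ => ?_⟩
  unfold exts
  have : Unique {b : Empty → D // IsHom Γ (fun (_ : σ) _ => False) (Sum.elim φ b)} :=
    { default := ⟨fun e => e.elim, fun R u h => h.elim⟩
      uniq := fun b => Subtype.ext (funext fun e => e.elim) }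
  exact Nat.card_unique.symm

theorem RzCl_mul {σ D : Type} {ar : σ → ℕ} (Γ : Str ar D) {A : Type} (F G : (A → D) → ℕ)
    (hF : Rz Γ F) (hG : Rz Γ G) : Rz Γ fun φ => F φ * G φ := by
  obtain ⟨Y, hY, X, hX⟩ := hF
  obtain ⟨Y', hY', X', hX'⟩ := hG
  refine ⟨Y ⊕ Y', inferInstance, RzCl_un (RzCl_im (Sum.map id Sum.inl) X)
    (RzCl_im (Sum.map id Sum.inr) X'), fun φ => ?_⟩
  change F φ * G φ = _
  rw [hX, hX']
  unfold exts
  rw [← Nat.card_prod]
  refine Nat.card_congr ?_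
  refine (Equiv.subtypeProdEquivProd (p := fun b : Y → D => IsHom Γ X (Sum.elim φ b))
    (q := fun b : Y' → D => IsHom Γ X' (Sum.elim φ b))).symm.trans ?_
  refine (Equiv.subtypeEquiv (Equiv.sumArrowEquivProdArrow Y Y' D) fun b => ?_).symm
  rw [RzCl_hom_un, RzCl_hom_im, RzCl_hom_im]
  have e1 : Sum.elim φ b ∘ Sum.map id Sum.inl = Sum.elim φ (b ∘ Sum.inl) := by
    funext x
    rcases x with x | x <;> rfl
  have e2 : Sum.elim φ b ∘ Sum.map id Sum.inr = Sum.elim φ (b ∘ Sum.inr) := by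
    funext x
    rcases x with x | x <;> rfl
  rw [e1, e2]
  rfl

theorem RzCl_map {σ D : Type} {ar : σ → ℕ} (Γ : Str ar D) {A B : Type} (F : (A → D) → ℕ)
    (a : A → B) (hF : Rz Γ F) : Rz Γ fun ψ : B → D => F fun x => ψ (a x) := by
  obtain ⟨Y, hY, X, hX⟩ := hF
  refine ⟨Y, hY, RzCl_im (Sum.map a id) X, fun ψ => ?_⟩
  change F (fun x => ψ (a x)) = _
  rw [hX]
  unfold exts
  refine Nat.card_congr (Equiv.subtypeEquiv (Equiv.refl _) fun b => ?_)
  rw [RzCl_hom_im]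
  have e1 : Sum.elim ψ ((Equiv.refl _) b) ∘ Sum.map a id = Sum.elim (fun x => ψ (a x)) b := by
    funext x
    rcases x with x | x <;> rfl
  rw [e1]

theorem RzCl_sum {σ D : Type} {ar : σ → ℕ} (Γ : Str ar D) {A B : Type} [Fintype D] [Fintype B]
    [DecidableEq B] (F : (A ⊕ B → D) → ℕ) (hF : Rz Γ F) :
    Rz Γ fun φ : A → D => ∑ ψ : B → D, F (Sum.elim φ ψ) := by
  obtain ⟨Y, hY, X, hX⟩ := hF
  refine ⟨B ⊕ Y, inferInstance, RzCl_im (Equiv.sumAssoc A B Y) X, fun φ => ?_⟩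
  simp only [hX]
  unfold exts
  rw [← Nat.card_sigma]
  refine Nat.card_congr ?_
  have key : ∀ b : B ⊕ Y → D, Sum.elim φ b ∘ (Equiv.sumAssoc A B Y) =
      Sum.elim (Sum.elim φ (b ∘ Sum.inl)) (b ∘ Sum.inr) := by
    intro b
    funext x
    rcases x with (x | x) | x <;> rfl
  exact
    { toFun := fun p => ⟨Sum.elim p.1 p.2.1, (RzCl_hom_im _ _ _ _).2 (by
        rw [key]
        exact p.2.2)⟩
      invFun := fun b => ⟨b.1 ∘ Sum.inl, b.1 ∘ Sum.inr, by
        have h := (RzCl_hom_im _ _ _ _).1 b.2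
        rwa [key] at h⟩
      left_inv := fun p => rfl
      right_inv := fun b => Subtype.ext (by
        funext x
        rcases x with x | x <;> rfl) }

theorem thm_RzCl : St_RzCl := by
  intro σ D ar Γ A B
  refine ⟨RzCl_one Γ A, RzCl_mul Γ, fun F a hF => RzCl_map Γ F a hF, ?_⟩
  intro h1 h2 h3 F hF
  exact RzCl_sum Γ F hF

end Pool.Agent.SYH
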