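import Pool.Agent.SYH.StC
import Pool.Agent.SYH.RzCl

/-!
# A counting function that shows that there is no majority operation
-/

set_option autoImplicit false

namespace Pool.Agent.SYH

open Finset

section

variable {σ D : Type} {ar : σ → ℕ}

/-- the cube of the template -/
def Fail_cube (Γ : Str ar D) : Str ar (D × D × D) :=
  fun R v => Γ R (fun i => (v i).1) ∧ Γ R (fun i => (v i).2.1) ∧ Γ R (fun i => (v i).2.2)

/-- triples with two equal entries -/
def Fail_tri (u : D × D × D) : Prop := u.1 = u.2.1 ∨ u.1 = u.2.2 ∨ u.2.1 = u.2.2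

open Classical in
/-- the repeated entry -/
noncomputable def Fail_maj (u : D × D × D) : D :=
  if u.1 = u.2.1 then u.1 else if u.1 = u.2.2 then u.1 else u.2.1

/-- extendable sets -/
def Fail_ext (Γ : Str ar D) (U : Finset (D × D × D)) : Prop :=
  ∃ s, IsHom Γ (Fail_cube Γ) s ∧ ∀ u ∈ U, s u = Fail_maj u

theorem Fail_ext_tri (Γ : Str ar D) (s : D × D × D → D) (hs : IsHom Γ (Fail_cube Γ) s)
    (h : ∀ u, Fail_tri u → s u = Fail_maj u) : HasMajority Γ := by
  classical
  refine ⟨fun x y z => s (x, y, z), fun x y => ⟨?_, ?_, ?_⟩, fun R u v w hu hv hw => ?_⟩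
  · show s (x, x, y) = x
    rw [h (x, x, y) (Or.inl rfl)]
    simp [Fail_maj]
  · show s (x, y, x) = x
    rw [h (x, y, x) (Or.inr (Or.inl rfl))]
    simp [Fail_maj]
  · show s (y, x, x) = x
    rw [h (y, x, x) (Or.inr (Or.inr rfl))]
    by_cases e : y = x
    · simp [Fail_maj, e]
    · simp [Fail_maj, e]
  · exact hs R (fun i => (u i, v i, w i)) ⟨hu, hv, hw⟩

theorem Fail_maj_spec (u : D × D × D) (hu : Fail_tri u) :
    (u.1 = Fail_maj u ∧ u.2.1 = Fail_maj u) ∨ (u.1 = Fail_maj u ∧ u.2.2 = Fail_maj u) ∨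
      (u.2.1 = Fail_maj u ∧ u.2.2 = Fail_maj u) := by
  classical
  unfold Fail_maj
  by_cases h1 : u.1 = u.2.1
  · left
    rw [if_pos h1]
    exact ⟨rfl, h1.symm⟩
  · rw [if_neg h1]
    by_cases h2 : u.1 = u.2.2
    · right; left
      rw [if_pos h2]
      exact ⟨rfl, h2.symm⟩
    · right; right
      rw [if_neg h2]
      rcases hu with h | h | h
      · exact absurd h h1
      · exact absurd h h2
      · exact ⟨rfl, h.symm⟩

theorem Fail_two (Γ : Str ar D) (U : Finset (D × D × D)) (hU : ∀ u ∈ U, Fail_tri u)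
    (u v : D × D × D) (h : ∀ x ∈ U, x = u ∨ x = v) : Fail_ext Γ U := by
  have hp1 : IsHom Γ (Fail_cube Γ) (fun x => x.1) := fun R u hu => hu.1
  have hp2 : IsHom Γ (Fail_cube Γ) (fun x => x.2.1) := fun R u hu => hu.2.1
  have hp3 : IsHom Γ (Fail_cube Γ) (fun x => x.2.2) := fun R u hu => hu.2.2
  by_cases hu : u ∈ U
  · by_cases hv : v ∈ U
    · rcases Fail_maj_spec u (hU u hu) with h1 | h1 | h1 <;>
        rcases Fail_maj_spec v (hU v hv) with h2 | h2 | h2
      · exact ⟨_, hp1, fun x hx => by rcases h x hx with rfl | rfl <;> [exact h1.1; exact h2.1]⟩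
      · exact ⟨_, hp1, fun x hx => by rcases h x hx with rfl | rfl <;> [exact h1.1; exact h2.1]⟩
      · exact ⟨_, hp2, fun x hx => by rcases h x hx with rfl | rfl <;> [exact h1.2; exact h2.1]⟩
      · exact ⟨_, hp1, fun x hx => by rcases h x hx with rfl | rfl <;> [exact h1.1; exact h2.1]⟩
      · exact ⟨_, hp1, fun x hx => by rcases h x hx with rfl | rfl <;> [exact h1.1; exact h2.1]⟩
      · exact ⟨_, hp3, fun x hx => by rcases h x hx with rfl | rfl <;> [exact h1.2; exact h2.2]⟩
      · exact ⟨_, hp2, fun x hx => by rcases h x hx with rfl | rfl <;> [exact h1.1; exact h2.2]⟩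
      · exact ⟨_, hp3, fun x hx => by rcases h x hx with rfl | rfl <;> [exact h1.2; exact h2.2]⟩
      · exact ⟨_, hp2, fun x hx => by rcases h x hx with rfl | rfl <;> [exact h1.1; exact h2.1]⟩
    · rcases Fail_maj_spec u (hU u hu) with h1 | h1 | h1
      · refine ⟨_, hp1, fun x hx => ?_⟩
        rcases h x hx with rfl | rfl
        · exact h1.1
        · exact absurd hx hv
      · refine ⟨_, hp1, fun x hx => ?_⟩
        rcases h x hx with rfl | rfl
        · exact h1.1
        · exact absurd hx hv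
      · refine ⟨_, hp2, fun x hx => ?_⟩
        rcases h x hx with rfl | rfl
        · exact h1.1
        · exact absurd hx hv
  · by_cases hv : v ∈ U
    · rcases Fail_maj_spec v (hU v hv) with h1 | h1 | h1
      · refine ⟨_, hp1, fun x hx => ?_⟩
        rcases h x hx with rfl | rfl
        · exact absurd hx hu
        · exact h1.1
      · refine ⟨_, hp1, fun x hx => ?_⟩
        rcases h x hx with rfl | rfl
        · exact absurd hx hu
        · exact h1.1
      · refine ⟨_, hp2, fun x hx => ?_⟩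
        rcases h x hx with rfl | rfl
        · exact absurd hx hu
        · exact h1.1
    · refine ⟨_, hp1, fun x hx => ?_⟩
      rcases h x hx with rfl | rfl
      · exact absurd hx hu
      · exact absurd hx hv

/-- the number of the polymorphisms with given values on `U` -/
noncomputable def Fail_F (Γ : Str ar D) (U : Finset (D × D × D)) (φ : {u // u ∈ U} → D) : ℕ :=
  Nat.card {s : D × D × D → D // IsHom Γ (Fail_cube Γ) s ∧ ∀ u : {u // u ∈ U}, s u.1 = φ u}

theorem Fail_Rz [Fintype D] (Γ : Str ar D) (U : Finset (D × D × D)) : Rz Γ (Fail_F Γ U) := by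
  classical
  let E : {u // u ∈ U} ⊕ {u // ¬ u ∈ U} ≃ D × D × D := Equiv.sumCompl (fun u => u ∈ U)
  refine ⟨{u // ¬ u ∈ U}, inferInstance, fun R v => Fail_cube Γ R (E ∘ v), fun φ => ?_⟩
  unfold Fail_F exts
  have hE : ∀ u : {u // u ∈ U}, E (Sum.inl u) = u.1 := fun u => rfl
  have hs : ∀ s : D × D × D → D, (∀ u : {u // u ∈ U}, s u.1 = φ u) →
      Sum.elim φ (fun y => s (E (Sum.inr y))) = s ∘ E := by
    intro s h
    funext x
    rcases x with x | x
    · exact (h x).symm
    · rfl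
  refine Nat.card_congr ⟨fun s => ⟨fun y => s.1 (E (Sum.inr y)), ?_⟩,
    fun b => ⟨Sum.elim φ b.1 ∘ E.symm, ?_, ?_⟩, ?_, ?_⟩
  · rw [hs s.1 s.2.2]
    intro R v hv
    exact s.2.1 R (E ∘ v) hv
  · intro R v hv
    have h := b.2 R (E.symm ∘ v) (by
      change Fail_cube Γ R (E ∘ E.symm ∘ v)
      rw [← Function.comp_assoc, E.self_comp_symm, Function.id_comp]
      exact hv)
    exact h
  · intro u
    change Sum.elim φ b.1 (E.symm u.1) = φ u
    rw [← hE u, E.symm_apply_apply]
    rfl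
  · intro s
    refine Subtype.ext ?_
    change Sum.elim φ (fun y => s.1 (E (Sum.inr y))) ∘ E.symm = s.1
    rw [hs s.1 s.2.2, Function.comp_assoc, E.self_comp_symm, Function.comp_id]
  · intro b
    refine Subtype.ext ?_
    funext y
    change Sum.elim φ b.1 (E.symm (E (Sum.inr y))) = b.1 y
    rw [E.symm_apply_apply]
    rfl

end

theorem thm_Fail : St_Fail := by
  classical
  intro σ D ar _ Γ hΓ
  set tri : Finset (D × D × D) := univ.filter fun u => Fail_tri u with htri
  have h0 : ¬ Fail_ext Γ tri := by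
    rintro ⟨s, hs, h⟩
    exact hΓ (Fail_ext_tri Γ s hs fun u hu => h u (by rw [htri]; simp [hu]))
  obtain ⟨U, ⟨hU1, hU2⟩, hU3⟩ := (wellFounded_lt : WellFounded ((· < ·) :
    Finset (D × D × D) → Finset (D × D × D) → Prop)).has_min
      {U | U ⊆ tri ∧ ¬ Fail_ext Γ U} ⟨tri, Subset.rfl, h0⟩
  have hUt : ∀ u ∈ U, Fail_tri u := by
    intro u hu
    have h1 := hU1 hu
    rw [htri, mem_filter] at h1
    exact h1.2
  have hmin : ∀ U', U' ⊂ U → Fail_ext Γ U' := by
    intro U' hU'
    by_contra hcon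
    exact hU3 U' ⟨hU'.subset.trans hU1, hcon⟩ hU'
  have hpair : ∀ u v : D × D × D, ∃ x ∈ U, x ≠ u ∧ x ≠ v := by
    intro u v
    by_contra hcon
    push Not at hcon
    refine hU2 (Fail_two Γ U hUt u v fun x hx => ?_)
    by_cases e : x = u
    · exact Or.inl e
    · exact Or.inr (hcon x hx e)
  have hne : ∃ u, u ∈ U := by
    by_contra hcon
    push Not at hcon
    have hD : ∀ d : D, False := by
      intro d
      obtain ⟨x, hx, -⟩ := hpair (d, d, d) (d, d, d)
      exact hcon x hx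
    refine hU2 ⟨fun x => x.1, fun R u hu => hu.1, fun u hu => absurd hu (hcon u)⟩
  obtain ⟨u0, hu0⟩ := hne
  obtain ⟨u1, hu1, hu10, -⟩ := hpair u0 u0
  obtain ⟨u2, hu2, hu20, hu21⟩ := hpair u0 u1
  let c : {u // u ∈ U} → Fin 3 := fun u => if u.1 = u0 then 0 else if u.1 = u1 then 1 else 2
  have hc : ∀ j, ∃ u, c u = j := by
    intro j
    fin_cases j
    · exact ⟨⟨u0, hu0⟩, by simp [c]⟩
    · exact ⟨⟨u1, hu1⟩, by simp [c, hu10]⟩
    · exact ⟨⟨u2, hu2⟩, by simp [c, hu20, hu21]⟩
  refine ⟨{u // u ∈ U}, inferInstance, inferInstance, fun ψ => Fail_F Γ U fun u => ψ (c u) u,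
    fun _ u => Fail_maj u.1, ?_, ?_, ?_⟩
  · exact (thm_RzCl σ D ar Γ {u // u ∈ U} (Fin 3 × {u // u ∈ U})).2.2.1 (Fail_F Γ U)
      (fun u => (c u, u)) (Fail_Rz Γ U)
  · have h1 : IsEmpty {s : D × D × D → D // IsHom Γ (Fail_cube Γ) s ∧
        ∀ u : {u // u ∈ U}, s u.1 = Fail_maj u.1} := by
      refine ⟨fun s => hU2 ⟨s.1, s.2.1, fun u hu => s.2.2 ⟨u, hu⟩⟩⟩
    exact Nat.card_of_isEmpty
  · intro j
    obtain ⟨uj, huj⟩ := hc j
    obtain ⟨s, hs1, hs2⟩ := hmin (U.filter fun x => ∀ h : x ∈ U, c ⟨x, h⟩ ≠ j) (by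
      refine (Finset.filter_ssubset).2 ⟨uj.1, uj.2, ?_⟩
      intro h
      exact h uj.2 huj)
    refine ⟨fun u => s u.1, ?_⟩
    have h1 : ∀ u : {u // u ∈ U}, s u.1 =
        Function.update (fun (_ : Fin 3) (u : {u // u ∈ U}) => Fail_maj u.1) j
          (fun u => s u.1) (c u) u := by
      intro u
      by_cases e : c u = j
      · rw [e, Function.update_self]
      · rw [Function.update_of_ne e]
        refine hs2 u.1 ?_
        rw [mem_filter]
        exact ⟨u.2, fun _ => e⟩
    have h2 : Nonempty {s' : D × D × D → D // IsHom Γ (Fail_cube Γ) s' ∧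
        ∀ u : {u // u ∈ U}, s' u.1 =
          Function.update (fun (_ : Fin 3) (u : {u // u ∈ U}) => Fail_maj u.1) j
            (fun u => s u.1) (c u) u} := ⟨⟨s, hs1, h1⟩⟩
    exact Nat.card_pos.ne'

end Pool.Agent.SYH
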