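import Pool.Agent.SYH.StC

/-!
# The terms of the flat assignments do not depend on the charge
-/

set_option autoImplicit false

namespace Pool.Agent.SYH

open Finset

/-- the slot with `z` at `j` and `-z` at `j'` -/
private def Flat_slot {p : ℕ} (j j' : Fin 3) (z : ZMod p) : Slot 3 p :=
  ⟨Pi.single j z - Pi.single j' z, by
    simp only [Pi.sub_apply, Finset.sum_sub_distrib, Finset.sum_pi_single', mem_univ, if_true,
      sub_self]⟩

private theorem Flat_slot_at {p : ℕ} {j j' : Fin 3} (hj : j' ≠ j) (z : ZMod p) :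
    (Flat_slot j j' z).1 j = z := by
  simp only [Flat_slot, Pi.sub_apply, Pi.single_eq_same, Pi.single_eq_of_ne hj.symm, sub_zero]

private theorem Flat_other (j : Fin 3) : ∃ j' : Fin 3, j' ≠ j := exists_ne j

private theorem Flat_shift {p : ℕ} [Fact p.Prime] (j : Fin 3) (z : ZMod p) (f : ZMod p → ℚ) :
    ∏ S : Slot 3 p, f (S.1 j + z) = ∏ S : Slot 3 p, f (S.1 j) := by
  obtain ⟨j', hj⟩ := Flat_other j
  refine Fintype.prod_equiv ((Equiv.addRight (Flat_slot j j' z).1).subtypeEquiv fun S => ?_) _ _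
    fun S => ?_
  · rw [Equiv.coe_addRight]
    simp only [Pi.add_apply, sum_add_distrib]
    rw [(Flat_slot j j' z).2, add_zero]
  · change f (S.1 j + z) = f (S.1 j + (Flat_slot j j' z).1 j)
    rw [Flat_slot_at hj]

private theorem Flat_zero {p : ℕ} [Fact p.Prime] {X G : Type} [AddCommGroup G]
    {F : (Fin 3 → X) → ℕ} {P : Fin 3 → X → Prop} {g : Fin 3 → X → G} {u : Fin 3 → X → ℚ}
    {K : G → G → ℚ} (hA : Abel F P g u K) (x : Fin 3 → ZMod p → X)
    (hx : ∀ j α, g j (x j α) = g j (x j 0)) (c : Fin 3 → ZMod p)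
    (h : ¬ ((∀ j β, P j (x j β)) ∧ ∑ j, g j (x j 0) = 0)) :
    ∏ S : Slot 3 p, F (fun j => x j (S.1 j + c j)) = 0 := by
  by_contra hc
  refine h ⟨fun j β => ?_, ?_⟩
  · obtain ⟨j', hj⟩ := Flat_other j
    have h1 := Finset.prod_ne_zero_iff.1 hc (Flat_slot j j' (β - c j)) (mem_univ _)
    have h2 := ((hA.supp _).1 h1).1 j
    simp only [Flat_slot_at hj, sub_add_cancel] at h2
    exact h2
  · have h1 := Finset.prod_ne_zero_iff.1 hc (Flat_slot 0 0 0) (mem_univ _)
    have h2 := ((hA.supp _).1 h1).2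
    rw [← h2]
    exact Finset.sum_congr rfl fun j _ => (hx j _).symm

private theorem Flat_one {p : ℕ} [Fact p.Prime] {X G : Type} [AddCommGroup G]
    {F : (Fin 3 → X) → ℕ} {P : Fin 3 → X → Prop} {g : Fin 3 → X → G} {u : Fin 3 → X → ℚ}
    {K : G → G → ℚ} (hA : Abel F P g u K) (x : Fin 3 → ZMod p → X)
    (hx : ∀ j α, g j (x j α) = g j (x j 0)) (c : Fin 3 → ZMod p)
    (h : (∀ j β, P j (x j β)) ∧ ∑ j, g j (x j 0) = 0) :
    ((∏ S : Slot 3 p, F (fun j => x j (S.1 j + c j)) : ℕ) : ℚ) =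
      (∏ j, ∏ S : Slot 3 p, u j (x j (S.1 j))) *
        ∏ _S : Slot 3 p, K (g 0 (x 0 0)) (g 1 (x 1 0)) := by
  push_cast
  have h1 : ∀ S : Slot 3 p, (F (fun j => x j (S.1 j + c j)) : ℚ) =
      (∏ j, u j (x j (S.1 j + c j))) * K (g 0 (x 0 0)) (g 1 (x 1 0)) := by
    intro S
    have h2 : F (fun j => x j (S.1 j + c j)) ≠ 0 := by
      refine (hA.supp _).2 ⟨fun j => h.1 j _, ?_⟩
      rw [← h.2]
      exact Finset.sum_congr rfl fun j _ => hx j _
    rw [hA.prod _ h2, hx 0, hx 1]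
  rw [Finset.prod_congr rfl fun S _ => h1 S, Finset.prod_mul_distrib, Finset.prod_comm]
  congr 1
  exact Finset.prod_congr rfl fun j _ => Flat_shift j (c j) fun α => u j (x j α)

private theorem Flat_vertex {p : ℕ} [Fact p.Prime] {X G : Type} [AddCommGroup G]
    {F : (Fin 3 → X) → ℕ} {P : Fin 3 → X → Prop} {g : Fin 3 → X → G} {u : Fin 3 → X → ℚ}
    {K : G → G → ℚ} (hA : Abel F P g u K) (x : Fin 3 → ZMod p → X)
    (hx : ∀ j α, g j (x j α) = g j (x j 0)) (c : Fin 3 → ZMod p) :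
    ∏ S : Slot 3 p, F (fun j => x j (S.1 j + c j)) = ∏ S : Slot 3 p, F (fun j => x j (S.1 j)) := by
  have h0 : ∏ S : Slot 3 p, F (fun j => x j (S.1 j)) =
      ∏ S : Slot 3 p, F (fun j => x j (S.1 j + (0 : Fin 3 → ZMod p) j)) := by
    simp only [Pi.zero_apply, add_zero]
  rw [h0]
  by_cases h : (∀ j β, P j (x j β)) ∧ ∑ j, g j (x j 0) = 0
  · have h1 := Flat_one hA x hx c h
    rw [← Flat_one hA x hx 0 h] at h1
    exact_mod_cast h1
  · rw [Flat_zero hA x hx c h, Flat_zero hA x hx 0 h]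

theorem thm_Flat : St_Flat := by
  intro n p _ π X G _ F P g u K s h hA hs
  refine Finset.prod_congr rfl fun C _ => ?_
  exact Flat_vertex hA (fun j α => s (edgeAt π C j) α) (fun j α => hs (edgeAt π C j) α) (h C)

end Pool.Agent.SYH
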