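import Pool.Agent.SYH.StC

/-!
# A Latin square with the closure condition is the table of an abelian group
-/

set_option autoImplicit false

namespace Pool.Agent.SYH

theorem thm_Group : St_Group := by
  classical
  intro A B S hA hB m hm1 hm2 hcl
  obtain ⟨x₀⟩ := hA
  obtain ⟨y₀⟩ := hB
  let f : A ≃ S := Equiv.ofBijective (fun x => m x y₀) (hm2 y₀)
  let g : B ≃ S := Equiv.ofBijective (m x₀) (hm1 x₀)
  let z : S := m x₀ y₀
  let ad : S → S → S := fun a b => m (f.symm a) (g.symm b)
  have hf0 : f x₀ = z := rfl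
  have hg0 : g y₀ = z := rfl
  have ad_zero : ∀ a, ad a z = a := by
    intro a
    have h1 : g.symm z = y₀ := by rw [← hg0, g.symm_apply_apply]
    change m (f.symm a) (g.symm z) = a
    rw [h1]
    exact f.apply_symm_apply a
  have zero_ad : ∀ a, ad z a = a := by
    intro a
    have h1 : f.symm z = x₀ := by rw [← hf0, f.symm_apply_apply]
    change m (f.symm z) (g.symm a) = a
    rw [h1]
    exact g.apply_symm_apply a
  have Q : ∀ x x' y y' u u' v v', ad x y = ad x' y' → ad u y = ad x' v' → ad x v = ad u' y' →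
      ad u v = ad u' v' := fun x x' y y' u u' v v' h1 h2 h3 => hcl _ _ _ _ _ _ _ _ h1 h2 h3
  have h4 : ∀ u u' y, ad u (ad u' y) = ad u' (ad u y) := by
    intro u u' y
    refine Q z z y y u u' (ad u' y) (ad u y) rfl ?_ ?_
    · rw [zero_ad]
    · rw [zero_ad]
  have comm : ∀ u u', ad u u' = ad u' u := by
    intro u u'
    have h := h4 u u' z
    rw [ad_zero, ad_zero] at h
    exact h
  have assoc : ∀ u v w, ad (ad u v) w = ad u (ad v w) := by
    intro u v w
    rw [comm (ad u v) w, h4 w u v, comm w v]
  have hneg : ∀ a, ∃ b, ad b a = z := by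
    intro a
    obtain ⟨x, hx⟩ := (hm2 (g.symm a)).2 z
    refine ⟨f x, ?_⟩
    change m (f.symm (f x)) (g.symm a) = z
    rw [f.symm_apply_apply]
    exact hx
  choose ng hng using hneg
  let iZ : Zero S := ⟨z⟩
  let iA : Add S := ⟨ad⟩
  let iN : Neg S := ⟨ng⟩
  let inst : AddCommGroup S :=
    { toAdd := iA
      toZero := iZ
      toNeg := iN
      add_assoc := assoc
      zero_add := zero_ad
      add_zero := ad_zero
      neg_add_cancel := hng
      add_comm := comm
      nsmul := nsmulRec
      zsmul := zsmulRec }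
  refine ⟨inst, f, g, f.bijective, g.bijective, fun x y => ?_⟩
  change m x y = m (f.symm (f x)) (g.symm (g y))
  rw [f.symm_apply_apply, g.symm_apply_apply]

end Pool.Agent.SYH
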