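import Pool.Agent.SYH.StC

/-!
# The support of a trio is a Latin square
-/

set_option autoImplicit false

namespace Pool.Agent.SYH

variable {X : Type} [Fintype X] {N : X → X → X → ℕ}

/-- rectangularity of the support of a block-rank-one matrix -/
theorem Latin_rect {α β : Type} {M : α → β → ℕ} (h : Blk M) {s s' : α} {w w' : β}
    (h1 : M s w ≠ 0) (h2 : M s' w ≠ 0) (h3 : M s w' ≠ 0) : M s' w' ≠ 0 := by
  intro h4
  have h5 := h s s' w w' h1 h2 h3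
  rw [h4, mul_zero] at h5
  exact mul_ne_zero h3 h2 h5.symm

theorem Latin_slice {α β : Type} {M : α → β → ℕ} (h : Blk M) {s s' : α} {w : β}
    (h1 : M s w ≠ 0) (h2 : M s' w ≠ 0) : {w | M s w ≠ 0} = {w | M s' w ≠ 0} := by
  ext w'
  exact ⟨fun h3 => Latin_rect h h1 h2 h3, fun h3 => Latin_rect h h2 h1 h3⟩

theorem thm_Latin : St_Latin := by
  classical
  intro X _ N hT
  obtain ⟨x₀, y₀, z₀, x₁, y₁, z₁, hz, h01, h02, h03⟩ := hT.hole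
  -- the classes
  let SA : X → Set (X × X) := fun x => {p | N x p.1 p.2 ≠ 0}
  let SB : X → Set (X × X) := fun y => {p | N p.1 y p.2 ≠ 0}
  let SS : X → Set (X × X) := fun z => {p | N p.1 p.2 z ≠ 0}
  let P : Fin 3 → X → Prop := fun i => ![fun x => ∃ y z, N x y z ≠ 0,
    fun y => ∃ x z, N x y z ≠ 0, fun z => ∃ x y, N x y z ≠ 0] i
  have hP0 : ∀ x, P 0 x ↔ ∃ y z, N x y z ≠ 0 := fun x => Iff.rfl
  have hP1 : ∀ y, P 1 y ↔ ∃ x z, N x y z ≠ 0 := fun x => Iff.rfl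
  have hP2 : ∀ z, P 2 z ↔ ∃ x y, N x y z ≠ 0 := fun x => Iff.rfl
  let A : Type := {U : Set (X × X) // ∃ x, P 0 x ∧ SA x = U}
  let B : Type := {U : Set (X × X) // ∃ y, P 1 y ∧ SB y = U}
  let S : Type := {U : Set (X × X) // ∃ z, P 2 z ∧ SS z = U}
  let a : X → A := fun x => if h : P 0 x then ⟨SA x, x, h, rfl⟩ else
    ⟨SA x₀, x₀, ⟨y₀, z₁, h01⟩, rfl⟩
  let b : X → B := fun y => if h : P 1 y then ⟨SB y, y, h, rfl⟩ else
    ⟨SB y₀, y₀, ⟨x₀, z₁, h01⟩, rfl⟩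
  let s : X → S := fun z => if h : P 2 z then ⟨SS z, z, h, rfl⟩ else
    ⟨SS z₁, z₁, ⟨x₀, y₀, h01⟩, rfl⟩
  have ha : ∀ x, P 0 x → (a x).1 = SA x := fun x h => by simp only [a, dif_pos h]
  have hb : ∀ x, P 1 x → (b x).1 = SB x := fun x h => by simp only [b, dif_pos h]
  have hs : ∀ x, P 2 x → (s x).1 = SS x := fun x h => by simp only [s, dif_pos h]
  have repA : ∀ i : A, ∃ x, P 0 x ∧ a x = i := by
    rintro ⟨U, x, hx, rfl⟩
    exact ⟨x, hx, Subtype.ext (ha x hx)⟩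
  have repB : ∀ i : B, ∃ x, P 1 x ∧ b x = i := by
    rintro ⟨U, x, hx, rfl⟩
    exact ⟨x, hx, Subtype.ext (hb x hx)⟩
  have repS : ∀ i : S, ∃ x, P 2 x ∧ s x = i := by
    rintro ⟨U, x, hx, rfl⟩
    exact ⟨x, hx, Subtype.ext (hs x hx)⟩
  -- exchange of equivalent elements
  have exA : ∀ x x', P 0 x → P 0 x' → a x = a x' → ∀ y z, N x y z ≠ 0 → N x' y z ≠ 0 := by
    intro x x' hx hx' h y z h1
    have h2 : SA x = SA x' := by rw [← ha x hx, ← ha x' hx', h]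
    have h3 : (y, z) ∈ SA x := h1
    rw [h2] at h3
    exact h3
  have exB : ∀ x x', P 1 x → P 1 x' → b x = b x' → ∀ y z, N y x z ≠ 0 → N y x' z ≠ 0 := by
    intro x x' hx hx' h y z h1
    have h2 : SB x = SB x' := by rw [← hb x hx, ← hb x' hx', h]
    have h3 : (y, z) ∈ SB x := h1
    rw [h2] at h3
    exact h3
  have exS : ∀ x x', P 2 x → P 2 x' → s x = s x' → ∀ y z, N y z x ≠ 0 → N y z x' ≠ 0 := by
    intro x x' hx hx' h y z h1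
    have h2 : SS x = SS x' := by rw [← hs x hx, ← hs x' hx', h]
    have h3 : (y, z) ∈ SS x := h1
    rw [h2] at h3
    exact h3
  have eqA : ∀ x x' y z, N x y z ≠ 0 → N x' y z ≠ 0 → a x = a x' := by
    intro x x' y z h1 h2
    refine Subtype.ext ?_
    rw [ha x ⟨y, z, h1⟩, ha x' ⟨y, z, h2⟩]
    exact Latin_slice hT.b0 (w := (y, z)) h1 h2
  have eqB : ∀ x x' y z, N y x z ≠ 0 → N y x' z ≠ 0 → b x = b x' := by
    intro x x' y z h1 h2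
    refine Subtype.ext ?_
    rw [hb x ⟨y, z, h1⟩, hb x' ⟨y, z, h2⟩]
    exact Latin_slice hT.b1 (w := (y, z)) h1 h2
  have eqS : ∀ x x' y z, N y z x ≠ 0 → N y z x' ≠ 0 → s x = s x' := by
    intro x x' y z h1 h2
    refine Subtype.ext ?_
    rw [hs x ⟨y, z, h1⟩, hs x' ⟨y, z, h2⟩]
    exact Latin_slice hT.b2 (w := (y, z)) h1 h2
  -- the multiplication
  have hex : ∀ x y, P 0 x → P 1 y → ∃ z, N x y z ≠ 0 := by
    rintro x y ⟨y', z', h1⟩ ⟨x', z'', h2⟩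
    exact hT.f01 x y x' y' z' z'' h1 h2
  choose rA hrA1 hrA2 using repA
  choose rB hrB1 hrB2 using repB
  have hex' : ∀ (i : A) (j : B), ∃ z, N (rA i) (rB j) z ≠ 0 := fun i j =>
    hex _ _ (hrA1 i) (hrB1 j)
  choose rz hrz using hex'
  let m : A → B → S := fun i j => s (rz i j)
  have key : ∀ x y z, N x y z ≠ 0 ↔ (P 0 x ∧ P 1 y ∧ P 2 z) ∧ m (a x) (b y) = s z := by
    intro x y z
    constructor
    · intro h
      have hx : P 0 x := ⟨y, z, h⟩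
      have hy : P 1 y := ⟨x, z, h⟩
      have hz : P 2 z := ⟨x, y, h⟩
      refine ⟨⟨hx, hy, hz⟩, ?_⟩
      have h1 := exA x (rA (a x)) hx (hrA1 _) (hrA2 _).symm y z h
      have h2 := exB y (rB (b y)) hy (hrB1 _) (hrB2 _).symm _ _ h1
      exact eqS _ _ _ _ (hrz (a x) (b y)) h2
    · rintro ⟨⟨hx, hy, hz⟩, h⟩
      have h1 := exS _ z ⟨_, _, hrz (a x) (b y)⟩ hz h _ _ (hrz (a x) (b y))
      have h2 := exB _ y (hrB1 _) hy (hrB2 _) _ _ h1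
      exact exA _ x (hrA1 _) hx (hrA2 _) _ _ h2
  refine ⟨A, B, S, inferInstance, ?_, P, a, b, s, m, fun i => ⟨rA i, hrA1 i, hrA2 i⟩,
    fun i => ⟨rB i, hrB1 i, hrB2 i⟩, repS, ?_, ?_, ?_, key⟩
  · refine ⟨s z₀, s z₁, fun h => ?_⟩
    exact exS z₁ z₀ ⟨x₀, y₀, h01⟩ ⟨x₀, y₁, h02⟩ h.symm x₀ y₀ h01 hz
  · intro i
    obtain ⟨x, hx, rfl⟩ : ∃ x, P 0 x ∧ a x = i := ⟨rA i, hrA1 i, hrA2 i⟩
    constructor
    · intro j j' hjj
      obtain ⟨y, hy, rfl⟩ : ∃ y, P 1 y ∧ b y = j := ⟨rB j, hrB1 j, hrB2 j⟩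
      obtain ⟨y', hy', rfl⟩ : ∃ y, P 1 y ∧ b y = j' := ⟨rB j', hrB1 j', hrB2 j'⟩
      obtain ⟨z, h1⟩ := hex x y hx hy
      have h2 := ((key x y z).1 h1).2
      have h3 : N x y' z ≠ 0 := (key x y' z).2 ⟨⟨hx, hy', ⟨x, y, h1⟩⟩, by
        rw [← h2]
        exact hjj.symm⟩
      exact eqB y y' x z h1 h3
    · intro k
      obtain ⟨z, hz, rfl⟩ := repS k
      obtain ⟨y', z', h1⟩ := hx
      obtain ⟨x', y'', h2⟩ := hz
      obtain ⟨y, h3⟩ := hT.f02 x z x' y' z' y'' h1 h2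
      exact ⟨b y, ((key x y z).1 h3).2⟩
  · intro j
    obtain ⟨y, hy, rfl⟩ : ∃ y, P 1 y ∧ b y = j := ⟨rB j, hrB1 j, hrB2 j⟩
    constructor
    · intro i i' hii
      obtain ⟨x, hx, rfl⟩ : ∃ x, P 0 x ∧ a x = i := ⟨rA i, hrA1 i, hrA2 i⟩
      obtain ⟨x', hx', rfl⟩ : ∃ x, P 0 x ∧ a x = i' := ⟨rA i', hrA1 i', hrA2 i'⟩
      obtain ⟨z, h1⟩ := hex x y hx hy
      have h2 := ((key x y z).1 h1).2
      have h3 : N x' y z ≠ 0 := (key x' y z).2 ⟨⟨hx', hy, ⟨x, y, h1⟩⟩, by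
        rw [← h2]
        exact hii.symm⟩
      exact eqA x x' y z h1 h3
    · intro k
      obtain ⟨z, hz, rfl⟩ := repS k
      obtain ⟨x', z', h1⟩ := hy
      obtain ⟨x'', y', h2⟩ := hz
      obtain ⟨x, h3⟩ := hT.f12 y z x' y' z' x'' h1 h2
      exact ⟨a x, ((key x y z).1 h3).2⟩
  · -- the closure condition
    have hq : ∀ x y x' y', P 0 x → P 1 y → P 0 x' → P 1 y' →
        (∑ z, N x y z * N x' y' z ≠ 0 ↔ m (a x) (b y) = m (a x') (b y')) := by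
      intro x y x' y' hx hy hx' hy'
      constructor
      · intro h
        obtain ⟨z, _, h1⟩ := Finset.exists_ne_zero_of_sum_ne_zero h
        have h2 := left_ne_zero_of_mul h1
        have h3 := right_ne_zero_of_mul h1
        rw [((key x y z).1 h2).2, ((key x' y' z).1 h3).2]
      · intro h
        obtain ⟨z, h1⟩ := hex x y hx hy
        have h2 : N x' y' z ≠ 0 := (key x' y' z).2 ⟨⟨hx', hy', ⟨x, y, h1⟩⟩, by
          rw [← h, ((key x y z).1 h1).2]⟩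
        intro h3
        have h4 := (Finset.sum_eq_zero_iff.1 h3) z (Finset.mem_univ z)
        exact mul_ne_zero h1 h2 h4
    intro x x' y y' u u' v v' h1 h2 h3
    obtain ⟨x, hx, rfl⟩ : ∃ t, P 0 t ∧ a t = x := ⟨rA x, hrA1 x, hrA2 x⟩
    obtain ⟨x', hx', rfl⟩ : ∃ t, P 0 t ∧ a t = x' := ⟨rA x', hrA1 x', hrA2 x'⟩
    obtain ⟨u, hu, rfl⟩ : ∃ t, P 0 t ∧ a t = u := ⟨rA u, hrA1 u, hrA2 u⟩
    obtain ⟨u', hu', rfl⟩ : ∃ t, P 0 t ∧ a t = u' := ⟨rA u', hrA1 u', hrA2 u'⟩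
    obtain ⟨y, hy, rfl⟩ : ∃ t, P 1 t ∧ b t = y := ⟨rB y, hrB1 y, hrB2 y⟩
    obtain ⟨y', hy', rfl⟩ : ∃ t, P 1 t ∧ b t = y' := ⟨rB y', hrB1 y', hrB2 y'⟩
    obtain ⟨v, hv, rfl⟩ : ∃ t, P 1 t ∧ b t = v := ⟨rB v, hrB1 v, hrB2 v⟩
    obtain ⟨v', hv', rfl⟩ : ∃ t, P 1 t ∧ b t = v' := ⟨rB v', hrB1 v', hrB2 v'⟩
    have e1 := (hq x y x' y' hx hy hx' hy').2 h1
    have e2 := (hq u y x' v' hu hy hx' hv').2 h2
    have e3 := (hq x v u' y' hx hv hu' hy').2 h3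
    have e4 := Latin_rect hT.quad (s := (x, y')) (s' := (u, v')) (w := (x', y)) (w' := (u', v))
      e1 e2 e3
    exact (hq u v u' v' hu hv hu' hv').1 e4

end Pool.Agent.SYH
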