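import Pool.Agent.SYH.StC

/-!
# SYM, module Restr: restriction by constants to a function of three variables
-/

set_option autoImplicit false

namespace Pool.Agent.SYH

open Finset

set_option linter.unusedSectionVars false

section
variable {σ D T : Type} {ar : σ → ℕ} [Fintype D] [Fintype T] [DecidableEq T]

/-- the number of the ways to complete `x` at `j` and `y` at `k` -/
private def Restr_M (F : (Fin 3 → T → D) → ℕ) (j k : Fin 3) (x y : T → D) : ℕ :=
  ∑ c : T → D, F fun i t => if i = j then x t else if i = k then y t else c t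

/-- the function `F` with the pins `a` -/
private def Restr_E (F : (Fin 3 → T → D) → ℕ) (a : Fin 3 → T → D) (φ : D → D)
    (y : Fin 3 → T → D) : ℕ :=
  F y * ∏ q : Fin 3 × Fin 3,
    if q.1 = q.2 then 1 else Restr_M F q.1 q.2 (y q.1) fun t => φ (a q.2 t)

private def Restr_R (F : (Fin 3 → T → D) → ℕ) (j k : Fin 3) (x y : T → D) : Prop :=
  ∃ f, F f ≠ 0 ∧ f j = x ∧ f k = y

private def Restr_Good (F : (Fin 3 → T → D) → ℕ) (a : Fin 3 → T → D) (j : Fin 3) (x : T → D) :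
    Prop := ∀ k, j ≠ k → Restr_R F j k x (a k)

private theorem Restr_third : ∀ j k : Fin 3, j ≠ k → ∃ i, i ≠ j ∧ i ≠ k ∧
    ∀ i', i' ≠ j → i' ≠ k → i' = i := by decide

private theorem Restr_R_symm {F : (Fin 3 → T → D) → ℕ} {j k : Fin 3} {x y : T → D}
    (h : Restr_R F j k x y) : Restr_R F k j y x := by
  obtain ⟨f, h1, h2, h3⟩ := h
  exact ⟨f, h1, h3, h2⟩

private theorem Restr_M_ne (F : (Fin 3 → T → D) → ℕ) {j k : Fin 3} (hjk : j ≠ k) (x y : T → D) :
    Restr_M F j k x y ≠ 0 ↔ Restr_R F j k x y := by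
  unfold Restr_M Restr_R
  constructor
  · intro h
    obtain ⟨c, _, hc⟩ := Finset.exists_ne_zero_of_sum_ne_zero h
    refine ⟨_, hc, ?_, ?_⟩
    · funext t
      simp
    · funext t
      simp [hjk.symm]
  · rintro ⟨f, hf, hx, hy⟩ h
    obtain ⟨i, _, _, hi⟩ := Restr_third j k hjk
    rw [Finset.sum_eq_zero_iff] at h
    apply hf
    have h' := h (f i) (Finset.mem_univ _)
    rw [← h']
    congr 1
    funext i' t
    by_cases e1 : i' = j
    · subst e1
      simp [hx]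
    · by_cases e2 : i' = k
      · subst e2
        simp [e1, hy]
      · rw [if_neg e1, if_neg e2, hi i' e1 e2]

private theorem Restr_E_ne (F : (Fin 3 → T → D) → ℕ) (a : Fin 3 → T → D) (f : Fin 3 → T → D) :
    Restr_E F a id f ≠ 0 ↔ F f ≠ 0 ∧ ∀ j, Restr_Good F a j (f j) := by
  unfold Restr_E
  rw [mul_ne_zero_iff, Finset.prod_ne_zero_iff]
  refine and_congr Iff.rfl ?_
  constructor
  · intro h j k hjk
    have h' := h (j, k) (Finset.mem_univ _)
    simp only [if_neg hjk] at h'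
    exact (Restr_M_ne F hjk _ _).mp h'
  · rintro h ⟨j, k⟩ _
    by_cases hjk : j = k
    · simp [hjk]
    · simp only [if_neg hjk]
      exact (Restr_M_ne F hjk _ _).mpr (h j k hjk)

private theorem Restr_rzM (h2 : St_RzCl) (Γ : Str ar D) (F : (Fin 3 → T → D) → ℕ)
    (hF : Rz Γ fun ψ : Fin 3 × T → D => F fun j t => ψ (j, t)) {L : Type}
    (ρ : Fin 3 → T → L ⊕ T) :
    Rz Γ fun ψ : L → D => ∑ c : T → D, F fun i t => Sum.elim ψ c (ρ i t) := by
  obtain ⟨_, _, ren, _⟩ := h2 σ D ar Γ (Fin 3 × T) (L ⊕ T)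
  obtain ⟨_, _, _, sm⟩ := h2 σ D ar Γ L T
  exact sm _ _ _ _ (ren _ (fun q : Fin 3 × T => ρ q.1 q.2) hF)

private theorem Restr_prod (h2 : St_RzCl) (Γ : Str ar D) {L ι : Type} (f : ι → (L → D) → ℕ)
    (hf : ∀ i, Rz Γ (f i)) (s : Finset ι) : Rz Γ fun ψ => ∏ i ∈ s, f i ψ := by
  classical
  obtain ⟨one, mul, _, _⟩ := h2 σ D ar Γ L L
  induction s using Finset.induction_on with
  | empty => simpa using one
  | insert i s hi ih =>
    have := mul _ _ (hf i) ih
    simpa only [Finset.prod_insert hi] using this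

private theorem Restr_rzE (h2 : St_RzCl) (Γ : Str ar D) (F : (Fin 3 → T → D) → ℕ)
    (a : Fin 3 → T → D) (hF : Rz Γ fun ψ : Fin 3 × T → D => F fun j t => ψ (j, t)) :
    Rz Γ fun ψ : D ⊕ Fin 3 × T → D =>
      Restr_E F a (fun x => ψ (Sum.inl x)) fun j t => ψ (Sum.inr (j, t)) := by
  obtain ⟨_, _, ren, _⟩ := h2 σ D ar Γ (Fin 3 × T) (D ⊕ Fin 3 × T)
  obtain ⟨one, mul, _, _⟩ := h2 σ D ar Γ (D ⊕ Fin 3 × T) (D ⊕ Fin 3 × T)
  refine mul _ _ (ren _ (fun q : Fin 3 × T => Sum.inr q) hF)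
    (Restr_prod h2 Γ (fun (q : Fin 3 × Fin 3) (ψ : D ⊕ Fin 3 × T → D) =>
      if q.1 = q.2 then 1 else Restr_M F q.1 q.2 (fun t => ψ (Sum.inr (q.1, t)))
        fun t => ψ (Sum.inl (a q.2 t))) ?_ Finset.univ)
  rintro ⟨j, k⟩
  by_cases hjk : j = k
  · simp only [hjk, if_true]
    exact one
  · simp only [if_neg hjk]
    have := Restr_rzM h2 Γ F hF (L := D ⊕ Fin 3 × T) (fun i t => if i = j then
      Sum.inl (Sum.inr (j, t)) else if i = k then Sum.inl (Sum.inl (a k t)) else Sum.inr t)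
    have e : (fun ψ : D ⊕ Fin 3 × T → D => Restr_M F j k (fun t => ψ (Sum.inr (j, t)))
        fun t => ψ (Sum.inl (a k t))) = fun ψ : D ⊕ Fin 3 × T → D => ∑ c : T → D,
          F fun i t => Sum.elim ψ c (if i = j then Sum.inl (Sum.inr (j, t)) else
            if i = k then Sum.inl (Sum.inl (a k t)) else Sum.inr t) := by
      funext ψ
      unfold Restr_M
      refine Finset.sum_congr rfl fun c _ => ?_
      congr 1
      funext i t
      split_ifs <;> rfl
    rw [e]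
    exact this

private theorem Restr_rect (h2 : St_RzCl) (h3 : St_RzBal) (Γ : Str ar D) (hbal : Balanced Γ)
    (F : (Fin 3 → T → D) → ℕ) (hF : Rz Γ fun ψ : Fin 3 × T → D => F fun j t => ψ (j, t))
    {j k : Fin 3} (hjk : j ≠ k) {x x' y y' : T → D} (e1 : Restr_R F j k x y)
    (e2 : Restr_R F j k x' y) (e3 : Restr_R F j k x y') : Restr_R F j k x' y' := by
  have hr := Restr_rzM h2 Γ F hF (L := T ⊕ T) (fun i t => if i = j then
      Sum.inl (Sum.inl t) else if i = k then Sum.inl (Sum.inr t) else Sum.inr t)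
  have hb := h3 σ D ar Γ hbal T T _ hr
  have e : ∀ u v : T → D, (∑ c : T → D, F fun i t => Sum.elim (Sum.elim u v) c (if i = j then
      Sum.inl (Sum.inl t) else if i = k then Sum.inl (Sum.inr t) else Sum.inr t)) =
        Restr_M F j k u v := by
    intro u v
    unfold Restr_M
    refine Finset.sum_congr rfl fun c _ => ?_
    congr 1
    funext i t
    split_ifs <;> rfl
  rw [← Restr_M_ne F hjk] at e1 e2 e3 ⊢
  have hthis := hb x x' y y'
  simp only [e] at hthis
  have := hthis e1 e2 e3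
  intro h0
  rw [h0, mul_zero] at this
  exact mul_ne_zero e3 e2 this.symm

private theorem Restr_blk (h2 : St_RzCl) (h3 : St_RzBal) (Γ : Str ar D) (hbal : Balanced Γ)
    (F : (Fin 3 → T → D) → ℕ) (a : Fin 3 → T → D)
    (hF : Rz Γ fun ψ : Fin 3 × T → D => F fun j t => ψ (j, t)) (ρ : Fin 3 → T → T ⊕ (T ⊕ T)) :
    Blk fun (x : T → D) (p : (T → D) × (T → D)) =>
      Restr_E F a id fun j t => Sum.elim x (Sum.elim p.1 p.2) (ρ j t) := by
  obtain ⟨_, _, ren, _⟩ := h2 σ D ar Γ (D ⊕ Fin 3 × T) ((D ⊕ T) ⊕ (T ⊕ T))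
  have hr := ren _ (fun l => Sum.elim (fun d => Sum.inl (Sum.inl d))
    (fun q : Fin 3 × T => Sum.map Sum.inr id (ρ q.1 q.2)) l) (Restr_rzE h2 Γ F a hF)
  have hb := h3 σ D ar Γ hbal (D ⊕ T) (T ⊕ T) _ hr
  have e : ∀ (x : T → D) (p : (T → D) × (T → D)),
      Restr_E F a (fun d => Sum.elim (Sum.elim id x) (Sum.elim p.1 p.2)
        (Sum.elim (fun d => Sum.inl (Sum.inl d))
          (fun q : Fin 3 × T => Sum.map Sum.inr id (ρ q.1 q.2)) (Sum.inl d)))
        (fun j t => Sum.elim (Sum.elim id x) (Sum.elim p.1 p.2)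
          (Sum.elim (fun d => Sum.inl (Sum.inl d))
          (fun q : Fin 3 × T => Sum.map Sum.inr id (ρ q.1 q.2)) (Sum.inr (j, t)))) =
      Restr_E F a id fun j t => Sum.elim x (Sum.elim p.1 p.2) (ρ j t) := by
    intro x p
    congr 1
    funext j t
    simp only [Sum.elim_inr]
    rcases ρ j t with u | u <;> rfl
  intro s s' w w' c1 c2 c3
  have := hb (Sum.elim id s) (Sum.elim id s') (Sum.elim w.1 w.2) (Sum.elim w'.1 w'.2)
  beta_reduce at this
  rw [e s w, e s' w, e s w', e s' w'] at this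
  exact this c1 c2 c3

private theorem Restr_quad (h2 : St_RzCl) (h3 : St_RzBal) (Γ : Str ar D) (hbal : Balanced Γ)
    (F : (Fin 3 → T → D) → ℕ) (a : Fin 3 → T → D)
    (hF : Rz Γ fun ψ : Fin 3 × T → D => F fun j t => ψ (j, t)) :
    Blk fun p q : (T → D) × (T → D) =>
      ∑ z : T → D, Restr_E F a id ![p.1, q.2, z] * Restr_E F a id ![q.1, p.2, z] := by
  obtain ⟨_, _, ren, _⟩ := h2 σ D ar Γ (D ⊕ Fin 3 × T) (((D ⊕ (T ⊕ T)) ⊕ (T ⊕ T)) ⊕ T)
  obtain ⟨_, mul, _, _⟩ := h2 σ D ar Γ (((D ⊕ (T ⊕ T)) ⊕ (T ⊕ T)) ⊕ T) T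
  obtain ⟨_, _, _, sm⟩ := h2 σ D ar Γ ((D ⊕ (T ⊕ T)) ⊕ (T ⊕ T)) T
  have hr1 := ren _ (fun l => Sum.elim (fun d => Sum.inl (Sum.inl (Sum.inl d)))
    (fun q : Fin 3 × T => (![fun t : T => Sum.inl (Sum.inl (Sum.inr (Sum.inl t))),
      fun t => Sum.inl (Sum.inr (Sum.inr t)), fun t => Sum.inr t] q.1) q.2) l)
    (Restr_rzE h2 Γ F a hF)
  have hr2 := ren _ (fun l => Sum.elim (fun d => Sum.inl (Sum.inl (Sum.inl d)))
    (fun q : Fin 3 × T => (![fun t : T => Sum.inl (Sum.inr (Sum.inl t)),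
      fun t => Sum.inl (Sum.inl (Sum.inr (Sum.inr t))), fun t => Sum.inr t] q.1) q.2) l)
    (Restr_rzE h2 Γ F a hF)
  have hr := sm inferInstance inferInstance inferInstance _ (mul _ _ hr1 hr2)
  have hb := h3 σ D ar Γ hbal (D ⊕ (T ⊕ T)) (T ⊕ T) _ hr
  have g1 : ∀ (p q : (T → D) × (T → D)) (z : T → D),
      (fun (j : Fin 3) (t : T) => Sum.elim (Sum.elim (Sum.elim id (Sum.elim p.1 p.2))
        (Sum.elim q.1 q.2)) z ((![fun t : T => Sum.inl (Sum.inl (Sum.inr (Sum.inl t))),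
      fun t => Sum.inl (Sum.inr (Sum.inr t)), fun t => Sum.inr t] j) t)) = ![p.1, q.2, z] := by
    intro p q z
    funext j
    fin_cases j <;> rfl
  have g2 : ∀ (p q : (T → D) × (T → D)) (z : T → D),
      (fun (j : Fin 3) (t : T) => Sum.elim (Sum.elim (Sum.elim id (Sum.elim p.1 p.2))
        (Sum.elim q.1 q.2)) z ((![fun t : T => Sum.inl (Sum.inr (Sum.inl t)),
      fun t => Sum.inl (Sum.inl (Sum.inr (Sum.inr t))), fun t => Sum.inr t] j) t)) =
        ![q.1, p.2, z] := by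
    intro p q z
    funext j
    fin_cases j <;> rfl
  intro s s' w w' c1 c2 c3
  have := hb (Sum.elim id (Sum.elim s.1 s.2)) (Sum.elim id (Sum.elim s'.1 s'.2))
    (Sum.elim w.1 w.2) (Sum.elim w'.1 w'.2)
  simp only [Sum.elim_inl, Sum.elim_inr, g1, g2] at this
  exact this c1 c2 c3

private theorem Restr_complete (h2 : St_RzCl) (h3 : St_RzBal) (Γ : Str ar D) (hbal : Balanced Γ)
    (F : (Fin 3 → T → D) → ℕ) (a : Fin 3 → T → D)
    (hF : Rz Γ fun ψ : Fin 3 × T → D => F fun j t => ψ (j, t))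
    (hbase : ∀ j k, j ≠ k → Restr_R F j k (a j) (a k)) {j k : Fin 3} (hjk : j ≠ k)
    {x y : T → D} (hx : Restr_Good F a j x) (hy : Restr_Good F a k y) :
    ∃ f, Restr_E F a id f ≠ 0 ∧ f j = x ∧ f k = y := by
  obtain ⟨f, hf, hfj, hfk⟩ := Restr_rect h2 h3 Γ hbal F hF hjk (hbase j k hjk) (hx k hjk)
    (Restr_R_symm (hy j hjk.symm))
  have hgj : Restr_Good F a j (f j) := by rw [hfj]; exact hx
  have hgk : Restr_Good F a k (f k) := by rw [hfk]; exact hy
  have claim : ∀ l i, l ≠ i → Restr_Good F a l (f l) → Restr_R F i l (f i) (a l) := by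
    intro l i hli hl
    exact Restr_R_symm (Restr_rect h2 h3 Γ hbal F hF hli (hl i hli) (hbase l i hli)
      ⟨f, hf, rfl, rfl⟩)
  refine ⟨f, ?_, hfj, hfk⟩
  rw [Restr_E_ne]
  refine ⟨hf, fun i => ?_⟩
  by_cases e1 : i = j
  · rw [e1]
    exact hgj
  · by_cases e2 : i = k
    · rw [e2]
      exact hgk
    · intro l hl
      obtain ⟨i', _, _, hi'⟩ := Restr_third j k hjk
      have hii := hi' i e1 e2
      by_cases e3 : l = j
      · rw [e3]
        exact claim j i (fun h => e1 h.symm) hgj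
      · by_cases e4 : l = k
        · rw [e4]
          exact claim k i (fun h => e2 h.symm) hgk
        · exact absurd ((hi' l e3 e4).trans hii.symm) hl.symm

end

theorem thm_Restr (h1 : St_Fail) (h2 : St_RzCl) (h3 : St_RzBal) : St_Restr := by
  intro σ D ar _ Γ hbal hmaj
  obtain ⟨T, _, _, F, a, hF, ha, hb⟩ := h1 σ D ar Γ hmaj
  refine ⟨T, inferInstance, inferInstance, Restr_E F a, Restr_rzE h2 Γ F a hF, ?_⟩
  have hbase : ∀ j k, j ≠ k → Restr_R F j k (a j) (a k) := by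
    intro j k hjk
    obtain ⟨i, hij, hik, _⟩ := Restr_third j k hjk
    obtain ⟨b, hb'⟩ := hb i
    exact ⟨_, hb', by rw [Function.update_of_ne hij.symm], by rw [Function.update_of_ne hik.symm]⟩
  have hup : ∀ i b, F (Function.update a i b) ≠ 0 →
      Restr_E F a id (Function.update a i b) ≠ 0 := by
    intro i b hib
    rw [Restr_E_ne]
    refine ⟨hib, fun j k hjk => ?_⟩
    by_cases e : j = i
    · subst e
      exact ⟨_, hib, rfl, by rw [Function.update_of_ne hjk.symm]⟩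
    · rw [Function.update_of_ne e]
      exact hbase j k hjk
  have hv : ∀ f : Fin 3 → T → D, ![f 0, f 1, f 2] = f := by
    intro f
    funext j
    fin_cases j <;> rfl
  refine ⟨?_, ?_, ?_, Restr_quad h2 h3 Γ hbal F a hF, ?_, ?_, ?_, ?_⟩
  · have h := Restr_blk h2 h3 Γ hbal F a hF ![Sum.inl, fun t => Sum.inr (Sum.inl t),
      fun t => Sum.inr (Sum.inr t)]
    have e : ∀ (x : T → D) (p : (T → D) × (T → D)), (fun (j : Fin 3) (t : T) =>
        Sum.elim x (Sum.elim p.1 p.2) ((![Sum.inl, fun t => Sum.inr (Sum.inl t),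
      fun t => Sum.inr (Sum.inr t)] : Fin 3 → T → T ⊕ (T ⊕ T)) j t)) = ![x, p.1, p.2] := by
      intro x p
      funext j
      fin_cases j <;> rfl
    simpa only [e] using h
  · have h := Restr_blk h2 h3 Γ hbal F a hF ![fun t => Sum.inr (Sum.inl t), Sum.inl,
      fun t => Sum.inr (Sum.inr t)]
    have e : ∀ (x : T → D) (p : (T → D) × (T → D)), (fun (j : Fin 3) (t : T) =>
        Sum.elim x (Sum.elim p.1 p.2) ((![fun t => Sum.inr (Sum.inl t), Sum.inl,
      fun t => Sum.inr (Sum.inr t)] : Fin 3 → T → T ⊕ (T ⊕ T)) j t)) = ![p.1, x, p.2] := by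
      intro x p
      funext j
      fin_cases j <;> rfl
    simpa only [e] using h
  · have h := Restr_blk h2 h3 Γ hbal F a hF ![fun t => Sum.inr (Sum.inl t),
      fun t => Sum.inr (Sum.inr t), Sum.inl]
    have e : ∀ (x : T → D) (p : (T → D) × (T → D)), (fun (j : Fin 3) (t : T) =>
        Sum.elim x (Sum.elim p.1 p.2) ((![fun t => Sum.inr (Sum.inl t),
      fun t => Sum.inr (Sum.inr t), Sum.inl] : Fin 3 → T → T ⊕ (T ⊕ T)) j t)) =
        ![p.1, p.2, x] := by
      intro x p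
      funext j
      fin_cases j <;> rfl
    simpa only [e] using h
  · intro x y x₁ y₁ z₁ z₂ g1 g2
    rw [Restr_E_ne] at g1 g2
    obtain ⟨f, hf, f0, f1⟩ := Restr_complete h2 h3 Γ hbal F a hF hbase (j := 0) (k := 1)
      (by decide) (g1.2 0) (g2.2 1)
    refine ⟨f 2, ?_⟩
    have e : ![x, y, f 2] = f := by
      rw [← hv f]
      have f0' : f 0 = x := f0
      have f1' : f 1 = y := f1
      rw [f0', f1']
      rfl
    rw [e]
    exact hf
  · intro x z x₁ y₁ z₁ y₂ g1 g2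
    rw [Restr_E_ne] at g1 g2
    obtain ⟨f, hf, f0, f2⟩ := Restr_complete h2 h3 Γ hbal F a hF hbase (j := 0) (k := 2)
      (by decide) (g1.2 0) (g2.2 2)
    refine ⟨f 1, ?_⟩
    have e : ![x, f 1, z] = f := by
      rw [← hv f]
      have f0' : f 0 = x := f0
      have f2' : f 2 = z := f2
      rw [f0', f2']
      rfl
    rw [e]
    exact hf
  · intro y z x₁ y₁ z₁ x₂ g1 g2
    rw [Restr_E_ne] at g1 g2
    obtain ⟨f, hf, f1, f2⟩ := Restr_complete h2 h3 Γ hbal F a hF hbase (j := 1) (k := 2)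
      (by decide) (g1.2 1) (g2.2 2)
    refine ⟨f 0, ?_⟩
    have e : ![f 0, y, z] = f := by
      rw [← hv f]
      have f1' : f 1 = y := f1
      have f2' : f 2 = z := f2
      rw [f1', f2']
      rfl
    rw [e]
    exact hf
  · obtain ⟨b0, hb0⟩ := hb 0
    obtain ⟨b1, hb1⟩ := hb 1
    obtain ⟨b2, hb2⟩ := hb 2
    refine ⟨a 0, a 1, a 2, b0, b1, b2, ?_, ?_, ?_, ?_⟩
    · rw [hv a]
      unfold Restr_E
      rw [ha, zero_mul]
    · have e : ![a 0, a 1, b2] = Function.update a 2 b2 := by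
        rw [← hv (Function.update a 2 b2)]
        rfl
      rw [e]
      exact hup 2 b2 hb2
    · have e : ![a 0, b1, a 2] = Function.update a 1 b1 := by
        rw [← hv (Function.update a 1 b1)]
        rfl
      rw [e]
      exact hup 1 b1 hb1
    · have e : ![b0, a 1, a 2] = Function.update a 0 b0 := by
        rw [← hv (Function.update a 0 b0)]
        rfl
      rw [e]
      exact hup 0 b0 hb0

end Pool.Agent.SYH
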