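import Pool.Agent.SYH.StB

set_option autoImplicit false

namespace Pool.Agent.SYH

theorem thm_RzBal : St_RzBal := by
  intro σ D ar Γ hbal A B _ _ F hF
  obtain ⟨Y, _, X, hX⟩ := hF
  have h : F = exts Γ X := funext hX
  rw [h]
  exact hbal A B Y X

end Pool.Agent.SYH
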