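import Pool.Agent.SYH.FeelsM
import Pool.Agent.SYH.Restr
import Pool.Agent.SYH.Fail
import Pool.Agent.SYH.RzCl
import Pool.Agent.SYH.RzBal
import Pool.Agent.SYH.Cnt
import Pool.Agent.SYH.Abel
import Pool.Agent.SYH.Latin
import Pool.Agent.SYH.Group
import Pool.Agent.SYH.Chi
import Pool.Agent.SYH.Flat

/-!
# Balanced templates without a majority operation feel the charge
-/

set_option autoImplicit false

namespace Pool.Agent.SYH

theorem all_FeelsM : St_FeelsM :=
  thm_FeelsM (thm_Restr thm_Fail thm_RzCl thm_RzBal)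
    (thm_Cnt (thm_Abel thm_Latin thm_Group) thm_Chi thm_Flat)

end Pool.Agent.SYH
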