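import Pool.Agent.SYH.StH

/-!
# A power
-/

set_option autoImplicit false

namespace Pool.Agent.SYH

theorem ArA_exp {t : ℝ} (h0 : 0 ≤ t) (h1 : t ≤ 1) : Real.exp (t / 2) ≤ 1 + t := by
  have h2 : 1 - t / 2 ≤ Real.exp (-(t / 2)) := by
    have := Real.add_one_le_exp (-(t / 2))
    linarith
  have h3 : 0 < 1 - t / 2 := by linarith
  have h4 : Real.exp (t / 2) * (1 - t / 2) ≤ 1 := by
    calc Real.exp (t / 2) * (1 - t / 2) ≤ Real.exp (t / 2) * Real.exp (-(t / 2)) :=
          mul_le_mul_of_nonneg_left h2 (Real.exp_pos _).le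
      _ = 1 := by rw [← Real.exp_add]; simp
  have h5 : 1 ≤ (1 + t) * (1 - t / 2) := by nlinarith
  exact le_of_mul_le_mul_right (h4.trans h5) h3

theorem thm_ArA : St_ArA := by
  intro A B M x hBA hM hx
  rcases Nat.eq_zero_or_pos B with h0 | hB
  · subst h0
    have h1 : M ≠ 0 := by omega
    simp [h1]
  · have hB' : (0 : ℝ) < B := by exact_mod_cast hB
    have h1 : (1 : ℝ) / B ≤ 1 := by
      rw [div_le_one hB']
      exact_mod_cast hB
    have h2 := ArA_exp (by positivity : (0 : ℝ) ≤ 1 / B) h1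
    have h3 : x ≤ M * ((1 : ℝ) / B / 2) := by
      have : M * ((1 : ℝ) / B / 2) = (M / 2) / B := by field_simp
      rw [this, le_div_iff₀ hB', mul_comm]
      exact hx
    have h4 : Real.exp x ≤ (1 + 1 / (B : ℝ)) ^ M := by
      calc Real.exp x ≤ Real.exp (M * ((1 : ℝ) / B / 2)) := Real.exp_le_exp.2 h3
        _ = Real.exp ((1 : ℝ) / B / 2) ^ M := by rw [← Real.exp_nat_mul]
        _ ≤ (1 + 1 / (B : ℝ)) ^ M := pow_le_pow_left₀ (Real.exp_pos _).le h2 M
    have h5 : (B : ℝ) + 1 ≤ A := by exact_mod_cast hBA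
    calc Real.exp x * (B : ℝ) ^ M ≤ (1 + 1 / (B : ℝ)) ^ M * (B : ℝ) ^ M :=
          mul_le_mul_of_nonneg_right h4 (by positivity)
      _ = ((1 + 1 / (B : ℝ)) * B) ^ M := by rw [mul_pow]
      _ = ((B : ℝ) + 1) ^ M := by
        congr 1
        field_simp
      _ ≤ (A : ℝ) ^ M := pow_le_pow_left₀ (by positivity) h5 M

end Pool.Agent.SYH
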