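import Pool.Agent.SYH.StH

/-!
# The constants
-/

set_option autoImplicit false

namespace Pool.Agent.SYH

theorem ArB_pow (d κ k B : ℕ) (hk : 1 ≤ k) (hB : B ≤ d ^ (κ * k)) :
    4 * κ * k * B ≤ 2 ^ ((d * κ + κ + 3) * k) := by
  have h1 : d ^ (κ * k) ≤ 2 ^ (d * κ * k) := by
    have h2 : d ≤ 2 ^ d := Nat.lt_two_pow_self.le
    calc d ^ (κ * k) ≤ (2 ^ d) ^ (κ * k) := Nat.pow_le_pow_left h2 _
      _ = 2 ^ (d * κ * k) := by rw [← pow_mul]; ring_nf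
  have h3 : 4 * κ * k ≤ 2 ^ ((κ + 3) * k) := by
    have h4 : κ ≤ 2 ^ κ := Nat.lt_two_pow_self.le
    have h5 : k ≤ 2 ^ k := Nat.lt_two_pow_self.le
    calc 4 * κ * k ≤ 2 ^ 2 * 2 ^ κ * 2 ^ k := by
          exact Nat.mul_le_mul (Nat.mul_le_mul (by norm_num) h4) h5
      _ = 2 ^ (2 + κ + k) := by rw [pow_add, pow_add]
      _ ≤ 2 ^ ((κ + 3) * k) := Nat.pow_le_pow_right (by norm_num) (by nlinarith)
  calc 4 * κ * k * B ≤ 2 ^ ((κ + 3) * k) * 2 ^ (d * κ * k) :=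
        Nat.mul_le_mul h3 (hB.trans h1)
    _ = 2 ^ ((d * κ + κ + 3) * k) := by rw [← pow_add]; ring_nf

theorem thm_ArB : St_ArB := by
  intro d κ hκ
  refine ⟨d * κ + κ + 3 + 2 * κ, fun K hK n k B hk hn hB => ?_⟩
  have hκk : 0 < κ * k := Nat.mul_pos hκ hk
  have h1 : 2 * (κ * k) ≤ n := by
    calc 2 * (κ * k) = 2 * κ * k := by ring
      _ ≤ K * k := Nat.mul_le_mul_right _ (by omega)
      _ ≤ n := hn
  have h2 : 1 ≤ n / (κ * k) := by
    rw [Nat.le_div_iff_mul_le hκk]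
    omega
  refine ⟨h2, ?_⟩
  set m : ℕ := n / (κ * k) with hm
  have h3 : n < κ * k * (m + 1) := by
    have := Nat.lt_mul_div_succ n hκk
    rw [← hm] at this
    exact this
  have h4 : n ≤ 2 * (κ * k) * m := by
    have : κ * k * (m + 1) ≤ κ * k * (2 * m) := Nat.mul_le_mul_left _ (by omega)
    calc n ≤ κ * k * (m + 1) := h3.le
      _ ≤ κ * k * (2 * m) := this
      _ = 2 * (κ * k) * m := by ring
  have h5 : 4 * κ * k * B ≤ 2 ^ (K * k) :=
    (ArB_pow d κ k B hk hB).trans (Nat.pow_le_pow_right (by norm_num)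
      (Nat.mul_le_mul_right _ (by omega)))
  have h6 : B * n * 2 ≤ m * 2 ^ (K * k) := by
    calc B * n * 2 ≤ B * (2 * (κ * k) * m) * 2 :=
          Nat.mul_le_mul_right _ (Nat.mul_le_mul_left _ h4)
      _ = m * (4 * κ * k * B) := by ring
      _ ≤ m * 2 ^ (K * k) := Nat.mul_le_mul_left _ h5
  have h7 : ((B : ℝ) * n * 2) ≤ m * 2 ^ (K * k) := by exact_mod_cast h6
  have h8 : (0 : ℝ) < 2 ^ (K * k) := by positivity
  rw [← mul_div_assoc, div_le_div_iff₀ h8 (by norm_num)]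
  exact h7

end Pool.Agent.SYH
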