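import Pool.Agent.SYH.Circ

/-!
# Statements: small circuits with many symmetries do not see the charge
-/

set_option autoImplicit false

namespace Pool.Agent.SYH

open Equiv Equiv.Perm

/-! ### Supports -/

/-- a subgroup of small index contains the even permutations fixing few points -/
def St_SupA : Prop :=
  ∀ (α : Type) [Fintype α] [DecidableEq α] (H : Subgroup (Perm α)) (k : ℕ), 1 ≤ k →
    256 * k ≤ Fintype.card α → H.index < (Fintype.card α).choose k →
    ∃ X : Finset α, X.card < k ∧ ∀ e : Perm α, sign e = 1 → (∀ x ∈ X, e x = x) → e ∈ H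

/-- in a small circuit with many symmetries every gate is fixed by the even permutations fixing few
points -/
def St_GSup : Prop :=
  ∀ (σ V G P T : Type) (ar : σ → ℕ) [Fintype V] [DecidableEq V] [Fintype G]
    (C : Circuit (Atom ar V) G P T) (k : ℕ), 1 ≤ k → 256 * k ≤ Fintype.card V →
    Fintype.card G * (Fintype.card V).factorial <
      (Fintype.card V).choose k * Nat.card {ρ : Perm V // IsSymm C ρ} →
    ∀ g, ∃ X : Finset V, X.card < k ∧ ∀ e : Perm V, sign e = 1 → (∀ x ∈ X, e x = x) →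
      ∃ τ, C.IsAut (atomPerm ar e) τ ∧ τ g = g

/-! ### The abstract twisting system -/

/-- A system of twisted structures on `V`: the structures `inp h`, the commuting permutations
`a γ` (`γ : Γ`), the set `B` of base elements, `loc x` is the base element below `x`; `sh e h` is the
structure `h` with its twist changed at the place `e`, and `Big M` is the set of the places far
from `M`. -/
structure Twist {σ : Type} (ar : σ → ℕ) (V B H E Γ : Type) [Fintype V] [DecidableEq V]
    [DecidableEq B] where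
  /-- the permutation of the elements -/
  a : Γ → Perm V
  comm : ∀ γ δ, a γ * a δ = a δ * a γ
  even : ∀ γ, sign (a γ) = 1
  /-- the base element below an element -/
  loc : V → Option B
  /-- the set of the base elements that are moved -/
  supp : Γ → Finset B
  loc_supp : ∀ γ x, a γ x ≠ x → ∃ b ∈ supp γ, loc x = some b
  /-- the twisted structures -/
  inp : H → Str ar V
  /-- the action on the twists -/
  sm : Γ → H → H
  inp_sm : ∀ γ h R u, inp (sm γ h) R (a γ ∘ u) ↔ inp h R u
  /-- the change of the twist at a place -/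
  sh : E → H → H
  /-- the places far from a set of base elements -/
  Big : Finset B → Set E
  /-- the bound for the size of the sets of base elements -/
  q : ℕ
  mono : ∀ M M', M ⊆ M' → Big M' ⊆ Big M
  nonempty : ∀ M, M.card ≤ q → (Big M).Nonempty
  move : ∀ M M', M ⊆ M' → M'.card ≤ q → ∀ e ∈ Big M, ∃ e' ∈ Big M', ∃ γ,
    Disjoint (supp γ) M ∧ ∀ h, sm γ (sh e h) = sh e' h
  atom : ∀ M, ∀ e ∈ Big M, ∀ (R : σ) (u : Fin (ar R) → V) (h : H),
    (∀ γ, Disjoint (supp γ) M → a γ ∘ u = u) → (inp (sh e h) R u ↔ inp h R u)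

/-- a circuit whose gates all have small supports does not see the twist at some place -/
def St_Blind : Prop :=
  ∀ (σ V B H E Γ G P T : Type) (ar : σ → ℕ) [Fintype V] [DecidableEq V] [DecidableEq B]
    (W : Twist ar V B H E Γ) (C : Circuit (Atom ar V) G P T),
    (∀ g, ∃ M : Finset B, 2 * M.card ≤ W.q ∧ ∀ γ, Disjoint (W.supp γ) M →
      ∃ τ, C.IsAut (atomPerm ar (W.a γ)) τ ∧ τ g = g) →
    ∃ e, ∀ (h : H) (v v' : G → T), C.IsRun (holds (W.inp h)) v →
      C.IsRun (holds (W.inp (W.sh e h))) v' → v C.out = v' C.out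

/-- the same for a small circuit with many symmetries; from `St_GSup` and `St_Blind` -/
def St_BlindC : Prop :=
  ∀ (σ V B H E Γ G P T : Type) (ar : σ → ℕ) [Fintype V] [DecidableEq V] [DecidableEq B]
    [Fintype G] (W : Twist ar V B H E Γ) (C : Circuit (Atom ar V) G P T) (k : ℕ), 1 ≤ k →
    256 * k ≤ Fintype.card V → 2 * k ≤ W.q →
    Fintype.card G * (Fintype.card V).factorial <
      (Fintype.card V).choose k * Nat.card {ρ : Perm V // IsSymm C ρ} →
    ∃ e, ∀ (h : H) (v v' : G → T), C.IsRun (holds (W.inp h)) v →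
      C.IsRun (holds (W.inp (W.sh e h))) v' → v C.out = v' C.out

/-! ### The base graph -/

/-- connected cubic base graphs in which a large connected set survives the removal of linearly
many vertices -/
def St_Base : Prop :=
  ∃ r m₀ : ℕ, 1 ≤ r ∧ ∀ m ≥ m₀, ∃ (n : ℕ) (π : Fin 3 → Perm (Fin n))
    (β : Finset (Vx n) → Finset (Vx n)), n ≤ m ∧ m ≤ 2 * n ∧ Conn π ∧
    (∀ M, ∀ C ∈ β M, C ∉ M) ∧
    (∀ M, ∀ C ∈ β M, ∀ C' ∈ β M,
      Relation.ReflTransGen (fun x y => Adj π x y ∧ x ∉ M ∧ y ∉ M) C C') ∧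
    (∀ M M', M ⊆ M' → β M' ⊆ β M) ∧ ∀ M, r * M.card ≤ n → (β M).Nonempty

/-! ### The network as a structure -/

section net
variable {σ : Type} {ar : σ → ℕ} {n p : ℕ} {T D : Type} {Y : Vx n → Type}

/-- The elements of a network: the elements `inl (e, α, t)` of the edges and the internal elements
`inr ⟨C, S, y⟩` of the copies of the gadgets. -/
abbrev El (n p : ℕ) (T : Type) (Y : Vx n → Type) : Type :=
  ((Fin n × Fin 3) × ZMod p × T) ⊕ ((C : Vx n) × (Slot 3 p × Y C))

/-- The place of the elements of the gadget at `C` in its copy `S`; `D` is the set of the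
constants. -/
def emb (π : Fin 3 → Perm (Fin n)) (h : Chg n 3 p) (C : Vx n) (S : Slot 3 p) :
    (D ⊕ Fin 3 × T) ⊕ Y C → D ⊕ El n p T Y
  | Sum.inl (Sum.inl x) => Sum.inl x
  | Sum.inl (Sum.inr jt) => Sum.inr (Sum.inl (edgeAt π C jt.1, S.1 jt.1 + h C jt.1, jt.2))
  | Sum.inr y => Sum.inr (Sum.inr ⟨C, S, y⟩)

/-- The network of the gadgets `X C`, twisted by `h`. -/
def net (π : Fin 3 → Perm (Fin n)) (X : (C : Vx n) → Str ar ((D ⊕ Fin 3 × T) ⊕ Y C))
    (h : Chg n 3 p) : Str ar (D ⊕ El n p T Y) :=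
  fun R u => ∃ C S v, X C R v ∧ u = emb π h C S ∘ v

/-- The full structure: the network twisted by `h.1`, a shadow without relations, a second network
twisted by `h.2` with the same constants, and `t` more elements without relations. -/
abbrev Full (n p : ℕ) (T D : Type) (Y : Vx n → Type) (t : ℕ) : Type :=
  (D ⊕ El n p T Y) ⊕ (El n p T Y ⊕ (El n p T Y ⊕ Fin t))

/-- the place of the elements of the second network -/
def snd {t : ℕ} : D ⊕ El n p T Y → Full n p T D Y t
  | Sum.inl x => Sum.inl (Sum.inl x)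
  | Sum.inr z => Sum.inr (Sum.inr (Sum.inl z))

def full (π : Fin 3 → Perm (Fin n)) (X : (C : Vx n) → Str ar ((D ⊕ Fin 3 × T) ⊕ Y C)) (t : ℕ)
    (h : Chg n 3 p × Chg n 3 p) : Str ar (Full n p T D Y t) :=
  fun R u => (∃ v, net π X h.1 R v ∧ u = Sum.inl ∘ v) ∨ ∃ v, net π X h.2 R v ∧ u = snd ∘ v

/-- The group of the gauge transformations: shifts of the edges and of the slots. -/
abbrev GG (n p : ℕ) : Type := (Fin n × Fin 3 → ZMod p) × (Vx n → Slot 3 p)

/-- the action on the charges -/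
def gsm (π : Fin 3 → Perm (Fin n)) (γ : GG n p) (h : Chg n 3 p) : Chg n 3 p :=
  fun C j => h C j + γ.1 (edgeAt π C j) - (γ.2 C).1 j

/-- the action on the elements -/
def gEl (γ : GG n p) : Perm (El n p T Y) where
  toFun
    | Sum.inl z => Sum.inl (z.1, z.2.1 + γ.1 z.1, z.2.2)
    | Sum.inr z => Sum.inr ⟨z.1, ⟨fun j => z.2.1.1 j + (γ.2 z.1).1 j, by
        rw [Finset.sum_add_distrib, z.2.1.2, (γ.2 z.1).2, add_zero]⟩, z.2.2⟩
  invFun
    | Sum.inl z => Sum.inl (z.1, z.2.1 - γ.1 z.1, z.2.2)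
    | Sum.inr z => Sum.inr ⟨z.1, ⟨fun j => z.2.1.1 j - (γ.2 z.1).1 j, by
        rw [Finset.sum_sub_distrib, z.2.1.2, (γ.2 z.1).2, sub_zero]⟩, z.2.2⟩
  left_inv := by
    rintro (⟨e, α, t⟩ | ⟨C, ⟨S, hS⟩, y⟩) <;> simp
  right_inv := by
    rintro (⟨e, α, t⟩ | ⟨C, ⟨S, hS⟩, y⟩) <;> simp

/-- the action on the full structure: on the first network and on the shadow -/
def gFull {t : ℕ} (γ : GG n p) : Perm (Full n p T D Y t) :=
  Equiv.sumCongr (Equiv.sumCongr (Equiv.refl D) (gEl γ)) (Equiv.sumCongr (gEl γ) (Equiv.refl _))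

/-- the base elements moved by a gauge transformation -/
noncomputable def gsupp [NeZero p] (γ : GG n p) : Finset ((Fin n × Fin 3) ⊕ Vx n) := by
  classical
  exact Finset.univ.filter fun b => Sum.elim (fun e => γ.1 e ≠ 0) (fun C => (γ.2 C).1 ≠ 0) b

/-- the base element below an element of the network -/
def gloc : El n p T Y → (Fin n × Fin 3) ⊕ Vx n
  | Sum.inl z => Sum.inl z.1
  | Sum.inr z => Sum.inr z.1

/-- the change of the charge at a place -/
def gsh (e : Vx n × Fin 3) (h : Chg n 3 p) : Chg n 3 p :=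
  fun C j => h C j + if C = e.1 ∧ j = e.2 then (if C.1 then -1 else 1) else 0

/-- the vertices blocked by a set of base elements: its vertices and the ends of its edges -/
def gblk (π : Fin 3 → Perm (Fin n)) (M : Finset ((Fin n × Fin 3) ⊕ Vx n)) : Finset (Vx n) :=
  Finset.univ.filter fun C => Sum.inr C ∈ M ∨ ∃ j, Sum.inl (edgeAt π C j) ∈ M

end net

/-- the number of homomorphisms of a network is its partition function -/
def St_NetVal : Prop :=
  ∀ (σ T D : Type) (ar : σ → ℕ) (n p : ℕ) [NeZero p] [Fintype T] [DecidableEq T] [Fintype D]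
    (Y : Vx n → Type) [∀ C, Finite (Y C)] (π : Fin 3 → Perm (Fin n)) (Γ : Str ar D)
    (X : (C : Vx n) → Str ar ((D ⊕ Fin 3 × T) ⊕ Y C)) (h : Chg n 3 p) (φ : D → D),
    exts Γ (net π X h) φ =
      ZZ π (fun C (a : Fin 3 → T → D) =>
        exts Γ (X C) (Sum.elim φ fun jt => a jt.1 jt.2)) h

/-- the number of homomorphisms of the full structure -/
def St_Full : Prop :=
  ∀ (σ T D : Type) (ar : σ → ℕ) (n p t : ℕ) [NeZero p] [Fintype T] [Fintype D] [DecidableEq D]
    (Y : Vx n → Type) [∀ C, Fintype (Y C)] (π : Fin 3 → Perm (Fin n)) (Γ : Str ar D)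
    (X : (C : Vx n) → Str ar ((D ⊕ Fin 3 × T) ⊕ Y C)) (h : Chg n 3 p × Chg n 3 p),
    homs Γ (full π X t h) = Fintype.card D ^ (Nat.card (El n p T Y) + t) *
      ∑ φ : D → D, exts Γ (net π X h.1) φ * exts Γ (net π X h.2) φ

/-- the gauge transformations map networks to networks -/
def St_GAct : Prop :=
  ∀ (σ T D : Type) (ar : σ → ℕ) (n p t : ℕ) [NeZero p] (Y : Vx n → Type)
    (π : Fin 3 → Perm (Fin n)) (X : (C : Vx n) → Str ar ((D ⊕ Fin 3 × T) ⊕ Y C)) (γ : GG n p)
    (h : Chg n 3 p × Chg n 3 p) (R : σ) (u : Fin (ar R) → Full n p T D Y t),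
    full π X t (gsm π γ h.1, h.2) R (gFull γ ∘ u) ↔ full π X t h R u

/-- the simple properties of the action -/
def St_GSimple : Prop :=
  ∀ (T D : Type) (n p t : ℕ) [NeZero p] (Y : Vx n → Type) [Fintype (Full n p T D Y t)]
    [DecidableEq (Full n p T D Y t)],
    (∀ γ δ : GG n p, gFull (T := T) (D := D) (Y := Y) (t := t) γ * gFull δ =
      gFull δ * gFull γ) ∧
    (∀ γ : GG n p, sign (gFull (T := T) (D := D) (Y := Y) (t := t) γ) = 1) ∧
    ∀ (γ : GG n p) (z : El n p T Y), gEl γ z ≠ z → gloc z ∈ gsupp γ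

/-- a tuple fixed by the gauge transformations away from `M` does not feel a change of the charge
away from `M` -/
def St_GAtom : Prop :=
  ∀ (σ T D : Type) (ar : σ → ℕ) (n p t : ℕ) [Fact p.Prime] (Y : Vx n → Type)
    (π : Fin 3 → Perm (Fin n)) (X : (C : Vx n) → Str ar ((D ⊕ Fin 3 × T) ⊕ Y C))
    (M : Finset ((Fin n × Fin 3) ⊕ Vx n)) (e : Vx n × Fin 3), e.1 ∉ gblk π M →
    ∀ (R : σ) (u : Fin (ar R) → Full n p T D Y t) (h : Chg n 3 p × Chg n 3 p),
      (∀ γ : GG n p, Disjoint (gsupp γ) M → gFull γ ∘ u = u) →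
      (full π X t (gsh e h.1, h.2) R u ↔ full π X t h R u)

/-- a change of the charge can be moved along unblocked vertices -/
def St_GMove : Prop :=
  ∀ (n p : ℕ) [Fact p.Prime] (π : Fin 3 → Perm (Fin n)) (M : Finset ((Fin n × Fin 3) ⊕ Vx n))
    (e e' : Vx n × Fin 3), e.1 ∉ gblk π M →
    Relation.ReflTransGen (fun x y => Adj π x y ∧ x ∉ gblk π M ∧ y ∉ gblk π M) e.1 e'.1 →
    ∃ γ : GG n p, Disjoint (gsupp γ) M ∧ ∀ h : Chg n 3 p, gsm π γ (gsh e h) = gsh e' h

/-! ### Transport and the final statement -/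

/-- transport of a circuit along a bijection of the elements -/
def St_Trans : Prop :=
  ∀ (σ D V V' G P T : Type) (ar : σ → ℕ) (Γ : Str ar D) (e : V ≃ V')
    (C : Circuit (Atom ar V) G P T), Computes C Γ →
    ∃ C' : Circuit (Atom ar V') G P T, Computes C' Γ ∧
      ∀ ρ : Perm V, IsSymm C' ((e.symm.trans ρ).trans e) ↔ IsSymm C ρ

/-- every circuit has a run on every input -/
def St_Run : Prop :=
  ∀ (ι G P T : Type) (C : Circuit ι G P T) (x : ι → Prop), ∃! v, C.IsRun x v

/-- the hard side -/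
def St_Hard : Prop :=
  ∀ (σ D : Type) (ar : σ → ℕ) [Fintype D] [Nonempty D] (Γ : Str ar D), Feels Γ 3 →
    ∃ (c : ℝ) (n₀ : ℕ), 0 < c ∧ ∀ n ≥ n₀, ∀ (G P T : Type) [Fintype G]
      (C : Circuit (Atom ar (Fin n)) G P T), Computes C Γ →
      (2 : ℝ) ^ (c * n) * Nat.card {ρ : Perm (Fin n) // IsSymm C ρ} ≤
        Fintype.card G * n.factorial

end Pool.Agent.SYH
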