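import Mathlib
import Pool.Agent.SYH.StA
import Pool.Agent.NG.Exp

/-!
# SYM, module Base: connected cubic base graphs with robust large components

`thm_Base : St_Base`, from `Pool.Agent.NG.thm_Exp`.
-/

set_option autoImplicit false

namespace Pool.Agent.SYH

open Finset Equiv

theorem base_mono {α : Type} {r p : α → α → Prop} (h : ∀ x y, r x y → p x y) {x y : α}
    (hxy : Relation.ReflTransGen r x y) : Relation.ReflTransGen p x y :=
  Relation.ReflTransGen.mono h _ _ hxy

section graph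
variable {m : ℕ} (σ : Fin 3 → Perm (Fin m))

/-- the edges -/
def base_E (x y : NG.Vx m) : Prop :=
  ∃ c i, (x = Sum.inl i ∧ y = Sum.inr (σ c i)) ∨ (x = Sum.inr (σ c i) ∧ y = Sum.inl i)

/-- the edges outside of `M` -/
def base_R (M : Finset (NG.Vx m)) (x y : NG.Vx m) : Prop := base_E σ x y ∧ x ∉ M ∧ y ∉ M

theorem base_R_symm (M : Finset (NG.Vx m)) {x y : NG.Vx m} (h : base_R σ M x y) :
    base_R σ M y x := by
  obtain ⟨⟨c, i, h⟩, hx, hy⟩ := h
  exact ⟨⟨c, i, h.elim (fun h => Or.inr ⟨h.2, h.1⟩) fun h => Or.inl ⟨h.2, h.1⟩⟩, hy, hx⟩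

theorem base_rev (M : Finset (NG.Vx m)) {x y : NG.Vx m}
    (h : Relation.ReflTransGen (base_R σ M) x y) : Relation.ReflTransGen (base_R σ M) y x := by
  induction h with
  | refl => exact Relation.ReflTransGen.refl
  | tail _ h ih => exact Relation.ReflTransGen.head (base_R_symm σ M h) ih

/-- the component -/
noncomputable def base_comp (M : Finset (NG.Vx m)) (x : NG.Vx m) : Finset (NG.Vx m) := by
  classical
  exact univ.filter fun y => Relation.ReflTransGen (base_R σ M) x y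

theorem base_mem_comp (M : Finset (NG.Vx m)) (x y : NG.Vx m) :
    y ∈ base_comp σ M x ↔ Relation.ReflTransGen (base_R σ M) x y := by
  classical
  simp [base_comp]

/-- unions of components -/
def base_Cl (M S : Finset (NG.Vx m)) : Prop := ∀ x y, base_R σ M x y → (x ∈ S ↔ y ∈ S)

theorem base_Cl_trans {M S : Finset (NG.Vx m)} (hS : base_Cl σ M S) {x y : NG.Vx m}
    (h : Relation.ReflTransGen (base_R σ M) x y) : x ∈ S ↔ y ∈ S := by
  induction h with
  | refl => exact Iff.rfl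
  | tail _ h ih => exact ih.trans (hS _ _ h)

theorem base_comp_Cl (M : Finset (NG.Vx m)) (x : NG.Vx m) : base_Cl σ M (base_comp σ M x) := by
  intro y z h
  rw [base_mem_comp, base_mem_comp]
  exact ⟨fun h1 => h1.tail h, fun h1 => h1.tail (base_R_symm σ M h)⟩

/-- a large component -/
theorem base_giant (hm : 1 ≤ m) (M : Finset (NG.Vx m))
    (hE : ∀ S, base_Cl σ M S → 2 * m ≤ 3 * S.card → 3 * S.card ≤ 4 * m → False) :
    ∃ K, base_Cl σ M K ∧ 4 * m < 3 * K.card ∧ ∀ x ∈ K, base_comp σ M x = K := by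
  classical
  have hne : (univ.filter fun S : Finset (NG.Vx m) => base_Cl σ M S ∧
      4 * m < 3 * S.card).Nonempty := by
    refine ⟨univ, mem_filter.2 ⟨mem_univ _, fun x y _ => by simp, ?_⟩⟩
    rw [card_univ, Fintype.card_sum, Fintype.card_fin]
    omega
  obtain ⟨K, hK, hmin⟩ := exists_min_image _ Finset.card hne
  rw [mem_filter] at hK
  obtain ⟨-, hK1, hK2⟩ := hK
  refine ⟨K, hK1, hK2, fun x hx => ?_⟩
  have hsub : base_comp σ M x ⊆ K := fun y hy =>
    (base_Cl_trans σ hK1 ((base_mem_comp σ M x y).1 hy)).1 hx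
  by_contra hne'
  have hxc : x ∈ base_comp σ M x := (base_mem_comp σ M x x).2 Relation.ReflTransGen.refl
  have hlt : (base_comp σ M x).card < K.card :=
    card_lt_card (hsub.ssubset_of_ne hne')
  have hD : base_Cl σ M (K \ base_comp σ M x) := by
    intro y z h
    rw [mem_sdiff, mem_sdiff, hK1 y z h, base_comp_Cl σ M x y z h]
  have hcard : (K \ base_comp σ M x).card + (base_comp σ M x).card = K.card :=
    card_sdiff_add_card_eq_card hsub
  have hpos : 0 < (base_comp σ M x).card := card_pos.2 ⟨x, hxc⟩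
  have key : ∀ S, base_Cl σ M S → S.card < K.card → 3 * S.card < 2 * m := by
    intro S hS hlt
    by_contra hcon
    push Not at hcon
    rcases le_or_gt (3 * S.card) (4 * m) with h3 | h3
    · exact hE S hS hcon h3
    · have := hmin S (mem_filter.2 ⟨mem_univ _, hS, h3⟩)
      omega
  have h1 := key _ (base_comp_Cl σ M x) hlt
  have h2 := key _ hD (by omega)
  omega

/-- balanced unions of components force many removed vertices -/
theorem base_cross {r₀ : ℕ}
    (hσ : ∀ S : Finset (NG.Vx m), 2 * m ≤ 3 * S.card → 3 * S.card ≤ 4 * m →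
      ∃ (c : Fin 3) (P : Finset (Fin m)), m ≤ r₀ * P.card ∧
        ∀ i ∈ P, NG.Crossing σ c S i ∧ ∀ d, d ≠ c → σ d i ≠ σ c i)
    (M S : Finset (NG.Vx m)) (hS : base_Cl σ M S) (h1 : 2 * m ≤ 3 * S.card)
    (h2 : 3 * S.card ≤ 4 * m) : m ≤ r₀ * M.card := by
  classical
  obtain ⟨c, P, hP, hc⟩ := hσ S h1 h2
  refine hP.trans (Nat.mul_le_mul_left _ ?_)
  let f : Fin m → NG.Vx m := fun i =>
    if Sum.inl i ∈ M then Sum.inl i else Sum.inr (σ c i)
  have hf : ∀ i ∈ P, f i ∈ M := by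
    intro i hi
    have h3 : Sum.inl i ∈ M ∨ Sum.inr (σ c i) ∈ M := by
      by_contra hcon
      push Not at hcon
      exact (hc i hi).1 (hS _ _ ⟨⟨c, i, Or.inl ⟨rfl, rfl⟩⟩, hcon.1, hcon.2⟩)
    by_cases h4 : Sum.inl i ∈ M
    · simp only [f, if_pos h4]; exact h4
    · simp only [f, if_neg h4]; exact h3.resolve_left h4
  refine card_le_card_of_injOn f (fun i hi => hf i hi) ?_
  intro i _ j _ hij
  simp only [f] at hij
  split_ifs at hij with h3 h4 h4
  · exact Sum.inl.inj hij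
  · exact (σ c).injective (Sum.inr.inj hij)

/-- two large sets meet -/
theorem base_meet {A B : Finset (NG.Vx m)} (hA : 4 * m < 3 * A.card) (hB : 4 * m < 3 * B.card) :
    ∃ z, z ∈ A ∧ z ∈ B := by
  classical
  have h1 := card_union_add_card_inter A B
  have h2 : (A ∪ B).card ≤ 2 * m := by
    refine (card_le_univ _).trans ?_
    rw [Fintype.card_sum, Fintype.card_fin]
    omega
  have h3 : 0 < (A ∩ B).card := by omega
  obtain ⟨z, hz⟩ := card_pos.1 h3
  exact ⟨z, (mem_inter.1 hz).1, (mem_inter.1 hz).2⟩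

end graph

/-- Base. -/
theorem thm_Base : St_Base := by
  classical
  obtain ⟨r₀, m₁, hExp⟩ := NG.thm_Exp
  refine ⟨2 * r₀ + 2, m₁ + 1, by omega, fun m hm => ?_⟩
  obtain ⟨σ, hσ⟩ := hExp m (by omega)
  have hm1 : 1 ≤ m := by omega
  have giant : ∀ M : Finset (NG.Vx m), (2 * r₀ + 2) * M.card ≤ m →
      ∃ K, base_Cl σ M K ∧ 4 * m < 3 * K.card ∧ ∀ x ∈ K, base_comp σ M x = K := by
    intro M hM
    refine base_giant σ hm1 M fun S hS h1 h2 => ?_
    have h3 := base_cross σ hσ M S hS h1 h2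
    have h4 : (2 * r₀ + 2) * M.card = r₀ * M.card + (r₀ * M.card + 2 * M.card) := by ring
    have h5 : 0 < M.card := by
      by_contra h6
      have h7 : M.card = 0 := by omega
      rw [h7, mul_zero] at h3
      omega
    omega
  obtain ⟨K, hK1, hK2, hK3⟩ := giant ∅ (by simp)
  have hKe : ∀ x y, base_E σ x y → (x ∈ K ↔ y ∈ K) := fun x y h =>
    hK1 x y ⟨h, by simp, by simp⟩
  -- the two sides
  let L : Finset (Fin m) := univ.filter fun i => (Sum.inl i : NG.Vx m) ∈ K
  let Q : Finset (Fin m) := univ.filter fun i => (Sum.inr i : NG.Vx m) ∈ K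
  have hL : ∀ i, i ∈ L ↔ (Sum.inl i : NG.Vx m) ∈ K := fun i => by simp [L]
  have hQ : ∀ i, i ∈ Q ↔ (Sum.inr i : NG.Vx m) ∈ K := fun i => by simp [Q]
  have hLQ : ∀ c i, i ∈ L ↔ σ c i ∈ Q := fun c i => by
    rw [hL, hQ]
    exact hKe _ _ ⟨c, i, Or.inl ⟨rfl, rfl⟩⟩
  have hcard : Q.card = L.card := by
    symm
    refine card_bij (fun i _ => σ 0 i) (fun i hi => (hLQ 0 i).1 hi)
      (fun i _ j _ h => (σ 0).injective h) fun j hj => ?_
    exact ⟨(σ 0).symm j, (hLQ 0 _).2 (by simpa using hj), by simp⟩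
  have hKcard : K.card = L.card + Q.card := by
    rw [← card_disjSum]
    congr 1
    ext x
    rcases x with i | i
    · simp [hL]
    · simp [hQ]
  have hn1 : L.card ≤ m := by
    have := card_le_univ L
    rwa [Fintype.card_fin] at this
  let eL : L ≃ Fin L.card := L.equivFin
  let eQ : Q ≃ Fin L.card := Q.equivFinOfCardEq hcard
  let τ : Fin 3 → (L ≃ Q) := fun c => (σ c).subtypeEquiv fun i => hLQ c i
  let π : Fin 3 → Perm (Fin L.card) := fun c => eL.symm.trans ((τ c).trans eQ)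
  let φ : Vx L.card → NG.Vx m := fun C =>
    if C.1 then Sum.inr (eQ.symm C.2).1 else Sum.inl (eL.symm C.2).1
  have φf : ∀ i, φ (false, i) = Sum.inl (eL.symm i).1 := fun i => rfl
  have φt : ∀ i, φ (true, i) = Sum.inr (eQ.symm i).1 := fun i => rfl
  have φinj : Function.Injective φ := by
    rintro ⟨a, i⟩ ⟨b, j⟩ h
    cases a <;> cases b
    · rw [φf, φf] at h
      rw [eL.symm.injective (Subtype.ext (Sum.inl.inj h))]
    · rw [φf, φt] at h
      exact absurd h (by simp)
    · rw [φf, φt] at h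
      exact absurd h (by simp)
    · rw [φt, φt] at h
      rw [eQ.symm.injective (Subtype.ext (Sum.inr.inj h))]
  have φK : ∀ C, φ C ∈ K := by
    rintro ⟨a, i⟩
    cases a
    · rw [φf]
      exact (hL _).1 (eL.symm i).2
    · rw [φt]
      exact (hQ _).1 (eQ.symm i).2
  have φsurj : ∀ x ∈ K, ∃ C, φ C = x := by
    rintro (i | i) hx
    · refine ⟨(false, eL ⟨i, (hL i).2 hx⟩), ?_⟩
      rw [φf, Equiv.symm_apply_apply]
    · refine ⟨(true, eQ ⟨i, (hQ i).2 hx⟩), ?_⟩
      rw [φt, Equiv.symm_apply_apply]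
  have hedge : ∀ c (a b : Fin L.card), σ c (eL.symm a).1 = (eQ.symm b).1 →
      edgeAt π (false, a) c = edgeAt π (true, b) c := by
    intro c a b h
    have h1 : π c a = b := by
      change eQ (τ c (eL.symm a)) = b
      rw [← Equiv.eq_symm_apply]
      exact Subtype.ext h
    change (a, c) = ((π c).symm b, c)
    rw [← h1, Equiv.symm_apply_apply]
  have φadj : ∀ C C', base_E σ (φ C) (φ C') → Adj π C C' := by
    rintro ⟨a, i⟩ ⟨b, j⟩ ⟨c, k, h⟩
    rcases h with ⟨h1, h2⟩ | ⟨h1, h2⟩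
    · cases a
      · cases b
        · rw [φf] at h2
          exact absurd h2 (by simp)
        · rw [φf] at h1
          rw [φt] at h2
          refine ⟨c, hedge c i j ?_⟩
          rw [Sum.inl.inj h1, Sum.inr.inj h2]
      · rw [φt] at h1
        exact absurd h1 (by simp)
    · cases a
      · rw [φf] at h1
        exact absurd h1 (by simp)
      · cases b
        · rw [φt] at h1
          rw [φf] at h2
          refine ⟨c, (hedge c j i ?_).symm⟩
          rw [Sum.inl.inj h2, Sum.inr.inj h1]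
        · rw [φt] at h2
          exact absurd h2 (by simp)
  -- pulling back paths
  have pull : ∀ (M : Finset (Vx L.card)) (C : Vx L.card) (y : NG.Vx m),
      Relation.ReflTransGen (base_R σ (M.map ⟨φ, φinj⟩)) (φ C) y →
      ∃ C', φ C' = y ∧
        Relation.ReflTransGen (fun x y => Adj π x y ∧ x ∉ M ∧ y ∉ M) C C' := by
    intro M C y h
    induction h with
    | refl => exact ⟨C, rfl, Relation.ReflTransGen.refl⟩
    | tail _ h ih =>
      obtain ⟨C', rfl, h2⟩ := ih
      obtain ⟨C'', rfl⟩ := φsurj _ ((hKe _ _ h.1).1 (φK C'))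
      refine ⟨C'', rfl, h2.tail ⟨φadj _ _ h.1, fun h3 => h.2.1 ?_, fun h3 => h.2.2 ?_⟩⟩
      · exact mem_map.2 ⟨C', h3, rfl⟩
      · exact mem_map.2 ⟨C'', h3, rfl⟩
  let β : Finset (Vx L.card) → Finset (Vx L.card) := fun M => univ.filter fun C =>
    C ∉ M ∧ 4 * m < 3 * (base_comp σ (M.map ⟨φ, φinj⟩) (φ C)).card
  have hβ : ∀ M C, C ∈ β M ↔
      C ∉ M ∧ 4 * m < 3 * (base_comp σ (M.map ⟨φ, φinj⟩) (φ C)).card := fun M C => by
    simp [β]
  have hconn : ∀ M, ∀ C ∈ β M, ∀ C' ∈ β M,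
      Relation.ReflTransGen (fun x y => Adj π x y ∧ x ∉ M ∧ y ∉ M) C C' := by
    intro M C hC C' hC'
    obtain ⟨z, hz1, hz2⟩ := base_meet ((hβ M C).1 hC).2 ((hβ M C').1 hC').2
    rw [base_mem_comp] at hz1 hz2
    have h1 := hz1.trans (base_rev σ _ hz2)
    obtain ⟨C'', h2, h3⟩ := pull M C _ h1
    rwa [φinj h2] at h3
  refine ⟨L.card, π, β, hn1, by omega, fun C C' => ?_, fun M C hC => ((hβ M C).1 hC).1, hconn,
    fun M M' hMM C hC => ?_, fun M hM => ?_⟩
  · have h1 : ∀ C, C ∈ β ∅ := by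
      intro C
      rw [hβ, map_empty, hK3 _ (φK C)]
      exact ⟨notMem_empty _, hK2⟩
    exact base_mono (fun x y h => h.1) (hconn ∅ C (h1 C) C' (h1 C'))
  · rw [hβ] at hC ⊢
    refine ⟨fun h => hC.1 (hMM h), hC.2.trans_le (Nat.mul_le_mul_left _ (card_le_card ?_))⟩
    intro y hy
    rw [base_mem_comp] at hy ⊢
    exact base_mono (fun x y h => ⟨h.1,
      fun h2 => h.2.1 (map_subset_map.2 hMM h2), fun h2 => h.2.2 (map_subset_map.2 hMM h2)⟩) hy
  · have hMc : (M.map ⟨φ, φinj⟩).card = M.card := card_map _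
    obtain ⟨K', h1, h2, h3⟩ := giant (M.map ⟨φ, φinj⟩) (by rw [hMc]; omega)
    have h4 : (M.map ⟨φ, φinj⟩).card < K'.card := by
      rw [hMc]
      have h5 : 2 * M.card ≤ (2 * r₀ + 2) * M.card := Nat.mul_le_mul_right _ (by omega)
      omega
    obtain ⟨x, hx1, hx2⟩ := exists_mem_notMem_of_card_lt_card h4
    have h5 : K' ⊆ base_comp σ ∅ x := by
      rw [← h3 x hx1]
      intro y hy
      rw [base_mem_comp] at hy ⊢
      exact base_mono (fun x y h => ⟨h.1, by simp, by simp⟩) hy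
    have h6 : 4 * m < 3 * (base_comp σ ∅ x).card :=
      h2.trans_le (Nat.mul_le_mul_left _ (card_le_card h5))
    obtain ⟨z, hz1, hz2⟩ := base_meet hK2 h6
    rw [base_mem_comp] at hz2
    obtain ⟨C, rfl⟩ := φsurj x ((base_Cl_trans σ hK1 hz2).2 hz1)
    refine ⟨C, (hβ M C).2 ⟨fun h7 => hx2 (mem_map.2 ⟨C, h7, rfl⟩), ?_⟩⟩
    rw [h3 _ hx1]
    exact h2

end Pool.Agent.SYH
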