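import Pool.Agent.SYH.StA

/-!
# Circuits with small supports do not see the twist
-/

set_option autoImplicit false

namespace Pool.Agent.SYH

open Equiv Equiv.Perm

/-! ### Automorphisms -/

theorem Blind_ai {α : Type} (τ : Perm α) (x : α) : τ (τ⁻¹ x) = x := τ.apply_symm_apply x

theorem Blind_ia {α : Type} (τ : Perm α) (x : α) : τ⁻¹ (τ x) = x := τ.symm_apply_apply x

section aut
variable {ι G P T : Type} {C : Circuit ι G P T}

theorem Blind_mul {e e' : Perm ι} {τ τ' : Perm G} (h : C.IsAut e τ) (h' : C.IsAut e' τ') :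
    C.IsAut (e * e') (τ * τ') := by
  refine ⟨?_, fun g => ?_, fun g => ?_, fun g p k => ?_⟩
  · rw [Perm.mul_apply, h'.1, h.1]
  · rw [Perm.mul_apply, h.2.1, h'.2.1, Option.map_map]
    rfl
  · rw [Perm.mul_apply, h.2.2.1, h'.2.2.1]
  · rw [Perm.mul_apply, Perm.mul_apply, h.2.2.2, h'.2.2.2]

theorem Blind_inv {e : Perm ι} {τ : Perm G} (h : C.IsAut e τ) : C.IsAut e⁻¹ τ⁻¹ := by
  refine ⟨?_, fun g => ?_, fun g => ?_, fun g p k => ?_⟩
  · rw [Perm.inv_eq_iff_eq, h.1]
  · have h1 := h.2.1 (τ⁻¹ g)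
    rw [Blind_ai] at h1
    rw [h1, Option.map_map]
    have h2 : (⇑e⁻¹ ∘ ⇑e) = id := by
      funext x
      exact Blind_ia e x
    rw [h2, Option.map_id]
    rfl
  · have h1 := h.2.2.1 (τ⁻¹ g)
    rw [Blind_ai] at h1
    exact h1.symm
  · have h1 := h.2.2.2 (τ⁻¹ g) p (τ⁻¹ k)
    rw [Blind_ai, Blind_ai] at h1
    exact h1.symm

theorem Blind_wires {e : Perm ι} {τ : Perm G} (h : C.IsAut e τ) (g : G) :
    (C.wires (τ g)).val = (C.wires g).val.map fun w => (w.1, τ w.2) := by
  have h1 : C.wires (τ g) = (C.wires g).map ⟨fun w => (w.1, τ w.2), fun w w' hw => by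
      have h2 := congrArg Prod.fst hw
      have h3 := τ.injective (congrArg Prod.snd hw)
      exact Prod.ext h2 h3⟩ := by
    ext ⟨p, k⟩
    rw [Finset.mem_map]
    constructor
    · intro hk
      refine ⟨(p, τ.symm k), ?_, ?_⟩
      · rw [← h.2.2.2, τ.apply_symm_apply]
        exact hk
      · show (p, τ (τ.symm k)) = (p, k)
        rw [τ.apply_symm_apply]
    · rintro ⟨⟨p', k'⟩, hk', heq⟩
      have h2 : (p', τ k') = (p, k) := heq
      rw [← h2, h.2.2.2]
      exact hk'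
  rw [h1]
  rfl

theorem Blind_run {e : Perm ι} {τ : Perm G} (h : C.IsAut e τ) {x : ι → Prop} {v : G → T}
    (hv : C.IsRun x v) : C.IsRun (fun a => x (e.symm a)) fun g => v (τ.symm g) := by
  intro g
  obtain ⟨g', rfl⟩ := τ.surjective g
  show v (τ.symm (τ g')) = C.fn (τ g') (∃ a ∈ C.atom (τ g'), x (e.symm a))
    ((C.wires (τ g')).val.map fun w => (w.1, v (τ.symm w.2)))
  rw [τ.symm_apply_apply, hv g', h.2.2.1, h.2.1, Blind_wires h, Multiset.map_map]
  have h1 : (∃ a ∈ (C.atom g').map e, x (e.symm a)) = ∃ a ∈ C.atom g', x a := by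
    apply propext
    constructor
    · rintro ⟨a, ha, hx⟩
      obtain ⟨b, hb, rfl⟩ := Option.mem_map.1 ha
      rw [e.symm_apply_apply] at hx
      exact ⟨b, hb, hx⟩
    · rintro ⟨a, ha, hx⟩
      refine ⟨e a, Option.mem_map.2 ⟨a, ha, rfl⟩, ?_⟩
      rw [e.symm_apply_apply]
      exact hx
  have h2 : ((fun w : P × G => (w.1, v (τ.symm w.2))) ∘ fun w : P × G => (w.1, τ w.2)) =
      fun w => (w.1, v w.2) := by
    funext w
    show (w.1, v (τ.symm (τ w.2))) = _
    rw [τ.symm_apply_apply]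
  rw [h1, h2]

end aut

theorem Blind_multiset {α : Type} (s : Finset α) (f : α → α) (h1 : ∀ a ∈ s, f a ∈ s)
    (h2 : Set.InjOn f s) : s.val.map f = s.val := by
  classical
  have h3 : s.image f = s := by
    apply Finset.eq_of_subset_of_card_le
    · intro b hb
      obtain ⟨a, ha, rfl⟩ := Finset.mem_image.1 hb
      exact h1 a ha
    · rw [Finset.card_image_of_injOn h2]
  have h4 := Finset.image_val_of_injOn h2
  rw [h3] at h4
  exact h4.symm

section atoms
variable {σ V : Type} {ar : σ → ℕ}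

theorem Blind_atom_mul (ρ ρ' : Perm V) :
    atomPerm ar (ρ * ρ') = atomPerm ar ρ * atomPerm ar ρ' :=
  Equiv.ext fun _ => rfl

theorem Blind_atom_inv (ρ : Perm V) : atomPerm ar ρ⁻¹ = (atomPerm ar ρ)⁻¹ :=
  Equiv.ext fun _ => rfl

end atoms

section claim
variable {σ V B H E Γ G P T : Type} {ar : σ → ℕ} [Fintype V] [DecidableEq V] [DecidableEq B]

/-- `M` is a support of the gate `g`. -/
def BlindSupp (W : Twist ar V B H E Γ) (C : Circuit (Atom ar V) G P T) (g : G) (M : Finset B) :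
    Prop :=
  2 * M.card ≤ W.q ∧ ∀ γ, Disjoint (W.supp γ) M →
    ∃ τ, C.IsAut (atomPerm ar (W.a γ)) τ ∧ τ g = g

theorem Blind_supp_of {W : Twist ar V B H E Γ} {C : Circuit (Atom ar V) G P T} {ρ : Perm V}
    (hρ : ∀ γ, ρ * W.a γ = W.a γ * ρ) {τ : Perm G} (hτ : C.IsAut (atomPerm ar ρ) τ) {g : G}
    {M : Finset B} (h : BlindSupp W C g M) : BlindSupp W C (τ g) M := by
  refine ⟨h.1, fun γ hγ => ?_⟩
  obtain ⟨τ', h1, h2⟩ := h.2 γ hγ
  refine ⟨τ * τ' * τ⁻¹, ?_, ?_⟩
  · have h3 := Blind_mul (Blind_mul hτ h1) (Blind_inv hτ)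
    rw [← Blind_atom_inv, ← Blind_atom_mul, ← Blind_atom_mul, hρ γ, mul_inv_cancel_right] at h3
    exact h3
  · rw [Perm.mul_apply, Blind_ia, Perm.mul_apply, h2]

theorem Blind_supp_iff {W : Twist ar V B H E Γ} {C : Circuit (Atom ar V) G P T} {γ₀ : Γ}
    {τ : Perm G} (hτ : C.IsAut (atomPerm ar (W.a γ₀)) τ) (g : G) (M : Finset B) :
    BlindSupp W C (τ g) M ↔ BlindSupp W C g M := by
  refine ⟨fun h => ?_, fun h => Blind_supp_of (fun γ => W.comm γ₀ γ) hτ h⟩
  have h1 : C.IsAut (atomPerm ar (W.a γ₀)⁻¹) τ⁻¹ := by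
    rw [Blind_atom_inv]
    exact Blind_inv hτ
  have h2 := Blind_supp_of (W := W) (ρ := (W.a γ₀)⁻¹) (fun γ => by
    rw [inv_mul_eq_iff_eq_mul, ← mul_assoc, W.comm γ₀ γ, mul_assoc, mul_inv_cancel, mul_one])
    h1 h
  rwa [Blind_ia] at h2

theorem Blind_set_eq {W : Twist ar V B H E Γ} {C : Circuit (Atom ar V) G P T} {γ₀ : Γ}
    {τ : Perm G} (hτ : C.IsAut (atomPerm ar (W.a γ₀)) τ) (g : G) :
    {M | BlindSupp W C (τ g) M} = {M | BlindSupp W C g M} :=
  Set.ext fun M => Blind_supp_iff hτ g M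

theorem Blind_claim (W : Twist ar V B H E Γ) (C : Circuit (Atom ar V) G P T)
    (hS : ∀ g, ∃ M, BlindSupp W C g M) : ∀ (n : ℕ) (g : G), C.level g < n →
    ∀ M, BlindSupp W C g M → ∀ e ∈ W.Big M, ∀ (h : H) (v v' : G → T),
      C.IsRun (holds (W.inp h)) v → C.IsRun (holds (W.inp (W.sh e h))) v' → v g = v' g := by
  intro n
  induction n with
  | zero => intro g hg; exact absurd hg (Nat.not_lt_zero _)
  | succ n ih =>
    intro g hg M hM e he h v v' hv hv'
    classical
    -- the choices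
    have hpick : ∀ s : Set (Finset B), ∃ N : Finset B, s.Nonempty → N ∈ s := by
      intro s
      by_cases hs : s.Nonempty
      · exact ⟨hs.choose, fun _ => hs.choose_spec⟩
      · exact ⟨∅, fun h => absurd h hs⟩
    choose pick hpick using hpick
    have hmove : ∀ s : Set (Finset B), ∃ (e' : E) (γ : Γ) (τ : Perm G),
        2 * (pick s).card ≤ W.q → e' ∈ W.Big (pick s) ∧
          (∀ h, W.sm γ (W.sh e h) = W.sh e' h) ∧ C.IsAut (atomPerm ar (W.a γ)) τ ∧ τ g = g := by
      intro s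
      by_cases hs : 2 * (pick s).card ≤ W.q
      · have hc : (M ∪ pick s).card ≤ W.q := by
          have h1 := Finset.card_union_le M (pick s)
          have h2 := hM.1
          omega
        obtain ⟨e', he', γ, hγ, hsm⟩ := W.move M (M ∪ pick s) Finset.subset_union_left hc e he
        obtain ⟨τ, hτ, hτg⟩ := hM.2 γ hγ
        exact ⟨e', γ, τ, fun _ => ⟨W.mono _ _ Finset.subset_union_right he', hsm, hτ, hτg⟩⟩
      · obtain ⟨e', he', γ, hγ, hsm⟩ := W.move M M (Finset.Subset.refl _)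
          (by have := hM.1; omega) e he
        exact ⟨e', γ, 1, fun h => absurd h hs⟩
    choose e' γ τ hmove using hmove
    -- the support set of a gate, and the properties of the choices for it
    let S : G → Set (Finset B) := fun c => {N | BlindSupp W C c N}
    have hSc : ∀ c, BlindSupp W C c (pick (S c)) := fun c => hpick (S c) (hS c)
    have hmv : ∀ c, e' (S c) ∈ W.Big (pick (S c)) ∧
        (∀ h, W.sm (γ (S c)) (W.sh e h) = W.sh (e' (S c)) h) ∧
        C.IsAut (atomPerm ar (W.a (γ (S c)))) (τ (S c)) ∧ τ (S c) g = g :=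
      fun c => hmove (S c) (hSc c).1
    have hSτ : ∀ c, S (τ (S c) c) = S c := fun c => Blind_set_eq (hmv c).2.2.1 c
    have hSτ' : ∀ c, S ((τ (S c)).symm c) = S c := by
      intro c
      have h1 := Blind_set_eq (W := W) (hmv c).2.2.1 ((τ (S c)).symm c)
      rw [(τ (S c)).apply_symm_apply] at h1
      exact h1.symm
    -- the atoms
    have hat : (∃ a ∈ C.atom g, holds (W.inp h) a) =
        ∃ a ∈ C.atom g, holds (W.inp (W.sh e h)) a := by
      apply propext
      have h1 : ∀ a ∈ C.atom g, (holds (W.inp (W.sh e h)) a ↔ holds (W.inp h) a) := by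
        rintro ⟨R, u⟩ ha
        refine W.atom M e he R u h fun δ hδ => ?_
        obtain ⟨t, ht, htg⟩ := hM.2 δ hδ
        have h2 := ht.2.1 g
        rw [htg, Option.mem_def.1 ha, Option.map_some, Option.some_inj] at h2
        have h3 : (⟨R, u⟩ : Atom ar V) = ⟨R, W.a δ ∘ u⟩ := h2
        exact (eq_of_heq (Sigma.mk.inj h3).2).symm
      constructor
      · rintro ⟨a, ha, hx⟩
        exact ⟨a, ha, (h1 a ha).2 hx⟩
      · rintro ⟨a, ha, hx⟩
        exact ⟨a, ha, (h1 a ha).1 hx⟩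
    -- the children
    have hch : ∀ c, C.level c < n → v c = v' ((τ (S c)).symm c) := by
      intro c hc
      obtain ⟨h1, h2, h3, -⟩ := hmv c
      have h4 := Blind_run h3 hv'
      have h5 : (fun a => holds (W.inp (W.sh e h)) ((atomPerm ar (W.a (γ (S c)))).symm a)) =
          holds (W.inp (W.sh (e' (S c)) h)) := by
        funext a
        obtain ⟨⟨R, u⟩, rfl⟩ := (atomPerm ar (W.a (γ (S c)))).surjective a
        rw [Equiv.symm_apply_apply, ← h2 h]
        exact (propext (W.inp_sm (γ (S c)) (W.sh e h) R u)).symm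
      rw [h5] at h4
      exact ih c hc _ (hSc c) _ h1 h v _ hv h4
    rw [hv g, hv' g, hat]
    congr 1
    have hf1 : ∀ w ∈ C.wires g, (w.1, (τ (S w.2)).symm w.2) ∈ C.wires g := by
      rintro ⟨p, c⟩ hw
      obtain ⟨-, -, h3, h4⟩ := hmv c
      have h5 := h3.2.2.2 g p ((τ (S c)).symm c)
      rw [h4, (τ (S c)).apply_symm_apply] at h5
      exact h5.1 hw
    have hf2 : Set.InjOn (fun w : P × G => (w.1, (τ (S w.2)).symm w.2)) (C.wires g) := by
      rintro ⟨p, c⟩ - ⟨p', c'⟩ - heq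
      have h1 : p = p' := congrArg Prod.fst heq
      have h2 : (τ (S c)).symm c = (τ (S c')).symm c' := congrArg Prod.snd heq
      have h3 : S c = S c' := by rw [← hSτ' c, h2, hSτ' c']
      rw [h3] at h2
      rw [h1, (τ (S c')).symm.injective h2]
    have h6 := Blind_multiset (C.wires g) _ hf1 hf2
    conv_rhs => rw [← h6]
    rw [Multiset.map_map]
    refine Multiset.map_congr rfl fun w hw => ?_
    have h7 := C.level_lt g w.1 w.2 hw
    show (w.1, v w.2) = (w.1, v' ((τ (S w.2)).symm w.2))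
    rw [hch w.2 (by omega)]

end claim

theorem thm_Blind : St_Blind := by
  intro σ V B H E Γ G P T ar _ _ _ W C hC
  obtain ⟨M, hM⟩ := hC C.out
  obtain ⟨e, he⟩ := W.nonempty M (by have := hM.1; omega)
  exact ⟨e, fun h v v' hv hv' => Blind_claim W C hC _ C.out (Nat.lt_succ_self _) M hM e he h v v'
    hv hv'⟩

end Pool.Agent.SYH
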