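import Pool.Agent.SYH.StA

/-!
# Small circuits with many symmetries do not see the twist at some place
-/

set_option autoImplicit false

namespace Pool.Agent.SYH

open Equiv Equiv.Perm

theorem thm_BlindC (hG : St_GSup) (hB : St_Blind) : St_BlindC := by
  classical
  intro σ V B H E Γ G P T ar _ _ _ _ W C k hk1 hk2 hk3 hcard
  refine hB σ V B H E Γ G P T ar W C fun g => ?_
  obtain ⟨X, hX, hfix⟩ := hG σ V G P T ar C k hk1 hk2 hcard g
  refine ⟨X.biUnion fun x => (W.loc x).toFinset, ?_, fun γ hγ => hfix _ (W.even γ) ?_⟩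
  · have h1 : (X.biUnion fun x => (W.loc x).toFinset).card ≤ X.card * 1 :=
      Finset.card_biUnion_le_card_mul _ _ _ fun x _ => by
        rcases W.loc x with _ | b <;> simp
    omega
  · intro x hx
    by_contra hne
    obtain ⟨b, hb, hloc⟩ := W.loc_supp γ x hne
    refine Finset.disjoint_left.1 hγ hb ?_
    rw [Finset.mem_biUnion]
    exact ⟨x, hx, by rw [hloc]; simp⟩

end Pool.Agent.SYH
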