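import Pool.Agent.SYH.Defs

/-!
# Statements: closure of the counting functions, and the case of a template that is not balanced
-/

set_option autoImplicit false

namespace Pool.Agent.SYH

open Matrix

/-! ### Counting functions -/

/-- the constant one, products, renaming of the labels, and sums over some labels -/
def St_RzCl : Prop :=
  ∀ (σ D : Type) (ar : σ → ℕ) (Γ : Str ar D) (A B : Type),
    Rz Γ (fun _ : A → D => 1) ∧
    (∀ F G : (A → D) → ℕ, Rz Γ F → Rz Γ G → Rz Γ fun φ => F φ * G φ) ∧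
    (∀ (F : (A → D) → ℕ) (a : A → B), Rz Γ F → Rz Γ fun ψ : B → D => F fun x => ψ (a x)) ∧
    (∀ (_ : Fintype D) (_ : Fintype B) (_ : DecidableEq B) (F : (A ⊕ B → D) → ℕ), Rz Γ F →
      Rz Γ fun φ : A → D => ∑ ψ : B → D, F (Sum.elim φ ψ))

/-- finite products and powers -/
def St_RzProd : Prop :=
  ∀ (σ D : Type) (ar : σ → ℕ) (Γ : Str ar D) (A : Type),
    (∀ (J : Type) (_ : Fintype J) (F : J → (A → D) → ℕ), (∀ j, Rz Γ (F j)) →
      Rz Γ fun φ => ∏ j, F j φ) ∧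
    ∀ (F : (A → D) → ℕ) (m : ℕ), Rz Γ F → Rz Γ fun φ => F φ ^ m

/-- in a balanced template the matrices of all counting functions are block-rank-one -/
def St_RzBal : Prop :=
  ∀ (σ D : Type) (ar : σ → ℕ) (Γ : Str ar D), Balanced Γ →
    ∀ (A B : Type) [Finite A] [Finite B] (F : (A ⊕ B → D) → ℕ), Rz Γ F → BlockRankOne F

/-- the matrix of a counting function -/
def mat {A B D : Type} (F : (A ⊕ B → D) → ℕ) : Matrix (A → D) (B → D) ℕ :=
  Matrix.of fun s w => F (Sum.elim s w)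

/-- the powers of `Fᵀ * F` are counting functions -/
def St_RzGram : Prop :=
  ∀ (σ D : Type) (ar : σ → ℕ) (Γ : Str ar D) (A B : Type) [Fintype D] [DecidableEq D]
    [Fintype A] [DecidableEq A] [Fintype B] [DecidableEq B] (F : (A ⊕ B → D) → ℕ) (m : ℕ),
    Rz Γ F → 1 ≤ m →
    Rz Γ fun ψ : B ⊕ B → D =>
      (((mat F)ᵀ * mat F) ^ m) (fun b => ψ (Sum.inl b)) fun b => ψ (Sum.inr b)

/-! ### Linear algebra -/

/-- Properties of a power `M` of `Fᵀ * F`. -/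
structure Gram {W : Type} (M : W → W → ℕ) : Prop where
  symm : ∀ x y, M x y = M y x
  trans : ∀ x y z, M x y ≠ 0 → M y z ≠ 0 → M x z ≠ 0
  cs : ∀ x y, M x y ^ 2 ≤ M x x * M y y
  eq : ∀ x y, M x y ≠ 0 → M x y ^ 2 = M x x * M y y → ∀ s, M s y * M x x = M s x * M x y
  bad : ∃ x y s, M x y ≠ 0 ∧ M s y * M x x ≠ M s x * M x y

def St_Core1 : Prop :=
  ∀ (I W : Type) [Fintype I] [Fintype W] [DecidableEq W] (F : Matrix I W ℕ),
    (∃ s s' w w', F s w ≠ 0 ∧ F s' w ≠ 0 ∧ F s w' ≠ 0 ∧ F s w * F s' w' ≠ F s w' * F s' w) →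
    ∃ m, 1 ≤ m ∧ Gram fun x y => ((Fᵀ * F) ^ m) x y

/-- `g` has its largest value exactly at the twins of `w₁`, and its largest value outside the
columns proportional to that of `w₁` exactly at the twins of `w₂`. -/
structure Peak {W : Type} (M : W → W → ℕ) (g : W → ℕ) (w₁ w₂ : W) : Prop where
  symm : ∀ x y, M x y = M y x
  block : ∀ x y, M w₁ x ≠ 0 → (M w₁ y ≠ 0 ↔ M x y ≠ 0)
  zero : ∀ w, M w₁ w = 0 → g w = 0
  mem : M w₁ w₂ ≠ 0
  pos : 0 < g w₂
  lt : g w₂ < g w₁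
  bad : ∃ s, M s w₂ * M w₁ w₁ ≠ M s w₁ * M w₁ w₂
  top : ∀ w, g w ≤ g w₁ ∧ (g w = g w₁ → ∀ s, M s w = M s w₁)
  second : ∀ w, (∃ s, M s w * M w₁ w₁ ≠ M s w₁ * M w₁ w) →
    g w ≤ g w₂ ∧ (g w = g w₂ → ∀ s, M s w = M s w₂)

def St_Core2 : Prop :=
  ∀ (W : Type) [Fintype W] (M : W → W → ℕ), Gram M →
    ∃ (a : ℕ) (w₁ w₂ : W), Peak M (fun w => M w₁ w ^ a * M w₂ w) w₁ w₂

/-! ### The network -/

/-- the partition function depends only on the total charge -/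
def St_Gauge : Prop :=
  ∀ (n d p : ℕ) [Fact p.Prime] (π : Fin d → Equiv.Perm (Fin n)) (X : Type) [Fintype X]
    (F : Vx n → (Fin d → X) → ℕ) (h h' : Chg n d p), 1 ≤ d → Conn π → total h = total h' →
    ZZ π F h = ZZ π F h'

/-- the product over the slots of charge `b` -/
def Phi {d : ℕ} {X : Type} (f : (Fin d → X) → ℕ) (b : ZMod 2) (x : Fin d → ZMod 2 → X) : ℕ :=
  ∏ S : {S : Fin d → ZMod 2 // ∑ j, S j = b}, f fun j => x j (S.1 j)

/-- if the two values agree, the signed sum over all charges vanishes -/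
def St_Signed : Prop :=
  ∀ (n d : ℕ) (π : Fin d → Equiv.Perm (Fin n)) (X : Type) [Fintype X]
    (F : Vx n → (Fin d → X) → ℕ) (h : Chg n d 2), 1 ≤ d → Conn π → total h ≠ 0 →
    ZZ π F h = ZZ π F (0 : Chg n d 2) →
    ∑ s : Fin n × Fin d → ZMod 2 → X, ∏ C : Vx n,
      ((Phi (F C) 0 fun j => s (edgeAt π C j) : ℚ) - Phi (F C) 1 fun j => s (edgeAt π C j)) = 0

/-- the gadget with the centre `w`, weighted by `g w ^ t` -/
def star {d : ℕ} {W : Type} [Fintype W] (M : W → W → ℕ) (g : W → ℕ) (t : ℕ)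
    (a : Fin d → W) : ℕ := ∑ w, (∏ j, M (a j) w) * g w ^ t

/-- a combination of the differences is a product -/
def St_Local : Prop :=
  ∀ (W : Type) [Fintype W] [DecidableEq W] (M : W → W → ℕ) (g : W → ℕ) (w₁ w₂ : W) (d : ℕ),
    2 ≤ d → Peak M g w₁ w₂ →
    ∃ (r : ℕ) (q : Fin r → ℚ) (u : W → W → ℚ), (∃ x y, u x y ≠ 0) ∧
      ∀ x : Fin d → ZMod 2 → W,
        ∑ i, q i * ((Phi (star M g (i + 1)) 0 x : ℚ) - Phi (star M g (i + 1)) 1 x) =
          ∏ j, u (x j 0) (x j 1)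

/-- the contraction of the products -/
def St_Contr : Prop :=
  ∀ (n d : ℕ) (π : Fin d → Equiv.Perm (Fin n)) (W : Type) [Fintype W] (u : W → W → ℚ),
    ∑ s : Fin n × Fin d → ZMod 2 → W, ∏ C : Vx n, ∏ j,
        u (s (edgeAt π C j) 0) (s (edgeAt π C j) 1) =
      (∑ x, ∑ y, u x y ^ 2) ^ (n * d)

/-- from `St_Gauge`, `St_Signed`, `St_Local`, `St_Contr` -/
def St_Net : Prop :=
  ∀ (W : Type) [Fintype W] [DecidableEq W] (M : W → W → ℕ) (g : W → ℕ) (w₁ w₂ : W) (d : ℕ),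
    2 ≤ d → Peak M g w₁ w₂ →
    ∃ r : ℕ, ∀ (n : ℕ) (π : Fin d → Equiv.Perm (Fin n)), Conn π → ∃ c : Vx n → Fin r,
      ∀ h : Chg n d 2, total h ≠ 0 →
        ZZ π (fun C => star M g (c C + 1)) h ≠ ZZ π (fun C => star M g (c C + 1)) (0 : Chg n d 2)

/-- templates that are not balanced feel the charge -/
def St_FeelsB : Prop :=
  ∀ (σ D : Type) (ar : σ → ℕ) [Fintype D] (Γ : Str ar D) (d : ℕ), 2 ≤ d → ¬ Balanced Γ →
    Feels Γ d

end Pool.Agent.SYH
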