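import Mathlib
import Pool.Agent.SYH.StB

/-!
# The contraction of the products
-/

set_option autoImplicit false

namespace Pool.Agent.SYH

lemma Contr_edges (n d : ℕ) (π : Fin d → Equiv.Perm (Fin n)) (f : Fin n × Fin d → ℚ) :
    ∏ C : Vx n, ∏ j, f (edgeAt π C j) = ∏ e, f e ^ 2 := by
  have h1 : ∏ e : Fin n × Fin d, f e = ∏ i : Fin n, ∏ j : Fin d, f (i, j) :=
    Fintype.prod_prod_type _
  have h2 : ∏ i : Fin n, ∏ j : Fin d, f (edgeAt π (false, i) j) = ∏ e, f e := by
    rw [h1]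
    rfl
  have h3 : ∏ i : Fin n, ∏ j : Fin d, f (edgeAt π (true, i) j) = ∏ e, f e := by
    rw [h1, Finset.prod_comm]
    conv_rhs => rw [Finset.prod_comm]
    refine Finset.prod_congr rfl fun j _ => ?_
    exact Equiv.prod_comp (π j).symm fun i => f (i, j)
  rw [Fintype.prod_prod_type, Fintype.prod_bool, h2, h3, ← Finset.prod_mul_distrib]
  exact Finset.prod_congr rfl fun e _ => (pow_two _).symm

lemma Contr_two {W : Type} [Fintype W] (g : W → W → ℚ) :
    ∑ a : ZMod 2 → W, g (a 0) (a 1) = ∑ x, ∑ y, g x y := by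
  have h1 : ∑ p : W × W, g p.1 p.2 = ∑ x, ∑ y, g x y := Fintype.sum_prod_type _
  rw [← h1]
  exact Fintype.sum_equiv (finTwoArrowEquiv W) _ _ fun a => rfl

theorem thm_Contr : St_Contr := by
  intro n d π W _ u
  have h1 : ∀ s : Fin n × Fin d → ZMod 2 → W,
      ∏ C : Vx n, ∏ j, u (s (edgeAt π C j) 0) (s (edgeAt π C j) 1) =
        ∏ e, u (s e 0) (s e 1) ^ 2 :=
    fun s => Contr_edges n d π fun e => u (s e 0) (s e 1)
  simp only [h1]
  have h2 := Finset.prod_univ_sum (ι := Fin n × Fin d)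
    (fun _ => (Finset.univ : Finset (ZMod 2 → W)))
    (fun _ (a : ZMod 2 → W) => u (a 0) (a 1) ^ 2)
  rw [Fintype.piFinset_univ] at h2
  rw [← h2, Finset.prod_const, Contr_two fun x y => u x y ^ 2, Finset.card_univ,
    Fintype.card_prod, Fintype.card_fin, Fintype.card_fin]

end Pool.Agent.SYH
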