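import Pool.Agent.SYH.StB

/-!
# SYH [Core2]: the choice of the peaks
-/

set_option autoImplicit false

namespace Pool.Agent.SYH

theorem Core2_large (p C : ℕ) : ∃ n : ℕ, ∀ a ≥ n, p ^ a * C < (p + 1) ^ a := by
  have hp : (0 : ℝ) < (p : ℝ) + 1 := by positivity
  have hC : (0 : ℝ) < (C : ℝ) + 1 := by positivity
  have h1 : (p : ℝ) / ((p : ℝ) + 1) < 1 := by
    rw [div_lt_one hp]
    linarith
  have h0 : (0 : ℝ) ≤ (p : ℝ) / ((p : ℝ) + 1) := by positivity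
  obtain ⟨n, hn⟩ := exists_pow_lt_of_lt_one (show (0 : ℝ) < 1 / ((C : ℝ) + 1) by positivity) h1
  refine ⟨n, fun a ha => ?_⟩
  have h2 : ((p : ℝ) / ((p : ℝ) + 1)) ^ a < 1 / ((C : ℝ) + 1) :=
    (pow_le_pow_of_le_one h0 h1.le ha).trans_lt hn
  rw [div_pow, div_lt_div_iff₀ (by positivity) hC, one_mul] at h2
  have h3 : (p : ℝ) ^ a * C ≤ (p : ℝ) ^ a * ((C : ℝ) + 1) := by
    have : (0 : ℝ) ≤ (p : ℝ) ^ a := by positivity
    nlinarith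
  exact_mod_cast h3.trans_lt h2

/-- strict inequality of the values -/
theorem Core2_lt {q C : ℕ} (hq : 0 < q) : ∃ n : ℕ, ∀ a ≥ n, ∀ x c d : ℕ, x < q → c ≤ C → 0 < d →
    x ^ a * c < q ^ a * d := by
  obtain ⟨p, rfl⟩ : ∃ p, q = p + 1 := ⟨q - 1, by omega⟩
  obtain ⟨n, hn⟩ := Core2_large p C
  refine ⟨n, fun a ha x c d hx hc hd => ?_⟩
  calc x ^ a * c ≤ p ^ a * C := Nat.mul_le_mul (Nat.pow_le_pow_left (by omega) a) hc
    _ < (p + 1) ^ a := hn a ha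
    _ ≤ (p + 1) ^ a * d := Nat.le_mul_of_pos_right _ hd

theorem Core2_col {W : Type} {M : W → W → ℕ} (h : Gram M) {u w : W} (hu : M u u ≠ 0)
    (hw : M w w ≤ M u u) : M u w ≤ M u u ∧ (M u w = M u u → ∀ s, M s w = M s u) := by
  have h1 := h.cs u w
  have h2 : M u w ^ 2 ≤ M u u ^ 2 := by
    calc M u w ^ 2 ≤ M u u * M w w := h1
      _ ≤ M u u * M u u := Nat.mul_le_mul_left _ hw
      _ = M u u ^ 2 := (sq _).symm
  refine ⟨(Nat.pow_le_pow_iff_left two_ne_zero).1 h2, fun he s => ?_⟩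
  have h3 : M w w = M u u := by
    apply le_antisymm hw
    rw [he, sq] at h1
    exact Nat.le_of_mul_le_mul_left h1 (Nat.pos_of_ne_zero hu)
  have h4 := h.eq u w (by rw [he]; exact hu) (by rw [he, h3, sq]) s
  rw [he] at h4
  exact Nat.eq_of_mul_eq_mul_right (Nat.pos_of_ne_zero hu) h4

theorem thm_Core2 : St_Core2 := by
  intro W _ M h
  classical
  obtain ⟨x₀, y₀, s₀, hxy, hbad⟩ := h.bad
  have hx₀ : M x₀ x₀ ≠ 0 := h.trans x₀ y₀ x₀ hxy (by rw [h.symm]; exact hxy)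
  -- the first peak
  obtain ⟨w₁, hw₁, hmax₁⟩ := Finset.exists_max_image
    (Finset.univ.filter fun w => M x₀ w ≠ 0) (fun w => M w w)
    ⟨x₀, by rw [Finset.mem_filter]; exact ⟨Finset.mem_univ _, hx₀⟩⟩
  rw [Finset.mem_filter] at hw₁
  have hw₁' : M x₀ w₁ ≠ 0 := hw₁.2
  have hw₁x : M w₁ x₀ ≠ 0 := by rw [h.symm]; exact hw₁'
  have hq : M w₁ w₁ ≠ 0 := h.trans _ x₀ _ hw₁x hw₁'
  have hB : ∀ w, M w₁ w ≠ 0 → M x₀ w ≠ 0 := fun w hw => h.trans _ _ _ hw₁' hw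
  have hmx : ∀ w, M w₁ w ≠ 0 → M w w ≤ M w₁ w₁ := fun w hw =>
    hmax₁ w (by rw [Finset.mem_filter]; exact ⟨Finset.mem_univ _, hB w hw⟩)
  have hblock : ∀ x y, M w₁ x ≠ 0 → (M w₁ y ≠ 0 ↔ M x y ≠ 0) := fun x y hx =>
    ⟨fun hy => h.trans _ w₁ _ (by rw [h.symm]; exact hx) hy, fun hy => h.trans _ x _ hx hy⟩
  -- columns which are not proportional to that of `w₁`
  have hex : ∃ w, M w₁ w ≠ 0 ∧ ∃ s, M s w * M w₁ w₁ ≠ M s w₁ * M w₁ w := by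
    by_contra hno
    push Not at hno
    have hy₀ : M w₁ y₀ ≠ 0 := h.trans _ _ _ hw₁x hxy
    have hX := hno x₀ hw₁x
    have hY := hno y₀ hy₀
    apply hbad
    have hq2 : 0 < M w₁ w₁ * M w₁ w₁ := Nat.mul_pos (Nat.pos_of_ne_zero hq) (Nat.pos_of_ne_zero hq)
    apply Nat.eq_of_mul_eq_mul_right hq2
    calc M s₀ y₀ * M x₀ x₀ * (M w₁ w₁ * M w₁ w₁) = (M s₀ y₀ * M w₁ w₁) * (M x₀ x₀ * M w₁ w₁) := by
          ring
      _ = (M s₀ w₁ * M w₁ y₀) * (M x₀ w₁ * M w₁ x₀) := by rw [hY, hX]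
      _ = (M s₀ w₁ * M w₁ x₀) * (M x₀ w₁ * M w₁ y₀) := by ring
      _ = (M s₀ x₀ * M w₁ w₁) * (M x₀ y₀ * M w₁ w₁) := by rw [hX, hY]
      _ = M s₀ x₀ * M x₀ y₀ * (M w₁ w₁ * M w₁ w₁) := by ring
  obtain ⟨w', hw', hbw'⟩ := hex
  obtain ⟨w₃, hw₃, hmax₃⟩ := Finset.exists_max_image
    (Finset.univ.filter fun w => M w₁ w ≠ 0 ∧ ∃ s, M s w * M w₁ w₁ ≠ M s w₁ * M w₁ w)
    (fun w => M w₁ w) ⟨w', by rw [Finset.mem_filter]; exact ⟨Finset.mem_univ _, hw', hbw'⟩⟩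
  rw [Finset.mem_filter] at hw₃
  obtain ⟨w₂, hw₂, hmax₂⟩ := Finset.exists_max_image
    (Finset.univ.filter fun w => M w₁ w = M w₁ w₃ ∧ ∃ s, M s w * M w₁ w₁ ≠ M s w₁ * M w₁ w)
    (fun w => M w w) ⟨w₃, by rw [Finset.mem_filter]; exact ⟨Finset.mem_univ _, rfl, hw₃.2.2⟩⟩
  rw [Finset.mem_filter] at hw₂
  obtain ⟨-, hr, hb₂⟩ := hw₂
  have h12 : M w₁ w₂ ≠ 0 := by rw [hr]; exact hw₃.2.1
  have h21 : M w₂ w₁ ≠ 0 := by rw [h.symm]; exact h12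
  have h22 : M w₂ w₂ ≠ 0 := (hblock w₂ w₂ h12).1 h12
  have hsec : ∀ w, M w₁ w ≠ 0 → (∃ s, M s w * M w₁ w₁ ≠ M s w₁ * M w₁ w) →
      M w₁ w ≤ M w₁ w₂ := fun w a b => by
    rw [hr]
    exact hmax₃ w (by rw [Finset.mem_filter]; exact ⟨Finset.mem_univ _, a, b⟩)
  have hsec2 : ∀ w, M w₁ w = M w₁ w₂ → (∃ s, M s w * M w₁ w₁ ≠ M s w₁ * M w₁ w) →
      M w w ≤ M w₂ w₂ := fun w a b =>
    hmax₂ w (by rw [Finset.mem_filter]; exact ⟨Finset.mem_univ _, a.trans hr, b⟩)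
  -- the bound and the exponent
  obtain ⟨C, hC⟩ : ∃ C, ∀ x y, M x y ≤ C := by
    refine ⟨∑ x, ∑ y, M x y, fun x y => ?_⟩
    calc M x y ≤ ∑ y, M x y := Finset.single_le_sum (f := fun y => M x y)
          (fun _ _ => Nat.zero_le _) (Finset.mem_univ y)
      _ ≤ ∑ x, ∑ y, M x y := Finset.single_le_sum (f := fun x => ∑ y, M x y)
          (fun _ _ => Nat.zero_le _) (Finset.mem_univ x)
  obtain ⟨n₁, hn₁⟩ := Core2_lt (C := C) (Nat.pos_of_ne_zero hq)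
  obtain ⟨n₂, hn₂⟩ := Core2_lt (C := C) (Nat.pos_of_ne_zero h12)
  obtain ⟨a, ha₁, ha₂, ha₀⟩ : ∃ a, n₁ ≤ a ∧ n₂ ≤ a ∧ 1 ≤ a :=
    ⟨n₁ + n₂ + 1, by omega, by omega, by omega⟩
  have hcol₁ : ∀ w, M w₁ w ≤ M w₁ w₁ ∧ (M w₁ w = M w₁ w₁ → ∀ s, M s w = M s w₁) := by
    intro w
    by_cases hw : M w₁ w = 0
    · rw [hw]
      exact ⟨Nat.zero_le _, fun h0 => absurd h0.symm hq⟩
    · exact Core2_col h hq (hmx w hw)
  have hlt12 : M w₁ w₂ < M w₁ w₁ := by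
    apply lt_of_le_of_ne (hcol₁ w₂).1
    intro he
    obtain ⟨s, hs⟩ := hb₂
    apply hs
    rw [(hcol₁ w₂).2 he s, he]
  have htop : ∀ w, M w₁ w < M w₁ w₁ → M w₁ w ^ a * M w₂ w < M w₁ w₁ ^ a * M w₂ w₁ := fun w hw =>
    hn₁ a ha₁ _ _ _ hw (hC _ _) (Nat.pos_of_ne_zero h21)
  have hpos : 0 < M w₁ w₂ ^ a * M w₂ w₂ :=
    Nat.mul_pos (Nat.pow_pos (Nat.pos_of_ne_zero h12)) (Nat.pos_of_ne_zero h22)
  have hzero : ∀ w, M w₁ w = 0 → M w₁ w ^ a * M w₂ w = 0 := fun w hw => by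
    rw [hw, Nat.zero_pow (by omega), zero_mul]
  refine ⟨a, w₁, w₂, h.symm, hblock, hzero, h12, hpos, htop w₂ hlt12, hb₂, fun w => ?_,
    fun w hw => ?_⟩
  · rcases (hcol₁ w).1.lt_or_eq with hw | hw
    · exact ⟨(htop w hw).le, fun he => absurd he (htop w hw).ne⟩
    · have hc := (hcol₁ w).2 hw
      refine ⟨?_, fun _ => hc⟩
      rw [hc w₁, hc w₂]
  · by_cases hw0 : M w₁ w = 0
    · rw [hzero w hw0]
      exact ⟨Nat.zero_le _, fun he => absurd he hpos.ne⟩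
    rcases (hsec w hw0 hw).lt_or_eq with hlt | he
    · have h1 := hn₂ a ha₂ (M w₁ w) (M w₂ w) (M w₂ w₂) hlt (hC _ _) (Nat.pos_of_ne_zero h22)
      exact ⟨h1.le, fun he => absurd he h1.ne⟩
    · have hc := Core2_col h h22 (hsec2 w he hw)
      rw [he]
      refine ⟨Nat.mul_le_mul_left _ hc.1, fun h1 => hc.2 ?_⟩
      exact Nat.eq_of_mul_eq_mul_left (Nat.pow_pos (Nat.pos_of_ne_zero h12)) h1

end Pool.Agent.SYH
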