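import Pool.Agent.SYH.StB

/-!
# Templates that are not balanced feel the charge
-/

set_option autoImplicit false

namespace Pool.Agent.SYH

open Finset Matrix

theorem thm_FeelsB (hCl : St_RzCl) (hPr : St_RzProd) (hG : St_RzGram) (hC1 : St_Core1)
    (hC2 : St_Core2) (hN : St_Net) : St_FeelsB := by
  classical
  intro σ D ar _ Γ d hd hB
  unfold Balanced at hB
  push Not at hB
  obtain ⟨A, B, Y, hA, hBf, hY, X, hX⟩ := hB
  letI : Fintype A := Fintype.ofFinite A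
  letI : Fintype B := Fintype.ofFinite B
  have hRz : Rz Γ (exts Γ X) := ⟨Y, hY, X, fun _ => rfl⟩
  unfold BlockRankOne at hX
  push Not at hX
  obtain ⟨s, s', w, w', h1, h2, h3, h4⟩ := hX
  obtain ⟨m, hm, hgram⟩ := hC1 (A → D) (B → D) (mat (exts Γ X)) ⟨s, s', w, w', h1, h2, h3, h4⟩
  set M : (B → D) → (B → D) → ℕ := fun x y => (((mat (exts Γ X))ᵀ * mat (exts Γ X)) ^ m) x y
    with hMdef
  obtain ⟨a, w₁, w₂, hP⟩ := hC2 (B → D) M hgram
  obtain ⟨r, hr⟩ := hN (B → D) M _ w₁ w₂ d hd hP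
  have hM : Rz Γ fun ψ : B ⊕ B → D => M (fun b => ψ (Sum.inl b)) fun b => ψ (Sum.inr b) :=
    hG σ D ar Γ A B (exts Γ X) m hRz hm
  refine ⟨2, ⟨Nat.prime_two⟩, B, inferInstance, inferInstance, r, fun i φ x =>
    ∑ w : B → D, (∏ j, M (x j) w) *
      (M (fun b => φ (w₁ b)) w ^ a * M (fun b => φ (w₂ b)) w) ^ ((i : ℕ) + 1), ?_, ?_⟩
  · intro i
    have key : Rz Γ fun ψ : (D ⊕ Fin d × B) ⊕ B → D =>
        (∏ j : Fin d, M (fun b => ψ (Sum.inl (Sum.inr (j, b)))) fun b => ψ (Sum.inr b)) *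
          (M (fun b => ψ (Sum.inl (Sum.inl (w₁ b)))) (fun b => ψ (Sum.inr b)) ^ a *
            M (fun b => ψ (Sum.inl (Sum.inl (w₂ b)))) fun b => ψ (Sum.inr b)) ^ ((i : ℕ) + 1) := by
      refine (hCl σ D ar Γ _ Empty).2.1 _ _ ?_ ?_
      · refine (hPr σ D ar Γ _).1 (Fin d) inferInstance _ fun j => ?_
        exact (hCl σ D ar Γ (B ⊕ B) ((D ⊕ Fin d × B) ⊕ B)).2.2.1 _
          (Sum.elim (fun b => Sum.inl (Sum.inr (j, b))) fun b => Sum.inr b) hM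
      · refine (hPr σ D ar Γ _).2 _ _ ?_
        refine (hCl σ D ar Γ _ Empty).2.1 _ _ ?_ ?_
        · refine (hPr σ D ar Γ _).2 _ _ ?_
          exact (hCl σ D ar Γ (B ⊕ B) ((D ⊕ Fin d × B) ⊕ B)).2.2.1 _
            (Sum.elim (fun b => Sum.inl (Sum.inl (w₁ b))) fun b => Sum.inr b) hM
        · exact (hCl σ D ar Γ (B ⊕ B) ((D ⊕ Fin d × B) ⊕ B)).2.2.1 _
            (Sum.elim (fun b => Sum.inl (Sum.inl (w₂ b))) fun b => Sum.inr b) hM
    exact (hCl σ D ar Γ (D ⊕ Fin d × B) B).2.2.2 inferInstance inferInstance inferInstance _ key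
  · intro n π hπ
    obtain ⟨c, hc⟩ := hr n π hπ
    exact ⟨c, fun h hh => hc h hh⟩

end Pool.Agent.SYH
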