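import Pool.Agent.SYH.StA

/-!
# The number of homomorphisms of the full structure
-/

set_option autoImplicit false

namespace Pool.Agent.SYH

open Equiv Equiv.Perm

section
variable {σ : Type} {ar : σ → ℕ} {n p t : ℕ} {T D : Type} {Y : Vx n → Type}

theorem Full_hom (π : Fin 3 → Perm (Fin n)) (Γ : Str ar D)
    (X : (C : Vx n) → Str ar ((D ⊕ Fin 3 × T) ⊕ Y C)) (h : Chg n 3 p × Chg n 3 p)
    (a : Full n p T D Y t → D) : IsHom Γ (full π X t h) a ↔
      IsHom Γ (net π X h.1) (a ∘ Sum.inl) ∧ IsHom Γ (net π X h.2) (a ∘ snd) := by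
  constructor
  · intro ha
    exact ⟨fun R v hv => ha R _ (Or.inl ⟨v, hv, rfl⟩), fun R v hv => ha R _ (Or.inr ⟨v, hv, rfl⟩)⟩
  · rintro ⟨h1, h2⟩ R u (⟨v, hv, rfl⟩ | ⟨v, hv, rfl⟩)
    · exact h1 R v hv
    · exact h2 R v hv

/-- the homomorphisms of the full structure -/
def Full_equiv (π : Fin 3 → Perm (Fin n)) (Γ : Str ar D)
    (X : (C : Vx n) → Str ar ((D ⊕ Fin 3 × T) ⊕ Y C)) (h : Chg n 3 p × Chg n 3 p) :
    {a : Full n p T D Y t → D // IsHom Γ (full π X t h) a} ≃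
      ((φ : D → D) × ({b : El n p T Y → D // IsHom Γ (net π X h.1) (Sum.elim φ b)} ×
        {b : El n p T Y → D // IsHom Γ (net π X h.2) (Sum.elim φ b)})) ×
        ((El n p T Y → D) × (Fin t → D)) where
  toFun a := ⟨⟨fun x => a.1 (Sum.inl (Sum.inl x)), ⟨fun z => a.1 (Sum.inl (Sum.inr z)), by
      have h1 := ((Full_hom π Γ X h a.1).1 a.2).1
      have h2 : a.1 ∘ Sum.inl = Sum.elim (fun x => a.1 (Sum.inl (Sum.inl x)))
          fun z => a.1 (Sum.inl (Sum.inr z)) := by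
        funext x
        rcases x with x | x <;> rfl
      rwa [h2] at h1⟩, ⟨fun z => a.1 (Sum.inr (Sum.inr (Sum.inl z))), by
      have h1 := ((Full_hom π Γ X h a.1).1 a.2).2
      have h2 : a.1 ∘ snd = Sum.elim (fun x => a.1 (Sum.inl (Sum.inl x)))
          fun z => a.1 (Sum.inr (Sum.inr (Sum.inl z))) := by
        funext x
        rcases x with x | x <;> rfl
      rwa [h2] at h1⟩⟩, fun z => a.1 (Sum.inr (Sum.inl z)),
    fun i => a.1 (Sum.inr (Sum.inr (Sum.inr i)))⟩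
  invFun b := ⟨Sum.elim (Sum.elim b.1.1 b.1.2.1.1) (Sum.elim b.2.1 (Sum.elim b.1.2.2.1 b.2.2)), by
    rw [Full_hom]
    have h2 : Sum.elim (Sum.elim b.1.1 b.1.2.1.1)
        (Sum.elim b.2.1 (Sum.elim b.1.2.2.1 b.2.2)) ∘ (snd : D ⊕ El n p T Y → Full n p T D Y t) =
        Sum.elim b.1.1 b.1.2.2.1 := by
      funext x
      rcases x with x | x <;> rfl
    rw [h2, Sum.elim_comp_inl]
    exact ⟨b.1.2.1.2, b.1.2.2.2⟩⟩
  left_inv a := by
    apply Subtype.ext
    funext x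
    rcases x with (x | x) | x | x | x <;> rfl
  right_inv b := rfl

end

/-- the number of homomorphisms of the full structure -/
theorem thm_Full : St_Full := by
  intro σ T D ar n p t _ _ _ _ Y _ π Γ X h
  unfold homs
  rw [Nat.card_congr (Full_equiv π Γ X h), Nat.card_prod, Nat.card_prod, Nat.card_sigma,
    mul_comm]
  congr 1
  · rw [Nat.card_fun, Nat.card_fun, Nat.card_eq_fintype_card (α := D), Nat.card_fin, pow_add]
  · refine Finset.sum_congr rfl fun φ _ => ?_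
    rw [Nat.card_prod]
    rfl

end Pool.Agent.SYH
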