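import Pool.Agent.SYH.StA

/-!
# The gauge transformations map networks to networks (helper35)
-/

set_option autoImplicit false

namespace Pool.Agent.SYH

section
variable {σ : Type} {ar : σ → ℕ} {n p : ℕ} {T D : Type} {Y : Vx n → Type}

/-- the action on the elements of a network and the constants -/
def GAct_fi (γ : GG n p) : Equiv.Perm (D ⊕ El n p T Y) :=
  Equiv.sumCongr (Equiv.refl D) (gEl γ)

/-- the shift of the slots -/
def GAct_sl (γ : GG n p) (C : Vx n) (S : Slot 3 p) : Slot 3 p :=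
  ⟨fun j => S.1 j + (γ.2 C).1 j, by
    rw [Finset.sum_add_distrib, S.2, (γ.2 C).2, add_zero]⟩

/-- the inverse shift of the slots -/
def GAct_sl' (γ : GG n p) (C : Vx n) (S : Slot 3 p) : Slot 3 p :=
  ⟨fun j => S.1 j - (γ.2 C).1 j, by
    rw [Finset.sum_sub_distrib, S.2, (γ.2 C).2, sub_zero]⟩

theorem GAct_sl_sl' (γ : GG n p) (C : Vx n) (S : Slot 3 p) :
    GAct_sl γ C (GAct_sl' γ C S) = S :=
  Subtype.ext (funext fun j => sub_add_cancel (S.1 j) ((γ.2 C).1 j))

theorem GAct_emb (π : Fin 3 → Equiv.Perm (Fin n)) (γ : GG n p) (h : Chg n 3 p) (C : Vx n)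
    (S : Slot 3 p) (y : (D ⊕ Fin 3 × T) ⊕ Y C) :
    GAct_fi γ (emb π h C S y) = emb π (gsm π γ h) C (GAct_sl γ C S) y := by
  rcases y with (x | ⟨j, t⟩) | y
  · rfl
  · change (Sum.inr (Sum.inl (edgeAt π C j, S.1 j + h C j + γ.1 (edgeAt π C j), t)) :
      D ⊕ El n p T Y) = Sum.inr (Sum.inl (edgeAt π C j, S.1 j + (γ.2 C).1 j +
        (h C j + γ.1 (edgeAt π C j) - (γ.2 C).1 j), t))
    have h1 : S.1 j + h C j + γ.1 (edgeAt π C j) =
        S.1 j + (γ.2 C).1 j + (h C j + γ.1 (edgeAt π C j) - (γ.2 C).1 j) := by ring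
    rw [h1]
  · rfl

theorem GAct_net (π : Fin 3 → Equiv.Perm (Fin n)) (X : (C : Vx n) → Str ar ((D ⊕ Fin 3 × T) ⊕ Y C))
    (γ : GG n p) (h : Chg n 3 p) (R : σ) (v : Fin (ar R) → D ⊕ El n p T Y) :
    net π X (gsm π γ h) R (GAct_fi γ ∘ v) ↔ net π X h R v := by
  constructor
  · rintro ⟨C, S, w, hw, he⟩
    refine ⟨C, GAct_sl' γ C S, w, hw, ?_⟩
    funext i
    refine (GAct_fi γ).injective ?_
    change GAct_fi γ (v i) = GAct_fi γ (emb π h C (GAct_sl' γ C S) (w i))
    rw [GAct_emb, GAct_sl_sl']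
    exact congrFun he i
  · rintro ⟨C, S, w, hw, rfl⟩
    exact ⟨C, GAct_sl γ C S, w, hw, funext fun i => GAct_emb π γ h C S (w i)⟩

theorem GAct_inl {t : ℕ} (γ : GG n p) (z : D ⊕ El n p T Y) :
    gFull (t := t) γ (Sum.inl z) = Sum.inl (GAct_fi γ z) := rfl

theorem GAct_snd {t : ℕ} (γ : GG n p) (z : D ⊕ El n p T Y) :
    gFull γ (snd (t := t) z) = snd z := by
  rcases z with z | z <;> rfl

end

theorem thm_GAct : St_GAct := by
  intro σ T D ar n p t _ Y π X γ h R u
  constructor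
  · rintro (⟨v, hv, he⟩ | ⟨v, hv, he⟩)
    · left
      refine ⟨(GAct_fi γ).symm ∘ v, ?_, ?_⟩
      · rw [← GAct_net π X γ, ← Function.comp_assoc, Equiv.self_comp_symm, Function.id_comp]
        exact hv
      · funext i
        refine (gFull γ).injective ?_
        change gFull γ (u i) = gFull γ (Sum.inl ((GAct_fi γ).symm (v i)))
        rw [GAct_inl, Equiv.apply_symm_apply]
        exact congrFun he i
    · right
      refine ⟨v, hv, ?_⟩
      funext i
      refine (gFull γ).injective ?_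
      change gFull γ (u i) = gFull γ (snd (v i))
      rw [GAct_snd]
      exact congrFun he i
  · rintro (⟨v, hv, rfl⟩ | ⟨v, hv, rfl⟩)
    · left
      exact ⟨GAct_fi γ ∘ v, (GAct_net π X γ h.1 R v).2 hv, rfl⟩
    · right
      exact ⟨v, hv, funext fun i => GAct_snd γ (v i)⟩

end Pool.Agent.SYH
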