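import Mathlib
import Pool.Agent.SYH.StA

/-!
# Fixed tuples do not feel a change of the charge far away
-/

set_option autoImplicit false

namespace Pool.Agent.SYH

open Equiv Equiv.Perm

section
variable {σ T D : Type} {ar : σ → ℕ} {n p : ℕ} {Y : Vx n → Type}

lemma GAtom_emb (π : Fin 3 → Perm (Fin n)) (e : Vx n × Fin 3) (h h' : Chg n 3 p)
    (hh : ∀ C j, ¬ (C = e.1 ∧ j = e.2) → h C j = h' C j) (C : Vx n) (S : Slot 3 p)
    (z : (D ⊕ Fin 3 × T) ⊕ Y C)
    (hz : ∀ α t, emb (D := D) (T := T) π h C S z ≠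
      Sum.inr (Sum.inl (edgeAt π e.1 e.2, α, t))) :
    emb π h C S z = emb π h' C S z := by
  rcases z with (x | ⟨j, t⟩) | y
  · rfl
  · have h1 : ¬ (C = e.1 ∧ j = e.2) := by
      rintro ⟨rfl, rfl⟩
      exact hz _ t rfl
    simp only [emb]
    rw [hh C j h1]
  · rfl

lemma GAtom_net (π : Fin 3 → Perm (Fin n)) (X : (C : Vx n) → Str ar ((D ⊕ Fin 3 × T) ⊕ Y C))
    (e : Vx n × Fin 3) (h h' : Chg n 3 p)
    (hh : ∀ C j, ¬ (C = e.1 ∧ j = e.2) → h C j = h' C j) (R : σ)
    (v : Fin (ar R) → D ⊕ El n p T Y)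
    (hv : ∀ i α t, v i ≠ Sum.inr (Sum.inl (edgeAt π e.1 e.2, α, t)))
    (H : net π X h R v) : net π X h' R v := by
  obtain ⟨C, S, w, hw, rfl⟩ := H
  refine ⟨C, S, w, hw, ?_⟩
  funext i
  exact GAtom_emb π e h h' hh C S (w i) (hv i)

end

theorem thm_GAtom : St_GAtom := by
  intro σ T D ar n p t _ Y π X M e he R u h hfix
  have hp : (1 : ZMod p) ≠ 0 := one_ne_zero
  simp only [gblk, Finset.mem_filter, Finset.mem_univ, true_and, not_or, not_exists] at he
  -- the shift of the edge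
  let γ : GG n p := (fun x => if x = edgeAt π e.1 e.2 then 1 else 0, fun _ => ⟨0, by simp⟩)
  have hsupp : Disjoint (gsupp γ) M := by
    rw [Finset.disjoint_left]
    intro b hb hbM
    simp only [gsupp, Finset.mem_filter, Finset.mem_univ, true_and] at hb
    rcases b with b | b
    · have h1 : b = edgeAt π e.1 e.2 := by
        by_contra hne
        apply hb
        simp only [Sum.elim_inl, γ]
        exact if_neg hne
      rw [h1] at hbM
      exact he.2 e.2 hbM
    · exact hb rfl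
  have hu := hfix γ hsupp
  have hedge : ∀ i α s, u i ≠ Sum.inl (Sum.inr (Sum.inl (edgeAt π e.1 e.2, α, s))) := by
    intro i α s hi
    have h1 := congrFun hu i
    rw [Function.comp_apply, hi] at h1
    have h2 : gFull (t := t) γ
        (Sum.inl (Sum.inr (Sum.inl (edgeAt π e.1 e.2, α, s))) : Full n p T D Y t) =
        Sum.inl (Sum.inr (Sum.inl (edgeAt π e.1 e.2, α + 1, s))) := by
      change (Sum.inl (Sum.inr (Sum.inl (edgeAt π e.1 e.2,
        α + (if edgeAt π e.1 e.2 = edgeAt π e.1 e.2 then 1 else 0), s))) :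
          Full n p T D Y t) = _
      rw [if_pos rfl]
    rw [h2] at h1
    simp only [Sum.inl.injEq, Sum.inr.injEq, Prod.mk.injEq, true_and, and_true] at h1
    exact hp (by simpa using h1)
  have hsh : ∀ C j, ¬ (C = e.1 ∧ j = e.2) → gsh e h.1 C j = h.1 C j := by
    intro C j hne
    simp only [gsh]
    rw [if_neg hne, add_zero]
  constructor
  · rintro (⟨v, hv, rfl⟩ | ⟨v, hv, rfl⟩)
    · refine Or.inl ⟨v, GAtom_net π X e _ _ hsh R v (fun i α s hi => ?_) hv, rfl⟩
      exact hedge i α s (by rw [Function.comp_apply, hi])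
    · exact Or.inr ⟨v, hv, rfl⟩
  · rintro (⟨v, hv, rfl⟩ | ⟨v, hv, rfl⟩)
    · refine Or.inl ⟨v, GAtom_net π X e _ _ (fun C j hne => (hsh C j hne).symm) R v
        (fun i α s hi => ?_) hv, rfl⟩
      exact hedge i α s (by rw [Function.comp_apply, hi])
    · exact Or.inr ⟨v, hv, rfl⟩

end Pool.Agent.SYH
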