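import Pool.Agent.SYH.StA

/-!
# A change of the charge can be moved along unblocked vertices
-/

set_option autoImplicit false

namespace Pool.Agent.SYH

open Equiv Equiv.Perm

/-- the change of the charge at `e` -/
private def GMove_dl {n p : ℕ} (e : Vx n × Fin 3) (C : Vx n) (j : Fin 3) : ZMod p :=
  if C = e.1 ∧ j = e.2 then (if C.1 then -1 else 1) else 0

private def GMove_good {n : ℕ} (p : ℕ) (π : Fin 3 → Perm (Fin n))
    (M : Finset ((Fin n × Fin 3) ⊕ Vx n)) (e e' : Vx n × Fin 3) : Prop :=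
  ∃ γ : GG n p, (∀ x, Sum.inl x ∈ M → γ.1 x = 0) ∧ (∀ C, Sum.inr C ∈ M → ∀ j, (γ.2 C).1 j = 0) ∧
    ∀ C j, γ.1 (edgeAt π C j) - (γ.2 C).1 j = GMove_dl e' C j - GMove_dl e C j

private theorem GMove_trans {n p : ℕ} {π : Fin 3 → Perm (Fin n)}
    {M : Finset ((Fin n × Fin 3) ⊕ Vx n)} {e e' e'' : Vx n × Fin 3}
    (h : GMove_good p π M e e') (h' : GMove_good p π M e' e'') : GMove_good p π M e e'' := by
  obtain ⟨γ, h1, h2, h3⟩ := h
  obtain ⟨δ, k1, k2, k3⟩ := h'
  refine ⟨(fun x => γ.1 x + δ.1 x, fun C => ⟨fun j => (γ.2 C).1 j + (δ.2 C).1 j, by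
    rw [Finset.sum_add_distrib, (γ.2 C).2, (δ.2 C).2, add_zero]⟩), fun x hx => ?_,
    fun C hC j => ?_, fun C j => ?_⟩
  · change γ.1 x + δ.1 x = 0
    rw [h1 x hx, k1 x hx, add_zero]
  · change (γ.2 C).1 j + (δ.2 C).1 j = 0
    rw [h2 C hC j, k2 C hC j, add_zero]
  · change γ.1 (edgeAt π C j) + δ.1 (edgeAt π C j) - ((γ.2 C).1 j + (δ.2 C).1 j) = _
    linear_combination h3 C j + k3 C j

private theorem GMove_vertex {n p : ℕ} {π : Fin 3 → Perm (Fin n)}
    {M : Finset ((Fin n × Fin 3) ⊕ Vx n)} (C : Vx n) (j j' : Fin 3) (hC : C ∉ gblk π M) :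
    GMove_good p π M (C, j) (C, j') := by
  have hs : ∀ (D : Vx n) (i : Fin 3), ∑ k, (GMove_dl (C, i) D k : ZMod p) =
      if D = C then (if D.1 then -1 else 1) else 0 := by
    intro D i
    unfold GMove_dl
    by_cases h : D = C
    · simp [h]
    · simp [h]
  refine ⟨(fun _ => 0, fun D => ⟨fun k => GMove_dl (C, j) D k - GMove_dl (C, j') D k, ?_⟩),
    fun x _ => rfl, fun D hD k => ?_, fun D k => ?_⟩
  · rw [Finset.sum_sub_distrib, hs, hs, sub_self]
  · have hne : D ≠ C := by
      rintro rfl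
      apply hC
      unfold gblk
      rw [Finset.mem_filter]
      exact ⟨Finset.mem_univ _, Or.inl hD⟩
    change GMove_dl (C, j) D k - GMove_dl (C, j') D k = 0
    simp [GMove_dl, hne]
  · change 0 - (GMove_dl (C, j) D k - GMove_dl (C, j') D k) = _
    ring

private theorem GMove_inj {n : ℕ} {π : Fin 3 → Perm (Fin n)} {C D : Vx n} {j k : Fin 3}
    (h : edgeAt π C j = edgeAt π D k) (h1 : C.1 = D.1) : C = D := by
  obtain ⟨c, C⟩ := C
  obtain ⟨d, D⟩ := D
  change c = d at h1
  subst h1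
  unfold edgeAt at h
  have h2 := (Prod.ext_iff.1 h).1
  have h3 : j = k := (Prod.ext_iff.1 h).2
  subst h3
  cases c
  · simpa using h2
  · have h4 : (π j).symm C = (π j).symm D := by simpa using h2
    rw [(π j).symm.injective h4]

private theorem GMove_edge {n p : ℕ} {π : Fin 3 → Perm (Fin n)}
    {M : Finset ((Fin n × Fin 3) ⊕ Vx n)} (C C' : Vx n) (j : Fin 3) (hC : C ∉ gblk π M)
    (h : edgeAt π C j = edgeAt π C' j) (hne : C ≠ C') :
    GMove_good p π M (C, j) (C', j) := by
  have hs : C.1 ≠ C'.1 := fun hs => hne (GMove_inj h hs)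
  refine ⟨(fun x => if x = edgeAt π C j then -(if C.1 then -1 else 1) else 0,
    fun _ => ⟨fun _ => 0, by simp⟩), fun x hx => ?_, fun D _ k => rfl, fun D k => ?_⟩
  · have hx' : x ≠ edgeAt π C j := by
      rintro rfl
      apply hC
      unfold gblk
      rw [Finset.mem_filter]
      exact ⟨Finset.mem_univ _, Or.inr ⟨j, hx⟩⟩
    exact if_neg hx'
  · change (if edgeAt π D k = edgeAt π C j then -(if C.1 then -1 else 1) else 0) - 0 = _
    rw [sub_zero]
    unfold GMove_dl
    by_cases hD : edgeAt π D k = edgeAt π C j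
    · have hk : k = j := (Prod.ext_iff.1 hD).2
      subst hk
      rw [if_pos hD]
      by_cases h1 : D.1 = C.1
      · have h2 : D = C := GMove_inj hD h1
        subst h2
        have e1 : ¬ (D = (C', k).1 ∧ k = (C', k).2) := fun h3 => hne h3.1
        have e2 : D = (D, k).1 ∧ k = (D, k).2 := ⟨rfl, rfl⟩
        rw [if_neg e1, if_pos e2, zero_sub]
      · have h1' : D.1 = C'.1 := by
          revert h1 hs
          cases D.1 <;> cases C.1 <;> cases C'.1 <;> simp
        have h2 : D = C' := GMove_inj (hD.trans h) h1'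
        subst h2
        have e1 : D = (D, k).1 ∧ k = (D, k).2 := ⟨rfl, rfl⟩
        have e2 : ¬ (D = (C, k).1 ∧ k = (C, k).2) := fun h3 => hne h3.1.symm
        rw [if_pos e1, if_neg e2, sub_zero]
        clear e1 e2 h1 h1' hD
        revert hs
        cases D.1 <;> cases C.1 <;> simp
    · rw [if_neg hD, if_neg, if_neg, sub_zero]
      · rintro ⟨rfl, rfl⟩
        exact hD rfl
      · rintro ⟨rfl, rfl⟩
        exact hD h.symm

private theorem GMove_path {n p : ℕ} {π : Fin 3 → Perm (Fin n)}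
    {M : Finset ((Fin n × Fin 3) ⊕ Vx n)} (e : Vx n × Fin 3) (he : e.1 ∉ gblk π M) {D : Vx n}
    (h : Relation.ReflTransGen (fun x y => Adj π x y ∧ x ∉ gblk π M ∧ y ∉ gblk π M) e.1 D) :
    ∀ j, GMove_good p π M e (D, j) := by
  induction h with
  | refl =>
    intro j
    exact GMove_vertex e.1 e.2 j he
  | @tail D D' _ hstep ih =>
    intro j
    obtain ⟨⟨k, hk⟩, hD, hD'⟩ := hstep
    have h1 := ih k
    have h2 : GMove_good p π M (D', k) (D', j) := GMove_vertex D' k j hD'
    by_cases hne : D = D'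
    · subst hne
      exact ih j
    · exact GMove_trans (GMove_trans h1 (GMove_edge D D' k hD hk hne)) h2

theorem thm_GMove : St_GMove := by
  intro n p _ π M e e' he hpath
  obtain ⟨γ, h1, h2, h3⟩ := GMove_path (p := p) e he hpath e'.2
  refine ⟨γ, ?_, fun h => ?_⟩
  · classical
    rw [Finset.disjoint_left]
    intro b hb hM
    unfold gsupp at hb
    rw [Finset.mem_filter] at hb
    rcases b with x | C
    · exact hb.2 (h1 x hM)
    · exact hb.2 (funext fun j => h2 C hM j)
  · funext C j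
    have h4 := h3 C j
    change h C j + GMove_dl e C j + γ.1 (edgeAt π C j) - (γ.2 C).1 j = h C j + GMove_dl e' C j
    have h5 : (GMove_dl (e'.1, e'.2) C j : ZMod p) = GMove_dl e' C j := rfl
    rw [h5] at h4
    linear_combination h4

end Pool.Agent.SYH
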