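import Pool.Agent.SYH.StA

/-!
# The simple properties of the action of the gauge transformations
-/

set_option autoImplicit false

namespace Pool.Agent.SYH

open Equiv Equiv.Perm

private theorem GSimple_comm {n p : ℕ} {T : Type} {Y : Vx n → Type} (γ δ : GG n p) :
    gEl (T := T) (Y := Y) γ * gEl δ = gEl δ * gEl γ := by
  refine Equiv.ext fun z => ?_
  rcases z with ⟨e, α, t⟩ | ⟨C, ⟨S, hS⟩, y⟩
  · change Sum.inl (e, α + δ.1 e + γ.1 e, t) = Sum.inl (e, α + γ.1 e + δ.1 e, t)
    rw [add_right_comm]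
  · refine congrArg Sum.inr (congrArg (Sigma.mk C) (Prod.ext (Subtype.ext (funext fun j => ?_)) rfl))
    change S j + (δ.2 C).1 j + (γ.2 C).1 j = S j + (γ.2 C).1 j + (δ.2 C).1 j
    rw [add_right_comm]

private theorem GSimple_irr {α : Type} (i1 j1 : Fintype α) (i2 j2 : DecidableEq α) (e : Perm α) :
    @sign α i2 i1 e = @sign α j2 j1 e := by
  rw [Subsingleton.elim i1 j1, Subsingleton.elim i2 j2]

private theorem GSimple_sign' {A B C : Type} [Fintype A] [Fintype B] [Fintype C] [DecidableEq A]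
    [DecidableEq B] [DecidableEq C] (e : Perm B) :
    sign (Equiv.sumCongr (Equiv.sumCongr (Equiv.refl A) e)
      (Equiv.sumCongr e (Equiv.refl C))) = 1 := by
  have k1 := sign_sumCongr (Equiv.sumCongr (Equiv.refl A) e) (Equiv.sumCongr e (Equiv.refl C))
  have k2 := sign_sumCongr (Equiv.refl A) e
  have k3 := sign_sumCongr e (Equiv.refl C)
  change sign (Equiv.sumCongr _ _) = _ at k1 k2 k3
  rw [k1, k2, k3, sign_refl, sign_refl, one_mul, mul_one]
  exact Int.units_mul_self _

private theorem GSimple_sign {A B C : Type} [Fintype ((A ⊕ B) ⊕ (B ⊕ C))]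
    [DecidableEq ((A ⊕ B) ⊕ (B ⊕ C))] (e : Perm B) :
    sign (Equiv.sumCongr (Equiv.sumCongr (Equiv.refl A) e)
      (Equiv.sumCongr e (Equiv.refl C))) = 1 := by
  classical
  have fAB : Fintype (A ⊕ B) := Fintype.sumLeft (β := B ⊕ C)
  have fBC : Fintype (B ⊕ C) := Fintype.sumRight (α := A ⊕ B)
  have fA : Fintype A := Fintype.sumLeft (β := B)
  have fB : Fintype B := Fintype.sumRight (α := A)
  have fC : Fintype C := Fintype.sumRight (α := B)
  clear fAB fBC
  exact (GSimple_irr _ _ _ _ _).trans (GSimple_sign' e)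

theorem thm_GSimple : St_GSimple := by
  intro T D n p t _ Y _ _
  refine ⟨fun γ δ => ?_, fun γ => GSimple_sign (gEl γ), fun γ z hz => ?_⟩
  · refine Equiv.ext fun z => ?_
    have hc : ∀ z : El n p T Y, gEl γ (gEl δ z) = gEl δ (gEl γ z) := fun z =>
      congrArg (fun e : Perm (El n p T Y) => e z) (GSimple_comm γ δ)
    rcases z with (z | z) | (z | z)
    · rfl
    · change Sum.inl (Sum.inr (gEl γ (gEl δ z))) = Sum.inl (Sum.inr (gEl δ (gEl γ z)))
      rw [hc]
    · change Sum.inr (Sum.inl (gEl γ (gEl δ z))) = Sum.inr (Sum.inl (gEl δ (gEl γ z)))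
      rw [hc]
    · rfl
  · classical
    unfold gsupp
    rw [Finset.mem_filter]
    refine ⟨Finset.mem_univ _, ?_⟩
    rcases z with ⟨e, α, s⟩ | ⟨C, ⟨S, hS⟩, y⟩
    · intro h
      apply hz
      change Sum.inl (e, α + γ.1 e, s) = Sum.inl (e, α, s)
      rw [show γ.1 e = 0 from h, add_zero]
    · intro h
      apply hz
      refine congrArg Sum.inr (congrArg (Sigma.mk C)
        (Prod.ext (Subtype.ext (funext fun j => ?_)) rfl))
      change S j + (γ.2 C).1 j = S j
      have h' : (γ.2 C).1 = 0 := h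
      rw [h', Pi.zero_apply, add_zero]

end Pool.Agent.SYH
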