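import Mathlib
import Pool.Agent.SYH.StA

/-!
# Gates of small circuits with many symmetries have small supports

`thm_GSup`: `St_SupA` implies `St_GSup`.
-/

set_option autoImplicit false

namespace Pool.Agent.SYH

open Equiv Equiv.Perm

section circ
variable {ι G P T : Type} {C : Circuit ι G P T}

theorem GSup_isAut_one : C.IsAut 1 1 := by
  refine ⟨rfl, fun g => ?_, fun g => rfl, fun g p h => Iff.rfl⟩
  change C.atom g = (C.atom g).map id
  rw [Option.map_id]
  rfl

theorem GSup_isAut_mul {e e' : Perm ι} {τ τ' : Perm G} (h : C.IsAut e τ) (h' : C.IsAut e' τ') :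
    C.IsAut (e * e') (τ * τ') := by
  obtain ⟨h0, h1, h2, h3⟩ := h
  obtain ⟨h0', h1', h2', h3'⟩ := h'
  refine ⟨?_, fun g => ?_, fun g => ?_, fun g p x => ?_⟩
  · rw [Perm.mul_apply, h0', h0]
  · rw [Perm.mul_apply, h1, h1', Option.map_map]
    rfl
  · rw [Perm.mul_apply, h2, h2']
  · rw [Perm.mul_apply, Perm.mul_apply, h3, h3']

theorem GSup_isAut_inv {e : Perm ι} {τ : Perm G} (h : C.IsAut e τ) : C.IsAut e⁻¹ τ⁻¹ := by
  obtain ⟨h0, h1, h2, h3⟩ := h
  have hτ : ∀ g, τ (τ⁻¹ g) = g := fun g => τ.apply_symm_apply g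
  refine ⟨?_, fun g => ?_, fun g => ?_, fun g p x => ?_⟩
  · rw [Perm.inv_eq_iff_eq, h0]
  · have h4 := h1 (τ⁻¹ g)
    rw [hτ] at h4
    rw [h4, Option.map_map]
    have h5 : (⇑e⁻¹ ∘ ⇑e) = id := by
      funext x
      exact e.symm_apply_apply x
    rw [h5, Option.map_id]
    rfl
  · have h4 := h2 (τ⁻¹ g)
    rw [hτ] at h4
    exact h4.symm
  · have h4 := h3 (τ⁻¹ g) p (τ⁻¹ x)
    rw [hτ, hτ] at h4
    exact h4.symm

end circ

section atoms
variable {σ V : Type} (ar : σ → ℕ)

theorem GSup_atomPerm_one : atomPerm ar (1 : Perm V) = 1 := Equiv.ext fun _ => rfl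

theorem GSup_atomPerm_mul (ρ ρ' : Perm V) :
    atomPerm ar (ρ * ρ') = atomPerm ar ρ * atomPerm ar ρ' := Equiv.ext fun _ => rfl

theorem GSup_atomPerm_inv (ρ : Perm V) : atomPerm ar ρ⁻¹ = (atomPerm ar ρ)⁻¹ := by
  rw [eq_inv_iff_mul_eq_one, ← GSup_atomPerm_mul, inv_mul_cancel, GSup_atomPerm_one]

end atoms

section groups
variable {σ V G P T : Type} {ar : σ → ℕ} (C : Circuit (Atom ar V) G P T)

/-- The permutations of the elements extending to an automorphism that fixes the gate `g`. -/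
def GSup_stab (g : G) : Subgroup (Perm V) where
  carrier := {ρ | ∃ τ, C.IsAut (atomPerm ar ρ) τ ∧ τ g = g}
  one_mem' := ⟨1, by rw [GSup_atomPerm_one]; exact GSup_isAut_one, rfl⟩
  mul_mem' := by
    rintro π π' ⟨τ, h, hg⟩ ⟨τ', h', hg'⟩
    exact ⟨τ * τ', by rw [GSup_atomPerm_mul]; exact GSup_isAut_mul h h',
      by rw [Perm.mul_apply, hg', hg]⟩
  inv_mem' := by
    rintro π ⟨τ, h, hg⟩
    exact ⟨τ⁻¹, by rw [GSup_atomPerm_inv]; exact GSup_isAut_inv h,
      by rw [Perm.inv_eq_iff_eq, hg]⟩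

/-- The symmetries of the circuit. -/
def GSup_syms : Subgroup (Perm V) where
  carrier := {ρ | IsSymm C ρ}
  one_mem' := ⟨1, by rw [GSup_atomPerm_one]; exact GSup_isAut_one⟩
  mul_mem' := by
    rintro π π' ⟨τ, h⟩ ⟨τ', h'⟩
    exact ⟨τ * τ', by rw [GSup_atomPerm_mul]; exact GSup_isAut_mul h h'⟩
  inv_mem' := by
    rintro π ⟨τ, h⟩
    exact ⟨τ⁻¹, by rw [GSup_atomPerm_inv]; exact GSup_isAut_inv h⟩

theorem GSup_stab_le (g : G) : GSup_stab C g ≤ GSup_syms C := by
  rintro π ⟨τ, h, -⟩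
  exact ⟨τ, h⟩

theorem GSup_relIndex_le [Fintype G] (g : G) :
    (GSup_stab C g).relIndex (GSup_syms C) ≤ Fintype.card G := by
  have hsym' : ∀ π : GSup_syms C, ∃ τ, C.IsAut (atomPerm ar (π : Perm V)) τ := fun π => π.2
  choose τ hE using hsym'
  have hinj : Function.Injective
      (fun q : GSup_syms C ⧸ (GSup_stab C g).subgroupOf (GSup_syms C) => τ q.out g) := by
    intro q q' hqq
    have hqq' : τ q.out g = τ q'.out g := hqq
    have h1 : (q.out)⁻¹ * q'.out ∈ (GSup_stab C g).subgroupOf (GSup_syms C) := by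
      refine ⟨(τ q.out)⁻¹ * τ q'.out, ?_, ?_⟩
      · have h2 := GSup_isAut_mul (GSup_isAut_inv (hE q.out)) (hE q'.out)
        rw [← GSup_atomPerm_inv, ← GSup_atomPerm_mul] at h2
        exact h2
      · rw [Perm.mul_apply, ← hqq']
        exact (τ q.out).symm_apply_apply g
    have h2 := QuotientGroup.eq.mpr h1
    rwa [QuotientGroup.out_eq', QuotientGroup.out_eq'] at h2
  have h3 := Nat.card_le_card_of_injective _ hinj
  rw [Subgroup.relIndex, Subgroup.index_eq_card]
  simpa using h3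

theorem GSup_index_lt [Fintype V] [DecidableEq V] [Fintype G] {k : ℕ}
    (hs : Fintype.card G * (Fintype.card V).factorial <
      (Fintype.card V).choose k * Nat.card {ρ : Perm V // IsSymm C ρ}) (g : G) :
    (GSup_stab C g).index < (Fintype.card V).choose k := by
  have h1 : (GSup_stab C g).relIndex (GSup_syms C) * (GSup_syms C).index =
      (GSup_stab C g).index := Subgroup.relIndex_mul_index (GSup_stab_le C g)
  have h2 : Nat.card (GSup_syms C) * (GSup_syms C).index = (Fintype.card V).factorial := by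
    rw [(GSup_syms C).card_mul_index, Nat.card_eq_fintype_card, Fintype.card_perm]
  have h3 : Nat.card {ρ : Perm V // IsSymm C ρ} = Nat.card (GSup_syms C) := rfl
  rw [h3, ← h2] at hs
  have h4 : Nat.card (GSup_syms C) * (Fintype.card G * (GSup_syms C).index) <
      Nat.card (GSup_syms C) * (Fintype.card V).choose k := by
    calc _ = Fintype.card G * (Nat.card (GSup_syms C) * (GSup_syms C).index) := by ring
      _ < _ := hs
      _ = _ := by ring
  have h5 := Nat.lt_of_mul_lt_mul_left h4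
  rw [← h1]
  exact lt_of_le_of_lt (Nat.mul_le_mul_right _ (GSup_relIndex_le C g)) h5

end groups

/-- In a small circuit with many symmetries every gate is fixed by the even permutations fixing few
points (`St_GSup`), from the theorem on subgroups of small index (`St_SupA`). -/
theorem thm_GSup (hS : St_SupA) : St_GSup := by
  intro σ V G P T ar _ _ _ C k hk hV hs g
  obtain ⟨X, hX, h⟩ := hS V (GSup_stab C g) k hk hV (GSup_index_lt C hs g)
  exact ⟨X, hX, fun e he hf => h e he hf⟩

end Pool.Agent.SYH
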