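import Pool.Agent.SYH.StB

/-!
# The partition function depends only on the total charge
-/

set_option autoImplicit false

namespace Pool.Agent.SYH

section
variable {n d p : ℕ} [NeZero p] (π : Fin d → Equiv.Perm (Fin n)) {X : Type} [Fintype X]
  (F : Vx n → (Fin d → X) → ℕ)

/-- only the charges of the vertices matter -/
theorem Gauge_slot (h h' : Chg n d p) (e : ∀ C, ∑ j, h C j = ∑ j, h' C j) :
    ZZ π F h = ZZ π F h' := by
  unfold ZZ
  refine Finset.sum_congr rfl fun s _ => Finset.prod_congr rfl fun C _ => ?_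
  have hs : ∑ j, (h C - h' C) j = 0 := by
    simp only [Pi.sub_apply, Finset.sum_sub_distrib, e C, sub_self]
  let E : Slot d p ≃ Slot d p :=
    { toFun := fun S => ⟨S.1 + (h C - h' C), by
        simp only [Pi.add_apply, Finset.sum_add_distrib, S.2, hs, add_zero]⟩
      invFun := fun S => ⟨S.1 - (h C - h' C), by
        have h2 : ∑ j, (S.1 - (h C - h' C)) j = ∑ j, S.1 j - ∑ j, (h C - h' C) j := by
          rw [← Finset.sum_sub_distrib]
          rfl
        rw [h2, S.2, hs, sub_zero]⟩
      left_inv := fun S => Subtype.ext (add_sub_cancel_right _ _)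
      right_inv := fun S => Subtype.ext (sub_add_cancel _ _) }
  refine Fintype.prod_equiv E _ _ fun S => ?_
  congr 1
  funext j
  congr 1
  change S.1 j + h C j = S.1 j + (h C j - h' C j) + h' C j
  ring

/-- a change at both ends of the edges -/
theorem Gauge_edge (h : Chg n d p) (γ : Fin n × Fin d → ZMod p) :
    ZZ π F (fun C j => h C j + γ (edgeAt π C j)) = ZZ π F h := by
  unfold ZZ
  let E : (Fin n × Fin d → ZMod p → X) ≃ (Fin n × Fin d → ZMod p → X) :=
    { toFun := fun s e α => s e (α + γ e)
      invFun := fun s e α => s e (α - γ e)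
      left_inv := fun s => by
        funext e α
        simp
      right_inv := fun s => by
        funext e α
        simp }
  refine Fintype.sum_equiv E _ _ fun s => ?_
  refine Finset.prod_congr rfl fun C _ => Finset.prod_congr rfl fun S _ => ?_
  congr 1
  funext j
  change s (edgeAt π C j) (S.1 j + (h C j + γ (edgeAt π C j))) =
    s (edgeAt π C j) (S.1 j + h C j + γ (edgeAt π C j))
  rw [add_assoc]

/-- the incidence homomorphism -/
def Gauge_inc : (Fin n × Fin d → ZMod p) →+ (Vx n → ZMod p) where
  toFun γ C := ∑ j, γ (edgeAt π C j)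
  map_zero' := by
    funext C
    simp
  map_add' γ γ' := by
    funext C
    simp [Finset.sum_add_distrib]

/-- the signs of the sides -/
def Gauge_sg (C : Vx n) : ZMod p := if C.1 then -1 else 1

omit [NeZero p] in
theorem Gauge_sg_mul (C : Vx n) : (Gauge_sg C : ZMod p) * Gauge_sg C = 1 := by
  unfold Gauge_sg
  split_ifs <;> simp

/-- the signed charge `c` at the vertex `C` -/
def Gauge_pt (C : Vx n) (c : ZMod p) : Vx n → ZMod p := Pi.single C (Gauge_sg C * c)

omit [NeZero p] in
theorem Gauge_edge_ft (i : Fin n) (j : Fin d) (i' : Fin n)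
    (e : edgeAt π (false, i) j = edgeAt π (true, i') j) (c : ZMod p) :
    Gauge_pt (false, i) c - Gauge_pt (true, i') c ∈ (Gauge_inc (p := p) π).range := by
  have e1 : i = (π j).symm i' := congrArg Prod.fst e
  subst e1
  refine ⟨Pi.single ((π j).symm i', j) c, ?_⟩
  funext C
  change ∑ k, (Pi.single ((π j).symm i', j) c : Fin n × Fin d → ZMod p) (edgeAt π C k) = _
  rw [Finset.sum_eq_single j]
  · obtain ⟨b, i2⟩ := C
    cases b with
    | false =>
      have h1 : edgeAt π (false, i2) j = (i2, j) := rfl
      rw [h1]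
      simp only [Gauge_pt, Gauge_sg, Pi.sub_apply, Pi.single_apply, Prod.mk.injEq]
      simp
    | true =>
      have h1 : edgeAt π (true, i2) j = ((π j).symm i2, j) := rfl
      rw [h1]
      simp only [Gauge_pt, Gauge_sg, Pi.sub_apply, Pi.single_apply, Prod.mk.injEq]
      by_cases h2 : i2 = i' <;> simp [h2]
  · intro k _ hk
    rw [Pi.single_apply, if_neg]
    intro h
    exact hk (congrArg Prod.snd h)
  · intro h
    exact absurd (Finset.mem_univ j) h

theorem Gauge_adj (C C' : Vx n) (h : Adj π C C') (c : ZMod p) :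
    Gauge_pt C c - Gauge_pt C' c ∈ (Gauge_inc (p := p) π).range := by
  obtain ⟨j, e⟩ := h
  obtain ⟨b, i⟩ := C
  obtain ⟨b', i'⟩ := C'
  cases b with
  | false =>
    cases b' with
    | false =>
      have h1 : i = i' := congrArg Prod.fst e
      rw [h1, sub_self]
      exact AddSubgroup.zero_mem _
    | true => exact Gauge_edge_ft π i j i' e c
  | true =>
    cases b' with
    | false =>
      rw [← neg_sub]
      exact AddSubgroup.neg_mem _ (Gauge_edge_ft π i' j i e.symm c)
    | true =>
      have h1 : (π j).symm i = (π j).symm i' := congrArg Prod.fst e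
      rw [(π j).symm.injective h1, sub_self]
      exact AddSubgroup.zero_mem _

theorem Gauge_conn (C C' : Vx n) (h : Relation.ReflTransGen (Adj π) C C') (c : ZMod p) :
    Gauge_pt C c - Gauge_pt C' c ∈ (Gauge_inc (p := p) π).range := by
  induction h with
  | refl =>
    rw [sub_self]
    exact AddSubgroup.zero_mem _
  | tail _ h2 ih =>
    have := AddSubgroup.add_mem _ ih (Gauge_adj π _ _ h2 c)
    rwa [sub_add_sub_cancel] at this

omit [NeZero p] in
theorem Gauge_pt_sum (C : Vx n) (f : Vx n → ZMod p) :
    ∑ C', Gauge_pt C (f C') = Gauge_pt C (∑ C', f C') := by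
  funext D
  rw [Finset.sum_apply]
  simp only [Gauge_pt, Pi.single_apply]
  split_ifs
  · rw [Finset.mul_sum]
  · simp

/-- charges with total zero come from the edges -/
theorem Gauge_range (hc : Conn π) (μ : Vx n → ZMod p) (h0 : ∑ C, Gauge_sg C * μ C = 0) :
    μ ∈ (Gauge_inc (p := p) π).range := by
  rcases isEmpty_or_nonempty (Vx n) with hE | ⟨⟨C0⟩⟩
  · have : μ = 0 := Subsingleton.elim _ _
    rw [this]
    exact AddSubgroup.zero_mem _
  · have h1 : μ = ∑ C, (Gauge_pt C (Gauge_sg C * μ C) - Gauge_pt C0 (Gauge_sg C * μ C)) := by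
      rw [Finset.sum_sub_distrib, Gauge_pt_sum, h0]
      have h2 : (Gauge_pt C0 (0 : ZMod p) : Vx n → ZMod p) = 0 := by
        simp [Gauge_pt]
      rw [h2, sub_zero]
      funext D
      rw [Finset.sum_apply]
      simp only [Gauge_pt, ← mul_assoc, Gauge_sg_mul, one_mul]
      rw [Finset.sum_pi_single]
      simp
    rw [h1]
    exact AddSubgroup.sum_mem _ fun C _ => Gauge_conn π C C0 (hc C C0) _

end

theorem thm_Gauge : St_Gauge := by
  intro n d p _ π X _ F h h' _ hc ht
  obtain ⟨γ, hγ⟩ := Gauge_range π hc (fun C => ∑ j, h' C j - ∑ j, h C j) (by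
    simp only [mul_sub, Finset.sum_sub_distrib]
    have h1 : ∑ C, Gauge_sg C * ∑ j, h' C j = total h' := rfl
    have h2 : ∑ C, Gauge_sg C * ∑ j, h C j = total h := rfl
    rw [h1, h2, ht, sub_self])
  rw [← Gauge_edge π F h γ]
  refine Gauge_slot π F _ _ fun C => ?_
  have := congrFun hγ C
  change ∑ j, γ (edgeAt π C j) = ∑ j, h' C j - ∑ j, h C j at this
  rw [Finset.sum_add_distrib, this]
  ring

end Pool.Agent.SYH
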