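import Pool.Agent.SYH.StB

/-!
# A combination of the differences is a product
-/

set_option autoImplicit false

namespace Pool.Agent.SYH

open Finset

/-- Lagrange: a combination of the powers `z, z ^ 2, ..` which is the indicator of `lam` -/
theorem Local_lag (L : Finset ℚ) (lam : ℚ) (hl : lam ≠ 0) :
    ∃ (r : ℕ) (q : Fin r → ℚ), ∀ z ∈ L,
      ∑ i, q i * z ^ ((i : ℕ) + 1) = if z = lam then 1 else 0 := by
  classical
  let R : Polynomial ℚ := ∏ z ∈ L.erase lam, (Polynomial.X - Polynomial.C z)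
  have hRl : R.eval lam ≠ 0 := by
    simp only [R]
    rw [Polynomial.eval_prod, Finset.prod_ne_zero_iff]
    intro z hz
    rw [Polynomial.eval_sub, Polynomial.eval_X, Polynomial.eval_C, sub_ne_zero]
    exact (Finset.ne_of_mem_erase hz).symm
  refine ⟨R.natDegree + 1, fun i => R.coeff i / (lam * R.eval lam), fun z hz => ?_⟩
  have h1 : ∑ i : Fin (R.natDegree + 1), R.coeff i / (lam * R.eval lam) * z ^ ((i : ℕ) + 1) =
      z * R.eval z / (lam * R.eval lam) := by
    rw [Polynomial.eval_eq_sum_range (p := R) z, Finset.mul_sum, Finset.sum_div]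
    rw [← Fin.sum_univ_eq_sum_range
      (fun i => z * (R.coeff i * z ^ i) / (lam * R.eval lam)) (R.natDegree + 1)]
    refine Finset.sum_congr rfl fun i _ => ?_
    rw [pow_succ]
    ring
  rw [h1]
  split_ifs with h
  · rw [h]
    exact div_self (mul_ne_zero hl hRl)
  · have h2 : R.eval z = 0 := by
      simp only [R]
      rw [Polynomial.eval_prod]
      refine Finset.prod_eq_zero (Finset.mem_erase.2 ⟨h, hz⟩) ?_
      rw [Polynomial.eval_sub, Polynomial.eval_X, Polynomial.eval_C, sub_self]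
    rw [h2, mul_zero, zero_div]

theorem Local_expand {T W : Type} [Fintype T] [DecidableEq T] [Fintype W] (c : T → W → ℚ)
    (g : W → ℚ) (t : ℕ) :
    ∏ S, ∑ w, c S w * g w ^ t =
      ∑ w : T → W, (∏ S, c S (w S)) * (∏ S, g (w S)) ^ t := by
  rw [Finset.prod_univ_sum, Fintype.piFinset_univ]
  refine Finset.sum_congr rfl fun w _ => ?_
  rw [Finset.prod_mul_distrib, Finset.prod_pow]

section

variable {W : Type}

/-- the column of `w` is proportional to the one of `w₁` -/
def Local_pr (M : W → W → ℕ) (w₁ w : W) : Prop := ∀ s, M s w * M w₁ w₁ = M s w₁ * M w₁ w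

variable [Fintype W] [DecidableEq W] {M : W → W → ℕ} {g : W → ℕ} {w₁ w₂ : W}

omit [Fintype W] [DecidableEq W] in
open Classical in
theorem Local_ind (hP : Peak M g w₁ w₂) {T : Type} [Fintype T] [DecidableEq T] (m : ℕ)
    (hm : Fintype.card T = m + 1) (w : T → W) :
    (if (∏ S, g (w S)) = g w₁ ^ m * g w₂ ∧ ¬ ∀ S, Local_pr M w₁ (w S) then (1 : ℚ) else 0) =
      ∑ S₀, ∏ S, if S = S₀ then (if g (w S) = g w₂ ∧ ¬ Local_pr M w₁ (w S) then (1 : ℚ) else 0)
        else (if g (w S) = g w₁ then (1 : ℚ) else 0) := by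
  have hbd : ∀ S₀ : T, ∏ S, (if S = S₀ then g w₂ else g w₁) = g w₁ ^ m * g w₂ := by
    intro S₀
    rw [← Finset.mul_prod_erase univ _ (mem_univ S₀), if_pos rfl, mul_comm]
    congr 1
    rw [Finset.prod_congr rfl (g := fun _ => g w₁) fun S hS => if_neg (Finset.ne_of_mem_erase hS),
      Finset.prod_const, Finset.card_erase_of_mem (mem_univ _), Finset.card_univ, hm,
      Nat.add_sub_cancel]
  have hpos1 : 0 < g w₁ := lt_trans hP.pos hP.lt
  split_ifs with h
  · obtain ⟨h1, h2⟩ := h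
    obtain ⟨S₀, h3⟩ := not_forall.1 h2
    have h4 : ∃ s, M s (w S₀) * M w₁ w₁ ≠ M s w₁ * M w₁ (w S₀) := not_forall.1 h3
    have hne : ∏ S, g (w S) ≠ 0 := by
      rw [h1]
      exact mul_ne_zero (pow_ne_zero _ hpos1.ne') hP.pos.ne'
    have h5 : ∀ S, 0 < g (w S) := fun S =>
      Nat.pos_of_ne_zero ((Finset.prod_ne_zero_iff.1 hne) S (mem_univ S))
    have h6 : ∀ S, g (w S) ≤ if S = S₀ then g w₂ else g w₁ := by
      intro S
      split_ifs with hS
      · rw [hS]
        exact (hP.second _ h4).1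
      · exact (hP.top _).1
    have h7 : ∀ S, g (w S) = if S = S₀ then g w₂ else g w₁ := by
      intro S
      by_contra hc
      have := Finset.prod_lt_prod (s := univ) (f := fun S => g (w S))
        (g := fun S => if S = S₀ then g w₂ else g w₁) (fun S _ => h5 S) (fun S _ => h6 S)
        ⟨S, mem_univ S, lt_of_le_of_ne (h6 S) hc⟩
      rw [hbd S₀, h1] at this
      exact lt_irrefl _ this
    symm
    rw [Finset.sum_eq_single S₀]
    · refine Finset.prod_eq_one fun S _ => ?_
      split_ifs with hS h8 h8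
      · rfl
      · refine absurd ?_ h8
        rw [hS]
        refine ⟨?_, h3⟩
        rw [h7, if_pos rfl]
      · rfl
      · refine absurd ?_ h8
        rw [h7, if_neg hS]
    · intro S₁ _ hS₁
      refine Finset.prod_eq_zero (mem_univ S₁) ?_
      rw [if_pos rfl, if_neg]
      rintro ⟨h8, -⟩
      rw [h7, if_neg hS₁] at h8
      exact hP.lt.ne' h8
    · intro h8
      exact absurd (mem_univ _) h8
  · symm
    refine Finset.sum_eq_zero fun S₀ _ => ?_
    by_contra hc
    have h1 := Finset.prod_ne_zero_iff.1 hc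
    have h2 : g (w S₀) = g w₂ ∧ ¬ Local_pr M w₁ (w S₀) := by
      by_contra h3
      refine h1 S₀ (mem_univ _) ?_
      rw [if_pos rfl, if_neg h3]
    have h3 : ∀ S, S ≠ S₀ → g (w S) = g w₁ := by
      intro S hS
      by_contra h4
      refine h1 S (mem_univ _) ?_
      rw [if_neg hS, if_neg h4]
    refine h ⟨?_, fun h4 => h2.2 (h4 S₀)⟩
    rw [← hbd S₀]
    refine Finset.prod_congr rfl fun S _ => ?_
    split_ifs with hS
    · rw [hS]
      exact h2.1
    · exact h3 S hS

/-- the contribution of the proportional families -/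
noncomputable def Local_K (M : W → W → ℕ) (g : W → ℕ) (w₁ : W) (lam d : ℕ) (T : Type) [Fintype T]
    [DecidableEq T] : ℚ := by
  classical
  exact ∑ w : T → W, if (∏ S, g (w S)) = lam ∧ ∀ S, Local_pr M w₁ (w S) then
    ∏ S, ((M w₁ (w S) : ℚ) / M w₁ w₁) ^ d else 0

omit [DecidableEq W] in
theorem Local_K_congr (M : W → W → ℕ) (g : W → ℕ) (w₁ : W) (lam d : ℕ) {T T' : Type} [Fintype T]
    [DecidableEq T] [Fintype T'] [DecidableEq T'] (e : T ≃ T') :
    Local_K M g w₁ lam d T = Local_K M g w₁ lam d T' := by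
  classical
  unfold Local_K
  refine Fintype.sum_equiv (e.arrowCongr (Equiv.refl W)) _ _ fun w => ?_
  have h1 : ∏ S, g (w S) = ∏ S', g ((e.arrowCongr (Equiv.refl W)) w S') :=
    Fintype.prod_equiv e _ _ fun S => by simp
  have h2 : ∏ S, ((M w₁ (w S) : ℚ) / M w₁ w₁) ^ d =
      ∏ S', ((M w₁ ((e.arrowCongr (Equiv.refl W)) w S') : ℚ) / M w₁ w₁) ^ d :=
    Fintype.prod_equiv e _ _ fun S => by simp
  have h3 : (∀ S, Local_pr M w₁ (w S)) ↔
      ∀ S', Local_pr M w₁ ((e.arrowCongr (Equiv.refl W)) w S') := by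
    constructor
    · intro h S'
      exact h _
    · intro h S
      simpa using h (e S)
  rw [h1, h2]
  simp only [h3]

omit [Fintype W] [DecidableEq W] in
theorem Local_diag (hP : Peak M g w₁ w₂) : M w₁ w₁ ≠ 0 := by
  rw [hP.block w₂ w₁ hP.mem, hP.symm]
  exact hP.mem

omit [Fintype W] [DecidableEq W] in
theorem Local_zero (hP : Peak M g w₁ w₂) (s : W) (h : M s w₁ = 0) : M s w₂ = 0 := by
  by_contra hc
  rw [hP.symm] at hc h
  exact (hP.block w₂ s hP.mem).2 hc h

/-- the quotient of the two columns -/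
noncomputable def Local_rho (M : W → W → ℕ) (w₁ w₂ s : W) : ℚ := (M s w₂ : ℚ) / M s w₁

omit [Fintype W] [DecidableEq W] in
theorem Local_rho_mul (hP : Peak M g w₁ w₂) (s : W) :
    (M s w₂ : ℚ) = M s w₁ * Local_rho M w₁ w₂ s := by
  unfold Local_rho
  by_cases h : M s w₁ = 0
  · rw [h, Local_zero hP s h]
    simp
  · field_simp

omit [DecidableEq W] in
open Classical in
theorem Local_sum (hP : Peak M g w₁ w₂) {T : Type} [Fintype T] [DecidableEq T] (m : ℕ)
    (hm : Fintype.card T = m + 1) (d : ℕ) (x : T → Fin d → W) :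
    ∑ w : T → W, (∏ S, ∏ j, (M (x S j) (w S) : ℚ)) *
        (if (∏ S, g (w S)) = g w₁ ^ m * g w₂ then (1 : ℚ) else 0) =
      (∏ S, ∏ j, (M (x S j) w₁ : ℚ)) * (Local_K M g w₁ (g w₁ ^ m * g w₂) d T +
        ((univ.filter fun w => g w = g w₂ ∧ ¬ Local_pr M w₁ w).card *
          (univ.filter fun w => g w = g w₁).card ^ m : ℚ) *
          ∑ S, ∏ j, Local_rho M w₁ w₂ (x S j)) := by
  have hM : (M w₁ w₁ : ℚ) ≠ 0 := Nat.cast_ne_zero.2 (Local_diag hP)
  have hsplit : ∀ w : T → W, (if (∏ S, g (w S)) = g w₁ ^ m * g w₂ then (1 : ℚ) else 0) =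
      (if (∏ S, g (w S)) = g w₁ ^ m * g w₂ ∧ ∀ S, Local_pr M w₁ (w S) then (1 : ℚ) else 0) +
      (if (∏ S, g (w S)) = g w₁ ^ m * g w₂ ∧ ¬ ∀ S, Local_pr M w₁ (w S) then (1 : ℚ) else 0) := by
    intro w
    by_cases h1 : (∏ S, g (w S)) = g w₁ ^ m * g w₂ <;>
      by_cases h2 : ∀ S, Local_pr M w₁ (w S) <;> simp [h1, h2]
  simp only [hsplit, mul_add]
  rw [Finset.sum_add_distrib]
  congr 1
  · unfold Local_K
    rw [Finset.mul_sum]
    refine Finset.sum_congr rfl fun w _ => ?_
    split_ifs with h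
    · rw [mul_one, ← Finset.prod_mul_distrib]
      refine Finset.prod_congr rfl fun S _ => ?_
      have h1 : ∀ j, (M (x S j) (w S) : ℚ) = M (x S j) w₁ * ((M w₁ (w S) : ℚ) / M w₁ w₁) := by
        intro j
        have h2 := h.2 S (x S j)
        have h3 : (M (x S j) (w S) : ℚ) * M w₁ w₁ = M (x S j) w₁ * M w₁ (w S) := by
          exact_mod_cast h2
        rw [mul_div_assoc', eq_div_iff hM, h3]
      rw [Finset.prod_congr rfl fun j _ => h1 j, Finset.prod_mul_distrib, Finset.prod_const,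
        Finset.card_univ, Fintype.card_fin]
    · rw [mul_zero, mul_zero]
  · have h1 : ∀ w : T → W, (∏ S, ∏ j, (M (x S j) (w S) : ℚ)) *
        (if (∏ S, g (w S)) = g w₁ ^ m * g w₂ ∧ ¬ ∀ S, Local_pr M w₁ (w S) then (1 : ℚ) else 0) =
        ∑ S₀, ∏ S, ((∏ j, (M (x S j) (w S) : ℚ)) *
          if S = S₀ then (if g (w S) = g w₂ ∧ ¬ Local_pr M w₁ (w S) then (1 : ℚ) else 0)
            else (if g (w S) = g w₁ then (1 : ℚ) else 0)) := by
      intro w
      rw [Local_ind hP m hm w, Finset.mul_sum]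
      refine Finset.sum_congr rfl fun S₀ _ => ?_
      rw [Finset.prod_mul_distrib]
    rw [Finset.sum_congr rfl fun w _ => h1 w, Finset.sum_comm, ← mul_assoc, Finset.mul_sum]
    refine Finset.sum_congr rfl fun S₀ _ => ?_
    have h2 := Finset.prod_univ_sum (fun _ : T => (univ : Finset W)) fun S w =>
      (∏ j, (M (x S j) w : ℚ)) *
          if S = S₀ then (if g w = g w₂ ∧ ¬ Local_pr M w₁ w then (1 : ℚ) else 0)
            else (if g w = g w₁ then (1 : ℚ) else 0)
    rw [Fintype.piFinset_univ] at h2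
    rw [← h2]
    have h3 : ∀ S, ∑ w, (∏ j, (M (x S j) w : ℚ)) *
          (if S = S₀ then (if g w = g w₂ ∧ ¬ Local_pr M w₁ w then (1 : ℚ) else 0)
            else (if g w = g w₁ then (1 : ℚ) else 0)) =
        (∏ j, (M (x S j) w₁ : ℚ)) * if S = S₀ then
          ((univ.filter fun w => g w = g w₂ ∧ ¬ Local_pr M w₁ w).card : ℚ) *
            ∏ j, Local_rho M w₁ w₂ (x S₀ j)
          else ((univ.filter fun w => g w = g w₁).card : ℚ) := by
      intro S
      by_cases hS : S = S₀
      · simp only [hS, if_true]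
        have h4 : ∀ w, (∏ j, (M (x S₀ j) w : ℚ)) *
            (if g w = g w₂ ∧ ¬ Local_pr M w₁ w then (1 : ℚ) else 0) =
            (∏ j, (M (x S₀ j) w₂ : ℚ)) *
            (if g w = g w₂ ∧ ¬ Local_pr M w₁ w then (1 : ℚ) else 0) := by
          intro w
          split_ifs with h5
          · have h6 : ∃ s, M s w * M w₁ w₁ ≠ M s w₁ * M w₁ w := not_forall.1 h5.2
            have h7 := (hP.second w h6).2 h5.1
            simp only [h7]
          · rw [mul_zero, mul_zero]
        rw [Finset.sum_congr rfl fun w _ => h4 w, ← Finset.mul_sum, Finset.sum_boole]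
        rw [Finset.prod_congr rfl fun j _ => Local_rho_mul hP (x S₀ j), Finset.prod_mul_distrib]
        ring
      · simp only [if_neg hS]
        have h4 : ∀ w, (∏ j, (M (x S j) w : ℚ)) * (if g w = g w₁ then (1 : ℚ) else 0) =
            (∏ j, (M (x S j) w₁ : ℚ)) * (if g w = g w₁ then (1 : ℚ) else 0) := by
          intro w
          split_ifs with h5
          · have h7 := (hP.top w).2 h5
            simp only [h7]
          · rw [mul_zero, mul_zero]
        rw [Finset.sum_congr rfl fun w _ => h4 w, ← Finset.mul_sum, Finset.sum_boole]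
    rw [Finset.prod_congr rfl fun S _ => h3 S, Finset.prod_mul_distrib, mul_assoc]
    congr 1
    rw [← Finset.mul_prod_erase univ _ (mem_univ S₀), if_pos rfl]
    rw [Finset.prod_congr rfl
      (g := fun _ => ((univ.filter fun w => g w = g w₁).card : ℚ))
      fun S hS => if_neg (Finset.ne_of_mem_erase hS), Finset.prod_const,
      Finset.card_erase_of_mem (mem_univ _), Finset.card_univ, hm, Nat.add_sub_cancel]
    ring

end

/-! ### the slots -/

/-- the number of the slots of charge `b` with `S j = a` -/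
theorem Local_card_aux (d : ℕ) (j j' : Fin d) (hj : j' ≠ j) (a b : ZMod 2) :
    (univ.filter fun S : Fin d → ZMod 2 => ∑ i, S i = b ∧ S j = a).card = 2 ^ (d - 2) := by
  classical
  have hsh : ∀ (c e : ZMod 2), (univ.filter fun S : Fin d → ZMod 2 =>
      ∑ i, S i = b ∧ S j = a).card = (univ.filter fun S : Fin d → ZMod 2 =>
      ∑ i, S i = b + c ∧ S j = a + e).card := by
    intro c e
    let v : Fin d → ZMod 2 := Pi.single j e + Pi.single j' (c - e)
    have hv : ∑ i, v i = c := by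
      simp only [v, Pi.add_apply, Finset.sum_add_distrib, Finset.sum_pi_single', mem_univ, if_true]
      ring
    have hvj : v j = e := by
      simp only [v, Pi.add_apply, Pi.single_eq_same, Pi.single_eq_of_ne hj.symm, add_zero]
    refine Finset.card_equiv (Equiv.addRight v) fun S => ?_
    simp only [mem_filter, mem_univ, true_and, Equiv.coe_addRight, Pi.add_apply,
      Finset.sum_add_distrib, hv, hvj, add_left_inj]
  have h1 : (univ : Finset (Fin d → ZMod 2)).card = ∑ p : ZMod 2 × ZMod 2,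
      (univ.filter fun S : Fin d → ZMod 2 => ∑ i, S i = p.1 ∧ S j = p.2).card := by
    rw [Finset.card_eq_sum_card_fiberwise (f := fun S : Fin d → ZMod 2 => (∑ i, S i, S j))
      (t := univ) fun _ _ => mem_coe.2 (mem_univ _)]
    refine Finset.sum_congr rfl fun p _ => ?_
    congr 1
    ext S
    simp only [mem_filter, mem_univ, true_and, Prod.ext_iff]
  have h2 : ∀ p : ZMod 2 × ZMod 2,
      (univ.filter fun S : Fin d → ZMod 2 => ∑ i, S i = p.1 ∧ S j = p.2).card =
      (univ.filter fun S : Fin d → ZMod 2 => ∑ i, S i = b ∧ S j = a).card := by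
    intro p
    rw [hsh (p.1 - b) (p.2 - a), add_sub_cancel, add_sub_cancel]
  rw [Finset.sum_congr rfl fun p _ => h2 p, Finset.sum_const, Finset.card_univ, Finset.card_univ,
    Fintype.card_fun, Fintype.card_prod, ZMod.card, Fintype.card_fin, smul_eq_mul] at h1
  have hd : 2 ≤ d := by
    have := j.2
    have := j'.2
    have h3 : (j : ℕ) ≠ j' := fun h => hj (Fin.ext h.symm)
    omega
  obtain ⟨e, rfl⟩ := Nat.exists_eq_add_of_le hd
  have h4 : 2 ^ (2 + e) = 4 * 2 ^ e := by ring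
  rw [h4] at h1
  rw [Nat.add_sub_cancel_left]
  omega

theorem Local_univ : (univ : Finset (ZMod 2)) = {0, 1} := by decide

theorem Local_prod (d : ℕ) (hd : 2 ≤ d) (b : ZMod 2) (j : Fin d) (h : ZMod 2 → ℚ) :
    ∏ S : {S : Fin d → ZMod 2 // ∑ i, S i = b}, h (S.1 j) = (h 0 * h 1) ^ 2 ^ (d - 2) := by
  classical
  have : Nontrivial (Fin d) := Fin.nontrivial_iff_two_le.2 hd
  obtain ⟨j', hj⟩ := exists_ne j
  rw [← Finset.prod_subtype (univ.filter fun S : Fin d → ZMod 2 => ∑ i, S i = b)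
    (by simp) fun S => h (S j),
    ← Finset.prod_fiberwise (univ.filter fun S : Fin d → ZMod 2 => ∑ i, S i = b) (fun S => S j)]
  have h1 : ∀ a : ZMod 2, ∏ S ∈ (univ.filter fun S : Fin d → ZMod 2 => ∑ i, S i = b) with S j = a,
      h (S j) = h a ^ 2 ^ (d - 2) := by
    intro a
    rw [Finset.filter_filter, Finset.prod_congr rfl (g := fun _ => h a) fun S hS => by
      rw [(mem_filter.1 hS).2.2], Finset.prod_const, Local_card_aux d j j' hj]
  rw [Finset.prod_congr rfl fun a _ => h1 a, Local_univ, Finset.prod_pair (by decide), mul_pow]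

theorem Local_card (d : ℕ) (hd : 2 ≤ d) (b : ZMod 2) :
    Fintype.card {S : Fin d → ZMod 2 // ∑ i, S i = b} = (2 ^ (d - 1) - 1) + 1 := by
  classical
  have : Nontrivial (Fin d) := Fin.nontrivial_iff_two_le.2 hd
  obtain ⟨j, -⟩ : ∃ j : Fin d, True := ⟨⟨0, by omega⟩, trivial⟩
  obtain ⟨j', hj⟩ := exists_ne j
  rw [Fintype.card_subtype, Finset.card_eq_sum_card_fiberwise
    (f := fun S : Fin d → ZMod 2 => S j) (t := univ) fun _ _ => mem_coe.2 (mem_univ _)]
  simp only [Finset.filter_filter, Local_card_aux d j j' hj]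
  rw [Finset.sum_const, Finset.card_univ, ZMod.card, smul_eq_mul]
  obtain ⟨e, rfl⟩ := Nat.exists_eq_add_of_le hd
  have h1 : 2 + e - 1 = e + 1 := by omega
  have h2 : 0 < 2 ^ e := by positivity
  rw [h1, Nat.add_sub_cancel_left, pow_succ]
  omega

theorem Local_alt (d : ℕ) (f : Fin d → ZMod 2 → ℚ) :
    ∑ S : {S : Fin d → ZMod 2 // ∑ i, S i = 0}, ∏ j, f j (S.1 j) -
      ∑ S : {S : Fin d → ZMod 2 // ∑ i, S i = 1}, ∏ j, f j (S.1 j) =
    ∏ j, (f j 0 - f j 1) := by
  classical
  let sg : ZMod 2 → ℚ := fun b => if b = 0 then 1 else -1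
  have h3 : sg 0 = 1 := if_pos rfl
  have h4 : sg 1 = -1 := if_neg (by decide)
  have hmul : ∀ a b : ZMod 2, sg (a + b) = sg a * sg b := by
    have h5 : ∀ a : ZMod 2, a = 0 ∨ a = 1 := by decide
    have h6 : (1 + 1 : ZMod 2) = 0 := by decide
    intro a b
    rcases h5 a with rfl | rfl <;> rcases h5 b with rfl | rfl <;> simp [h3, h4, h6]
  have hsum : ∀ (s : Finset (Fin d)) (S : Fin d → ZMod 2),
      ∏ j ∈ s, sg (S j) = sg (∑ j ∈ s, S j) := by
    intro s S
    induction s using Finset.induction_on with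
    | empty => simp [h3]
    | insert a s ha ih => rw [Finset.prod_insert ha, Finset.sum_insert ha, ih, hmul]
  have h7 : ∀ j, f j 0 - f j 1 = ∑ a : ZMod 2, sg a * f j a := by
    intro j
    rw [Local_univ, Finset.sum_pair (by decide), h3, h4]
    ring
  rw [Finset.prod_congr rfl fun j _ => h7 j, Finset.prod_univ_sum, Fintype.piFinset_univ]
  simp only [Finset.prod_mul_distrib, hsum]
  rw [← Finset.sum_fiberwise (univ : Finset (Fin d → ZMod 2)) (fun S => ∑ i, S i), Local_univ,
    Finset.sum_pair (by decide)]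
  have h8 : ∀ b : ZMod 2, ∑ S : Fin d → ZMod 2 with ∑ i, S i = b,
      sg (∑ j, S j) * ∏ j, f j (S j) =
      sg b * ∑ S : {S : Fin d → ZMod 2 // ∑ i, S i = b}, ∏ j, f j (S.1 j) := by
    intro b
    rw [Finset.mul_sum, ← Finset.sum_subtype (univ.filter fun S : Fin d → ZMod 2 => ∑ i, S i = b)
      (by simp) fun S => sg b * ∏ j, f j (S j)]
    refine Finset.sum_congr rfl fun S hS => ?_
    rw [(mem_filter.1 hS).2]
  rw [h8, h8, h3, h4]
  ring

theorem Local_main {W : Type} [Fintype W] [DecidableEq W] (M : W → W → ℕ) (g : W → ℕ)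
    (d : ℕ) (b : ZMod 2) (x : Fin d → ZMod 2 → W) (t : ℕ) :
    (Phi (star M g t) b x : ℚ) =
      ∑ w : {S : Fin d → ZMod 2 // ∑ i, S i = b} → W,
        (∏ S, ∏ j, (M (x j (S.1 j)) (w S) : ℚ)) * ((∏ S, g (w S) : ℕ) : ℚ) ^ t := by
  classical
  unfold Phi star
  push_cast
  exact Local_expand (T := {S : Fin d → ZMod 2 // ∑ i, S i = b})
    (fun S w => ∏ j, (M (x j (S.1 j)) w : ℚ)) (fun w => (g w : ℚ)) t

/-- the shift of a coordinate -/
def Local_eq (d : ℕ) (hd : 2 ≤ d) :
    {S : Fin d → ZMod 2 // ∑ i, S i = 0} ≃ {S : Fin d → ZMod 2 // ∑ i, S i = 1} :=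
  (Equiv.addRight (Pi.single (⟨0, by omega⟩ : Fin d) (1 : ZMod 2))).subtypeEquiv fun S => by
    simp only [Equiv.coe_addRight, Pi.add_apply, Finset.sum_add_distrib, Finset.sum_pi_single',
      mem_univ, if_true, add_eq_right]

theorem thm_Local : St_Local := by
  intro W _ _ M g w₁ w₂ d hd hP
  classical
  have hM : (M w₁ w₁ : ℚ) ≠ 0 := Nat.cast_ne_zero.2 (Local_diag hP)
  set m : ℕ := 2 ^ (d - 1) - 1 with hm
  set kap : ℚ := ((univ.filter fun w => g w = g w₂ ∧ ¬ Local_pr M w₁ w).card *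
    (univ.filter fun w => g w = g w₁).card ^ m : ℚ) with hkap
  have hk : kap ≠ 0 := by
    refine mul_ne_zero (Nat.cast_ne_zero.2 ?_) (pow_ne_zero _ (Nat.cast_ne_zero.2 ?_))
    · refine (Finset.card_pos.2 ⟨w₂, ?_⟩).ne'
      simp only [mem_filter, mem_univ, true_and]
      exact not_forall.2 hP.bad
    · refine (Finset.card_pos.2 ⟨w₁, ?_⟩).ne'
      simp only [mem_filter, mem_univ, true_and]
  have hpos1 : 0 < g w₁ := lt_trans hP.pos hP.lt
  have hlam : ((g w₁ ^ m * g w₂ : ℕ) : ℚ) ≠ 0 :=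
    Nat.cast_ne_zero.2 (mul_ne_zero (pow_ne_zero _ hpos1.ne') hP.pos.ne')
  obtain ⟨r, q, hq⟩ := Local_lag ((range (g w₁ ^ (m + 1) + 1)).image fun k : ℕ => (k : ℚ))
    ((g w₁ ^ m * g w₂ : ℕ) : ℚ) hlam
  refine ⟨r, fun i => q i / kap, fun y z => ((M y w₁ : ℚ) * M z w₁) ^ 2 ^ (d - 2) *
    (Local_rho M w₁ w₂ y - Local_rho M w₁ w₂ z), ?_, ?_⟩
  · obtain ⟨s, hs⟩ := hP.bad
    refine ⟨s, w₁, ?_⟩
    have hs1 : M s w₁ ≠ 0 := by
      intro h
      refine hs ?_
      rw [h, Local_zero hP s h, zero_mul, zero_mul]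
    have hs1' : (M s w₁ : ℚ) ≠ 0 := Nat.cast_ne_zero.2 hs1
    refine mul_ne_zero (pow_ne_zero _ (mul_ne_zero hs1' hM)) ?_
    rw [sub_ne_zero]
    unfold Local_rho
    intro h
    rw [div_eq_div_iff hs1' hM] at h
    refine hs ?_
    have h' : M s w₂ * M w₁ w₁ = M w₁ w₂ * M s w₁ := by exact_mod_cast h
    rw [h', mul_comm]
  · intro x
    have key : ∀ b : ZMod 2, ∑ i, q i * (Phi (star M g ((i : ℕ) + 1)) b x : ℚ) =
        (∏ j, ((M (x j 0) w₁ : ℚ) * M (x j 1) w₁) ^ 2 ^ (d - 2)) *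
          (Local_K M g w₁ (g w₁ ^ m * g w₂) d {S : Fin d → ZMod 2 // ∑ i, S i = b} +
            kap * ∑ S : {S : Fin d → ZMod 2 // ∑ i, S i = b},
              ∏ j, Local_rho M w₁ w₂ (x j (S.1 j))) := by
      intro b
      have h1 := Local_sum hP (T := {S : Fin d → ZMod 2 // ∑ i, S i = b}) m
        (Local_card d hd b) d fun S j => x j (S.1 j)
      have h2 : ∏ S : {S : Fin d → ZMod 2 // ∑ i, S i = b}, ∏ j, (M (x j (S.1 j)) w₁ : ℚ) =
          ∏ j, ((M (x j 0) w₁ : ℚ) * M (x j 1) w₁) ^ 2 ^ (d - 2) := by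
        rw [Finset.prod_comm]
        refine Finset.prod_congr rfl fun j _ => ?_
        exact Local_prod d hd b j fun a => (M (x j a) w₁ : ℚ)
      rw [h2] at h1
      rw [← h1]
      simp only [Local_main, Finset.mul_sum]
      rw [Finset.sum_comm]
      refine Finset.sum_congr rfl fun w _ => ?_
      have h3 : ((∏ S, g (w S) : ℕ) : ℚ) ∈
          (range (g w₁ ^ (m + 1) + 1)).image fun k : ℕ => (k : ℚ) := by
        refine Finset.mem_image.2 ⟨_, mem_range.2 ?_, rfl⟩
        rw [Nat.lt_succ_iff, ← Local_card d hd b, ← Finset.card_univ, ← Finset.prod_const]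
        exact Finset.prod_le_prod' fun S _ => (hP.top _).1
      have h4 := hq _ h3
      simp only [Nat.cast_inj] at h4
      rw [← h4, Finset.mul_sum]
      refine Finset.sum_congr rfl fun i _ => ?_
      ring
    have h0 := key 0
    have h1 := key 1
    rw [← Local_K_congr M g w₁ (g w₁ ^ m * g w₂) d (Local_eq d hd)] at h1
    have h5 : ∑ i, q i / kap * ((Phi (star M g ((i : ℕ) + 1)) 0 x : ℚ) -
        Phi (star M g ((i : ℕ) + 1)) 1 x) =
        (∑ i, q i * (Phi (star M g ((i : ℕ) + 1)) 0 x : ℚ) -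
          ∑ i, q i * (Phi (star M g ((i : ℕ) + 1)) 1 x : ℚ)) / kap := by
      rw [← Finset.sum_sub_distrib, Finset.sum_div]
      refine Finset.sum_congr rfl fun i _ => ?_
      ring
    rw [h5, h0, h1, Finset.prod_mul_distrib,
      ← Local_alt d fun j a => Local_rho M w₁ w₂ (x j a)]
    field_simp
    ring

end Pool.Agent.SYH
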