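import Pool.Agent.SYH.StB

/-!
# The network feels the charge (template not balanced)
-/

set_option autoImplicit false

namespace Pool.Agent.SYH

open Finset

theorem thm_Net (hS : St_Signed) (hL : St_Local) (hC : St_Contr) : St_Net := by
  classical
  intro W _ _ M g w₁ w₂ d hd hP
  obtain ⟨r, q, u, ⟨x₀, y₀, hu⟩, hq⟩ := hL W M g w₁ w₂ d hd hP
  refine ⟨r, fun n π hπ => ?_⟩
  by_contra hcon
  push Not at hcon
  -- all signed sums vanish
  have hzero : ∀ c : Vx n → Fin r, ∑ s : Fin n × Fin d → ZMod 2 → W, ∏ C : Vx n,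
      ((Phi (star M g (c C + 1)) 0 fun j => s (edgeAt π C j) : ℚ) -
        Phi (star M g (c C + 1)) 1 fun j => s (edgeAt π C j)) = 0 := by
    intro c
    obtain ⟨h, hh, he⟩ := hcon c
    exact hS n d π W (fun C => star M g (c C + 1)) h (by omega) hπ hh he
  have hsum : ∑ s : Fin n × Fin d → ZMod 2 → W, ∏ C : Vx n, ∑ i : Fin r, q i *
      ((Phi (star M g (i + 1)) 0 fun j => s (edgeAt π C j) : ℚ) -
        Phi (star M g (i + 1)) 1 fun j => s (edgeAt π C j)) = 0 := by
    have h1 : ∀ s : Fin n × Fin d → ZMod 2 → W, ∏ C : Vx n, ∑ i : Fin r, q i *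
        ((Phi (star M g (i + 1)) 0 fun j => s (edgeAt π C j) : ℚ) -
          Phi (star M g (i + 1)) 1 fun j => s (edgeAt π C j)) =
        ∑ c : Vx n → Fin r, (∏ C, q (c C)) * ∏ C : Vx n,
          ((Phi (star M g (c C + 1)) 0 fun j => s (edgeAt π C j) : ℚ) -
            Phi (star M g (c C + 1)) 1 fun j => s (edgeAt π C j)) := by
      intro s
      rw [Finset.prod_univ_sum]
      rw [Fintype.piFinset_univ]
      refine Finset.sum_congr rfl fun c _ => ?_
      rw [Finset.prod_mul_distrib]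
    rw [Finset.sum_congr rfl fun s _ => h1 s, Finset.sum_comm]
    refine Finset.sum_eq_zero fun c _ => ?_
    rw [← Finset.mul_sum, hzero c, mul_zero]
  have h2 : ∀ s : Fin n × Fin d → ZMod 2 → W, ∏ C : Vx n, ∑ i : Fin r, q i *
      ((Phi (star M g (i + 1)) 0 fun j => s (edgeAt π C j) : ℚ) -
        Phi (star M g (i + 1)) 1 fun j => s (edgeAt π C j)) =
      ∏ C : Vx n, ∏ j, u (s (edgeAt π C j) 0) (s (edgeAt π C j) 1) := by
    intro s
    exact Finset.prod_congr rfl fun C _ => hq fun j => s (edgeAt π C j)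
  rw [Finset.sum_congr rfl fun s _ => h2 s, hC n d π W u] at hsum
  have hpos : 0 < ∑ x, ∑ y, u x y ^ 2 := by
    have h3 : u x₀ y₀ ^ 2 ≤ ∑ x, ∑ y, u x y ^ 2 :=
      (Finset.single_le_sum (f := fun y => u x₀ y ^ 2) (fun y _ => sq_nonneg _)
        (Finset.mem_univ y₀)).trans
        (Finset.single_le_sum (f := fun x => ∑ y, u x y ^ 2)
          (fun x _ => Finset.sum_nonneg fun y _ => sq_nonneg _) (Finset.mem_univ x₀))
    have h4 : 0 < u x₀ y₀ ^ 2 := by positivity
    linarith
  exact absurd hsum (pow_pos hpos _).ne'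

end Pool.Agent.SYH
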