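import Pool.Agent.SYH.StA

/-!
# SYH: the number of homomorphisms of a network is its partition function
-/

set_option autoImplicit false

namespace Pool.Agent.SYH

section
variable {σ T D : Type} {ar : σ → ℕ} {n p : ℕ} {Y : Vx n → Type}
  (π : Fin 3 → Equiv.Perm (Fin n)) (Γ : Str ar D)
  (X : (C : Vx n) → Str ar ((D ⊕ Fin 3 × T) ⊕ Y C)) (h : Chg n 3 p) (φ : D → D)

/-- homomorphisms of the network: homomorphisms of all copies of the gadgets -/
theorem NetVal_hom (b : El n p T Y → D) :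
    IsHom Γ (net π X h) (Sum.elim φ b) ↔ ∀ (C : Vx n) (S : Slot 3 p), IsHom Γ (X C)
      (Sum.elim (Sum.elim φ fun jt => b (Sum.inl (edgeAt π C jt.1, S.1 jt.1 + h C jt.1, jt.2)))
        fun y => b (Sum.inr ⟨C, (S, y)⟩)) := by
  have key : ∀ (C : Vx n) (S : Slot 3 p), (Sum.elim φ b ∘ emb π h C S :
      (D ⊕ Fin 3 × T) ⊕ Y C → D) =
      Sum.elim (Sum.elim φ fun jt => b (Sum.inl (edgeAt π C jt.1, S.1 jt.1 + h C jt.1, jt.2)))
        fun y => b (Sum.inr ⟨C, (S, y)⟩) := by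
    intro C S
    funext x
    rcases x with (x | jt) | y <;> rfl
  constructor
  · intro H C S R v hv
    rw [← key C S]
    exact H R _ ⟨C, S, v, hv, rfl⟩
  · rintro H R u ⟨C, S, v, hv, rfl⟩
    have h1 := H C S R v hv
    rw [← key C S] at h1
    exact h1

/-- the decomposition of the homomorphisms of the network -/
def NetVal_equiv : {b : El n p T Y → D // IsHom Γ (net π X h) (Sum.elim φ b)} ≃
    Σ s : Fin n × Fin 3 → ZMod p → T → D, (C : Vx n) → (S : Slot 3 p) →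
      {g : Y C → D // IsHom Γ (X C) (Sum.elim
        (Sum.elim φ fun jt => s (edgeAt π C jt.1) (S.1 jt.1 + h C jt.1) jt.2) g)} where
  toFun b := ⟨fun e α t => b.1 (Sum.inl (e, α, t)), fun C S =>
    ⟨fun y => b.1 (Sum.inr ⟨C, (S, y)⟩), (NetVal_hom π Γ X h φ b.1).1 b.2 C S⟩⟩
  invFun q := ⟨Sum.elim (fun z => q.1 z.1 z.2.1 z.2.2) fun z => (q.2 z.1 z.2.1).1 z.2.2,
    (NetVal_hom π Γ X h φ _).2 fun C S => (q.2 C S).2⟩
  left_inv b := Subtype.ext (funext fun x => by rcases x with ⟨e, α, t⟩ | ⟨C, S, y⟩ <;> rfl)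
  right_inv _ := rfl

end

/-- **Module NetVal** -/
theorem thm_NetVal : St_NetVal := by
  intro σ T D ar n p _ _ _ _ Y _ π Γ X h φ
  unfold exts
  rw [Nat.card_congr (NetVal_equiv π Γ X h φ), Nat.card_sigma]
  unfold ZZ
  refine Finset.sum_congr rfl fun s _ => ?_
  rw [Nat.card_pi]
  refine Finset.prod_congr rfl fun C _ => ?_
  rw [Nat.card_pi]

end Pool.Agent.SYH
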