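import Mathlib
import Pool.Agent.SYH.StB
import Pool.Agent.SYH.RzCl

/-!
# The powers of `Fᵀ * F` are counting functions
-/

set_option autoImplicit false

namespace Pool.Agent.SYH

open Matrix

private theorem RzGram_of (H : St_RzCl) : St_RzGram := by
  intro σ D ar Γ A B _ _ _ _ _ _ F m hF hm
  -- the case m = 1
  have h1 : Rz Γ fun ψ : B ⊕ B → D =>
      ((mat F)ᵀ * mat F) (fun b => ψ (Sum.inl b)) fun b => ψ (Sum.inr b) := by
    have hA := (H σ D ar Γ (A ⊕ B) ((B ⊕ B) ⊕ A)).2.2.1 F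
      (Sum.elim Sum.inr fun b => Sum.inl (Sum.inl b)) hF
    have hB := (H σ D ar Γ (A ⊕ B) ((B ⊕ B) ⊕ A)).2.2.1 F
      (Sum.elim Sum.inr fun b => Sum.inl (Sum.inr b)) hF
    have hC := (H σ D ar Γ ((B ⊕ B) ⊕ A) A).2.1 _ _ hA hB
    have hD := (H σ D ar Γ (B ⊕ B) A).2.2.2 inferInstance inferInstance inferInstance _ hC
    obtain ⟨Y, hY, X, hX⟩ := hD
    refine ⟨Y, hY, X, fun φ => ?_⟩
    rw [← hX φ]
    beta_reduce
    rw [Matrix.mul_apply]
    refine Finset.sum_congr rfl fun s _ => ?_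
    simp only [mat, Matrix.transpose_apply, Matrix.of_apply]
    congr 1
    · congr 1
      funext x
      rcases x with x | x <;> rfl
    · congr 1
      funext x
      rcases x with x | x <;> rfl
  induction m, hm using Nat.le_induction with
  | base => simpa only [pow_one] using h1
  | succ m hm ih =>
    have hA := (H σ D ar Γ (B ⊕ B) ((B ⊕ B) ⊕ B)).2.2.1 _
      (Sum.elim (fun b => Sum.inl (Sum.inl b)) Sum.inr) ih
    have hB := (H σ D ar Γ (B ⊕ B) ((B ⊕ B) ⊕ B)).2.2.1 _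
      (Sum.elim Sum.inr fun b => Sum.inl (Sum.inr b)) h1
    have hC := (H σ D ar Γ ((B ⊕ B) ⊕ B) B).2.1 _ _ hA hB
    have hD := (H σ D ar Γ (B ⊕ B) B).2.2.2 inferInstance inferInstance inferInstance _ hC
    obtain ⟨Y, hY, X, hX⟩ := hD
    refine ⟨Y, hY, X, fun φ => ?_⟩
    rw [← hX φ]
    beta_reduce
    rw [pow_succ, Matrix.mul_apply]
    exact Finset.sum_congr rfl fun s _ => rfl

theorem thm_RzGram : St_RzGram := RzGram_of thm_RzCl

end Pool.Agent.SYH
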