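import Pool.Agent.SYH.StB
import Pool.Agent.SYH.RzCl

/-!
# Finite products and powers of counting functions
-/

set_option autoImplicit false

namespace Pool.Agent.SYH

theorem RzProd_finset {σ D : Type} {ar : σ → ℕ} (Γ : Str ar D) {A J : Type}
    (F : J → (A → D) → ℕ) (hF : ∀ j, Rz Γ (F j)) (s : Finset J) :
    Rz Γ fun φ => ∏ j ∈ s, F j φ := by
  classical
  obtain ⟨h1, h2, -, -⟩ := thm_RzCl σ D ar Γ A A
  induction s using Finset.induction_on with
  | empty => simpa using h1
  | insert j s hj ih =>
    simp only [Finset.prod_insert hj]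
    exact h2 (F j) _ (hF j) ih

/-- finite products and powers of counting functions are counting functions -/
theorem thm_RzProd : St_RzProd := by
  intro σ D ar Γ A
  refine ⟨fun J _ F hF => RzProd_finset Γ F hF Finset.univ, fun F m hF => ?_⟩
  have h := RzProd_finset Γ (fun _ : Fin m => F) (fun _ => hF) Finset.univ
  simpa using h

end Pool.Agent.SYH
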