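import Pool.Agent.SYH.StB

/-!
# If the two values agree, the signed sum over all charges vanishes
-/

set_option autoImplicit false

namespace Pool.Agent.SYH

open Finset

private theorem Signed_slot {d : ℕ} {X : Type} (f : (Fin d → X) → ℕ) (g : Fin d → ZMod 2)
    (x : Fin d → ZMod 2 → X) :
    ∏ S : Slot d 2, f (fun j => x j (S.1 j + g j)) = Phi f (∑ j, g j) x := by
  unfold Phi
  refine Fintype.prod_equiv ((Equiv.addRight g).subtypeEquiv fun S => ?_) _ _ fun S => rfl
  rw [Equiv.coe_addRight]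
  simp only [Pi.add_apply, sum_add_distrib]
  constructor
  · intro h
    rw [h, zero_add]
  · intro h
    exact add_eq_right.1 h

theorem thm_Signed (hG : St_Gauge) : St_Signed := by
  intro n d π X _ F h hd hπ hh hZ
  classical
  let sg : ZMod 2 → ℚ := fun b => if b = 0 then 1 else -1
  let j0 : Fin d := ⟨0, hd⟩
  let hη : (Vx n → ZMod 2) → Chg n d 2 := fun η C j => if j = j0 then η C else 0
  have hsum : ∀ η C, ∑ j, hη η C j = η C := by
    intro η C
    simp only [hη]
    rw [sum_ite_eq' univ j0, if_pos (mem_univ _)]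
  have hZη : ∀ η : Vx n → ZMod 2, (ZZ π F (hη η) : ℚ) =
      ∑ s : Fin n × Fin d → ZMod 2 → X, ∏ C : Vx n,
        (Phi (F C) (η C) (fun j => s (edgeAt π C j)) : ℚ) := by
    intro η
    unfold ZZ
    push_cast
    refine sum_congr rfl fun s _ => prod_congr rfl fun C _ => ?_
    rw [← hsum η C, ← Signed_slot]
    push_cast
    rfl
  have two : ∀ a : ZMod 2, a ≠ 0 → a = 1 := by decide
  have hall : ∀ η, ZZ π F (hη η) = ZZ π F (0 : Chg n d 2) := by
    intro η
    by_cases h1 : total (hη η) = 0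
    · refine hG n d 2 π X F _ _ hd hπ ?_
      rw [h1]
      simp [total]
    · rw [← hZ]
      refine hG n d 2 π X F _ _ hd hπ ?_
      rw [two _ h1, two _ hh]
  have hne : Nonempty (Vx n) := by
    by_contra hc
    rw [not_nonempty_iff] at hc
    exact hh (by simp [total])
  have hexp : ∀ s : Fin n × Fin d → ZMod 2 → X, ∏ C : Vx n,
      ((Phi (F C) 0 fun j => s (edgeAt π C j) : ℚ) - Phi (F C) 1 fun j => s (edgeAt π C j)) =
      ∑ η : Vx n → ZMod 2, (∏ C, sg (η C)) * ∏ C : Vx n,
        (Phi (F C) (η C) (fun j => s (edgeAt π C j)) : ℚ) := by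
    intro s
    have h1 : ∀ C : Vx n, ((Phi (F C) 0 fun j => s (edgeAt π C j) : ℚ) -
        Phi (F C) 1 fun j => s (edgeAt π C j)) = ∑ b : ZMod 2,
          sg b * (Phi (F C) b (fun j => s (edgeAt π C j)) : ℚ) := by
      intro C
      have h2 : (univ : Finset (ZMod 2)) = {0, 1} := by decide
      have h3 : sg 0 = 1 := if_pos rfl
      have h4 : sg 1 = -1 := if_neg (by decide)
      rw [h2, sum_pair (by decide), h3, h4]
      ring
    rw [prod_congr rfl fun C _ => h1 C, prod_univ_sum, Fintype.piFinset_univ]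
    exact sum_congr rfl fun η _ => prod_mul_distrib
  rw [sum_congr rfl fun s _ => hexp s, sum_comm]
  have h5 : ∀ η : Vx n → ZMod 2, ∑ s : Fin n × Fin d → ZMod 2 → X, (∏ C, sg (η C)) *
      ∏ C : Vx n, (Phi (F C) (η C) (fun j => s (edgeAt π C j)) : ℚ) =
      (∏ C, sg (η C)) * (ZZ π F (0 : Chg n d 2) : ℚ) := by
    intro η
    rw [← mul_sum, ← hZη, hall]
  rw [sum_congr rfl fun η _ => h5 η, ← sum_mul]
  have h6 : ∑ η : Vx n → ZMod 2, ∏ C, sg (η C) = 0 := by
    rw [← Fintype.piFinset_univ, ← prod_univ_sum (fun _ : Vx n => (univ : Finset (ZMod 2)))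
      fun _ b => sg b]
    obtain ⟨C⟩ := hne
    refine prod_eq_zero (mem_univ C) ?_
    have h2 : (univ : Finset (ZMod 2)) = {0, 1} := by decide
    have h3 : sg 0 = 1 := if_pos rfl
    have h4 : sg 1 = -1 := if_neg (by decide)
    rw [h2, sum_pair (by decide), h3, h4]
    norm_num
  rw [h6, zero_mul]

end Pool.Agent.SYH
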