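import Pool.Agent.SYH.StA
import Pool.Agent.SymC.Sup

/-!
# Subgroups of small index contain the even permutations fixing few points
-/

set_option autoImplicit false

namespace Pool.Agent.SYH

open Equiv Equiv.Perm Pool.Agent.Helper18

/-- a subgroup of small index contains the even permutations fixing few points -/
theorem thm_SupA : St_SupA := by
  intro α _ _ H k hk hb hidx
  obtain ⟨i, hi⟩ := Pool.Agent.SymC.Sup_main H hk hb hidx
  refine ⟨(cls H i)ᶜ, ?_, ?_⟩
  · rw [Finset.card_compl]
    omega
  · intro e he hx
    exact mem_of_support_cls he fun x h => hx x (Finset.mem_compl.mpr h)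

end Pool.Agent.SYH
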