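import Pool.Agent.SYH.StA

/-!
# Transport of a circuit along a bijection of the elements
-/

set_option autoImplicit false

namespace Pool.Agent.SYH

open Equiv

section

variable {σ D V V' G P T : Type} {ar : σ → ℕ}

/-- the atom with the transported tuple -/
def Trans_at (ar : σ → ℕ) (e : V ≃ V') (a : Atom ar V) : Atom ar V' := ⟨a.1, e ∘ a.2⟩

theorem Trans_at_inj (e : V ≃ V') : Function.Injective (Trans_at ar e) := by
  rintro ⟨R, u⟩ ⟨R', u'⟩ h
  unfold Trans_at at h
  obtain ⟨h1, h2⟩ := Sigma.mk.inj_iff.1 h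
  simp only at h1
  subst h1
  have h3 := eq_of_heq h2
  refine Sigma.ext rfl (heq_of_eq ?_)
  funext i
  exact e.injective (congrFun h3 i)

/-- the transported circuit -/
def Trans_circ (e : V ≃ V') (C : Circuit (Atom ar V) G P T) : Circuit (Atom ar V') G P T where
  atom g := (C.atom g).map (Trans_at ar e)
  wires := C.wires
  fn := C.fn
  level := C.level
  level_lt := C.level_lt
  out := C.out

theorem Trans_homs (Γ : Str ar D) (e : V ≃ V') (I : Str ar V') :
    homs Γ (fun R u => I R (e ∘ u) : Str ar V) = homs Γ I := by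
  unfold homs
  refine Nat.card_congr ⟨fun a => ⟨a.1 ∘ e.symm, ?_⟩, fun a => ⟨a.1 ∘ e, ?_⟩, ?_, ?_⟩
  · intro R u hu
    have h := a.2 R (e.symm ∘ u) (by
      change I R (e ∘ e.symm ∘ u)
      rw [← Function.comp_assoc, e.self_comp_symm, Function.id_comp]
      exact hu)
    exact h
  · intro R u hu
    exact a.2 R (e ∘ u) hu
  · intro a
    refine Subtype.ext ?_
    change (a.1 ∘ e.symm) ∘ e = a.1
    rw [Function.comp_assoc, e.symm_comp_self, Function.comp_id]
  · intro a
    refine Subtype.ext ?_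
    change (a.1 ∘ e) ∘ e.symm = a.1
    rw [Function.comp_assoc, e.self_comp_symm, Function.comp_id]

theorem Trans_run (e : V ≃ V') (C : Circuit (Atom ar V) G P T) (I : Str ar V') (v : G → T)
    (h : C.IsRun (holds (fun R u => I R (e ∘ u) : Str ar V)) v) :
    (Trans_circ e C).IsRun (holds I) v := by
  intro g
  have h1 : (∃ a ∈ (Trans_circ e C).atom g, holds I a) =
      (∃ a ∈ C.atom g, holds (fun R u => I R (e ∘ u) : Str ar V) a) := by
    refine propext ⟨?_, ?_⟩
    · rintro ⟨a, ha, hI⟩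
      obtain ⟨b, hb, rfl⟩ := Option.mem_map.1 ha
      exact ⟨b, hb, hI⟩
    · rintro ⟨a, ha, hI⟩
      exact ⟨Trans_at ar e a, Option.mem_map.2 ⟨a, ha, rfl⟩, hI⟩
  rw [h1]
  exact h g

theorem Trans_perm (e : V ≃ V') (ρ : Perm V) (a : Atom ar V) :
    atomPerm ar ((e.symm.trans ρ).trans e) (Trans_at ar e a) =
      Trans_at ar e (atomPerm ar ρ a) := by
  refine Sigma.ext rfl (heq_of_eq ?_)
  funext i
  change e (ρ (e.symm (e (a.2 i)))) = e (ρ (a.2 i))
  rw [e.symm_apply_apply]

theorem Trans_aut (e : V ≃ V') (C : Circuit (Atom ar V) G P T) (ρ : Perm V) (τ : Perm G) :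
    (Trans_circ e C).IsAut (atomPerm ar ((e.symm.trans ρ).trans e)) τ ↔
      C.IsAut (atomPerm ar ρ) τ := by
  have h : ∀ g, ((Trans_circ e C).atom (τ g) =
      ((Trans_circ e C).atom g).map (atomPerm ar ((e.symm.trans ρ).trans e))) ↔
      C.atom (τ g) = (C.atom g).map (atomPerm ar ρ) := by
    intro g
    have h1 : ((Trans_circ e C).atom g).map (atomPerm ar ((e.symm.trans ρ).trans e)) =
        ((C.atom g).map (atomPerm ar ρ)).map (Trans_at ar e) := by
      change ((C.atom g).map (Trans_at ar e)).map _ = _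
      rw [Option.map_map, Option.map_map]
      congr 1
      funext a
      exact Trans_perm e ρ a
    rw [h1]
    exact (Option.map_injective (Trans_at_inj e)).eq_iff
  unfold Circuit.IsAut
  constructor
  · rintro ⟨h1, h2, h3, h4⟩
    exact ⟨h1, fun g => (h g).1 (h2 g), h3, h4⟩
  · rintro ⟨h1, h2, h3, h4⟩
    exact ⟨h1, fun g => (h g).2 (h2 g), h3, h4⟩

end

theorem thm_Trans : St_Trans := by
  intro σ D V V' G P T ar Γ e C hC
  obtain ⟨dec, hdec⟩ := hC
  refine ⟨Trans_circ e C, ⟨dec, fun I => ?_⟩, fun ρ => ?_⟩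
  · obtain ⟨v, hv, hv'⟩ := hdec (fun R u => I R (e ∘ u))
    refine ⟨v, Trans_run e C I v hv, ?_⟩
    rw [← Trans_homs Γ e I]
    exact hv'
  · exact exists_congr fun τ => Trans_aut e C ρ τ

end Pool.Agent.SYH
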