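import Pool.Agent.SYH.Hard
import Pool.Agent.SYH.BlindC
import Pool.Agent.SYH.SupA
import Pool.Agent.SYH.GSup
import Pool.Agent.SYH.Blind
import Pool.Agent.SYH.Base
import Pool.Agent.SYH.NetVal
import Pool.Agent.SYH.Full
import Pool.Agent.SYH.GAct
import Pool.Agent.SYH.GSimple
import Pool.Agent.SYH.GAtom
import Pool.Agent.SYH.GMove
import Pool.Agent.SYH.Trans
import Pool.Agent.SYH.Net
import Pool.Agent.SYH.FeelsB
import Pool.Agent.SYH.RzCl
import Pool.Agent.SYH.RzProd
import Pool.Agent.SYH.RzGram
import Pool.Agent.SYH.Core1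
import Pool.Agent.SYH.Core2
import Pool.Agent.SYH.Gauge
import Pool.Agent.SYH.Signed
import Pool.Agent.SYH.Local
import Pool.Agent.SYH.Contr

/-!
# Assembly: the hard side, from the interface, and the interface for templates not balanced
-/

set_option autoImplicit false

namespace Pool.Agent.SYH

theorem AsmA_hard : St_Hard :=
  thm_Hard thm_GAct thm_GSimple thm_GAtom thm_GMove thm_Base
    (thm_BlindC (thm_GSup thm_SupA) thm_Blind) thm_NetVal thm_Full thm_Trans

theorem AsmA_feelsB : St_FeelsB :=
  thm_FeelsB thm_RzCl thm_RzProd thm_RzGram thm_Core1 thm_Core2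
    (thm_Net (thm_Signed thm_Gauge) thm_Local thm_Contr)

end Pool.Agent.SYH
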