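import Pool.Agent.SYH.StH

/-!
# The number of homomorphisms of a disjoint union
-/

set_option autoImplicit false

namespace Pool.Agent.SYH

private theorem Copies_iff {σ D ι V U : Type} {ar : σ → ℕ} (Γ : Str ar D) (I : ι → Str ar V)
    (a : (ι × V) ⊕ U → D) :
    IsHom Γ (copies (U := U) I) a ↔ ∀ i, IsHom Γ (I i) fun x => a (Sum.inl (i, x)) := by
  constructor
  · intro h i R v hv
    exact h R (fun x => Sum.inl (i, v x)) ⟨i, v, hv, rfl⟩
  · rintro h R u ⟨i, v, hv, rfl⟩
    exact h i R v hv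

private def Copies_e {σ D ι V U : Type} {ar : σ → ℕ} (Γ : Str ar D) (I : ι → Str ar V) :
    {a : (ι × V) ⊕ U → D // IsHom Γ (copies (U := U) I) a} ≃
      (U → D) × (∀ i, {b : V → D // IsHom Γ (I i) b}) where
  toFun a := (fun u => a.1 (Sum.inr u),
    fun i => ⟨fun x => a.1 (Sum.inl (i, x)), (Copies_iff Γ I a.1).1 a.2 i⟩)
  invFun b := ⟨Sum.elim (fun z => (b.2 z.1).1 z.2) b.1, (Copies_iff Γ I _).2 fun i => (b.2 i).2⟩
  left_inv a := by
    apply Subtype.ext
    funext z
    rcases z with ⟨i, x⟩ | u <;> rfl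
  right_inv b := rfl

theorem thm_Copies : St_Copies := by
  intro σ D ι V U ar _ _ _ _ Γ I
  unfold homs
  rw [Nat.card_congr (Copies_e Γ I), Nat.card_prod, Nat.card_fun, Nat.card_pi,
    Nat.card_eq_fintype_card, Nat.card_eq_fintype_card]

end Pool.Agent.SYH
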