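import Pool.Agent.SYH.Tw
import Pool.Agent.SymC.Sup

/-!
# The hard side
-/

set_option autoImplicit false

namespace Pool.Agent.SYH

open Equiv Equiv.Perm

theorem Hard_total {n p : ℕ} [Fact p.Prime] (e : Vx n × Fin 3) :
    total (gsh e (0 : Chg n 3 p)) ≠ 0 := by
  classical
  have h1 : total (gsh e (0 : Chg n 3 p)) = 1 := by
    unfold total
    rw [Finset.sum_eq_single e.1]
    · rw [Finset.sum_eq_single e.2]
      · simp only [gsh, Pi.zero_apply, zero_add, and_self, if_true]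
        split_ifs <;> simp
      · intro j _ hj
        simp [gsh, hj]
      · intro h
        exact absurd (Finset.mem_univ _) h
    · intro C _ hC
      simp [gsh, hC]
    · intro h
      exact absurd (Finset.mem_univ _) h
  rw [h1]
  exact one_ne_zero

theorem Hard_sq {Φ : Type} [Fintype Φ] (f g : Φ → ℕ) (h1 : ∑ φ, f φ * f φ = ∑ φ, g φ * f φ)
    (h2 : ∑ φ, f φ * g φ = ∑ φ, g φ * g φ) : f = g := by
  have h3 : ∑ φ, ((f φ : ℤ) - g φ) ^ 2 = 0 := by
    have e1 : ∑ φ, ((f φ : ℤ) * f φ) = ∑ φ, (g φ : ℤ) * f φ := by exact_mod_cast h1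
    have e2 : ∑ φ, ((f φ : ℤ) * g φ) = ∑ φ, (g φ : ℤ) * g φ := by exact_mod_cast h2
    have e3 : ∀ φ, ((f φ : ℤ) - g φ) ^ 2 =
        (f φ : ℤ) * f φ - g φ * f φ - (f φ * g φ - g φ * g φ) := fun φ => by ring
    rw [Finset.sum_congr rfl fun φ _ => e3 φ, Finset.sum_sub_distrib, Finset.sum_sub_distrib,
      Finset.sum_sub_distrib, e1, e2]
    ring
  have h4 := (Finset.sum_eq_zero_iff_of_nonneg fun φ _ => sq_nonneg ((f φ : ℤ) - g φ)).1 h3
  funext φ
  have h5 := h4 φ (Finset.mem_univ φ)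
  have h6 : (f φ : ℤ) - g φ = 0 := by simpa using h5
  omega

theorem Hard_cardSlot (p : ℕ) [NeZero p] : Fintype.card (Slot 3 p) ≤ p ^ 3 := by
  classical
  have h1 : Fintype.card (Slot 3 p) ≤ Fintype.card (Fin 3 → ZMod p) :=
    Fintype.card_subtype_le _
  rw [Fintype.card_fun, ZMod.card, Fintype.card_fin] at h1
  exact h1

theorem Hard_card {n p : ℕ} [NeZero p] {T : Type} [Fintype T] (Y : Vx n → Type)
    [∀ C, Fintype (Y C)] (y : ℕ) (hy : ∀ C, Fintype.card (Y C) ≤ y) :
    Nat.card (El n p T Y) ≤ (3 * p * Fintype.card T + 2 * (p ^ 3 * y)) * n := by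
  classical
  rw [Nat.card_eq_fintype_card, Fintype.card_sum, Fintype.card_prod, Fintype.card_prod,
    Fintype.card_prod, Fintype.card_fin, Fintype.card_fin, ZMod.card, Fintype.card_sigma]
  have h1 : ∑ C : Vx n, Fintype.card (Slot 3 p × Y C) ≤ ∑ _C : Vx n, p ^ 3 * y := by
    refine Finset.sum_le_sum fun C _ => ?_
    rw [Fintype.card_prod]
    exact Nat.mul_le_mul (Hard_cardSlot p) (hy C)
  have h2 : ∑ _C : Vx n, p ^ 3 * y = 2 * n * (p ^ 3 * y) := by
    rw [Finset.sum_const, Finset.card_univ, Fintype.card_prod, Fintype.card_bool,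
      Fintype.card_fin, smul_eq_mul]
  rw [h2] at h1
  calc n * 3 * (p * Fintype.card T) + _ ≤ n * 3 * (p * Fintype.card T) + 2 * n * (p ^ 3 * y) :=
        Nat.add_le_add_left h1 _
    _ = (3 * p * Fintype.card T + 2 * (p ^ 3 * y)) * n := by ring

theorem thm_Hard (hA : St_GAct) (hSim : St_GSimple) (hAt : St_GAtom) (hMv : St_GMove)
    (hB : St_Base) (hBl : St_BlindC) (hNV : St_NetVal) (hF : St_Full) (hTr : St_Trans) :
    St_Hard := by
  classical
  intro σ D ar _ _ Γ hfeel
  obtain ⟨p, hp, T, _, _, r₁, Fam, hFam, hFeel⟩ := hfeel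
  choose Yi hYi Xi hXi using hFam
  let hYF : ∀ i, Fintype (Yi i) := fun i => @Fintype.ofFinite (Yi i) (hYi i)
  obtain ⟨r, m₀, hr, hbase⟩ := hB
  set y : ℕ := ∑ i, Fintype.card (Yi i) with hydef
  have hy : ∀ i, Fintype.card (Yi i) ≤ y := fun i =>
    Finset.single_le_sum (f := fun i => Fintype.card (Yi i)) (fun _ _ => Nat.zero_le _)
      (Finset.mem_univ i)
  set κ₁ : ℕ := 3 * p * Fintype.card T + 2 * (p ^ 3 * y) with hκ₁
  set κ : ℕ := Fintype.card D + 3 * κ₁ + 1 with hκ
  set K : ℕ := 4096 * r * κ with hK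
  have hκpos : 0 < κ := by omega
  have hKpos : 0 < K := by positivity
  refine ⟨1 / (K : ℝ), K + κ * (m₀ + 1), by positivity, ?_⟩
  intro N hN G P V _ C hC
  by_contra hcon
  push Not at hcon
  -- the sizes
  set m : ℕ := N / κ with hm
  have hm1 : m₀ ≤ m := by
    rw [hm, Nat.le_div_iff_mul_le hκpos]
    nlinarith
  have hm0 : 1 ≤ m := by
    rw [hm, Nat.le_div_iff_mul_le hκpos]
    nlinarith
  obtain ⟨n, π, β, hn1, hn2, hconn, hβ1, hβ2, hβ3, hβ4⟩ := hbase m hm1
  obtain ⟨c, hc⟩ := hFeel n π hconn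
  let Y : Vx n → Type := fun C => Yi (c C)
  let hYf : ∀ C, Fintype (Y C) := fun C => hYF (c C)
  let iE : Fintype (El n p T Y) := inferInstance
  let X : (C : Vx n) → Str ar ((D ⊕ Fin 3 × T) ⊕ Y C) := fun C => Xi (c C)
  set E : ℕ := Nat.card (El n p T Y) with hE
  have hE1 : E ≤ κ₁ * n := Hard_card Y y fun C => hy (c C)
  have hE2 : Fintype.card D + 3 * E ≤ N := by
    have h1 : κ * m ≤ N := by
      rw [mul_comm]
      exact Nat.div_mul_le_self N κ
    have h2 : E ≤ κ₁ * m := hE1.trans (Nat.mul_le_mul_left _ hn1)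
    have h3 : Fintype.card D ≤ Fintype.card D * m := Nat.le_mul_of_pos_right _ (by omega)
    have h4 : κ * m = Fintype.card D * m + 3 * (κ₁ * m) + m := by rw [hκ]; ring
    omega
  set t : ℕ := N - (Fintype.card D + 3 * E) with ht
  let iE2 : Fintype (El n p T Y ⊕ (El n p T Y ⊕ Fin t)) := inferInstance
  let iF : Fintype (Full n p T D Y t) := instFintypeSum _ _
  have hcard : Fintype.card (Full n p T D Y t) = N := by
    have h1 : Fintype.card (El n p T Y) = E := by rw [hE, Nat.card_eq_fintype_card]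
    have h2 : Fintype.card (Full n p T D Y t) = Fintype.card (D ⊕ El n p T Y) +
        Fintype.card (El n p T Y ⊕ (El n p T Y ⊕ Fin t)) :=
      Fintype.card_sum (α := D ⊕ El n p T Y) (β := El n p T Y ⊕ (El n p T Y ⊕ Fin t))
    have h3 : Fintype.card (D ⊕ El n p T Y) = Fintype.card D + Fintype.card (El n p T Y) :=
      Fintype.card_sum (α := D) (β := El n p T Y)
    have h4 : Fintype.card (El n p T Y ⊕ (El n p T Y ⊕ Fin t)) =
        Fintype.card (El n p T Y) + Fintype.card (El n p T Y ⊕ Fin t) :=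
      Fintype.card_sum (α := El n p T Y) (β := El n p T Y ⊕ Fin t)
    have h5 : Fintype.card (El n p T Y ⊕ Fin t) = Fintype.card (El n p T Y) + t := by
      rw [Fintype.card_sum (α := El n p T Y) (β := Fin t), Fintype.card_fin]
    rw [h2, h3, h4, h5, h1]
    omega
  -- the parameters
  set q : ℕ := n / (2 * r) with hq
  set k : ℕ := q / 512 with hk
  have hq1 : 2 * r * q ≤ n := by
    rw [mul_comm]
    exact Nat.div_mul_le_self n (2 * r)
  have hk512 : 512 * k ≤ q := by
    rw [mul_comm]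
    exact Nat.div_mul_le_self q 512
  have hkN : N < 2048 * r * κ * (k + 1) := by
    have h1 : q < 512 * (k + 1) := by
      have := Nat.lt_mul_div_succ q (show 0 < 512 by norm_num)
      rw [← hk] at this
      exact this
    have h2 : n < 2 * r * (q + 1) := by
      have := Nat.lt_mul_div_succ n (show 0 < 2 * r by omega)
      rw [← hq] at this
      exact this
    have h3 : N < κ * (m + 1) := by
      have := Nat.lt_mul_div_succ N hκpos
      rw [← hm] at this
      exact this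
    have h4 : m + 1 ≤ 2 * (n + 1) := by omega
    have h5 : n + 1 ≤ 2 * r * (512 * (k + 1)) :=
      (Nat.succ_le_of_lt h2).trans (Nat.mul_le_mul_left _ h1)
    calc N < κ * (m + 1) := h3
      _ ≤ κ * (2 * (2 * r * (512 * (k + 1)))) :=
        Nat.mul_le_mul_left _ (h4.trans (Nat.mul_le_mul_left _ h5))
      _ = 2048 * r * κ * (k + 1) := by ring
  have hNK : K ≤ N := by omega
  have hk2 : 2 ≤ k := by
    by_contra h
    have h1 : k + 1 ≤ 2 := by omega
    have h2 : 2048 * r * κ * (k + 1) ≤ 2048 * r * κ * 2 := Nat.mul_le_mul_left _ h1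
    have h3 : 2048 * r * κ * 2 = K := by rw [hK]; ring
    omega
  have hkK : N ≤ K * k := by
    have h1 : k + 1 ≤ 2 * k := by omega
    have h2 : 2048 * r * κ * (k + 1) ≤ 2048 * r * κ * (2 * k) := Nat.mul_le_mul_left _ h1
    have h3 : 2048 * r * κ * (2 * k) = K * k := by rw [hK]; ring
    omega
  have hqn : q ≤ n := Nat.div_le_self _ _
  have hmN : m ≤ N := Nat.div_le_self _ _
  have h256 : 256 * k ≤ N := by omega
  -- the number of gates is small
  have hchoose : (2 : ℝ) ^ ((1 / (K : ℝ)) * N) ≤ N.choose k := by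
    have h1 : (2 : ℕ) ^ k ≤ N.choose k := Pool.Agent.SymC.Sup_two_pow_le (by omega)
    have h2 : (1 / (K : ℝ)) * N ≤ k := by
      rw [one_div, inv_mul_le_iff₀ (by exact_mod_cast hKpos)]
      exact_mod_cast hkK
    calc (2 : ℝ) ^ ((1 / (K : ℝ)) * N) ≤ (2 : ℝ) ^ (k : ℝ) :=
          Real.rpow_le_rpow_of_exponent_le (by norm_num) h2
      _ = (2 : ℝ) ^ k := Real.rpow_natCast 2 k
      _ ≤ N.choose k := by exact_mod_cast h1
  have hsmall : Fintype.card G * N.factorial <
      N.choose k * Nat.card {ρ : Perm (Fin N) // IsSymm C ρ} := by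
    have h1 : ((Fintype.card G * N.factorial : ℕ) : ℝ) <
        ((N.choose k * Nat.card {ρ : Perm (Fin N) // IsSymm C ρ} : ℕ) : ℝ) := by
      push_cast
      refine lt_of_lt_of_le hcon ?_
      exact mul_le_mul_of_nonneg_right hchoose (Nat.cast_nonneg _)
    exact_mod_cast h1
  -- transport of the circuit
  have e : Fin N ≃ Full n p T D Y t := (Fintype.equivFinOfCardEq hcard).symm
  obtain ⟨C', hC', hsym⟩ := hTr σ D (Fin N) (Full n p T D Y t) G P V ar Γ e C hC
  have hcs : Nat.card {ρ : Perm (Fin N) // IsSymm C ρ} =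
      Nat.card {ρ : Perm (Full n p T D Y t) // IsSymm C' ρ} := by
    refine Nat.card_congr (Equiv.subtypeEquiv (Equiv.permCongr e) fun ρ => ?_)
    have h1 : (Equiv.permCongr e) ρ = (e.symm.trans ρ).trans e := rfl
    rw [h1, hsym]
  obtain ⟨W, hW1, hW2, hW3⟩ := exists_twist (ar := ar) hA hSim hAt hMv n p t Y π X β hβ1 hβ2 hβ3
    r q hβ4 hq1
  obtain ⟨e₀, he₀⟩ := hBl σ (Full n p T D Y t) _ _ _ _ G P V ar W C' k (by omega)
    (by rw [hcard]; exact h256) (by rw [hW3]; omega) (by rw [hcard, ← hcs]; exact hsmall)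
  obtain ⟨dec, hdec⟩ := hC'
  have hhoms : ∀ h : Chg n 3 p × Chg n 3 p,
      homs Γ (full π X t h) = homs Γ (full π X t (gsh e₀ h.1, h.2)) := by
    intro h
    obtain ⟨v, hv, hv'⟩ := hdec (full π X t h)
    obtain ⟨w, hw, hw'⟩ := hdec (full π X t (gsh e₀ h.1, h.2))
    rw [← hv', ← hw']
    congr 1
    refine he₀ h v w ?_ ?_
    · rw [hW1]
      exact hv
    · rw [hW1, hW2]
      exact hw
  have hsum : ∀ h : Chg n 3 p × Chg n 3 p,
      ∑ φ : D → D, exts Γ (net π X h.1) φ * exts Γ (net π X h.2) φ =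
        ∑ φ : D → D, exts Γ (net π X (gsh e₀ h.1)) φ * exts Γ (net π X h.2) φ := by
    intro h
    have h1 := hhoms h
    rw [hF σ T D ar n p t Y π Γ X h, hF σ T D ar n p t Y π Γ X (gsh e₀ h.1, h.2)] at h1
    exact Nat.eq_of_mul_eq_mul_left (pow_pos Fintype.card_pos _) h1
  have heq := Hard_sq (fun φ : D → D => exts Γ (net π X (0 : Chg n 3 p)) φ)
    (fun φ => exts Γ (net π X (gsh e₀ (0 : Chg n 3 p))) φ) (hsum (0, 0))
    (hsum (0, gsh e₀ (0 : Chg n 3 p)))
  have heq' := congrFun heq id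
  have hval : ∀ h : Chg n 3 p, exts Γ (net π X h) id = ZZ π (fun C => Fam (c C) id) h := by
    intro h
    rw [hNV σ T D ar n p Y π Γ X h id]
    congr 1
    funext C a
    exact (hXi (c C) (Sum.elim id fun jt => a jt.1 jt.2)).symm
  simp only [hval] at heq'
  exact hc (gsh e₀ (0 : Chg n 3 p)) (Hard_total e₀) heq'.symm

end Pool.Agent.SYH
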