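import Pool.Agent.SYH.StH
import Pool.Agent.SYH.StB
import Pool.Agent.SYH.Hard
import Pool.Agent.SYH.Gauge
import Pool.Agent.SYH.NetVal
import Pool.Agent.SYH.Full

/-!
# The value of a pair of networks depends on the charge
-/

set_option autoImplicit false

namespace Pool.Agent.SYH

open Equiv Equiv.Perm

theorem Gap_total {n p : ℕ} [Fact p.Prime] (e : Vx n × Fin 3) :
    total (gsh e (0 : Chg n 3 p)) = 1 := by
  classical
  unfold total
  rw [Finset.sum_eq_single e.1]
  · rw [Finset.sum_eq_single e.2]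
    · simp only [gsh, Pi.zero_apply, zero_add, and_self, if_true]
      split_ifs <;> simp
    · intro j _ hj
      simp [gsh, hj]
    · intro h
      exact absurd (Finset.mem_univ _) h
  · intro C _ hC
    simp [gsh, hC]
  · intro h
    exact absurd (Finset.mem_univ _) h

theorem thm_Gap : St_Gap := by
  classical
  intro σ T D ar n p _ _ _ _ _ _ Y _ π Γ X hconn hne
  have hg : ∀ (e e' : Vx n × Fin 3) (φ : D → D),
      exts Γ (net π X (gsh e (0 : Chg n 3 p))) φ = exts Γ (net π X (gsh e' (0 : Chg n 3 p))) φ := by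
    intro e e' φ
    rw [thm_NetVal σ T D ar n p Y π Γ X _ φ, thm_NetVal σ T D ar n p Y π Γ X _ φ]
    exact thm_Gauge n 3 p π (T → D) _ _ _ (by norm_num) hconn (by rw [Gap_total, Gap_total])
  have hval : ∀ h : Chg n 3 p × Chg n 3 p, homs Γ (full π X 0 h) =
      Fintype.card D ^ (Nat.card (El n p T Y) + 0) *
        ∑ φ : D → D, exts Γ (net π X h.1) φ * exts Γ (net π X h.2) φ :=
    fun h => thm_Full σ T D ar n p 0 Y π Γ X h
  by_cases hE : Nonempty (Vx n × Fin 3)
  · obtain ⟨e₀⟩ := hE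
    have hcase : ∃ c : Chg n 3 p,
        ∑ φ : D → D, exts Γ (net π X (0 : Chg n 3 p)) φ * exts Γ (net π X c) φ ≠
          ∑ φ : D → D, exts Γ (net π X (gsh e₀ (0 : Chg n 3 p))) φ * exts Γ (net π X c) φ := by
      by_contra hcon
      push Not at hcon
      have h1 := Hard_sq (fun φ : D → D => exts Γ (net π X (0 : Chg n 3 p)) φ)
        (fun φ => exts Γ (net π X (gsh e₀ (0 : Chg n 3 p))) φ) (hcon 0)
        (hcon (gsh e₀ (0 : Chg n 3 p)))
      refine hne (gsh e₀ 0) ?_ (congrFun h1 id).symm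
      rw [Gap_total]
      exact one_ne_zero
    obtain ⟨c, hc⟩ := hcase
    refine ⟨c, _, homs Γ (full π X 0 (gsh e₀ 0, c)), ?_, rfl, fun e => ?_⟩
    · rw [hval, hval]
      intro h
      exact hc (Nat.eq_of_mul_eq_mul_left (pow_pos Fintype.card_pos _) h)
    · rw [hval, hval]
      congr 1
      refine Finset.sum_congr rfl fun φ _ => ?_
      change exts Γ (net π X (gsh e 0)) φ * _ = exts Γ (net π X (gsh e₀ 0)) φ * _
      rw [hg e e₀ φ]
  · refine ⟨0, homs Γ (full π X 0 (0, 0)), homs Γ (full π X 0 (0, 0)) + 1, by omega, rfl,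
      fun e => absurd ⟨e⟩ hE⟩

end Pool.Agent.SYH
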