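import Pool.Agent.SYH.StH
import Pool.Agent.SYH.Trans

/-!
# Pulling back: the numbers of homomorphisms and tuples, and circuits
-/

set_option autoImplicit false

namespace Pool.Agent.SYH

open Equiv

private theorem Pull_tuples {σ V V' : Type} {ar : σ → ℕ} (e : V ≃ V') (I : Str ar V') :
    tuples (pull e I) = tuples I := by
  unfold tuples
  refine Nat.card_congr ⟨fun a => ⟨Trans_at ar e a.1, a.2⟩,
    fun a => ⟨Trans_at ar e.symm a.1, ?_⟩, ?_, ?_⟩
  · change I a.1.1 (e ∘ e.symm ∘ a.1.2)
    rw [← Function.comp_assoc, e.self_comp_symm, Function.id_comp]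
    exact a.2
  · intro a
    refine Subtype.ext (Sigma.ext rfl (heq_of_eq ?_))
    change e.symm ∘ e ∘ a.1.2 = a.1.2
    rw [← Function.comp_assoc, e.symm_comp_self, Function.id_comp]
  · intro a
    refine Subtype.ext (Sigma.ext rfl (heq_of_eq ?_))
    change e ∘ e.symm ∘ a.1.2 = a.1.2
    rw [← Function.comp_assoc, e.self_comp_symm, Function.id_comp]

theorem thm_Pull : St_Pull := by
  intro σ D V V' G P T ar e
  refine ⟨fun Γ I => Trans_homs Γ e I, fun I => Pull_tuples e I, fun C =>
    ⟨Trans_circ e C, rfl, fun ρ => ?_, fun I v h => Trans_run e C I v h⟩⟩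
  exact exists_congr fun τ => Trans_aut e C ρ τ

end Pool.Agent.SYH
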