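import Pool.Agent.SYH.StH

/-!
# The number of tuples of a disjoint union
-/

set_option autoImplicit false

namespace Pool.Agent.SYH

theorem thm_TupC : St_TupC := by
  intro σ ι V U ar _ _ _ _ I
  unfold tuples
  rw [← Nat.card_sigma]
  refine Nat.card_le_card_of_surjective
    (fun x : (i : ι) × {a : Atom ar V // holds (I i) a} =>
      (⟨⟨x.2.1.1, fun y => Sum.inl (x.1, x.2.1.2 y)⟩, ⟨x.1, x.2.1.2, x.2.2, rfl⟩⟩ :
        {a : Atom ar ((ι × V) ⊕ U) // holds (copies (U := U) I) a})) ?_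
  rintro ⟨⟨R, u⟩, i, v, hv, hu⟩
  refine ⟨⟨i, ⟨⟨R, v⟩, hv⟩⟩, Subtype.ext ?_⟩
  change (⟨R, fun y => Sum.inl (i, v y)⟩ : Atom ar ((ι × V) ⊕ U)) = ⟨R, u⟩
  congr 1
  exact hu.symm

end Pool.Agent.SYH
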