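import Pool.Agent.SYH.StA

/-!
# Statements: many copies, fewer gates, and approximate values (helper28)
-/

set_option autoImplicit false

namespace Pool.Agent.SYH

open Equiv Equiv.Perm

/-- The disjoint union of the structures `I i` on `V`, `i : ι`, and of `U` without relations. -/
def copies {σ : Type} {ar : σ → ℕ} {ι V U : Type} (I : ι → Str ar V) : Str ar ((ι × V) ⊕ U) :=
  fun R u => ∃ i v, I i R v ∧ u = fun x => Sum.inl (i, v x)

/-- the structure pulled back along a bijection -/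
def pull {σ : Type} {ar : σ → ℕ} {V V' : Type} (e : V ≃ V') (I : Str ar V') : Str ar V :=
  fun R u => I R (e ∘ u)

/-- the number of tuples in the relations of a structure -/
noncomputable def tuples {σ : Type} {ar : σ → ℕ} {V : Type} (I : Str ar V) : ℕ :=
  Nat.card {a : Atom ar V // holds I a}

/-- the number of homomorphisms of a disjoint union -/
def St_Copies : Prop :=
  ∀ (σ D ι V U : Type) (ar : σ → ℕ) [Fintype D] [Fintype ι] [Fintype V] [Fintype U]
    (Γ : Str ar D) (I : ι → Str ar V),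
    homs Γ (copies (U := U) I) = Fintype.card D ^ Fintype.card U * ∏ i, homs Γ (I i)

/-- A twisting system gives one for the disjoint unions, for every copy `i₀`: the permutations are
`Perm.prodExtendRight i₀ (W.a γ)` on `ι × V` and the identity on `U`; `B`, `supp`, `Big`, `q` are
the same, `loc` is `W.loc` on the copy `i₀` and `none` elsewhere. -/
def St_TwExt : Prop :=
  ∀ (σ V B H E Γ ι U : Type) (ar : σ → ℕ) [Fintype V] [DecidableEq V] [DecidableEq B]
    [Fintype ι] [DecidableEq ι] [Fintype U] [DecidableEq U] (W : Twist ar V B H E Γ) (i₀ : ι),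
    ∃ W' : Twist ar ((ι × V) ⊕ U) B (ι → H) E Γ,
      (W'.inp = fun h => copies fun i => W.inp (h i)) ∧
      (W'.sh = fun e h => Function.update h i₀ (W.sh e (h i₀))) ∧ W'.q = W.q

/-- the number of tuples of a disjoint union -/
def St_TupC : Prop :=
  ∀ (σ ι V U : Type) (ar : σ → ℕ) [Finite σ] [Fintype ι] [Finite V] [Finite U]
    (I : ι → Str ar V), tuples (copies (U := U) I) ≤ ∑ i, tuples (I i)

/-- the number of tuples of the full structure -/
def St_TupF : Prop :=
  ∀ (σ T D : Type) (ar : σ → ℕ) (n p t y : ℕ) [NeZero p] [Finite σ] [Finite T] [Finite D]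
    (Y : Vx n → Type) [∀ C, Finite (Y C)] (π : Fin 3 → Perm (Fin n))
    (X : (C : Vx n) → Str ar ((D ⊕ Fin 3 × T) ⊕ Y C)) (h : Chg n 3 p × Chg n 3 p),
    (∀ C, tuples (X C) ≤ y) → tuples (full π X t h) ≤ 4 * n * p ^ 3 * y

/-- pulling back: the numbers of homomorphisms and tuples, and circuits -/
def St_Pull : Prop :=
  ∀ (σ D V V' G P T : Type) (ar : σ → ℕ) (e : V ≃ V'),
    (∀ (Γ : Str ar D) (I : Str ar V'), homs Γ (pull e I) = homs Γ I) ∧
    (∀ I : Str ar V', tuples (pull e I) = tuples I) ∧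
    ∀ C : Circuit (Atom ar V) G P T, ∃ C' : Circuit (Atom ar V') G P T, C'.out = C.out ∧
      (∀ ρ : Perm V, IsSymm C' ((e.symm.trans ρ).trans e) ↔ IsSymm C ρ) ∧
      ∀ (I : Str ar V') (v : G → T), C.IsRun (holds (pull e I)) v → C'.IsRun (holds I) v

/-- the value of a pair of networks with common constants depends on the charge of the first one:
for a suitable charge `c` of the second one (`Hard_sq`, `St_Gauge`, `St_NetVal`, `St_Full`) -/
def St_Gap : Prop :=
  ∀ (σ T D : Type) (ar : σ → ℕ) (n p : ℕ) [Fact p.Prime] [Fintype T] [DecidableEq T] [Fintype D]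
    [DecidableEq D] [Nonempty D] (Y : Vx n → Type) [∀ C, Fintype (Y C)]
    (π : Fin 3 → Perm (Fin n)) (Γ : Str ar D) (X : (C : Vx n) → Str ar ((D ⊕ Fin 3 × T) ⊕ Y C)),
    Conn π →
    (∀ h : Chg n 3 p, total h ≠ 0 → exts Γ (net π X h) id ≠ exts Γ (net π X (0 : Chg n 3 p)) id) →
    ∃ (c : Chg n 3 p) (A₀ A₁ : ℕ), A₀ ≠ A₁ ∧ homs Γ (full π X 0 (0, c)) = A₀ ∧
      ∀ e, homs Γ (full π X 0 (gsh e 0, c)) = A₁

/-- a power -/
def St_ArA : Prop :=
  ∀ (A B M : ℕ) (x : ℝ), B < A → 1 ≤ M → (B : ℝ) * x ≤ M / 2 →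
    Real.exp x * (B : ℝ) ^ M ≤ (A : ℝ) ^ M

/-- the constants -/
def St_ArB : Prop :=
  ∀ d κ : ℕ, 1 ≤ κ → ∃ K₀ : ℕ, ∀ K ≥ K₀, ∀ n k B : ℕ, 1 ≤ k → K * k ≤ n →
    B ≤ d ^ (κ * k) → 1 ≤ n / (κ * k) ∧
    (B : ℝ) * ((n : ℝ) / 2 ^ (K * k)) ≤ ((n / (κ * k) : ℕ) : ℝ) / 2

/-- the hard side, with approximate values: a circuit with few gates and many symmetries has the
same output on two structures whose numbers of homomorphisms are far apart -/
def St_HardP : Prop :=
  ∀ (σ D : Type) (ar : σ → ℕ) [Finite σ] [Fintype D] [Nonempty D] (Γ : Str ar D), Feels Γ 3 →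
    ∃ K : ℕ, 1 ≤ K ∧ ∀ n k : ℕ, 1 ≤ k → K * k ≤ n → ∀ (G P T : Type) [Fintype G]
      (C : Circuit (Atom ar (Fin n)) G P T),
      Fintype.card G * n.factorial < n.choose k * Nat.card {ρ : Perm (Fin n) // IsSymm C ρ} →
      ∃ (I I' : Str ar (Fin n)) (v v' : G → T), C.IsRun (holds I) v ∧ C.IsRun (holds I') v' ∧
        v C.out = v' C.out ∧ tuples I ≤ K * n ∧ tuples I' ≤ K * n ∧ 0 < homs Γ I ∧
        Real.exp ((n : ℝ) / 2 ^ (K * k)) * (homs Γ I' : ℝ) ≤ (homs Γ I : ℝ)

end Pool.Agent.SYH
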