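import Mathlib
import Pool.Agent.SYH.StH

/-!
# The number of tuples of the full structure

`thm_TupF : St_TupF`.
-/

set_option autoImplicit false

namespace Pool.Agent.SYH

open Equiv

/-- the number of tuples of a network -/
private lemma TupF_net {σ T D : Type} {ar : σ → ℕ} {n p y : ℕ} [NeZero p] [Finite σ] [Finite T]
    [Finite D] (Y : Vx n → Type) [∀ C, Finite (Y C)] (π : Fin 3 → Perm (Fin n))
    (X : (C : Vx n) → Str ar ((D ⊕ Fin 3 × T) ⊕ Y C)) (h : Chg n 3 p)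
    (hy : ∀ C, tuples (X C) ≤ y) : tuples (net π X h) ≤ 2 * n * (p ^ 3 * y) := by
  classical
  let f : ((C : Vx n) × (Slot 3 p × {a : Atom ar ((D ⊕ Fin 3 × T) ⊕ Y C) // holds (X C) a})) →
      {a : Atom ar (D ⊕ El n p T Y) // holds (net π X h) a} := fun z =>
    ⟨⟨z.2.2.1.1, emb π h z.1 z.2.1 ∘ z.2.2.1.2⟩, z.1, z.2.1, z.2.2.1.2, z.2.2.2, rfl⟩
  have hf : Function.Surjective f := by
    rintro ⟨⟨R, u⟩, C, S, v, hv, hu⟩
    refine ⟨⟨C, S, ⟨⟨R, v⟩, hv⟩⟩, Subtype.ext ?_⟩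
    change (⟨R, emb π h C S ∘ v⟩ : Atom ar (D ⊕ El n p T Y)) = ⟨R, u⟩
    rw [show u = emb π h C S ∘ v from hu]
  have hslot : Nat.card (Slot 3 p) ≤ p ^ 3 := by
    rw [Nat.card_eq_fintype_card]
    have h1 : Fintype.card (Slot 3 p) ≤ Fintype.card (Fin 3 → ZMod p) :=
      Fintype.card_subtype_le _
    rw [Fintype.card_fun, ZMod.card, Fintype.card_fin] at h1
    exact h1
  refine (Nat.card_le_card_of_surjective f hf).trans ?_
  rw [Nat.card_sigma]
  calc ∑ C : Vx n, Nat.card (Slot 3 p × {a : Atom ar ((D ⊕ Fin 3 × T) ⊕ Y C) // holds (X C) a})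
      ≤ ∑ _C : Vx n, p ^ 3 * y := by
        refine Finset.sum_le_sum fun C _ => ?_
        rw [Nat.card_prod]
        exact Nat.mul_le_mul hslot (hy C)
    _ = 2 * n * (p ^ 3 * y) := by
        rw [Finset.sum_const, Finset.card_univ, Fintype.card_prod, Fintype.card_bool,
          Fintype.card_fin, smul_eq_mul]

theorem thm_TupF : St_TupF := by
  classical
  intro σ T D ar n p t y _ _ _ _ Y _ π X h hy
  let f : {a : Atom ar (D ⊕ El n p T Y) // holds (net π X h.1) a} ⊕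
      {a : Atom ar (D ⊕ El n p T Y) // holds (net π X h.2) a} →
      {a : Atom ar (Full n p T D Y t) // holds (full π X t h) a} := fun z => match z with
    | Sum.inl z => ⟨⟨z.1.1, Sum.inl ∘ z.1.2⟩, Or.inl ⟨z.1.2, z.2, rfl⟩⟩
    | Sum.inr z => ⟨⟨z.1.1, snd ∘ z.1.2⟩, Or.inr ⟨z.1.2, z.2, rfl⟩⟩
  have hf : Function.Surjective f := by
    rintro ⟨⟨R, u⟩, ⟨v, hv, hu⟩ | ⟨v, hv, hu⟩⟩
    · refine ⟨Sum.inl ⟨⟨R, v⟩, hv⟩, Subtype.ext ?_⟩
      change (⟨R, Sum.inl ∘ v⟩ : Atom ar (Full n p T D Y t)) = ⟨R, u⟩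
      rw [show u = Sum.inl ∘ v from hu]
    · refine ⟨Sum.inr ⟨⟨R, v⟩, hv⟩, Subtype.ext ?_⟩
      change (⟨R, snd ∘ v⟩ : Atom ar (Full n p T D Y t)) = ⟨R, u⟩
      rw [show u = snd ∘ v from hu]
  have i0 : Finite (ZMod p) := inferInstance
  have i1 : Finite ((Fin n × Fin 3) × ZMod p × T) := inferInstance
  have i2 : Finite ((C : Vx n) × (Slot 3 p × Y C)) := inferInstance
  have i3 : Finite (D ⊕ El n p T Y) := inferInstance
  have i4 : Finite (Atom ar (D ⊕ El n p T Y)) := inferInstance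
  refine (Nat.card_le_card_of_surjective f hf).trans ?_
  rw [Nat.card_sum]
  calc _ ≤ 2 * n * (p ^ 3 * y) + 2 * n * (p ^ 3 * y) :=
        Nat.add_le_add (TupF_net Y π X h.1 hy) (TupF_net Y π X h.2 hy)
    _ = 4 * n * p ^ 3 * y := by ring

end Pool.Agent.SYH
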