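import Pool.Agent.SYH.StH

/-!
# A twisting system for the disjoint unions
-/

set_option autoImplicit false

namespace Pool.Agent.SYH

open Equiv Equiv.Perm

/-- the permutation of the copy `i₀` -/
private def TwExt_a {ι V U : Type} [DecidableEq ι] (i₀ : ι) (e : Perm V) :
    Perm ((ι × V) ⊕ U) :=
  Equiv.sumCongr (Equiv.Perm.prodExtendRight i₀ e) (Equiv.refl U)

private theorem TwExt_a_same {ι V U : Type} [DecidableEq ι] (i₀ : ι) (e : Perm V) (x : V) :
    TwExt_a (U := U) i₀ e (Sum.inl (i₀, x)) = Sum.inl (i₀, e x) := by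
  simp [TwExt_a]

private theorem TwExt_a_ne {ι V U : Type} [DecidableEq ι] (i₀ i : ι) (hi : i ≠ i₀) (e : Perm V)
    (x : V) : TwExt_a (U := U) i₀ e (Sum.inl (i, x)) = Sum.inl (i, x) := by
  simp [TwExt_a, Equiv.Perm.prodExtendRight_apply_ne e hi]

private theorem TwExt_a_inr {ι V U : Type} [DecidableEq ι] (i₀ : ι) (e : Perm V) (x : U) :
    TwExt_a i₀ e (Sum.inr x : (ι × V) ⊕ U) = Sum.inr x := by
  simp [TwExt_a]

private theorem TwExt_sign {ι V U : Type} [Fintype V] [DecidableEq V] [Fintype ι] [DecidableEq ι]
    [Fintype U] [DecidableEq U] (i₀ : ι) (e : Perm V) :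
    sign (TwExt_a (U := U) i₀ e) = sign e := by
  unfold TwExt_a
  rw [Equiv.Perm.sign_sumCongr, Equiv.Perm.sign_prodExtendRight, Equiv.Perm.sign_refl, mul_one]

/-- [TwExt] -/
theorem thm_TwExt : St_TwExt := by
  intro σ V B H E Γ ι U ar _ _ _ _ _ _ _ W i₀
  refine ⟨{
    a := fun γ => TwExt_a i₀ (W.a γ)
    comm := ?_
    even := ?_
    loc := Sum.elim (fun z => if z.1 = i₀ then W.loc z.2 else none) fun _ => none
    supp := W.supp
    loc_supp := ?_
    inp := fun h => copies fun i => W.inp (h i)
    sm := fun γ h => Function.update h i₀ (W.sm γ (h i₀))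
    inp_sm := ?_
    sh := fun e h => Function.update h i₀ (W.sh e (h i₀))
    Big := W.Big
    q := W.q
    mono := W.mono
    nonempty := W.nonempty
    move := ?_
    atom := ?_ }, rfl, rfl, rfl⟩
  · intro γ δ
    refine Equiv.ext ?_
    rintro (⟨i, x⟩ | x)
    · by_cases hi : i = i₀
      · subst hi
        rw [Equiv.Perm.mul_apply, Equiv.Perm.mul_apply, TwExt_a_same, TwExt_a_same, TwExt_a_same,
          TwExt_a_same, ← Equiv.Perm.mul_apply, ← Equiv.Perm.mul_apply, W.comm]
      · rw [Equiv.Perm.mul_apply, Equiv.Perm.mul_apply, TwExt_a_ne _ _ hi, TwExt_a_ne _ _ hi,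
          TwExt_a_ne _ _ hi]
    · rw [Equiv.Perm.mul_apply, Equiv.Perm.mul_apply, TwExt_a_inr, TwExt_a_inr, TwExt_a_inr]
  · intro γ
    rw [TwExt_sign, W.even]
  · intro γ x hx
    rcases x with ⟨i, x⟩ | x
    · by_cases hi : i = i₀
      · subst hi
        have h1 : W.a γ x ≠ x := by
          intro h2
          apply hx
          rw [TwExt_a_same, h2]
        obtain ⟨b, hb, hl⟩ := W.loc_supp γ x h1
        refine ⟨b, hb, ?_⟩
        simp only [Sum.elim_inl, if_true]
        exact hl
      · exact absurd (TwExt_a_ne _ _ hi _ _) hx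
    · exact absurd (TwExt_a_inr _ _ _) hx
  · intro γ h R u
    constructor
    · rintro ⟨i, v, hv, hu⟩
      by_cases hi : i = i₀
      · subst hi
        refine ⟨i, (W.a γ).symm ∘ v, ?_, ?_⟩
        · have h1 := W.inp_sm γ (h i) R ((W.a γ).symm ∘ v)
          have h2 : W.a γ ∘ ((W.a γ).symm ∘ v) = v := by
            funext x
            simp
          rw [h2] at h1
          rw [Function.update_self] at hv
          exact h1.1 hv
        · funext x
          have h1 := congrFun hu x
          apply (TwExt_a (U := U) i (W.a γ)).injective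
          rw [TwExt_a_same]
          simp only [Function.comp_apply, Equiv.apply_symm_apply]
          exact h1
      · refine ⟨i, v, ?_, ?_⟩
        · rw [Function.update_of_ne hi] at hv
          exact hv
        · funext x
          have h1 := congrFun hu x
          apply (TwExt_a (U := U) i₀ (W.a γ)).injective
          rw [TwExt_a_ne _ _ hi]
          exact h1
    · rintro ⟨i, v, hv, hu⟩
      by_cases hi : i = i₀
      · subst hi
        refine ⟨i, W.a γ ∘ v, ?_, ?_⟩
        · show W.inp (Function.update h i (W.sm γ (h i)) i) R (W.a γ ∘ v)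
          rw [Function.update_self, W.inp_sm]
          exact hv
        · funext x
          rw [hu]
          exact TwExt_a_same _ _ _
      · refine ⟨i, v, ?_, ?_⟩
        · show W.inp (Function.update h i₀ (W.sm γ (h i₀)) i) R v
          rw [Function.update_of_ne hi]
          exact hv
        · funext x
          rw [hu]
          exact TwExt_a_ne _ _ hi _ _
  · intro M M' hM hc e he
    obtain ⟨e', he', γ, hd, hγ⟩ := W.move M M' hM hc e he
    refine ⟨e', he', γ, hd, fun h => ?_⟩
    rw [Function.update_self, Function.update_idem, hγ]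
  · intro M e he R u h hu
    have key : ∀ (i : ι) (v : Fin (ar R) → V), (u = fun x => Sum.inl (i, v x)) →
        (W.inp (Function.update h i₀ (W.sh e (h i₀)) i) R v ↔ W.inp (h i) R v) := by
      intro i v hv
      by_cases hi : i = i₀
      · subst hi
        rw [Function.update_self]
        refine W.atom M e he R v (h i) fun γ hγ => ?_
        funext x
        have h1 := congrFun (hu γ hγ) x
        rw [hv] at h1
        have h2 : (Sum.inl (i, W.a γ (v x)) : (ι × V) ⊕ U) = Sum.inl (i, v x) :=
          (TwExt_a_same (U := U) i (W.a γ) (v x)).symm.trans h1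
        exact (Prod.mk.inj (Sum.inl.inj h2)).2
      · rw [Function.update_of_ne hi]
    constructor
    · rintro ⟨i, v, hv, hv'⟩
      exact ⟨i, v, (key i v hv').1 hv, hv'⟩
    · rintro ⟨i, v, hv, hv'⟩
      exact ⟨i, v, (key i v hv').2 hv, hv'⟩

end Pool.Agent.SYH
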