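import Pool.Agent.SYH.HardP
import Pool.Agent.SYH.AsmA
import Pool.Agent.SYH.AllM
import Pool.Agent.SYH.Run
import Pool.Agent.SYH.TwExt
import Pool.Agent.SYH.Copies
import Pool.Agent.SYH.TupC
import Pool.Agent.SYH.TupF
import Pool.Agent.SYH.Pull
import Pool.Agent.SYH.Gap
import Pool.Agent.SYH.ArA
import Pool.Agent.SYH.ArB

/-!
# Assembly of the hard side
-/

set_option autoImplicit false

namespace Pool.Agent.SYH

theorem AsmH_hardP : St_HardP :=
  thm_HardP thm_GAct thm_GSimple thm_GAtom thm_GMove thm_Base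
    (thm_BlindC (thm_GSup thm_SupA) thm_Blind) thm_NetVal thm_Run thm_TwExt thm_Copies thm_TupC
    thm_TupF thm_Pull thm_Gap thm_ArA thm_ArB

/-- Templates that are not balanced or have no majority operation feel the charge. -/
theorem AsmH_feels {σ D : Type} {ar : σ → ℕ} [Fintype D] (Γ : Str ar D)
    (h : ¬ (Balanced Γ ∧ HasMajority Γ)) : Feels Γ 3 := by
  by_cases hB : Balanced Γ
  · exact all_FeelsM σ D ar Γ hB fun hM => h ⟨hB, hM⟩
  · exact AsmA_feelsB σ D ar Γ 3 (by norm_num) hB

end Pool.Agent.SYH
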