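import Pool.Agent.SYH.StC

/-!
# The circuit of the easy side: definitions
-/

set_option autoImplicit false

namespace Pool.Agent.SYH

open Finset

variable {σ : Type} {ar : σ → ℕ} {D : Type} {n N M : ℕ}

/-- the atom read by a gate -/
def gAtom : Gt ar n N M → Option (Atom ar (Fin n))
  | .atm a => some a
  | _ => none

open Classical in
/-- the function of a gate -/
noncomputable def gFn (Γ : Str ar D) (enc : Multiset (Port ar × Val D) → ℕ) :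
    Gt ar n N M → Prop → Multiset (Port ar × Val D) → Val D
  | .atm _, x, _ => (∅, if x then 1 else 0)
  | .one, _, _ => (∅, 0)
  | .w r _ _, _, m =>
    if r.1 = 0 then
      ({p | ((∃ t ∈ m, t.1 = Sum.inl 0) → p.1 = p.2) ∧
        ∀ R, ((Sum.inr ⟨R, none⟩, (∅, 1)) ∈ m → ∃ v, Γ R v) ∧
          ∀ a b, (Sum.inr ⟨R, some (a, b)⟩, (∅, 1)) ∈ m →
            ∃ v, Γ R v ∧ v a = p.1 ∧ v b = p.2}, 0)
    else ({p | ∀ t ∈ m, p ∈ t.2.1}, 0)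
  | .c _ _ _ _, _, m =>
    ({p | ∃ c, (∃ t ∈ m, t.1 = Sum.inl 0 ∧ (p.1, c) ∈ t.2.1) ∧
      ∃ t ∈ m, t.1 = Sum.inl 1 ∧ (c, p.2) ∈ t.2.1}, 0)
  | .q _ _ _, _, m =>
    ({p | ∃ t ∈ m, t.1 = Sum.inl 0 ∧ p ∈ t.2.1}, sInf {x | ∃ t ∈ m, t.1 = Sum.inl 1 ∧ t.2.2 = x})
  | .k s _, _, m => if s.1 = 0 then (∅, 0) else (∅, enc m)
  | .out, _, m => (∅, enc m)

/-- the wires: `Wr g p h` if there is a wire from `h` to `g` with the port `p` -/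
def Wr : Gt ar n N M → Port ar → Gt ar n N M → Prop
  | .w r i j, p, .atm a => r.1 = 0 ∧ (p = Sum.inr ⟨a.1, none⟩ ∨
      ∃ x y, p = Sum.inr ⟨a.1, some (x, y)⟩ ∧ a.2 x = i ∧ a.2 y = j)
  | .w r i j, p, .one => r.1 = 0 ∧ i = j ∧ p = Sum.inl 0
  | .w r i j, p, .w r' i' j' => r.1 = r'.1 + 1 ∧ i' = i ∧ j' = j ∧ p = Sum.inl 0
  | .w r i j, p, .c r' i' _ j' => r.1 = r'.1 + 1 ∧ i' = i ∧ j' = j ∧ p = Sum.inl 1
  | .c r i k j, p, .w r' i' j' => r'.1 = r.1 ∧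
      ((p = Sum.inl 0 ∧ i' = i ∧ j' = k) ∨ (p = Sum.inl 1 ∧ i' = k ∧ j' = j))
  | .q _ i j, p, .w r i' j' => r.1 = N ∧ i' = i ∧ j' = j ∧ p = Sum.inl 0
  | .q s _ j, p, .k s' j' => s'.1 = s.1 ∧ j' = j ∧ p = Sum.inl 1
  | .k s i, p, .k s' i' => s.1 = s'.1 + 1 ∧ i' = i ∧ p = Sum.inl 0
  | .k s i, p, .q s' i' j => s.1 = s'.1 + 1 ∧ i' = i ∧ p = Sum.inl (if i = j then 2 else 1)
  | .out, p, .k s _ => s.1 = M ∧ p = Sum.inl 0
  | .out, p, .atm a => p = Sum.inr ⟨a.1, none⟩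
  | _, _, _ => False

/-- the level of a gate -/
def gLev : Gt ar n N M → ℕ
  | .atm _ => 0
  | .one => 0
  | .w r _ _ => 2 * r.1 + 1
  | .c r _ _ _ => 2 * r.1 + 2
  | .k s _ => 2 * N + 2 + 2 * s.1
  | .q s _ _ => 2 * N + 3 + 2 * s.1
  | .out => 2 * N + 3 + 2 * M

theorem Wr_lev (g : Gt ar n N M) (p : Port ar) (h : Gt ar n N M) (hw : Wr g p h) :
    gLev h < gLev g := by
  rcases g with a | _ | ⟨r, i, j⟩ | ⟨r, i, k, j⟩ | ⟨s, i, j⟩ | ⟨s, i⟩ | _ <;>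
    rcases h with a' | _ | ⟨r', i', j'⟩ | ⟨r', i', k', j'⟩ | ⟨s', i', j'⟩ | ⟨s', i'⟩ | _ <;>
    simp only [Wr, gLev] at hw ⊢ <;> omega

/-- an embedding of the gates in a sum type -/
def gCode : Gt ar n N M → Atom ar (Fin n) ⊕ (Fin 2 ⊕ ((Fin (N + 1) × Fin n × Fin n) ⊕
    ((Fin N × Fin n × Fin n × Fin n) ⊕ ((Fin M × Fin n × Fin n) ⊕ (Fin (M + 1) × Fin n)))))
  | .atm a => Sum.inl a
  | .one => Sum.inr (Sum.inl 0)
  | .out => Sum.inr (Sum.inl 1)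
  | .w r i j => Sum.inr (Sum.inr (Sum.inl (r, i, j)))
  | .c r i k j => Sum.inr (Sum.inr (Sum.inr (Sum.inl (r, i, k, j))))
  | .q s i j => Sum.inr (Sum.inr (Sum.inr (Sum.inr (Sum.inl (s, i, j)))))
  | .k s i => Sum.inr (Sum.inr (Sum.inr (Sum.inr (Sum.inr (s, i)))))

theorem gCode_inj : Function.Injective (gCode : Gt ar n N M → _) := by
  intro g h
  rcases g with a | _ | ⟨r, i, j⟩ | ⟨r, i, k, j⟩ | ⟨s, i, j⟩ | ⟨s, i⟩ | _ <;>
    rcases h with a' | _ | ⟨r', i', j'⟩ | ⟨r', i', k', j'⟩ | ⟨s', i', j'⟩ | ⟨s', i'⟩ | _ <;>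
    simp [gCode]

instance [Finite σ] : Finite (Gt ar n N M) := Finite.of_injective _ gCode_inj

/-- the circuit -/
noncomputable def ckt [Finite σ] (Γ : Str ar D) (enc : Multiset (Port ar × Val D) → ℕ)
    (n N M : ℕ) : Circuit (Atom ar (Fin n)) (Gt ar n N M) (Port ar) (Val D) where
  atom := gAtom
  wires g := (Set.toFinite {w : Port ar × Gt ar n N M | Wr g w.1 w.2}).toFinset
  fn := gFn Γ enc
  level := gLev
  level_lt g p h hw := Wr_lev g p h (by simpa using hw)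
  out := .out

theorem mem_ckt [Finite σ] (Γ : Str ar D) (enc : Multiset (Port ar × Val D) → ℕ)
    (g : Gt ar n N M) (w : Port ar × Gt ar n N M) :
    w ∈ (ckt Γ enc n N M).wires g ↔ Wr g w.1 w.2 := by
  simp [ckt]

/-- the action of a permutation on the gates -/
def gMap (ρ : Equiv.Perm (Fin n)) : Gt ar n N M → Gt ar n N M
  | .atm a => .atm (atomPerm ar ρ a)
  | .one => .one
  | .w r i j => .w r (ρ i) (ρ j)
  | .c r i k j => .c r (ρ i) (ρ k) (ρ j)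
  | .q s i j => .q s (ρ i) (ρ j)
  | .k s i => .k s (ρ i)
  | .out => .out

theorem gMap_gMap (ρ : Equiv.Perm (Fin n)) (g : Gt ar n N M) : gMap ρ.symm (gMap ρ g) = g := by
  rcases g with a | _ | ⟨r, i, j⟩ | ⟨r, i, k, j⟩ | ⟨s, i, j⟩ | ⟨s, i⟩ | _
  · have h : atomPerm ar ρ.symm (atomPerm ar ρ a) = a := (atomPerm ar ρ).left_inv a
    simp only [gMap]
    rw [h]
  all_goals simp [gMap]

/-- the action as a permutation -/
def gPerm (ρ : Equiv.Perm (Fin n)) : Equiv.Perm (Gt ar n N M) where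
  toFun := gMap ρ
  invFun := gMap ρ.symm
  left_inv := gMap_gMap ρ
  right_inv g := by
    have := gMap_gMap ρ.symm g
    rwa [Equiv.symm_symm] at this

theorem Wr_gMap (ρ : Equiv.Perm (Fin n)) (g : Gt ar n N M) (p : Port ar) (h : Gt ar n N M) :
    Wr (gMap ρ g) p (gMap ρ h) ↔ Wr g p h := by
  rcases g with a | _ | ⟨r, i, j⟩ | ⟨r, i, k, j⟩ | ⟨s, i, j⟩ | ⟨s, i⟩ | _ <;>
    rcases h with a' | _ | ⟨r', i', j'⟩ | ⟨r', i', k', j'⟩ | ⟨s', i', j'⟩ | ⟨s', i'⟩ | _ <;>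
    simp [Wr, gMap, atomPerm]

theorem ckt_symm [Finite σ] (Γ : Str ar D) (enc : Multiset (Port ar × Val D) → ℕ)
    (n N M : ℕ) (ρ : Equiv.Perm (Fin n)) : IsSymm (ckt Γ enc n N M) ρ := by
  refine ⟨gPerm ρ, rfl, ?_, ?_, ?_⟩
  · intro g
    rcases g with a | _ | ⟨r, i, j⟩ | ⟨r, i, k, j⟩ | ⟨s, i, j⟩ | ⟨s, i⟩ | _ <;> rfl
  · intro g
    rcases g with a | _ | ⟨r, i, j⟩ | ⟨r, i, k, j⟩ | ⟨s, i, j⟩ | ⟨s, i⟩ | _ <;> rfl
  · intro g p h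
    rw [mem_ckt, mem_ckt]
    exact Wr_gMap ρ g p h

end Pool.Agent.SYH
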