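import Mathlib
import Pool.Agent.SYH.StB

/-!
# SYM, module Core1: powers of the Gram matrix of a matrix that is not block-rank-one

`thm_Core1 : St_Core1`, no hypotheses.
-/

set_option autoImplicit false

namespace Pool.Agent.SYH

open Matrix

section
variable {I W : Type} [Fintype I] [Fintype W] [DecidableEq W]

theorem core1_symm (F : Matrix I W ℕ) (m : ℕ) (x y : W) :
    ((Fᵀ * F) ^ m) x y = ((Fᵀ * F) ^ m) y x := by
  have h : ((Fᵀ * F) ^ m)ᵀ = (Fᵀ * F) ^ m := by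
    rw [transpose_pow, transpose_mul, transpose_transpose]
  exact congrFun (congrFun h y) x

omit [Fintype W] [DecidableEq W] in
theorem core1_diag (F : Matrix I W ℕ) {x y : W} (h : (Fᵀ * F) x y ≠ 0) : (Fᵀ * F) y y ≠ 0 := by
  rw [mul_apply] at h ⊢
  obtain ⟨i, -, hi⟩ := Finset.exists_ne_zero_of_sum_ne_zero h
  have h1 : F i y ≠ 0 := right_ne_zero_of_mul hi
  intro h0
  have h2 := (Finset.sum_eq_zero_iff.1 h0) i (Finset.mem_univ i)
  rw [transpose_apply] at h2
  exact h1 (mul_self_eq_zero.1 h2)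

omit [DecidableEq W] in
theorem core1_ne (A B : Matrix W W ℕ) {x y z : W} (h1 : A x y ≠ 0) (h2 : B y z ≠ 0) :
    (A * B) x z ≠ 0 := by
  rw [mul_apply]
  intro h0
  have h3 := (Finset.sum_eq_zero_iff.1 h0) y (Finset.mem_univ y)
  exact (mul_ne_zero h1 h2) h3

theorem core1_step (F : Matrix I W ℕ) (l : ℕ) {x y : W} (h : ((Fᵀ * F) ^ (l + 1)) x y ≠ 0) :
    ((Fᵀ * F) ^ (l + 1 + 1)) x y ≠ 0 := by
  have h1 : (Fᵀ * F) y y ≠ 0 := by
    rw [pow_succ, mul_apply] at h
    obtain ⟨z, -, hz⟩ := Finset.exists_ne_zero_of_sum_ne_zero h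
    exact core1_diag F (right_ne_zero_of_mul hz)
  rw [pow_succ _ (l + 1)]
  exact core1_ne _ _ h h1

/-- the pattern of the nonzero entries is constant from some power on -/
theorem core1_stab (F : Matrix I W ℕ) : ∃ n : ℕ, ∀ l, n ≤ l → ∀ x y,
    ((Fᵀ * F) ^ (l + 1)) x y ≠ 0 ↔ ((Fᵀ * F) ^ (n + 1)) x y ≠ 0 := by
  let S : ℕ →o Set (W × W) := ⟨fun l => {p | ((Fᵀ * F) ^ (l + 1)) p.1 p.2 ≠ 0},
    monotone_nat_of_le_succ fun l p hp => core1_step F l hp⟩
  obtain ⟨n, hn⟩ := WellFoundedGT.monotone_chain_condition S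
  refine ⟨n, fun l hl x y => ?_⟩
  have h1 := hn l hl
  have h2 : (x, y) ∈ S n ↔ (x, y) ∈ S l := by rw [h1]
  exact h2.symm

/-- the matrix over the integers -/
def core1Z (F : Matrix I W ℕ) : Matrix I W ℤ := F.map (Nat.cast : ℕ → ℤ)

theorem core1_cast (F : Matrix I W ℕ) (m : ℕ) :
    (((Fᵀ * F) ^ m).map (Nat.cast : ℕ → ℤ)) = ((core1Z F)ᵀ * core1Z F) ^ m := by
  have h1 : (Fᵀ * F).map (Nat.cast : ℕ → ℤ) = (core1Z F)ᵀ * core1Z F := by
    ext x y
    simp [core1Z, mul_apply]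
  have h2 := map_pow (Nat.castRingHom ℤ).mapMatrix (Fᵀ * F) m
  rw [RingHom.mapMatrix_apply, RingHom.mapMatrix_apply] at h2
  change ((Fᵀ * F) ^ m).map (Nat.cast : ℕ → ℤ) = ((Fᵀ * F).map (Nat.cast : ℕ → ℤ)) ^ m at h2
  rw [h2, h1]

/-- the kernels of `Fᵀ * F` and of its powers -/
theorem core1_ker (A : Matrix I W ℤ) (v : W → ℤ) :
    ∀ m : ℕ, ((Aᵀ * A) ^ (m + 1)) *ᵥ v = 0 → A *ᵥ v = 0 := by
  have hs : ∀ n, ((Aᵀ * A) ^ n)ᵀ = (Aᵀ * A) ^ n := by
    intro n
    rw [transpose_pow, transpose_mul, transpose_transpose]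
  intro m
  induction m with
  | zero =>
    intro h
    rw [zero_add, pow_one] at h
    have h1 : (A *ᵥ v) ⬝ᵥ (A *ᵥ v) = 0 := by
      rw [dotProduct_mulVec, ← mulVec_transpose, mulVec_mulVec, h, zero_dotProduct]
    exact dotProduct_self_eq_zero.1 h1
  | succ m ih =>
    intro h
    refine ih ?_
    have h1 : (((Aᵀ * A) ^ (m + 1)) *ᵥ v) ⬝ᵥ (((Aᵀ * A) ^ (m + 1)) *ᵥ v) = 0 := by
      rw [dotProduct_mulVec, ← mulVec_transpose, hs, mulVec_mulVec, ← pow_add,
        show m + 1 + (m + 1) = m + (m + 1 + 1) by ring, pow_add, ← mulVec_mulVec, h, mulVec_zero,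
        zero_dotProduct]
    exact dotProduct_self_eq_zero.1 h1

end

/-- Core1. -/
theorem thm_Core1 : St_Core1 := by
  intro I W _ _ _ F hF
  obtain ⟨n, hn⟩ := core1_stab F
  refine ⟨(n + 1) + (n + 1), by omega, ?_⟩
  set N : Matrix W W ℕ := (Fᵀ * F) ^ (n + 1) with hN
  have hNs : ∀ x y, N x y = N y x := fun x y => core1_symm F (n + 1) x y
  have hM : ∀ x y, ((Fᵀ * F) ^ ((n + 1) + (n + 1))) x y = ∑ z, N z x * N z y := by
    intro x y
    rw [pow_add, mul_apply]
    exact Finset.sum_congr rfl fun z _ => by rw [← hN, hNs x z]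
  have hpat : ∀ l, n ≤ l → ∀ x y, ((Fᵀ * F) ^ (l + 1)) x y ≠ 0 ↔ N x y ≠ 0 := hn
  have hprop : ∀ x y, (((Fᵀ * F) ^ ((n + 1) + (n + 1))) x y) ^ 2 =
      ((Fᵀ * F) ^ ((n + 1) + (n + 1))) x x * ((Fᵀ * F) ^ ((n + 1) + (n + 1))) y y →
      ∀ z, N z y * ((Fᵀ * F) ^ ((n + 1) + (n + 1))) x x =
        N z x * ((Fᵀ * F) ^ ((n + 1) + (n + 1))) x y := by
    intro x y h z
    set a := ((Fᵀ * F) ^ ((n + 1) + (n + 1))) x x with ha
    set b := ((Fᵀ * F) ^ ((n + 1) + (n + 1))) x y with hb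
    set c := ((Fᵀ * F) ^ ((n + 1) + (n + 1))) y y with hc
    have ha' : (a : ℤ) = ∑ z, (N z x : ℤ) * N z x := by rw [ha, hM]; push_cast; rfl
    have hb' : (b : ℤ) = ∑ z, (N z x : ℤ) * N z y := by rw [hb, hM]; push_cast; rfl
    have hc' : (c : ℤ) = ∑ z, (N z y : ℤ) * N z y := by rw [hc, hM]; push_cast; rfl
    have h1 : ∑ z, ((N z y : ℤ) * a - N z x * b) ^ 2 = 0 := by
      have h2 : ∑ z, ((N z y : ℤ) * a - N z x * b) ^ 2 =
          (∑ z, (N z y : ℤ) * N z y) * a ^ 2 - 2 * (∑ z, (N z x : ℤ) * N z y) * a * b +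
            (∑ z, (N z x : ℤ) * N z x) * b ^ 2 := by
        rw [Finset.sum_mul, Finset.mul_sum, Finset.sum_mul, Finset.sum_mul, Finset.sum_mul,
          ← Finset.sum_sub_distrib, ← Finset.sum_add_distrib]
        exact Finset.sum_congr rfl fun z _ => by ring
      rw [h2, ← ha', ← hb', ← hc']
      have h3 : (b : ℤ) ^ 2 = a * c := by exact_mod_cast h
      rw [show (c : ℤ) * a ^ 2 - 2 * b * a * b + a * b ^ 2 = a * (a * c - b ^ 2) by ring, h3,
        sub_self, mul_zero]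
    have h4 := (Finset.sum_eq_zero_iff_of_nonneg fun z _ => sq_nonneg _).1 h1 z (Finset.mem_univ z)
    have h5 : (N z y : ℤ) * a = N z x * b := by
      have := pow_eq_zero_iff (two_ne_zero) |>.1 h4
      linarith
    exact_mod_cast h5
  refine ⟨fun x y => core1_symm F _ x y, fun x y z h1 h2 => ?_, fun x y => ?_,
    fun x y _ h s => ?_, ?_⟩
  · have h3 := core1_ne _ _ h1 h2
    rw [← pow_add, show (n + 1) + (n + 1) + ((n + 1) + (n + 1)) = (4 * n + 3) + 1 by ring,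
      hpat _ (by omega)] at h3
    rw [show (n + 1) + (n + 1) = (2 * n + 1) + 1 by ring, hpat _ (by omega)]
    exact h3
  · rw [hM, hM, hM]
    have h1 := Finset.sum_mul_sq_le_sq_mul_sq Finset.univ (fun z => N z x) (fun z => N z y)
    simpa only [sq] using h1
  · have h1 := hprop x y h
    rw [hM s y, hM s x, Finset.sum_mul, Finset.sum_mul]
    refine Finset.sum_congr rfl fun z _ => ?_
    rw [mul_assoc, h1 z, mul_assoc]
  · by_contra hcon
    push Not at hcon
    obtain ⟨s, s', w, w', h1, h2, h3, h4⟩ := hF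
    have hK : (Fᵀ * F) w w' ≠ 0 := by
      rw [mul_apply]
      intro h0
      have h5 := (Finset.sum_eq_zero_iff.1 h0) s (Finset.mem_univ s)
      exact (mul_ne_zero h1 h3) h5
    have hmono : ∀ l : ℕ, ((Fᵀ * F) ^ (l + 1)) w w' ≠ 0 := by
      intro l
      induction l with
      | zero => rwa [zero_add, pow_one]
      | succ l ih => exact core1_step F l ih
    have hK' : ((Fᵀ * F) ^ ((n + 1) + (n + 1))) w w' ≠ 0 := by
      rw [show (n + 1) + (n + 1) = (2 * n + 1) + 1 by ring]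
      exact hmono _
    have hww : ((Fᵀ * F) ^ ((n + 1) + (n + 1))) w w ≠ 0 := by
      have h5 := core1_ne _ _ hK' (show ((Fᵀ * F) ^ ((n + 1) + (n + 1))) w' w ≠ 0 by
        rw [core1_symm]; exact hK')
      rw [← pow_add, show (n + 1) + (n + 1) + ((n + 1) + (n + 1)) = (4 * n + 3) + 1 by ring,
        hpat _ (by omega)] at h5
      rw [show (n + 1) + (n + 1) = (2 * n + 1) + 1 by ring, hpat _ (by omega)]
      exact h5
    set a := ((Fᵀ * F) ^ ((n + 1) + (n + 1))) w w with ha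
    set b := ((Fᵀ * F) ^ ((n + 1) + (n + 1))) w w' with hb
    have h6 : ∀ t, ((Fᵀ * F) ^ ((n + 1) + (n + 1))) t w' * a =
        ((Fᵀ * F) ^ ((n + 1) + (n + 1))) t w * b := fun t => hcon w w' t hK'
    have h7 : (((core1Z F)ᵀ * core1Z F) ^ ((2 * n + 1) + 1)) *ᵥ
        ((a : ℤ) • Pi.single w' (1 : ℤ) - (b : ℤ) • Pi.single w (1 : ℤ)) = 0 := by
      rw [← core1_cast]
      funext t
      rw [mulVec_sub, mulVec_smul, mulVec_smul, mulVec_single_one, mulVec_single_one]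
      simp only [Pi.sub_apply, Pi.smul_apply, smul_eq_mul, Pi.zero_apply, col_apply, map_apply]
      have h8 := h6 t
      rw [show (n + 1) + (n + 1) = (2 * n + 1) + 1 by ring] at h8
      have h9 : (((Fᵀ * F) ^ ((2 * n + 1) + 1)) t w' : ℤ) * a =
        ((Fᵀ * F) ^ ((2 * n + 1) + 1)) t w * b := by exact_mod_cast h8
      linarith
    have h8 := core1_ker (core1Z F) _ _ h7
    rw [mulVec_sub, mulVec_smul, mulVec_smul, mulVec_single_one, mulVec_single_one] at h8
    have h9 : ∀ t, F t w' * a = F t w * b := by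
      intro t
      have h10 := congrFun h8 t
      simp only [Pi.sub_apply, Pi.smul_apply, smul_eq_mul, Pi.zero_apply, col_apply, map_apply,
        core1Z] at h10
      have h11 : (F t w' : ℤ) * a = F t w * b := by linarith
      exact_mod_cast h11
    have h10 := h9 s
    have h11 := h9 s'
    refine h4 (Nat.eq_of_mul_eq_mul_right (Nat.pos_of_ne_zero hww) ?_)
    calc F s w * F s' w' * a = F s w * (F s' w' * a) := by ring
      _ = F s w * (F s' w * b) := by rw [h11]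
      _ = F s' w * (F s w * b) := by ring
      _ = F s' w * (F s w' * a) := by rw [h10]
      _ = F s w' * F s' w * a := by ring

end Pool.Agent.SYH
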