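import Mathlib

/-!
# Structures, counting functions, gadgets and the twisted networks
-/

set_option autoImplicit false

namespace Pool.Agent.SYH

/-- A structure on the set `V`, with the relation symbols `σ` of arities `ar`. -/
abbrev Str {σ : Type} (ar : σ → ℕ) (V : Type) : Type := (R : σ) → (Fin (ar R) → V) → Prop

section
variable {σ : Type} {ar : σ → ℕ} {D : Type}

/-- `a` is a homomorphism from `I` to `Γ`: a solution of the instance `I`. -/
def IsHom {V : Type} (Γ : Str ar D) (I : Str ar V) (a : V → D) : Prop :=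
  ∀ R u, I R u → Γ R (a ∘ u)

/-- The number of homomorphisms from `I` to `Γ`. -/
noncomputable def homs {V : Type} (Γ : Str ar D) (I : Str ar V) : ℕ :=
  Nat.card {a : V → D // IsHom Γ I a}

/-- The number of homomorphisms from `X` to `Γ` that extend `φ`. -/
noncomputable def exts {A Y : Type} (Γ : Str ar D) (X : Str ar (A ⊕ Y)) (φ : A → D) : ℕ :=
  Nat.card {b : Y → D // IsHom Γ X (Sum.elim φ b)}

/-- The matrix with the entries `F (s, w)` consists of disjoint blocks of rank one. -/
def BlockRankOne {A B : Type} (F : (A ⊕ B → D) → ℕ) : Prop :=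
  ∀ (s s' : A → D) (w w' : B → D), F (Sum.elim s w) ≠ 0 → F (Sum.elim s' w) ≠ 0 →
    F (Sum.elim s w') ≠ 0 →
    F (Sum.elim s w) * F (Sum.elim s' w') = F (Sum.elim s w') * F (Sum.elim s' w)

/-- All matrices that count homomorphisms to `Γ` consist of disjoint blocks of rank one. -/
def Balanced (Γ : Str ar D) : Prop :=
  ∀ (A B Y : Type) [Finite A] [Finite B] [Finite Y] (X : Str ar ((A ⊕ B) ⊕ Y)),
    BlockRankOne (exts Γ X)

/-- Some majority operation preserves all relations of `Γ`. -/
def HasMajority (Γ : Str ar D) : Prop :=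
  ∃ m : D → D → D → D, (∀ x y, m x x y = x ∧ m x y x = x ∧ m y x x = x) ∧
    ∀ R u v w, Γ R u → Γ R v → Γ R w → Γ R fun i => m (u i) (v i) (w i)

/-- `F` is the counting function of a finite structure with the labelled elements `A`. -/
def Rz (Γ : Str ar D) {A : Type} (F : (A → D) → ℕ) : Prop :=
  ∃ (Y : Type) (_ : Finite Y) (X : Str ar (A ⊕ Y)), ∀ φ, F φ = exts Γ X φ

end

section base
variable {n d : ℕ} (π : Fin d → Equiv.Perm (Fin n))

/-- The vertices of the base graph: `(false, i)` on the left, `(true, i)` on the right. -/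
abbrev Vx (n : ℕ) : Type := Bool × Fin n

/-- The `j`-th edge at the vertex `C` of the base graph; the edge `(i, j)` joins `(false, i)` to
`(true, π j i)`. -/
def edgeAt (C : Vx n) (j : Fin d) : Fin n × Fin d := (if C.1 then (π j).symm C.2 else C.2, j)

/-- The vertices `C`, `C'` are the ends of a common edge. -/
def Adj (C C' : Vx n) : Prop := ∃ j, edgeAt π C j = edgeAt π C' j

/-- The base graph is connected. -/
def Conn : Prop := ∀ C C' : Vx n, Relation.ReflTransGen (Adj π) C C'

/-- The copies of the gadget at a vertex. -/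
abbrev Slot (d p : ℕ) : Type := {S : Fin d → ZMod p // ∑ j, S j = 0}

/-- Charges: one element of `ZMod p` for each pair of a vertex and an edge at the vertex. -/
abbrev Chg (n d p : ℕ) : Type := Vx n → Fin d → ZMod p

/-- The total charge, with signs. -/
def total {p : ℕ} (h : Chg n d p) : ZMod p := ∑ C : Vx n, (if C.1 then -1 else 1) * ∑ j, h C j

/-- The partition function of the network with the function `F C` at the vertex `C`, twisted by
`h`. Every edge `e` carries the variables `s e α`, where `α : ZMod p`, with values in `X`. -/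
noncomputable def ZZ {p : ℕ} [NeZero p] {X : Type} [Fintype X]
    (F : Vx n → (Fin d → X) → ℕ) (h : Chg n d p) : ℕ :=
  ∑ s : Fin n × Fin d → ZMod p → X,
    ∏ C : Vx n, ∏ S : Slot d p, F C fun j => s (edgeAt π C j) (S.1 j + h C j)

end base

/-- Networks of counting functions of `Γ`, with the elements of `D` as constants, feel the
charge. -/
def Feels {σ : Type} {ar : σ → ℕ} {D : Type} [Fintype D] (Γ : Str ar D) (d : ℕ) : Prop :=
  ∃ (p : ℕ) (_ : Fact p.Prime) (T : Type) (_ : Fintype T) (_ : DecidableEq T) (r : ℕ)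
    (Fam : Fin r → (D → D) → (Fin d → T → D) → ℕ),
    (∀ i, Rz Γ fun ψ : D ⊕ Fin d × T → D =>
      Fam i (fun x => ψ (Sum.inl x)) fun j t => ψ (Sum.inr (j, t))) ∧
    ∀ (n : ℕ) (π : Fin d → Equiv.Perm (Fin n)), Conn π → ∃ c : Vx n → Fin r,
      ∀ h : Chg n d p, total h ≠ 0 →
        ZZ π (fun C => Fam (c C) id) h ≠ ZZ π (fun C => Fam (c C) id) (0 : Chg n d p)

end Pool.Agent.SYH
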