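import Pool.Agent.SYH.StC

/-!
# The easy side: assembly
-/

set_option autoImplicit false

namespace Pool.Agent.SYH

theorem thm_EasyF (h1 : St_Det) (h2 : St_Ckt) (h3 : St_Size) : St_Easy := by
  intro σ D ar _ _ Γ hB hM
  classical
  haveI : Fintype D := Fintype.ofFinite D
  obtain ⟨K, hK⟩ := h3 σ ar (Fintype.card D)
  have : Countable (Port ar × Val D) := inferInstance
  obtain ⟨enc, henc⟩ := exists_injective_nat (Multiset (Port ar × Val D))
  refine ⟨K, fun n => ?_⟩
  obtain ⟨hf, hc⟩ := hK n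
  haveI : Fintype (Gt ar n (n ^ 2 * Fintype.card D ^ 2) (2 * n)) := Fintype.ofFinite _
  obtain ⟨C, hC1, hC2⟩ := h2 σ D ar Γ enc henc n (n ^ 2 * Fintype.card D ^ 2) (2 * n)
  refine ⟨Gt ar n (n ^ 2 * Fintype.card D ^ 2) (2 * n), Port ar, Val D, inferInstance, C, ?_,
    hC1, ?_⟩
  · choose v hv1 hv2 using hC2
    have key : ∀ I I' : Str ar (Fin n), v I C.out = v I' C.out → homs Γ I = homs Γ I' := by
      intro I I' h
      obtain ⟨e1, e2⟩ := hv2 I I' (v I') (hv1 I') h
      rcases Nat.eq_zero_or_pos n with hn | hn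
      · rw [e1 hn]
      · exact h1 σ D ar Γ enc henc hB hM n _ _ I I' hn le_rfl le_rfl e2
    refine ⟨fun t => if h : ∃ I, v I C.out = t then homs Γ h.choose else 0, fun I =>
      ⟨v I, hv1 I, ?_⟩⟩
    have h : ∃ I', v I' C.out = v I C.out := ⟨I, rfl⟩
    dsimp only
    rw [dif_pos h]
    exact key _ _ h.choose_spec
  · rw [Nat.card_eq_fintype_card] at hc
    exact hc

end Pool.Agent.SYH
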