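import Pool.Agent.SYH.StC

/-!
# Balanced templates without a majority operation feel the charge
-/

set_option autoImplicit false

namespace Pool.Agent.SYH

theorem thm_FeelsM (h1 : St_Restr) (h2 : St_Cnt) : St_FeelsM := by
  intro σ D ar _ Γ hB hM
  obtain ⟨T, _, _, E, hE, hT⟩ := h1 σ D ar Γ hB hM
  obtain ⟨p, hp, h⟩ := h2 (T → D) (E id) hT
  exact ⟨p, hp, T, inferInstance, inferInstance, 1, fun _ => E, fun _ => hE,
    fun n π hπ => ⟨fun _ => 0, fun g hg => (h n π hπ g hg).ne⟩⟩

end Pool.Agent.SYH
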