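import Pool.Agent.SYH.StH
import Pool.Agent.SYH.Hard

/-!
# The hard side, with approximate values (helper28)
-/

set_option autoImplicit false

namespace Pool.Agent.SYH

open Equiv Equiv.Perm

theorem HardP_homs_le {σ D V : Type} {ar : σ → ℕ} [Fintype D] [Fintype V] (Γ : Str ar D)
    (I : Str ar V) : homs Γ I ≤ Fintype.card D ^ Fintype.card V := by
  classical
  unfold homs
  have h1 : Nat.card {a : V → D // IsHom Γ I a} ≤ Nat.card (V → D) :=
    Nat.card_le_card_of_injective _ Subtype.val_injective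
  rwa [Nat.card_fun, Nat.card_eq_fintype_card (α := D), Nat.card_eq_fintype_card (α := V)] at h1

theorem HardP_exp {σ D V : Type} {ar : σ → ℕ} [Fintype D] [Nonempty D] [Fintype V] {ι U : Type}
    [Fintype ι] [Fintype U] (hCop : St_Copies) (hAA : St_ArA) (Γ : Str ar D)
    (I I' : ι → Str ar V) (A B : ℕ) (x : ℝ) (hBA : B < A) (hι : 1 ≤ Fintype.card ι)
    (hI : ∀ i, homs Γ (I i) = A) (hI' : ∀ i, homs Γ (I' i) = B)
    (hx : (B : ℝ) * x ≤ (Fintype.card ι : ℝ) / 2) :
    0 < homs Γ (copies (U := U) I) ∧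
      Real.exp x * (homs Γ (copies (U := U) I') : ℝ) ≤ (homs Γ (copies (U := U) I) : ℝ) := by
  have h1 : homs Γ (copies (U := U) I) =
      Fintype.card D ^ Fintype.card U * A ^ Fintype.card ι := by
    rw [hCop σ D ι V U ar Γ I]
    simp only [hI, Finset.prod_const, Finset.card_univ]
  have h2 : homs Γ (copies (U := U) I') =
      Fintype.card D ^ Fintype.card U * B ^ Fintype.card ι := by
    rw [hCop σ D ι V U ar Γ I']
    simp only [hI', Finset.prod_const, Finset.card_univ]
  refine ⟨?_, ?_⟩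
  · rw [h1]
    exact Nat.mul_pos (pow_pos Fintype.card_pos _) (pow_pos (by omega) _)
  · rw [h1, h2]
    push_cast
    have h3 := hAA A B (Fintype.card ι) x hBA hι hx
    calc Real.exp x * ((Fintype.card D : ℝ) ^ Fintype.card U * (B : ℝ) ^ Fintype.card ι) =
        (Fintype.card D : ℝ) ^ Fintype.card U * (Real.exp x * (B : ℝ) ^ Fintype.card ι) := by ring
      _ ≤ _ := mul_le_mul_of_nonneg_left h3 (by positivity)

/-- flipping the copies one after the other -/
theorem HardP_hyb {Q X M T G : Type} [Fintype M] [DecidableEq M] (run : (M → Q) → (G → T) → Prop)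
    (hrun : ∀ h, ∃ v, run h v) (huniq : ∀ h v v', run h v → run h v' → v = v') (o : G)
    (q₀ : Q) (pl : M → X) (fl : X → Q → Q)
    (hfl : ∀ (i : M) (h : M → Q) (v v' : G → T), run h v →
      run (Function.update h i (fl (pl i) (h i))) v' → v o = v' o)
    (v v' : G → T) (hv : run (fun _ => q₀) v) (hv' : run (fun i => fl (pl i) q₀) v') :
    v o = v' o := by
  classical
  have key : ∀ A : Finset M, ∀ w w' : G → T, run (fun _ => q₀) w →
      run (fun i => if i ∈ A then fl (pl i) q₀ else q₀) w' → w o = w' o := by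
    intro A
    induction A using Finset.induction_on with
    | empty =>
      intro w w' hw hw'
      simp only [Finset.notMem_empty, if_false] at hw'
      rw [huniq _ w w' hw hw']
    | insert i A hi ih =>
      intro w w' hw hw'
      obtain ⟨w₁, hw₁⟩ := hrun fun i => if i ∈ A then fl (pl i) q₀ else q₀
      rw [ih w w₁ hw hw₁]
      refine hfl i _ w₁ w' hw₁ ?_
      have h1 : Function.update (fun i => if i ∈ A then fl (pl i) q₀ else q₀) i
          (fl (pl i) ((fun i => if i ∈ A then fl (pl i) q₀ else q₀) i)) =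
          fun i' => if i' ∈ insert i A then fl (pl i') q₀ else q₀ := by
        funext i'
        by_cases h : i' = i
        · subst h
          rw [Function.update_self]
          simp [hi]
        · rw [Function.update_of_ne h]
          simp [h]
      rw [h1]
      exact hw'
  refine key Finset.univ v v' hv ?_
  simpa using hv'

theorem thm_HardP (hA : St_GAct) (hSim : St_GSimple) (hAt : St_GAtom) (hMv : St_GMove)
    (hB : St_Base) (hBl : St_BlindC) (hNV : St_NetVal) (hRun : St_Run) (hTwE : St_TwExt)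
    (hCop : St_Copies) (hTC : St_TupC) (hTF : St_TupF) (hPull : St_Pull) (hGap : St_Gap)
    (hAA : St_ArA) (hAB : St_ArB) : St_HardP := by
  classical
  intro σ D ar _ _ _ Γ hfeel
  obtain ⟨p, hp, T, _, _, r₁, Fam, hFam, hFeel⟩ := hfeel
  choose Yi hYi Xi hXi using hFam
  let hYF : ∀ i, Fintype (Yi i) := fun i => @Fintype.ofFinite (Yi i) (hYi i)
  obtain ⟨r, m₀, hr, hbase⟩ := hB
  set y : ℕ := ∑ i, Fintype.card (Yi i) with hydef
  have hy : ∀ i, Fintype.card (Yi i) ≤ y := fun i =>
    Finset.single_le_sum (f := fun i => Fintype.card (Yi i)) (fun _ _ => Nat.zero_le _)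
      (Finset.mem_univ i)
  set y₂ : ℕ := ∑ i, tuples (Xi i) with hy₂def
  have hy₂ : ∀ i, tuples (Xi i) ≤ y₂ := fun i =>
    Finset.single_le_sum (f := fun i => tuples (Xi i)) (fun _ _ => Nat.zero_le _)
      (Finset.mem_univ i)
  set κ₁ : ℕ := 3 * p * Fintype.card T + 2 * (p ^ 3 * y) with hκ₁
  set a : ℕ := m₀ + 8 * r with ha
  set κ : ℕ := Fintype.card D + 3 * (κ₁ * a) + 1 with hκ
  have hκpos : 1 ≤ κ := by omega
  obtain ⟨K₀, hK₀⟩ := hAB (Fintype.card D) κ hκpos
  set K : ℕ := K₀ + 256 + κ + 4 * a * p ^ 3 * y₂ with hK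
  refine ⟨K, by omega, ?_⟩
  intro N k hk hKk G P V _ C hsmall
  -- the base graph
  have hm0 : m₀ ≤ a * k := by
    calc m₀ ≤ a := by omega
      _ ≤ a * k := Nat.le_mul_of_pos_right _ (by omega)
  obtain ⟨n, π, β, hn1, hn2, hconn, hβ1, hβ2, hβ3, hβ4⟩ := hbase (a * k) hm0
  obtain ⟨c, hc⟩ := hFeel n π hconn
  let Y : Vx n → Type := fun C => Yi (c C)
  let hYf : ∀ C, Fintype (Y C) := fun C => hYF (c C)
  let iE : Fintype (El n p T Y) := inferInstance
  let X : (C : Vx n) → Str ar ((D ⊕ Fin 3 × T) ⊕ Y C) := fun C => Xi (c C)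
  set E : ℕ := Nat.card (El n p T Y) with hE
  have hE1 : E ≤ κ₁ * n := Hard_card Y y fun C => hy (c C)
  let iE2 : Fintype (El n p T Y ⊕ (El n p T Y ⊕ Fin 0)) := inferInstance
  let iF : Fintype (Full n p T D Y 0) := instFintypeSum _ _
  let iDF : DecidableEq (Full n p T D Y 0) := Classical.decEq _
  have hcardF : Fintype.card (Full n p T D Y 0) = Fintype.card D + 3 * E := by
    have h1 : Fintype.card (El n p T Y) = E := by rw [hE, Nat.card_eq_fintype_card]
    have h2 : Fintype.card (Full n p T D Y 0) = Fintype.card (D ⊕ El n p T Y) +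
        Fintype.card (El n p T Y ⊕ (El n p T Y ⊕ Fin 0)) :=
      Fintype.card_sum (α := D ⊕ El n p T Y) (β := El n p T Y ⊕ (El n p T Y ⊕ Fin 0))
    have h3 : Fintype.card (D ⊕ El n p T Y) = Fintype.card D + Fintype.card (El n p T Y) :=
      Fintype.card_sum (α := D) (β := El n p T Y)
    have h4 : Fintype.card (El n p T Y ⊕ (El n p T Y ⊕ Fin 0)) =
        Fintype.card (El n p T Y) + Fintype.card (El n p T Y ⊕ Fin 0) :=
      Fintype.card_sum (α := El n p T Y) (β := El n p T Y ⊕ Fin 0)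
    have h5 : Fintype.card (El n p T Y ⊕ Fin 0) = Fintype.card (El n p T Y) + 0 := by
      rw [Fintype.card_sum (α := El n p T Y) (β := Fin 0), Fintype.card_fin]
    rw [h2, h3, h4, h5, h1]
    omega
  have hFk : Fintype.card (Full n p T D Y 0) ≤ κ * k := by
    rw [hcardF]
    have h1 : E ≤ κ₁ * (a * k) := hE1.trans (Nat.mul_le_mul_left _ hn1)
    have h2 : Fintype.card D ≤ Fintype.card D * k := Nat.le_mul_of_pos_right _ (by omega)
    have h3 : κ * k = Fintype.card D * k + 3 * (κ₁ * (a * k)) + k := by rw [hκ]; ring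
    omega
  -- the copies
  have hKk0 : (K₀ + 256 + κ + 4 * a * p ^ 3 * y₂) * k ≤ N := hKk
  set M : ℕ := N / (κ * k) with hM
  have hMF : M * Fintype.card (Full n p T D Y 0) ≤ N := by
    calc M * Fintype.card (Full n p T D Y 0) ≤ M * (κ * k) := Nat.mul_le_mul_left _ hFk
      _ ≤ N := Nat.div_mul_le_self N (κ * k)
  set t : ℕ := N - M * Fintype.card (Full n p T D Y 0) with ht
  have hcardV : Fintype.card ((Fin M × Full n p T D Y 0) ⊕ Fin t) = N := by
    rw [Fintype.card_sum, Fintype.card_prod, Fintype.card_fin, Fintype.card_fin]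
    omega
  have h256 : 256 * k ≤ N := by
    refine le_trans ?_ hKk0
    exact Nat.mul_le_mul_right _ (by omega)
  have hq : 2 * r * (2 * k) ≤ n := by
    have h1 : 8 * r * k ≤ a * k := Nat.mul_le_mul_right _ (by omega)
    have h2 : 8 * r * k = 2 * (2 * r * (2 * k)) := by ring
    omega
  obtain ⟨W, hW1, hW2, hW3⟩ := exists_twist (ar := ar) hA hSim hAt hMv n p 0 Y π X β hβ1 hβ2 hβ3
    r (2 * k) hβ4 hq
  -- transport of the circuit
  have e : Fin N ≃ (Fin M × Full n p T D Y 0) ⊕ Fin t := (Fintype.equivFinOfCardEq hcardV).symm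
  obtain ⟨hPh, hPt, hPc⟩ := hPull σ D (Fin N) ((Fin M × Full n p T D Y 0) ⊕ Fin t) G P V ar e
  obtain ⟨C', hout, hsym, hCrun⟩ := hPc C
  have hcs : Nat.card {ρ : Perm (Fin N) // IsSymm C ρ} =
      Nat.card {ρ : Perm ((Fin M × Full n p T D Y 0) ⊕ Fin t) // IsSymm C' ρ} := by
    refine Nat.card_congr (Equiv.subtypeEquiv (Equiv.permCongr e) fun ρ => ?_)
    have h1 : (Equiv.permCongr e) ρ = (e.symm.trans ρ).trans e := rfl
    rw [h1, hsym]
  have hflip : ∀ i₀ : Fin M, ∃ e₀ : Vx n × Fin 3,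
      ∀ (h : Fin M → Chg n 3 p × Chg n 3 p) (v v' : G → V),
      C'.IsRun (holds (copies (U := Fin t) fun i => full π X 0 (h i))) v →
      C'.IsRun (holds (copies (U := Fin t) fun i => full π X 0
        (Function.update h i₀ (gsh e₀ (h i₀).1, (h i₀).2) i))) v' → v C'.out = v' C'.out := by
    intro i₀
    obtain ⟨W', hW'1, hW'2, hW'3⟩ := hTwE σ (Full n p T D Y 0) _ _ _ _ (Fin M) (Fin t) ar W i₀
    obtain ⟨e₀, he₀⟩ := hBl σ ((Fin M × Full n p T D Y 0) ⊕ Fin t) _ _ _ _ G P V ar W' C' k hk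
      (by rw [hcardV]; exact h256) (by rw [hW'3, hW3]) (by rw [hcardV, ← hcs]; exact hsmall)
    refine ⟨e₀, fun h v v' hv hv' => he₀ h v v' ?_ ?_⟩
    · rw [hW'1, hW1]
      exact hv
    · rw [hW'1, hW'2, hW1, hW2]
      exact hv'
  choose pl hpl using hflip
  -- the values
  have hval : ∀ h : Chg n 3 p, exts Γ (net π X h) id = ZZ π (fun C => Fam (c C) id) h := by
    intro h
    rw [hNV σ T D ar n p Y π Γ X h id]
    congr 1
    funext C a
    exact (hXi (c C) (Sum.elim id fun jt => a jt.1 jt.2)).symm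
  obtain ⟨c₂, A₀, A₁, hne, hA0, hA1⟩ := hGap σ T D ar n p Y π Γ X hconn fun h hh => by
    rw [hval, hval]
    exact hc h hh
  -- the outputs agree
  have hRunEx : ∀ h : Fin M → Chg n 3 p × Chg n 3 p, ∃ v,
      C'.IsRun (holds (copies (U := Fin t) fun i => full π X 0 (h i))) v := fun h =>
    (hRun _ G P V C' _).exists
  have hout' : ∀ v v' : G → V,
      C'.IsRun (holds (copies (U := Fin t) fun _ : Fin M => full π X 0 ((0 : Chg n 3 p), c₂))) v →
      C'.IsRun (holds (copies (U := Fin t) fun i : Fin M =>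
        full π X 0 (gsh (pl i) (0 : Chg n 3 p), c₂))) v' → v C'.out = v' C'.out := by
    intro v v' hv hv'
    exact HardP_hyb (fun h : Fin M → Chg n 3 p × Chg n 3 p =>
        C'.IsRun (holds (copies (U := Fin t) fun i => full π X 0 (h i)))) hRunEx
      (fun h v v' hv hv' => (hRun _ G P V C' _).unique hv hv') C'.out
      ((0 : Chg n 3 p), c₂) pl (fun e q => (gsh e q.1, q.2)) hpl v v' hv hv'
  -- tuples
  have htup : ∀ h : Fin M → Chg n 3 p × Chg n 3 p,
      tuples (copies (U := Fin t) fun i => full π X 0 (h i)) ≤ K * N := by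
    intro h
    refine (hTC σ (Fin M) (Full n p T D Y 0) (Fin t) ar _).trans ?_
    have h1 : ∑ i : Fin M, tuples (full π X 0 (h i)) ≤ ∑ _i : Fin M, 4 * n * p ^ 3 * y₂ :=
      Finset.sum_le_sum fun i _ => hTF σ T D ar n p 0 y₂ Y π X (h i) fun C => hy₂ (c C)
    refine h1.trans ?_
    rw [Finset.sum_const, Finset.card_univ, Fintype.card_fin, smul_eq_mul]
    have h2 : M * (κ * k) ≤ N := Nat.div_mul_le_self N (κ * k)
    have h3 : M * k ≤ N := by
      calc M * k ≤ M * (κ * k) := Nat.mul_le_mul_left _ (Nat.le_mul_of_pos_left _ (by omega))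
        _ ≤ N := h2
    calc M * (4 * n * p ^ 3 * y₂) ≤ M * (4 * (a * k) * p ^ 3 * y₂) := by gcongr
      _ = 4 * a * p ^ 3 * y₂ * (M * k) := by ring
      _ ≤ 4 * a * p ^ 3 * y₂ * N := Nat.mul_le_mul_left _ h3
      _ ≤ K * N := Nat.mul_le_mul_right _ (by omega)
  -- the final step
  have hfin : ∀ (h h' : Fin M → Chg n 3 p × Chg n 3 p) (A B : ℕ), B < A →
      (∀ i, homs Γ (full π X 0 (h i)) = A) → (∀ i, homs Γ (full π X 0 (h' i)) = B) →
      (∀ v v', C'.IsRun (holds (copies (U := Fin t) fun i => full π X 0 (h i))) v →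
        C'.IsRun (holds (copies (U := Fin t) fun i => full π X 0 (h' i))) v' →
        v C'.out = v' C'.out) →
      ∃ (I I' : Str ar (Fin N)) (v v' : G → V), C.IsRun (holds I) v ∧ C.IsRun (holds I') v' ∧
        v C.out = v' C.out ∧ tuples I ≤ K * N ∧ tuples I' ≤ K * N ∧ 0 < homs Γ I ∧
        Real.exp ((N : ℝ) / 2 ^ (K * k)) * (homs Γ I' : ℝ) ≤ (homs Γ I : ℝ) := by
    intro h h' A B hBA hhA hhB hvv
    have hB1 : B ≤ Fintype.card D ^ (κ * k) ∨ M = 0 := by
      rcases Nat.eq_zero_or_pos M with hM0 | hM0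
      · exact Or.inr hM0
      · left
        rw [← hhB ⟨0, hM0⟩]
        exact (HardP_homs_le Γ _).trans (Nat.pow_le_pow_right Fintype.card_pos hFk)
    have hM1 : 1 ≤ M := (hK₀ K (by omega) N k 0 hk hKk (Nat.zero_le _)).1
    have hB2 : B ≤ Fintype.card D ^ (κ * k) := by
      rcases hB1 with h1 | h1
      · exact h1
      · omega
    have hx := (hK₀ K (by omega) N k B hk hKk hB2).2
    have hfinal := HardP_exp (U := Fin t) hCop hAA Γ (fun i => full π X 0 (h i))
      (fun i => full π X 0 (h' i)) A B ((N : ℝ) / 2 ^ (K * k)) hBA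
      (by rw [Fintype.card_fin]; exact hM1) hhA hhB (by rw [Fintype.card_fin]; exact hx)
    obtain ⟨v, hv⟩ := (hRun _ G P V C
      (holds (pull e (copies (U := Fin t) fun i => full π X 0 (h i))))).exists
    obtain ⟨v', hv'⟩ := (hRun _ G P V C
      (holds (pull e (copies (U := Fin t) fun i => full π X 0 (h' i))))).exists
    refine ⟨pull e (copies (U := Fin t) fun i => full π X 0 (h i)),
      pull e (copies (U := Fin t) fun i => full π X 0 (h' i)), v, v', hv, hv', ?_, ?_, ?_, ?_, ?_⟩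
    · rw [← hout]
      exact hvv v v' (hCrun _ v hv) (hCrun _ v' hv')
    · rw [hPt]
      exact htup h
    · rw [hPt]
      exact htup h'
    · rw [hPh]
      exact hfinal.1
    · rw [hPh, hPh]
      exact hfinal.2
  rcases Nat.lt_or_gt_of_ne hne with hlt | hlt
  · exact hfin (fun i => (gsh (pl i) (0 : Chg n 3 p), c₂)) (fun _ => ((0 : Chg n 3 p), c₂))
      A₁ A₀ hlt (fun i => hA1 (pl i)) (fun _ => hA0) fun v v' hv hv' => (hout' v' v hv' hv).symm
  · exact hfin (fun _ => ((0 : Chg n 3 p), c₂)) (fun i => (gsh (pl i) (0 : Chg n 3 p), c₂))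
      A₀ A₁ hlt (fun _ => hA0) (fun i => hA1 (pl i)) hout'

end Pool.Agent.SYH
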