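import Pool.Agent.SYH.StA

/-!
# The twisting system of a network
-/

set_option autoImplicit false

namespace Pool.Agent.SYH

open Equiv Equiv.Perm

variable {n p : ℕ}

theorem Tw_edge (π : Fin 3 → Perm (Fin n)) (C : Vx n) (j : Fin 3) :
    C = (false, (edgeAt π C j).1) ∨ C = (true, π (edgeAt π C j).2 (edgeAt π C j).1) := by
  rcases C with ⟨b, i⟩
  cases b
  · left
    simp [edgeAt]
  · right
    simp [edgeAt]

theorem Tw_card (π : Fin 3 → Perm (Fin n)) (M : Finset ((Fin n × Fin 3) ⊕ Vx n)) :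
    (gblk π M).card ≤ 2 * M.card := by
  classical
  have h1 : gblk π M ⊆ M.biUnion fun b =>
      Sum.elim (fun e => ({(false, e.1), (true, π e.2 e.1)} : Finset (Vx n))) (fun C => {C}) b := by
    intro C hC
    rw [gblk, Finset.mem_filter] at hC
    rw [Finset.mem_biUnion]
    rcases hC.2 with h | ⟨j, h⟩
    · exact ⟨_, h, by simp⟩
    · refine ⟨_, h, ?_⟩
      rcases Tw_edge π C j with h2 | h2
      · rw [Sum.elim_inl, Finset.mem_insert]
        exact Or.inl h2
      · rw [Sum.elim_inl, Finset.mem_insert, Finset.mem_singleton]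
        exact Or.inr h2
  refine (Finset.card_le_card h1).trans ?_
  rw [mul_comm]
  refine Finset.card_biUnion_le_card_mul _ _ _ fun b _ => ?_
  rcases b with e | C
  · exact Finset.card_le_two
  · simp

theorem Tw_mono (π : Fin 3 → Perm (Fin n)) {M M' : Finset ((Fin n × Fin 3) ⊕ Vx n)}
    (h : M ⊆ M') : gblk π M ⊆ gblk π M' := by
  intro C hC
  rw [gblk, Finset.mem_filter] at hC ⊢
  exact ⟨hC.1, hC.2.imp (fun h1 => h h1) fun ⟨j, h1⟩ => ⟨j, h h1⟩⟩

theorem exists_twist (hA : St_GAct) (hSim : St_GSimple) (hAt : St_GAtom) (hMv : St_GMove)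
    {σ T D : Type} {ar : σ → ℕ} (n p t : ℕ) [Fact p.Prime] (Y : Vx n → Type)
    [Fintype (Full n p T D Y t)] [DecidableEq (Full n p T D Y t)] (π : Fin 3 → Perm (Fin n))
    (X : (C : Vx n) → Str ar ((D ⊕ Fin 3 × T) ⊕ Y C)) (β : Finset (Vx n) → Finset (Vx n))
    (hβ1 : ∀ M, ∀ C ∈ β M, C ∉ M)
    (hβ2 : ∀ M, ∀ C ∈ β M, ∀ C' ∈ β M,
      Relation.ReflTransGen (fun x y => Adj π x y ∧ x ∉ M ∧ y ∉ M) C C')
    (hβ3 : ∀ M M', M ⊆ M' → β M' ⊆ β M) (r q : ℕ)
    (hβ4 : ∀ M, r * M.card ≤ n → (β M).Nonempty) (hq : 2 * r * q ≤ n) :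
    ∃ W : Twist ar (Full n p T D Y t) ((Fin n × Fin 3) ⊕ Vx n) (Chg n 3 p × Chg n 3 p)
        (Vx n × Fin 3) (GG n p),
      W.inp = full π X t ∧ (W.sh = fun e h => (gsh e h.1, h.2)) ∧ W.q = q := by
  have hne : ∀ M : Finset ((Fin n × Fin 3) ⊕ Vx n), M.card ≤ q →
      (β (gblk π M)).Nonempty := by
    intro M hM
    refine hβ4 _ ?_
    calc r * (gblk π M).card ≤ r * (2 * M.card) := Nat.mul_le_mul_left _ (Tw_card π M)
      _ ≤ r * (2 * q) := Nat.mul_le_mul_left _ (Nat.mul_le_mul_left _ hM)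
      _ = 2 * r * q := by ring
      _ ≤ n := hq
  let W : Twist ar (Full n p T D Y t) ((Fin n × Fin 3) ⊕ Vx n) (Chg n 3 p × Chg n 3 p)
        (Vx n × Fin 3) (GG n p) :=
    { a := fun γ => gFull γ
      comm := (hSim T D n p t Y).1
      even := (hSim T D n p t Y).2.1
      loc := Sum.elim (Sum.elim (fun _ => none) fun z => some (gloc z))
        (Sum.elim (fun z => some (gloc z)) fun _ => none)
      supp := gsupp
      loc_supp := by
        rintro γ ((d | z) | z | z) hx
        · exact absurd rfl hx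
        · refine ⟨gloc z, (hSim T D n p t Y).2.2 γ z ?_, rfl⟩
          intro h
          apply hx
          change Sum.inl (Sum.inr (gEl γ z)) = _
          rw [h]
        · refine ⟨gloc z, (hSim T D n p t Y).2.2 γ z ?_, rfl⟩
          intro h
          apply hx
          change Sum.inr (Sum.inl (gEl γ z)) = _
          rw [h]
        · exact absurd rfl hx
      inp := full π X t
      sm := fun γ h => (gsm π γ h.1, h.2)
      inp_sm := fun γ h R u => hA σ T D ar n p t Y π X γ h R u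
      sh := fun e h => (gsh e h.1, h.2)
      Big := fun M => {e | e.1 ∈ β (gblk π M)}
      q := q
      mono := fun M M' h e he => hβ3 _ _ (Tw_mono π h) he
      nonempty := by
        intro M hM
        obtain ⟨C, hC⟩ := hne M hM
        exact ⟨(C, 0), hC⟩
      move := by
        intro M M' hMM hM' e he
        obtain ⟨C', hC'⟩ := hne M' hM'
        have h1 : C' ∈ β (gblk π M) := hβ3 _ _ (Tw_mono π hMM) hC'
        obtain ⟨γ, hγ, h2⟩ := hMv n p π M e (C', 0) (hβ1 _ _ he) (hβ2 _ _ he _ h1)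
        exact ⟨(C', 0), hC', γ, hγ, fun h => by rw [h2]⟩
      atom := by
        intro M e he R u h hu
        exact hAt σ T D ar n p t Y π X M e (hβ1 _ _ he) R u h hu }
  exact ⟨W, rfl, rfl, rfl⟩

end Pool.Agent.SYH
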